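import Mathlib
import Pool.Agent.Lib.MP_aa9ae4_nt.Defs
import Pool.Agent.Lib.MP_aa9ae4_nt.Twist

/-!
Definitions for the fourth moment (k = 2) of MP_aa9ae4_nt.
-/

namespace Pool.Agent.Lib.MP_aa9ae4_nt.K2

open Finset MeasureTheory Filter Topology
open Complex (I)

/-- the number of divisors -/
noncomputable def dv (n : ℕ) : ℝ := (n.divisors.card : ℝ)

/-- `PP N s = ∑_{1 ≤ n ≤ N} d(n) n^{-s}` -/
noncomputable def PP (N : ℕ) (s : ℂ) : ℂ := ∑ n ∈ Icc 1 N, (dv n : ℂ) * (n : ℂ) ^ (-s)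

/-- the factor of the functional equation, `ζ(1-s) = XX(s) ζ(s)` -/
noncomputable def XX (s : ℂ) : ℂ :=
  2 * (2 * Real.pi : ℂ) ^ (-s) * Complex.Gamma s * Complex.cos (Real.pi * s / 2)

/-- `YY s = s XX(s)`, analytic for `Re s > -1` -/
noncomputable def YY (s : ℂ) : ℂ :=
  2 * (2 * Real.pi : ℂ) ^ (-s) * Complex.Gamma (s + 1) * Complex.cos (Real.pi * s / 2)

/-- the symmetric approximation of `ζ(s)^2` -/
noncomputable def RR (N : ℕ) (s : ℂ) : ℂ := PP N s + XX (1 - s) ^ 2 * PP N (1 - s)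

/-- the function used in the approximate functional equation -/
noncomputable def FF (T : ℝ) (s : ℂ) : ℂ :=
  (riemannZeta₁ s ^ 2 - (s - 1) ^ 2 * PP ⌊T⌋₊ s - YY (1 - s) ^ 2 * PP ⌊T⌋₊ (1 - s)) /
    (T : ℂ) ^ 2 * Complex.exp ((s / (T : ℂ)) ^ 2)

/-- the twisted mean square of `PP N` -/
noncomputable def JJ (T : ℝ) (N : ℕ) (θ : ℝ) : ℂ :=
  ∫ t in T..(2 * T), ((‖PP N (1 / 2 + t * I)‖ ^ 2 : ℝ) : ℂ) * (θ : ℂ) ^ (t * I)

/-- indicator of the integers coprime to `Q` -/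
noncomputable def hq (Q : ℕ) (n : ℕ) : ℝ := if Nat.Coprime n Q then 1 else 0

/-- Dirichlet convolution -/
noncomputable def cv (h f : ℕ → ℝ) (n : ℕ) : ℝ := ∑ a ∈ n.divisors, h a * f (n / a)

/-- the fourfold convolution of the indicator of the integers coprime to `Q` -/
noncomputable def f4 (Q : ℕ) : ℕ → ℝ := cv (hq Q) (cv (hq Q) (cv (hq Q) (hq Q)))

end Pool.Agent.Lib.MP_aa9ae4_nt.K2
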