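import Mathlib
import Pool.Agent.Lib.MP_aa9ae4_nt.K2.Defs
import Pool.Agent.Lib.MP_aa9ae4_nt.MeanValue
import Pool.Agent.Lib.MP_aa9ae4_nt.ZetaApprox

/-!
MP_aa9ae4_nt, k = 2. Part A: the functional equation, an approximate functional equation for
`ζ(s)^2` in the quadratic mean, and the comparison of `|ζ|^4` with `2 |PP N|^2`.

Every `S_X : Prop` is to be proved as `theorem pX : S_X` in `K2/PX.lean`, the statements used are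
hypotheses. The docstrings contain the complete proofs. `s = σ + i t` and `L(x) = 1 + log x`.
-/

namespace Pool.Agent.Lib.MP_aa9ae4_nt.K2

open Finset MeasureTheory Filter Topology
open Complex (I)

/-- **Functional equation.** (a) for `Im s ≠ 0`: `ζ(1-s) = XX s ζ(s)`; (b) `XX s * XX (1-s) = 1` if
`sin(π s) ≠ 0`; (c) `XX (conj s) = conj (XX s)`; (d) `YY s = s XX s` for `s ≠ 0`; (e) for
`Re s ≤ 1/2`, `s ≠ 0`: `ζ₁(s) = -YY(1-s) ζ(1-s)`, where `ζ₁(s) = (s-1)ζ(s)` is `riemannZeta₁`.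

Proof. (a) is `riemannZeta_one_sub` (`s ≠ -n` and `s ≠ 1` because the imaginary part is not zero).
(b) `XX s * XX(1-s) = 4 (2π)^(-1) Γ(s)Γ(1-s) cos(πs/2) cos(π(1-s)/2)`, `cos(π/2 - πs/2) = sin(πs/2)`,
`sin(πs/2)cos(πs/2) = sin(πs)/2` (`Complex.sin_two_mul`) and `Γ(s)Γ(1-s) = π/sin(πs)`
(`Complex.Gamma_mul_Gamma_one_sub`): `4/(2π) * π/sin(πs) * sin(πs)/2 = 1`. The powers:
`(2π)^(-s) (2π)^(-(1-s)) = (2π)^(-1)` (`Complex.cpow_add`, `2π ≠ 0`).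
(c) `Complex.Gamma_conj`, `Complex.cos_conj`, `Complex.cpow_conj` (or write
`(2π)^(-s) = exp(-s log(2π))` with the real logarithm and use `Complex.exp_conj`).
(d) `Complex.Gamma_add_one`. (e) `riemannZeta_eq_inv_sub_mul : s ≠ 1 → ζ(s) = (s-1)⁻¹ ζ₁(s)`, so
`ζ₁(s) = (s-1) ζ(s)`; `riemannZeta_one_sub` at `1-s` (it is not `-n` since its real part is at
least 1/2, and not 1 as `s ≠ 0`) gives `ζ(s) = XX(1-s) ζ(1-s)`; `(s-1) XX(1-s) = -YY(1-s)` by (d).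
About 90 lines. -/
def S_Fun : Prop :=
  (∀ s : ℂ, s.im ≠ 0 → riemannZeta (1 - s) = XX s * riemannZeta s) ∧
  (∀ s : ℂ, Complex.sin (Real.pi * s) ≠ 0 → XX s * XX (1 - s) = 1) ∧
  (∀ s : ℂ, XX (starRingEnd ℂ s) = starRingEnd ℂ (XX s)) ∧
  (∀ s : ℂ, s ≠ 0 → YY s = s * XX s) ∧
  (∀ s : ℂ, s.re ≤ 1 / 2 → s ≠ 0 →
    riemannZeta₁ s = -(YY (1 - s)) * riemannZeta (1 - s))

/-- **Exact absolute values on three lines** (all real `t`, including `t = 0`).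

Uses `S_Fun`. Proof. If `Re s` is `1/2 + integer` then `sin(π s) ≠ 0`: `sin(π/2 + πk + iπt)` is
`± cosh(π t)`, so (b) and (d) of `S_Fun` can be used. First line: `s = 1/2+it`: `1-s = conj s`, so
`1 = XX s * XX (conj s) = XX s * conj(XX s) = ‖XX s‖^2`. Second line: for `s = 1/2+it`
`XX(s+1) = 2(2π)^(-s-1) Γ(s+1) cos(πs/2+π/2) = -(s/(2π)) * 2 (2π)^(-s) Γ(s) sin(πs/2)` and
`‖sin(πs/2)‖ = ‖cos(πs/2)‖` for `Re s = 1/2`: with `y = πt/2`,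
`sin(π/4+iy) = (√2/2)(cosh y + i sinh y)`, `cos(π/4+iy) = (√2/2)(cosh y - i sinh y)`, which are
complex conjugate. Hence `‖XX(s+1)‖ = ‖s‖/(2π) * ‖XX s‖ = √(1/4+t^2)/(2π)`. Third line:
`s = -1/2+it`, `1-s = 3/2-it`: `‖XX s‖ = 1/‖XX(3/2-it)‖`. About 110 lines. -/
def S_Nrm : Prop :=
  (∀ t : ℝ, ‖XX (1 / 2 + t * I)‖ = 1) ∧
  (∀ t : ℝ, ‖XX (3 / 2 + t * I)‖ = √(1 / 4 + t ^ 2) / (2 * Real.pi)) ∧
  (∀ t : ℝ, ‖XX (-(1 / 2) + t * I)‖ = 2 * Real.pi / √(1 / 4 + t ^ 2))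

/-- **`YY` is analytic for `Re s > -1` and of moderate growth.**

Proof. Differentiability: `Complex.differentiableAt_Gamma` at `s+1` (`s + 1 ≠ -m` since its real
part is positive), `cpow` with constant nonzero base, `cos`. Growth: for `-1/2 ≤ Re s ≤ 3/2`
`‖(2π)^(-s)‖ = (2π)^(-Re s) ≤ (2π)^(1/2) ≤ 3`; `‖cos z‖ ≤ exp|Im z|` with `z = πs/2` gives at most
`exp(π|Im s|/2) ≤ exp(2|Im s|)`; `‖Γ(w)‖ ≤ Γ(Re w)` for `Re w > 0` (`Complex.Gamma_eq_integral`,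
norm of the integral at most the integral of the norm, `Real.Gamma_eq_integral`), and `Γ` is
continuous, hence bounded, on `[1/2, 5/2]`. About 90 lines. -/
def S_Yd : Prop :=
  (∀ s : ℂ, -1 < s.re → DifferentiableAt ℂ YY s) ∧
  ∃ C : ℝ, 0 < C ∧ ∀ s : ℂ, -(1 / 2) ≤ s.re → s.re ≤ 3 / 2 →
    ‖YY s‖ ≤ C * Real.exp (2 * |s.im|)

/-- **Growth of `ζ₁(s) = (s-1)ζ(s)` in the strip.**

Uses `S_Fun`, `S_Yd`. Proof. Case 1, `Re s ≥ 1/2`, `s ≠ 1`: `zeta_approx` with `N = 1`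
(`zsum s 1 = 1`): `‖ζ(s) - 1 - 1/(s-1)‖ ≤ ‖s‖/Re s ≤ 2‖s‖`, multiply by `s-1`:
`‖ζ₁(s)‖ ≤ ‖s-1‖(1+2‖s‖) + 1`, a polynomial in `|Im s|`, which is at most `C exp|Im s|`.
For `s = 1`: `riemannZeta₁_one`. Case 2, `Re s < 1/2` and `|Im s| ≥ 1`: (e) of `S_Fun`:
`‖ζ₁(s)‖ = ‖YY(1-s)‖ ‖ζ(1-s)‖`, and `‖ζ(1-s)‖ = ‖ζ₁(1-s)‖/‖s‖ ≤ ‖ζ₁(1-s)‖` as `‖s‖ ≥ |Im s| ≥ 1`;
`1-s` is in the strip (`Re(1-s)` is in `[1/2, 3/2]`): case 1 for `1-s` and `S_Yd`: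
`C exp(2|Im s|) * C exp|Im s|`. Case 3, `Re s < 1/2`, `|Im s| ≤ 1`: `ζ₁` is continuous
(`differentiable_riemannZeta₁`), hence bounded on the compact rectangle. About 90 lines. -/
def S_Zd : Prop :=
  ∃ C : ℝ, 0 < C ∧ ∀ s : ℂ, -(1 / 2) ≤ s.re → s.re ≤ 3 / 2 →
    ‖riemannZeta₁ s‖ ≤ C * Real.exp (3 * |s.im|)

/-- **Three lines in the quadratic mean.**

Proof. Put `g(w) = F(w) * conj(F(conj(1-w)))`. The function `w ↦ conj(F(conj(1-w)))` is continuous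
on the closed strip `S = {-1/2 ≤ Re ≤ 3/2}` and differentiable inside (the map `w ↦ 1-w` preserves
the strip; for `w ↦ conj(f(conj w))` see `DifferentiableAt.conj_conj` or prove it from the
difference quotient), so `g` is too, and `‖g(w)‖ ≤ K^2 exp(-2|Im w|)`. On `Re w = 1/2`:
`conj(1-w) = w`, so `g(1/2+iy) = ‖F(1/2+iy)‖^2`. On `Re w = 3/2`: `conj(1-w) = -1/2+iy`, so
`g(3/2+iy) = F(3/2+iy) conj(F(-1/2+iy))`. Cauchy for the rectangle with corners `1/2 - iR'`,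
`3/2 + iR'` (`Complex.integral_boundary_rect_eq_zero_of_continuousOn_of_differentiableOn`):
`∫_{-R'}^{R'} ‖F(1/2+iy)‖^2 dy = ∫_{-R'}^{R'} g(3/2+iy) dy + horizontal`, where the two horizontal
integrals are together at most `2 K^2 exp(-2R')`. By `ab ≤ (A a^2 + b^2/A)/2` the integral over
`Re = 3/2` has norm at most `(A B₁ + B₂/A)/2`. For `R' ≥ R` the left hand side is at least
`∫_{-R}^{R}`; let `R' → ∞`. (`B₁, B₂ ≥ 0` follow from the hypotheses.) About 130 lines. -/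
def S_TL : Prop :=
  ∀ (F : ℂ → ℂ) (K A B₁ B₂ : ℝ), 0 < A →
    ContinuousOn F {s : ℂ | -(1 / 2) ≤ s.re ∧ s.re ≤ 3 / 2} →
    DifferentiableOn ℂ F {s : ℂ | -(1 / 2) < s.re ∧ s.re < 3 / 2} →
    (∀ s : ℂ, -(1 / 2) ≤ s.re → s.re ≤ 3 / 2 → ‖F s‖ ≤ K * Real.exp (-|s.im|)) →
    (∀ R : ℝ, 0 < R → ∫ t in (-R)..R, ‖F (-(1 / 2) + t * I)‖ ^ 2 ≤ B₁) →
    (∀ R : ℝ, 0 < R → ∫ t in (-R)..R, ‖F (3 / 2 + t * I)‖ ^ 2 ≤ B₂) →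
    ∀ R : ℝ, 0 < R → ∫ t in (-R)..R, ‖F (1 / 2 + t * I)‖ ^ 2 ≤ A * B₁ + B₂ / A

/-- **Summation over blocks of length `T`.**

Proof. Let `v(x) = (1+x^2)^4 exp(-2x^2)`. There is `C₀` with `v(x) ≤ C₀ exp(-|x|)` for all real `x`
(`(1+x^2)^4 exp(-2x^2+|x|)` is bounded: e.g. `(1+x^2)^4 ≤ 24 exp(1+x^2)` from the exponential series
and `1 + x^2 - 2x^2 + |x| ≤ 1 + 1/4`; so `C₀ = 24 exp(5/4)`). Take an integer `m ≥ R/T`. Then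
`[-R,R] ⊆ [-mT, mT]`, the integrand is nonnegative, and `[-mT,mT]` is the union of the blocks
`[kT,(k+1)T]` and `[-(k+1)T,-kT]`, `0 ≤ k < m`. On both blocks `|t/T| ≥ k`, hence the weight is at
most `C₀ exp(-k)` and each block contributes at most `C₀ exp(-k) B`. Sum:
`2 C₀ B/(1 - exp(-1))`. (`B ≥ 0` follows.) About 90 lines. -/
def S_BL : Prop :=
  ∃ C : ℝ, 0 < C ∧ ∀ (T B : ℝ) (h : ℝ → ℝ), 1 ≤ T → Continuous h → (∀ t, 0 ≤ h t) →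
    (∀ c : ℝ, ∫ t in c..(c + T), h t ≤ B) →
    ∀ R : ℝ, 0 < R → ∫ t in (-R)..R,
      h t * ((1 + (t / T) ^ 2) ^ 4 * Real.exp (-(2 * (t / T) ^ 2))) ≤ C * B

/-- **Power moments of the divisor function.**

Proof. By induction on `k`, both statements for all `x`. `k = 0`: the number of terms, and
`∑ 1/n ≤ 1 + log x` (`rough_harmonic_le` in Rough.lean, `twist_sum_inv_le` in Twist.lean). Step: each
`n ≤ x` and divisor `a` of `n` give `n = a b`, `d(ab) ≤ d(a) d(b)` (`rough_card_divisors_mul_le`) and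
`d(n)^(k+1) = ∑_{a | n} d(n)^k ≤ ∑_{a | n} d(a)^k d(n/a)^k`. So
`∑_{n ≤ x} d(n)^(k+1) ≤ ∑_{a ≤ x} d(a)^k ∑_{b ≤ x/a} d(b)^k ≤ ∑_{a ≤ x} d(a)^k (x/a) L(x)^(2^k-1)`
(the induction hypothesis for the natural number `⌊x/a⌋ ≥ 1`, `L` is monotone), which is at most
`x L(x)^(2^k-1) L(x)^(2^k) = x L(x)^(2^(k+1)-1)`. Similarly
`∑_{n ≤ x} d(n)^(k+1)/n ≤ (∑_{a ≤ x} d(a)^k/a)^2 ≤ L(x)^(2^(k+1))`. The bijection between pairs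
(n, divisor a) and pairs (a, b) with `a b ≤ x` is e.g. the method of `rough_sum_divisors_le` in
Rough.lean (there with `b ≤ x`; here `b ≤ x/a` is needed for the first sum). About 120 lines. -/
def S_Aks : Prop :=
  ∀ k x : ℕ, 1 ≤ x →
    ∑ n ∈ Icc 1 x, dv n ^ k ≤ x * (1 + Real.log x) ^ (2 ^ k - 1) ∧
    ∑ n ∈ Icc 1 x, dv n ^ k / n ≤ (1 + Real.log x) ^ (2 ^ k)

/-- **Consequences of the moments by partial summation.**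

Uses `S_Aks`. Proof. Let `A(n) = ∑_{j ≤ n} d(j)^k ≤ n L(N)^(2^k-1)` for `n ≤ N` (`k = 1, 2`).
(a) `∑_{n ≤ N} d(n)^2/√n = ∑_{n<N} A(n)(1/√n - 1/√(n+1)) + A(N)/√N`, and
`n(1/√n - 1/√(n+1)) ≤ 1/(2√n)` hence `≤ √n - √(n-1)`; the sum is at most
`L(N)^3 (√N + √N)`. (b) the same with `k = 1`. (c) `∑_{M<n≤N} d(n)^2/n =
∑_{M<n<N} (A(n)-A(M)) (1/n - 1/(n+1)) + (A(N)-A(M))/N ≤ L(N)^3 (∑_{M<n<N} 1/(n+1) + 1)` and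
`∑_{M<n<N} 1/(n+1) ≤ log(N/M)` since `1/(n+1) ≤ log(n+1) - log n`. (d) for `M < n ≤ 2M` each term is at
most `d(n)^2/M^3`, and `A(2M) ≤ 2M L(2M)^3`. (Induction on `N` may be simpler than partial
summation: e.g. for (c) prove by induction on the upper limit with the term `(A(N)-A(M))/N` kept on
the left hand side.) About 120 lines. -/
def S_Abs : Prop :=
  (∀ N : ℕ, 1 ≤ N → ∑ n ∈ Icc 1 N, dv n ^ 2 / √(n : ℝ) ≤ 2 * √(N : ℝ) * (1 + Real.log N) ^ 3) ∧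
  (∀ N : ℕ, 1 ≤ N → ∑ n ∈ Icc 1 N, dv n / √(n : ℝ) ≤ 2 * √(N : ℝ) * (1 + Real.log N)) ∧
  (∀ M N : ℕ, 1 ≤ M → M ≤ N → ∑ n ∈ Ioc M N, dv n ^ 2 / n ≤
    (1 + Real.log N) ^ 3 * (1 + Real.log ((N : ℝ) / M))) ∧
  (∀ M : ℕ, 1 ≤ M → ∑ n ∈ Ioc M (2 * M), dv n ^ 2 / (n : ℝ) ^ 3 ≤
    2 * (1 + Real.log ((2 * M : ℕ) : ℝ)) ^ 3 / (M : ℝ) ^ 2)

/-- **`ζ(s)^2` is the Dirichlet series of the divisor function.**

Proof. `ζ * ζ = σ 0` as arithmetic functions; the L-series of `ArithmeticFunction.zeta` is the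
Riemann zeta function for `Re s > 1` (`ArithmeticFunction.LSeries_zeta_eq_riemannZeta`), the
L-series of a product is the product of the L-series (`ArithmeticFunction.LSeries_mul'`), the terms are
summable. A `HasSum` over `ℕ` gives the limit of the partial sums over `range (M+1)` (term 0 is 0).
Boundedness: `‖PP M s‖ ≤ ∑ d(n) n^(-Re s)`, a convergent series that depends only on `Re s`
(take the absolute values of the summable series at the real point `Re s`). About 70 lines. -/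
def S_Zsq : Prop :=
  (∀ s : ℂ, 1 < s.re → Tendsto (fun M : ℕ => PP M s) atTop (𝓝 (riemannZeta s ^ 2))) ∧
  (∀ σ : ℝ, 1 < σ → ∃ B : ℝ, ∀ (M : ℕ) (s : ℂ), s.re = σ → ‖PP M s‖ ≤ B)

/-- **Mean values of `PP`.**

Uses `S_Aks`, `S_Abs`. Proof. All from `mean_value` (MeanValue.lean) and
`PP N (σ+it) = ∑ n ∈ Icc 1 N, (d(n) n^(-σ)) * n^(-it)` (`Complex.cpow_add`, `n ≠ 0`), where the
coefficient has norm `d(n) n^(-σ)`. (a) `σ = -1/2`: `∑ d(n)^2 n ≤ N * N L(N)^3` by `S_Aks` with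
`k = 2`, times `C(T+N) ≤ 2CT`. (b) `σ = 1/2`, coefficients 0 for `n ≤ M`:
`∑_{M<n≤N} d(n)^2/n` is bounded in (c) of `S_Abs`. (c) `∑ d(n)^2/n ≤ L(N)^4`. About 100 lines. -/
def S_MV : Prop :=
  ∃ C : ℝ, 0 < C ∧
  (∀ (c T : ℝ) (N : ℕ), 1 ≤ T → 1 ≤ N → (N : ℝ) ≤ T →
    ∫ t in c..(c + T), ‖PP N (-(1 / 2) + t * I)‖ ^ 2 ≤
      C * (T * (N : ℝ) ^ 2 * (1 + Real.log N) ^ 3)) ∧
  (∀ (c T : ℝ) (M N : ℕ), 1 ≤ T → 1 ≤ M → M ≤ N → (N : ℝ) ≤ T →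
    ∫ t in c..(c + T), ‖PP N (1 / 2 + t * I) - PP M (1 / 2 + t * I)‖ ^ 2 ≤
      C * (T * (1 + Real.log N) ^ 3 * (1 + Real.log ((N : ℝ) / M)))) ∧
  (∀ (c T : ℝ) (N : ℕ), 1 ≤ T → 1 ≤ N → (N : ℝ) ≤ T →
    ∫ t in c..(c + T), ‖PP N (1 / 2 + t * I)‖ ^ 2 ≤ C * (T * (1 + Real.log N) ^ 4))

/-- **The tail on the line `Re s = 3/2`.**

Uses `S_Abs`, `S_Zsq`. Proof. Let `N = ⌊T⌋₊ ≥ 2`, so `N ≤ T < N+1 ≤ 2N`. Let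
`D_j(t) = PP(2^(j+1) N)(3/2+it) - PP(2^j N)(3/2+it)`, so that
`∑_{j<J} D_j = PP(2^J N) - PP(N)` at `3/2+it`. Cauchy-Schwarz with weights:
`‖∑_{j<J} D_j‖^2 ≤ (∑_j 2^(-j/2)) (∑_j 2^(j/2) ‖D_j‖^2) ≤ 4 ∑_j 2^(j/2) ‖D_j‖^2`. By `mean_value`
(length `2^(j+1) N`, coefficients `d(n) n^(-3/2)` for `2^j N < n ≤ 2^(j+1) N`, otherwise 0) and (d)
of `S_Abs`: `∫ ‖D_j‖^2 ≤ C (T + 2^(j+1) N) * 2 L(2^(j+1) N)^3/(2^j N)^2`, where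
`T + 2^(j+1) N ≤ 2^(j+2) N` and `L(2^(j+1)N) ≤ L(N) (j+2)`: at most
`8 C 2^(-j) L(N)^3 (j+2)^3/N`. So `∫ ‖PP(2^J N) - PP(N)‖^2 ≤ 32 C (L(N)^3/N) ∑_j 2^(-j/2) (j+2)^3`
for every `J`, the series converges (any bound will do), and `1/N ≤ 2/T`. Finally `J → ∞`:
the integrand converges for every `t` by `S_Zsq` and is bounded by a constant, so the integrals
converge (`intervalIntegral.tendsto_integral_filter_of_dominated_convergence`). About 150 lines. -/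
def S_Tail : Prop :=
  ∃ C : ℝ, 0 < C ∧ ∀ T : ℝ, 2 ≤ T → ∀ c : ℝ,
    ∫ t in c..(c + T), ‖riemannZeta (3 / 2 + t * I) ^ 2 - PP ⌊T⌋₊ (3 / 2 + t * I)‖ ^ 2 ≤
      C * ((1 + Real.log T) ^ 3 / T)

/-- **`FF T` on the line `Re s = 3/2`.**

Uses `S_Fun`, `S_Nrm`, `S_BL`, `S_MV`, `S_Tail`. Proof. Let `s = 3/2+it`, `N = ⌊T⌋₊`, `x = t/T`.
`ζ₁(s) = (s-1) ζ(s)`, `‖s-1‖^2 = 1/4+t^2 ≤ T^2 (1+x^2)` (as `T ≥ 2`), so the part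
`(ζ₁^2 - (s-1)^2 PP N s)/T^2` has norm at most `(1+x^2) ‖ζ(s)^2 - PP N s‖`. `1-s = -1/2-it` is not 0:
`‖YY(1-s)‖ = ‖1-s‖ ‖XX(1-s)‖ = √(1/4+t^2) * 2π/√(1/4+t^2) = 2π` (`S_Nrm` at `-t`), so the last part
has norm `4π^2 T^(-2) ‖PP N (-1/2-it)‖`. `‖exp((s/T)^2)‖^2 = exp(2 Re(s^2)/T^2) =
exp(2(9/4-t^2)/T^2) ≤ exp(2) exp(-2x^2)`. Hence `‖FF T s‖^2 ≤ h(t) * exp 2 * (1+x^2)^4 exp(-2x^2)`
with `h(t) = 2‖ζ(s)^2 - PP N s‖^2 + 2 (4π^2)^2 T^(-4) ‖PP N (-1/2-it)‖^2`, which is continuous and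
nonnegative, and whose integral over every block `[c,c+T]` is at most `C L(T)^3/T` by `S_Tail` and
(a) of `S_MV` (substitution `t → -t`; `N ≤ T`, `T^(-4) T N^2 L(N)^3 ≤ L(T)^3/T`). Apply `S_BL` to `h`.
(Continuity of `t ↦ ζ(3/2+it)`: `differentiableAt_riemannZeta`.) About 130 lines. -/
def S_FFr : Prop :=
  ∃ C : ℝ, 0 < C ∧ ∀ T : ℝ, 2 ≤ T → ∀ R : ℝ, 0 < R →
    ∫ t in (-R)..R, ‖FF T (3 / 2 + t * I)‖ ^ 2 ≤ C * ((1 + Real.log T) ^ 3 / T)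

/-- **`FF T` on the line `Re s = -1/2`.**

Uses `S_Fun`, `S_Nrm`, `S_BL`, `S_MV`, `S_Tail`. Proof. Let `s = -1/2+it`, `N = ⌊T⌋₊`, `x = t/T`.
By (e) of `S_Fun` `ζ₁(s)^2 = YY(1-s)^2 ζ(1-s)^2`, so the numerator is
`YY(1-s)^2 (ζ(1-s)^2 - PP N (1-s)) - (s-1)^2 PP N s`, `1-s = 3/2-it`. By (d) of `S_Fun` and `S_Nrm`
`‖YY(3/2-it)‖ = √(9/4+t^2) √(1/4+t^2)/(2π) ≤ 9/4 + t^2 ≤ T^2 (1+x^2) * 1` (`9/4 ≤ T^2`), and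
`‖s-1‖^2 = 9/4+t^2 ≤ T^2(1+x^2)`. `‖exp((s/T)^2)‖^2 = exp(2(1/4-t^2)/T^2) ≤ exp 2 * exp(-2x^2)`. Hence
`‖FF T s‖^2 ≤ exp 2 * exp(-2x^2) * (2 T^4 (1+x^2)^4 ‖ζ(1-s)^2 - PP N (1-s)‖^2 +
2 (1+x^2)^2 ‖PP N s‖^2) ≤ h(t) * exp 2 * (1+x^2)^4 exp(-2x^2)` with
`h(t) = 2T^4 ‖ζ(3/2-it)^2 - PP N (3/2-it)‖^2 + 2 ‖PP N (-1/2+it)‖^2`. Block integrals: at most
`C T^4 L(T)^3/T + C T * T^2 L(T)^3` by `S_Tail` (substitution `t → -t`) and (a) of `S_MV`. Apply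
`S_BL`. About 130 lines. -/
def S_FFl : Prop :=
  ∃ C : ℝ, 0 < C ∧ ∀ T : ℝ, 2 ≤ T → ∀ R : ℝ, 0 < R →
    ∫ t in (-R)..R, ‖FF T (-(1 / 2) + t * I)‖ ^ 2 ≤ C * (T ^ 3 * (1 + Real.log T) ^ 3)

/-- **Regularity and decay of `FF T` in the strip.**

Uses `S_Yd`, `S_Zd`. Proof. `ζ₁` is entire (`differentiable_riemannZeta₁`), `PP N` is entire (finite
sum of `n^(-s)`, `n ≥ 1`), `s ↦ YY(1-s)` is differentiable where `Re(1-s) > -1`, that is `Re s < 2`.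
So `FF T` is differentiable at every point of the closed strip. Decay: in the strip
`‖PP N s‖ ≤ ∑ d(n) n^(1/2) =: P` and also `‖PP N (1-s)‖ ≤ P`, `‖s-1‖ ≤ 2 + |Im s| ≤ 2 exp|Im s|`,
so the numerator is at most `K₁ exp(6|Im s|)` with `K₁ = C^2 + 4P + C^2 P`, and
`‖exp((s/T)^2)‖ = exp(Re(s^2)/T^2) ≤ exp(9/4 - (Im s)^2/T^2)` (as `Re(s^2) = σ^2 - t^2`, `σ^2 ≤ 9/4`,
`T ≥ 1`), and `6|y| - y^2/T^2 ≤ -|y| + 49T^2/4` for real `y`. About 110 lines. -/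
def S_FFg : Prop :=
  ∀ T : ℝ, 2 ≤ T →
    ContinuousOn (FF T) {s : ℂ | -(1 / 2) ≤ s.re ∧ s.re ≤ 3 / 2} ∧
    DifferentiableOn ℂ (FF T) {s : ℂ | -(1 / 2) < s.re ∧ s.re < 3 / 2} ∧
    ∃ K : ℝ, ∀ s : ℂ, -(1 / 2) ≤ s.re → s.re ≤ 3 / 2 → ‖FF T s‖ ≤ K * Real.exp (-|s.im|)

/-- **Approximate functional equation for `ζ(s)^2` in the quadratic mean.**

Uses `S_Fun`, `S_TL`, `S_FFr`, `S_FFl`, `S_FFg`. Proof. `S_TL` for `F = FF T`, `A = T^(-2)`,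
`B₁ = C₁ T^3 L(T)^3`, `B₂ = C₂ L(T)^3/T`, `R = 2T` gives
`∫_{-2T}^{2T} ‖FF T (1/2+it)‖^2 ≤ (C₁+C₂) T L(T)^3`. For `s = 1/2+it`, `T ≤ t ≤ 2T`:
`ζ₁(s) = (s-1)ζ(s)`, `YY(1-s) = (1-s) XX(1-s)`, so
`FF T s = ((s-1)/T)^2 (ζ(s)^2 - RR N s) exp((s/T)^2)` with `‖(s-1)/T‖^2 = (1/4+t^2)/T^2 ≥ 1` and
`‖exp((s/T)^2)‖ = exp((1/4-t^2)/T^2) ≥ exp(-4)`. Hence
`‖ζ(s)^2 - RR N s‖^2 ≤ exp 8 * ‖FF T s‖^2`; integrate over `[T,2T] ⊆ [-2T,2T]`. About 90 lines. -/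
def S_AFE : Prop :=
  ∃ C : ℝ, 0 < C ∧ ∀ T : ℝ, 2 ≤ T →
    ∫ t in T..(2 * T), ‖riemannZeta (1 / 2 + t * I) ^ 2 - RR ⌊T⌋₊ (1 / 2 + t * I)‖ ^ 2 ≤
      C * (T * (1 + Real.log T) ^ 3)

/-- **Upper bound for `XX` in the strip `-1/2 ≤ Re s ≤ 1/2`.**

Uses `S_Fun`, `S_Nrm`, `S_Yd`. Proof. Fix `t₀ ≥ 1` and put
`G(s) = YY(s) t₀^(1/2-s) exp((s-it₀)^2)/t₀`, differentiable in `Re s > -1`, and bounded in the strip by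
`S_Yd` and the Gauss factor: `Re (s-it₀)^2 = σ^2 - (t-t₀)^2`. On `Re s = 1/2`:
`‖YY(s)‖ = ‖s‖ ≤ 1/2+|t| ≤ 1/2 + t₀ + |t-t₀|`, so `‖G‖ ≤ exp(1/4) (3/2 t₀ + |t-t₀|)
exp(-(t-t₀)^2)/t₀ ≤ C`. On `Re s = -1/2`: `‖YY(s)‖ = √(1/4+t^2) * 2π/√(1/4+t^2) = 2π`,
`‖t₀^(1/2-s)‖ = t₀`, so `‖G‖ ≤ 2π exp(1/4)`. Hadamard's three lines theorem
(`Complex.HadamardThreeLines.norm_le_interp_of_mem_verticalClosedStrip'` with `l = -1/2`,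
`u = 1/2`, equal bounds `a = b = C`): `‖G‖ ≤ C` in the strip. At `s = σ+it₀`:
`‖YY s‖ t₀^(1/2-σ) exp(σ^2)/t₀ ≤ C`, so `‖XX s‖ = ‖YY s‖/‖s‖ ≤ C t₀^(σ-1/2)` (`‖s‖ ≥ t₀`).
About 120 lines. -/
def S_XB : Prop :=
  ∃ C : ℝ, 0 < C ∧ ∀ (σ t : ℝ), -(1 / 2) ≤ σ → σ ≤ 1 / 2 → 1 ≤ t →
    ‖XX (σ + t * I)‖ ≤ C * t ^ (σ - 1 / 2)

/-- **The cross term.**

Uses `S_Nrm`, `S_Abs`, `S_MV`, `S_XB`. Proof. `g(s) = PP N s ^2 XX s ^2 θ^(s-1/2)` is differentiable at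
every `s` with `Im s > 0` (`Complex.differentiableAt_Gamma`: `s` is not a nonpositive integer).
Cauchy for the rectangle with corners `-1/2+iT` and `1/2+2iT`: the integral over `Re s = 1/2` (there
`θ^(s-1/2) = θ^(it)`) is the integral over `Re s = -1/2` plus the two horizontal ones. Left side:
`‖θ^(s-1/2)‖ = θ^(-1)`, `‖XX(-1/2+it)‖^2 = 4π^2/(1/4+t^2) ≤ 4π^2/T^2`,
`∫_T^{2T} ‖PP N(-1/2+it)‖^2 ≤ C T N^2 L(N)^3` by (a) of `S_MV`: together at most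
`4π^2 C θ^(-1) N^2 L(N)^3/T ≤ 4π^2 C θ^(-1) N L(N)^3`. Horizontal sides, `s = σ+iτ`,
`τ ∈ {T,2T}`, `-1/2 ≤ σ ≤ 1/2`: `‖θ^(s-1/2)‖ = θ^(σ-1/2) ≤ max 1 θ⁻¹` (as `-1 ≤ σ-1/2 ≤ 0`),
`‖XX s‖^2 ≤ C τ^(2σ-1)`, `‖PP N s‖ ≤ ∑ d(n) n^(-σ) ≤ N^(1/2-σ) ∑ d(n)/√n ≤ 2 N^(1-σ) L(N)` by (b) of
`S_Abs`; so `‖g‖ ≤ 4C max(1,θ⁻¹) N (N/τ)^(1-2σ) L(N)^2 ≤ 4C max(1,θ⁻¹) N L(N)^2` since `N ≤ T ≤ τ`.
Length of the sides: 1. About 160 lines. -/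
def S_CR : Prop :=
  ∃ C : ℝ, 0 < C ∧ ∀ (T θ : ℝ) (N : ℕ), 2 ≤ T → 0 < θ → 1 ≤ N → (N : ℝ) ≤ T →
    ‖∫ t in T..(2 * T), PP N (1 / 2 + t * I) ^ 2 * XX (1 / 2 + t * I) ^ 2 *
      (θ : ℂ) ^ (t * I)‖ ≤ C * (max 1 θ⁻¹ * (N * (1 + Real.log N) ^ 3))

/-- **Comparison of `|ζ|^4` with `|RR N|^2`.**

Uses `S_Nrm`, `S_MV`, `S_AFE`. Proof. Let `N' = ⌊T⌋₊`, `s = 1/2+it`; `N ≤ N'`, `N' ≤ T`. `RR N' s -
RR N s = (PP N' s - PP N s) + XX(1-s)^2 (PP N' (1-s) - PP N (1-s))`, `‖XX(1-s)‖ = 1`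
(`1-s = 1/2+i(-t)`), `PP n (1-s) = conj(PP n s)`. So `‖RR N' s - RR N s‖ ≤ 2‖PP N' s - PP N s‖`.
With `E = ζ(s)^2 - RR N s`: `‖E‖^2 ≤ 2‖ζ^2 - RR N' s‖^2 + 8 ‖PP N' s - PP N s‖^2` and so
`∫_T^{2T} ‖E‖^2 ≤ C T L(T)^3 (1+log(T/N)) =: e^2` by `S_AFE` and (b) of `S_MV` (`c = T`, `N'/N ≤ T/N`).
`‖RR N s‖ ≤ 2‖PP N s‖`, so `∫ ‖RR‖^2 ≤ C T L(T)^4 =: r^2` by (c) of `S_MV`. Pointwise
`|‖ζ‖^4 - ‖RR‖^2| = |‖ζ^2‖ - ‖RR‖| (‖ζ^2‖ + ‖RR‖) ≤ ‖E‖ (2‖RR‖ + ‖E‖)`. Cauchy-Schwarz (or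
`2ab ≤ λa^2+b^2/λ` with `λ = √((1+log(T/N))/L(T))`, which avoids it):
`∫ ≤ 2 r e + e^2 ≤ C T L(T)^3 (√(L(T)(1+log(T/N))) + (1+log(T/N)))` and
`1 + log(T/N) ≤ L(T)`. About 130 lines. -/
def S_CMP : Prop :=
  ∃ C : ℝ, 0 < C ∧ ∀ (T : ℝ) (N : ℕ), 2 ≤ T → 1 ≤ N → (N : ℝ) ≤ T →
    ∫ t in T..(2 * T), |‖riemannZeta (1 / 2 + t * I)‖ ^ 4 - ‖RR N (1 / 2 + t * I)‖ ^ 2| ≤
      C * (T * (1 + Real.log T) ^ 3 *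
        √((1 + Real.log T) * (1 + Real.log (T / N))))

/-- **Twisted fourth moment against twisted mean square.**

Uses `S_Fun`, `S_Nrm`, `S_CR`, `S_CMP`. Proof. Let `s = 1/2+it`, `P = PP N s`, `X = XX s`, `‖X‖ = 1`.
`1-s = conj s`, so `PP N (1-s) = conj P`, `XX(1-s) = conj X` and `RR N s = P + conj(X)^2 conj(P)`.
Hence `‖RR‖^2 = RR * conj RR = 2‖P‖^2 + P^2 X^2 + conj(P^2 X^2)` as complex numbers. Multiply by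
`θ^(it)` and integrate over `[T,2T]`: the second term is bounded by `S_CR`; the third is the complex
conjugate of `∫ P^2 X^2 (θ⁻¹)^(it)` (`conj(θ^(it)) = (θ⁻¹)^(it)`), bounded by `S_CR` for `θ⁻¹`. The
difference between `‖ζ‖^4` and `‖RR‖^2` is bounded by `S_CMP` (`‖θ^(it)‖ = 1`). Finally
`max 1 θ⁻¹ + max 1 θ ≤ 2(θ+θ⁻¹)`. About 120 lines. -/
def S_KEY : Prop :=
  ∃ C : ℝ, 0 < C ∧ ∀ (T θ : ℝ) (N : ℕ), 2 ≤ T → 0 < θ → 1 ≤ N → (N : ℝ) ≤ T →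
    ‖(∫ t in T..(2 * T), ((‖riemannZeta (1 / 2 + t * I)‖ ^ 4 : ℝ) : ℂ) * (θ : ℂ) ^ (t * I)) -
      2 * JJ T N θ‖ ≤
      C * (T * (1 + Real.log T) ^ 3 * √((1 + Real.log T) * (1 + Real.log (T / N))) +
        (θ + θ⁻¹) * (N * (1 + Real.log N) ^ 3))

end Pool.Agent.Lib.MP_aa9ae4_nt.K2
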