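import Mathlib
import Pool.Agent.Lib.MP_aa9ae4_nt.K2.Defs
import Pool.Agent.Lib.MP_aa9ae4_nt.K2.SpecA

/-!
MP_aa9ae4_nt, k = 2. Part B: the twisted mean square of the Dirichlet polynomial `PP N`, and the
asymptotic formula for sums of the divisor function.

Every `S_X : Prop` is to be proved as `theorem pX : S_X` in `K2/PX.lean`, the statements used are
hypotheses. The docstrings contain the complete proofs. `L = L(N) = 1 + log N`.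
-/

namespace Pool.Agent.Lib.MP_aa9ae4_nt.K2

open Finset MeasureTheory Filter Topology
open Complex (I)

/-- **Expansion of the twisted mean square.**

Proof: exactly as `twist_expand` and `twist_integral` in Twist.lean (there with the coefficients 1;
here `dv n * dv m`); `twist_pow` gives `n^(-(1/2+it)) = n^(-1/2) exp(-it log n)`. About 60 lines. -/
def S_Exp : Prop :=
  ∀ (T θ : ℝ) (N : ℕ), 0 < θ →
    JJ T N θ = ∑ n ∈ Icc 1 N, ∑ m ∈ Icc 1 N,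
      ((dv n * dv m / √((n : ℝ) * m) : ℝ) : ℂ) * twistJ T (twistX θ n m)

/-- **Far pairs.**

Uses `S_Abs`. Proof (`C = 24` works). For `n, m` in `Icc 1 N` with `1 ≤ K|θn-m|` let
`J = twistJ T (twistX θ n m)`, `term = 1/√(nm) * ‖J‖`. (i) `twist_term_le`:
`term ≤ 2/(√n √m) + 2√N/√n * 1/|θn-m|`. (ii) by `twistX_ge` and `twistJ_le_inv`
`‖J‖ ≤ 2 max(θn, m)/|θn-m| ≤ 2 (|θn-m| + θn)/|θn-m|`, so
`term ≤ 2/(√n√m) + 2θ√n/√m * 1/|θn-m| ≤ 2/(√n√m) + 2θ√N/√m * 1/|θn-m|`.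
`d(n)d(m) ≤ (d(n)^2 + d(m)^2)/2`. First half: `∑_n d(n)^2 ∑_m term ≤
∑_n d(n)^2 (2/√n * 2√N + 2√N/√n * 4K L) ≤ 12 K L √N ∑ d(n)^2/√n ≤ 24 K N L^4`, by (i),
`∑_{m ≤ N} 1/√m ≤ 2√N` (`twist_sum_sqrt_le`), `twist_sum_dist_le N (θ n) K` and (a) of `S_Abs`.
Second half: by (ii) and `|θn-m| = θ|m/θ - n|`: the condition is `1 ≤ (Kθ)|m/θ-n|`, so
`∑_n 1/|θn-m| = θ⁻¹ ∑_n 1/|m/θ-n| ≤ θ⁻¹ * 4Kθ L = 4 K L` by `twist_sum_dist_le N (m/θ) (K θ)`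
(`Kθ ≥ 2`); `∑_m d(m)^2 ∑_n term ≤ ∑_m d(m)^2 √N/√m (4 + 8θKL) ≤ 24 K θ N L^4`.
(Exchange the order of summation in the second half; the filter becomes a condition on `n`.)
About 130 lines. -/
def S_Far : Prop :=
  ∃ C : ℝ, 0 < C ∧ ∀ (T θ K : ℝ) (N : ℕ), 1 ≤ θ → 2 ≤ K → 1 ≤ N →
    ∑ n ∈ Icc 1 N, ∑ m ∈ (Icc 1 N).filter (fun m : ℕ => 1 ≤ K * |θ * n - m|),
      dv n * dv m / √((n : ℝ) * m) * ‖twistJ T (twistX θ n m)‖ ≤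
      C * (K * θ * (N * (1 + Real.log N) ^ 4))

/-- **Counting integers `n` with `θ n` close to an integer.**

Proof. Let `κ' = θq - p`, `κ = |κ'| ≤ 2δ`; note `κ > 0` as `1 ≤ 4κM`. For `n ∈ B` take `m` with
`|θn-m| ≤ δ` and put `h(n) = qm - pn` (an integer). Then `h(n) - κ'n = q(m - θn)`, so
`|h(n) - κ'n| ≤ qδ ≤ 1/4`. The real numbers `κ'n`, `n ∈ (M,2M]`, lie in an interval of length `κM`, so
the integers `h(n)` lie in an interval of length `κM + 1/2`: at most `κM + 3/2` values. For a given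
value `h` the `n ∈ B` with `h(n) = h` lie in an interval of length `2qδ/κ` (from `|κ'n - h| ≤ qδ`), and
two different elements `n < n'` of `B` satisfy `n'-n ≥ q` (otherwise `1 ≤ n'-n < q` and
`|θ(n'-n) - (m'-m)| ≤ 2δ`, a contradiction): at most `2δ/κ + 1` of them. Hence
`card B ≤ (κM + 3/2)(2δ/κ + 1) = 2δM + κM + 3δ/κ + 3/2`, and `κ ≤ 2δ`, `1/κ ≤ 4M`, `1 ≤ 4κM ≤ 8δM`
give `card B ≤ 2δM + 2δM + 12δM + 12δM = 28δM`. (Counting lemmas: a finite set of integers in an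
interval of real length `ℓ ≥ 0` has at most `ℓ+1` elements; a finite set of naturals with pairwise
distances at least `q` in an interval of length `ℓ` has at most `ℓ/q+1` elements, e.g. by the
injective map `n ↦ ⌊(n - n_min)/q⌋`.) About 130 lines. -/
def S_Cnt : Prop :=
  ∀ (θ δ : ℝ) (q M : ℕ) (p : ℤ) (B : Finset ℕ), 0 < δ → 1 ≤ q → 4 * δ * q ≤ 1 →
    |θ * q - p| ≤ 2 * δ → (∀ n : ℕ, 1 ≤ n → n < q → ∀ m : ℤ, 2 * δ < |θ * n - m|) →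
    (∀ n ∈ B, ∃ m : ℤ, |θ * n - m| ≤ δ) → B ⊆ Ioc M (2 * M) → 1 ≤ M →
    1 ≤ 4 * |θ * q - p| * M → (B.card : ℝ) ≤ 40 * δ * M

/-- **One dyadic block of near pairs.**

Uses `S_Aks`. Proof. `L = 1 + log N`. Let `a_n = d(n)`, `b_n = d(f n)`. Cauchy-Schwarz twice:
`(∑_B a b)^2 ≤ |B| ∑_B a^2 b^2 ≤ |B| (∑_B a^4)^(1/2) (∑_B b^4)^(1/2)`.
`∑_B d(n)^4 ≤ ∑_{n ≤ min(2M,N)} d(n)^4 ≤ 2M L^15` by `S_Aks` with `k = 4` (the set `B` is contained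
in `Icc 1 (min (2M) N)`, whose upper end is at most `2M` and has `L(min) ≤ L(N)`). `f` is
injective on `B`: for `n < n'`, `f n' - f n ≥ θ(n'-n) - 2δ ≥ 1/2`. `f n ≤ min(N, ⌊2θM+1⌋)`, so
`∑_B d(f n)^4 ≤ (2θM+1) L^15 ≤ 3θM L^15`. For `n ∈ B`: `n ≥ M` and
`f n ≥ θn - δ ≥ θM - 1/4 ≥ 3θM/4`, so `1/√(n f(n)) ≤ 2/(M√θ)`. Altogether
`∑ ≤ 2/(M√θ) * (40δM)^(1/2) (2M L^15)^(1/4) (3θM L^15)^(1/4) ≤ C √δ θ^(-1/4) L^(15/2) ≤ C√δ L^8`.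
About 120 lines. -/
def S_Blk : Prop :=
  ∃ C : ℝ, 0 < C ∧ ∀ (θ δ : ℝ) (N M : ℕ) (B : Finset ℕ) (f : ℕ → ℕ), 1 ≤ θ → 0 < δ → δ ≤ 1 / 8 →
    1 ≤ N → 1 ≤ M → B ⊆ Icc 1 N → B ⊆ Ioc M (2 * M) →
    (∀ n ∈ B, 1 ≤ f n ∧ f n ≤ N ∧ |θ * n - f n| ≤ δ) → (B.card : ℝ) ≤ 40 * δ * M →
    ∑ n ∈ B, dv n * dv (f n) / √((n : ℝ) * f n) ≤ C * (√δ * (1 + Real.log N) ^ 8)

/-- **Near pairs.**

Uses `S_Aks`, `S_Cnt`, `S_Blk`. Proof. For each `n` there is at most one `m` with `|θn-m| ≤ δ`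
(`2δ < 1`). Let `B` be the set of `n ∈ Icc 1 N` for which such an `m ∈ Icc 1 N` exists, `f n` this
`m`; the double sum is `∑_{n ∈ B} d(n)d(f n)/√(n f(n))`. `n ∈ B` implies `q ≤ n` (minimality of `q`),
and `n < n'` in `B` implies `n'-n ≥ q` (as `|θ(n'-n) - (f n' - f n)| ≤ 2δ`). The blocks
`B_j = B ∩ (2^j, 2^(j+1)]`, `0 ≤ j ≤ log₂ N`, are at most `2L` in number and contain all `n ∈ B` with
`n ≥ 2`.
Case A, `4δq > 1`. If `B_j` is not empty then `2^(j+1) ≥ q > 1/(4δ)`, so `1 < 8δ2^j`, and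
`card B_j ≤ 2^j/q + 1 ≤ 4δ2^j + 8δ2^j = 12δ2^j`. Also `1 ∉ B` (`q ≥ 2` since `4δ ≤ 1/2`). So `S_Blk` for each
block gives the bound `2L * C√δ L^8`.
Case B, `4δq ≤ 1`. `gcd(p,q) = 1`: if `g > 1` divides both then `|θ(q/g) - p/g| = |θq-p|/g ≤ 2δ`
contradicts the minimality. Let `κ = |θq-p| ≤ 2δ`. For `n ∈ B` with `2κn < 1`:
`|q f(n) - p n| = |q(f(n)-θn) + (θq-p)n| ≤ qδ + κn < 1/4 + 1/2`, so `q f(n) = p n`, hence `n = lq`,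
`f n = lp` with `1 ≤ l ≤ N`, and these `n` contribute at most
`∑_{l ≤ N} d(lq)d(lp)/(l√(qp)) ≤ d(q)d(p)/√(qp) ∑_{l ≤ N} d(l)^2/l ≤ d(q)d(p)/√(qp) L^4`
(`d(ab) ≤ d(a)d(b)`, `S_Aks`). For `n ∈ B` with `2κn ≥ 1`: `n ≥ 2` since `κ ≤ 1/4`; if the block `B_j`
contains such an `n` then `4κ2^j ≥ 2κn ≥ 1`, and `S_Cnt` gives `card B_j ≤ 40δ2^j`; apply `S_Blk`.
About 200 lines. -/
def S_Near : Prop :=
  ∃ C : ℝ, 0 < C ∧ ∀ (θ δ : ℝ) (N q p : ℕ), 1 ≤ θ → 0 < δ → δ ≤ 1 / 8 → 1 ≤ N → 1 ≤ q → 1 ≤ p →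
    |θ * q - p| ≤ 2 * δ → (∀ n : ℕ, 1 ≤ n → n < q → ∀ m : ℤ, 2 * δ < |θ * n - m|) →
    ∑ n ∈ Icc 1 N, ∑ m ∈ (Icc 1 N).filter (fun m : ℕ => |θ * n - m| ≤ δ),
      dv n * dv m / √((n : ℝ) * m) ≤
      C * (dv q * dv p / √((q : ℝ) * p) * (1 + Real.log N) ^ 4 + √δ * (1 + Real.log N) ^ 9)

/-- **Divisor bound.**

Uses `S_Aks`. Proof. `S_Aks` with `k = 9`, `x = n`: `d(n)^9 ≤ n (1+log n)^511`, and
`(1 + log n)^511 ≤ C n^(1/8)` for `n ≥ 1` (the logarithm is smaller than every power); so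
`d(n)^9 ≤ C n^(9/8)`. About 40 lines. -/
def S_Dvb : Prop :=
  ∃ C : ℝ, 0 < C ∧ ∀ n : ℕ, 1 ≤ n → dv n ≤ C * (n : ℝ) ^ (1 / 8 : ℝ)

/-- **Twisted mean square for one `θ`.** The pair `(q, p)` is the first good approximation of `θ`.

Uses `S_Exp`, `S_Far`, `S_Near`, `S_Dvb`. Proof. Existence of `q`: by Dirichlet
(`Real.exists_nat_abs_mul_sub_round_le`) there is `n ≥ 1` and an integer `m` with `|θn-m| ≤ 2δ`; let
`q` be the least such `n` (`Nat.find`), with the integer `p`; `p ≥ θq - 2δ ≥ 3/4` so `p ≥ 1` is a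
natural number. `S_Exp`, norms, and the split of the pairs according to `|θn-m| ≤ δ` or not. In the
first case `‖twistJ‖ ≤ T` (`twistJ_le`) and `S_Near`; in the second `1 ≤ (1/δ)|θn-m|` and `S_Far` with
`K = 1/δ ≥ 8`. `d(q)d(p)/√(qp) ≤ C (qp)^(1/8-1/2)` by `S_Dvb`. About 100 lines. -/
def S_One : Prop :=
  ∃ C : ℝ, 0 < C ∧ ∀ (T θ δ : ℝ) (N : ℕ), 2 ≤ T → 1 ≤ θ → 0 < δ → δ ≤ 1 / 8 → 1 ≤ N →
    ∃ q p : ℕ, 1 ≤ q ∧ 1 ≤ p ∧ |θ * q - p| ≤ 2 * δ ∧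
      ‖JJ T N θ‖ ≤ C * (T * ((1 + Real.log N) ^ 4 * ((q : ℝ) * p) ^ (-(3 / 8) : ℝ) +
        √δ * (1 + Real.log N) ^ 9) + θ * (N * (1 + Real.log N) ^ 4) / δ)

/-- **Rational `θ = r/s ≥ 1`.**

Uses `S_Exp`, `S_Far`. Proof. `S_Exp`. The pairs with `r n = s m`: since `gcd(r,s) = 1` these are
`n = s l`, `m = r l`, `1 ≤ l ≤ N/r` (as `s ≤ r`, `n ≤ m ≤ N`); `twistX = 0`, `twistJ T 0 = T`
(`twistJ_zero`), the coefficient is `d(sl)d(rl)/√(sl*rl) = d(sl)d(rl)/(l√(rs))`. (Compare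
`twist_diag`.) All other pairs have `|θn-m| = |rn-sm|/s ≥ 1/s`, so `1 ≤ 2s|θn-m|` and `S_Far` with
`K = 2s`. About 100 lines. -/
def S_Rat : Prop :=
  ∀ r s : ℕ, 1 ≤ s → s ≤ r → Nat.Coprime r s → ∃ C : ℝ, 0 < C ∧ ∀ (T : ℝ) (N : ℕ), 1 ≤ N →
    ‖JJ T N ((r : ℝ) / s) - ((T / √((r : ℝ) * s) *
      ∑ l ∈ Icc 1 (N / r), dv (r * l) * dv (s * l) / l : ℝ) : ℂ)‖ ≤
      C * (N * (1 + Real.log N) ^ 4)

/-! ### The asymptotic formula for sums of the divisor function -/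

/-- **Harmonic sums over the integers coprime to `Q`.**

Proof. Let `κ = φ(Q)/Q > 0`, `A(x)` the number of `b ∈ Icc 1 x` coprime to `Q`. Any `Q` consecutive
integers contain `φ(Q)` integers coprime to `Q` (`Nat.filter_coprime_Ico_eq_totient`), so
`|A(x) - κx| ≤ Q`. Partial summation: `∑_{b ≤ x} h(b)/b = A(x)/(x+1) + ∑_{b ≤ x} A(b)/(b(b+1))`
(induction on `x`). Replace `A(b)` by `κb`: the error is at most
`Q/(x+1) + Q ∑ 1/(b(b+1)) ≤ 2Q`, the main term is `κ (x/(x+1) + ∑_{b ≤ x} 1/(b+1))`, and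
`|∑_{b ≤ x} 1/(b+1) - log x| ≤ 2`. About 100 lines. -/
def S_H1 : Prop :=
  ∀ Q : ℕ, 1 ≤ Q → ∃ κ C : ℝ, 0 < κ ∧ ∀ x : ℕ, 1 ≤ x →
    |∑ b ∈ Icc 1 x, hq Q b / b - κ * Real.log x| ≤ C

/-- **Convolution step.**

Proof. Let `F(y) = ∑_{n ≤ y} f(n)/n`, `H(y) = ∑_{b ≤ y} h(b)/b`, `X = log x`. All constants below
depend only on `κ, μ, C, k`. Note `0 ≤ C`.
(1) `∑_{n ≤ x} cv h f n/n = ∑_{b ≤ x} (h(b)/b) F(⌊x/b⌋)` (pairs `(b, n/b)`).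
(2) For `1 ≤ b ≤ x`, `y = ⌊x/b⌋ ≥ 1` and `|log y - log(x/b)| ≤ log 2 ≤ 1`, both are in `[0, X]`, so
`|(log y)^k - (log(x/b))^k| ≤ k (1+X)^(k-1)`. With the hypothesis on `F`:
`|F(y) - μ (log(x/b))^k| ≤ (C + k|μ|)(1+X)^(k-1)`. The sum over `b` of `h(b)/b` times this is at
most `(C+k|μ|)(1+X)^(k-1) H(x) ≤ C₁ (1+X)^k`.
(3) Let `φ(b) = (log(x/b))^k = (X - log b)^k`, decreasing in `b`, `φ(x) = 0` (`k ≥ 1`). Partial
summation: `∑_{b ≤ x} (h(b)/b) φ(b) = ∑_{b<x} H(b)(φ(b)-φ(b+1))`. Replacing `H(b)` by `κ log b` costs at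
most `C ∑ (φ(b)-φ(b+1)) = C X^k`.
(4) `∑_{b<x} log b (φ(b) - φ(b+1)) = X^(k+1)/(k+1) + O(X^k)`: let
`Ψ(v) = -v(X-v)^k - (X-v)^(k+1)/(k+1)`, `Ψ(X) - Ψ(0) = X^(k+1)/(k+1)`, and for `0 ≤ u ≤ v ≤ X`
`Ψ(v) - Ψ(u) = ∫_u^v w k(X-w)^(k-1) dw` lies between `u((X-u)^k-(X-v)^k)` and `v((X-u)^k-(X-v)^k)`;
with `u = log b`, `v = log(b+1) ≤ u + 1` the difference between `Ψ(v)-Ψ(u)` and
`log b (φ(b)-φ(b+1))` is between 0 and `φ(b)-φ(b+1)`; sum over `b`: at most `X^k`. (The two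
inequalities for `Ψ(v)-Ψ(u)` can also be proved by monotonicity: `w ↦ Ψ(w) - u k...`, or by the mean
value inequality; `Ψ' (w) = k w (X-w)^(k-1)`.)
Total: `|∑ cv h f n/n - κμ/(k+1) X^(k+1)| ≤ C'(1+X)^k`. About 180 lines. -/
def S_Cv : Prop :=
  ∀ (h f : ℕ → ℝ) (κ μ C : ℝ) (k : ℕ), (∀ b, 0 ≤ h b) → 1 ≤ k →
    (∀ x : ℕ, 1 ≤ x → |∑ b ∈ Icc 1 x, h b / b - κ * Real.log x| ≤ C) →
    (∀ x : ℕ, 1 ≤ x → |∑ n ∈ Icc 1 x, f n / n - μ * Real.log x ^ k| ≤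
      C * (1 + Real.log x) ^ (k - 1)) →
    ∃ C' : ℝ, ∀ x : ℕ, 1 ≤ x → |∑ n ∈ Icc 1 x, cv h f n / n -
      κ * μ / (k + 1) * Real.log x ^ (k + 1)| ≤ C' * (1 + Real.log x) ^ k

/-- **The fourfold divisor function.**

Uses `S_H1`, `S_Cv`. Proof. `S_Cv` three times, starting with `f = hq Q`, `k = 1`, `μ = κ`:
coefficients `κ`, `κ^2/2`, `κ^3/6`, `κ^4/24`. (In each step take the larger of the two
constants, also at least 0.) About 50 lines. -/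
def S_T4 : Prop :=
  ∀ Q : ℕ, 1 ≤ Q → ∃ τ C : ℝ, 0 < τ ∧ ∀ x : ℕ, 1 ≤ x →
    |∑ b ∈ Icc 1 x, f4 Q b / b - τ * Real.log x ^ 4| ≤ C * (1 + Real.log x) ^ 3

/-- **The identity `d(l)^2 = ∑_{a^2 | l} μ(a) d_4(l/a^2)`** for `l` coprime to `Q`; and `f4 Q` is
supported on the integers coprime to `Q` and is nonnegative.

Proof. If `l` is coprime to `Q` then all divisors of `l` are, so `f4 Q n` for a divisor `n` of `l` is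
the fourfold convolution `d_4(n)` of the constant function 1 (i.e. `ζ * ζ * ζ * ζ` as arithmetic
functions, `ArithmeticFunction.zeta`). The identity: `n ↦ d(n)^2` (pointwise square of `σ 0`),
`s(n) = μ(a)` if `n = a^2`, `0` otherwise, and `d_4` are multiplicative, and so is `s * d_4`; by
`ArithmeticFunction.IsMultiplicative.eq_iff_eq_on_prime_powers` it is enough to check prime powers:
`(s * d_4)(p^k) = d_4(p^k) - d_4(p^(k-2)) = C(k+3,3) - C(k+1,3) = (k+1)^2` (`d_4(p^k) = C(k+3,3)`: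
`(ζ*f)(p^k) = ∑_{j ≤ k} f(p^j)` applied three times, `∑_{j ≤ k} C(j+i,i) = C(k+i+1,i+1)`; for
`k = 0, 1` the second term is absent, `C(k+1,3) = 0`). If `n` is not coprime to `Q`, a prime `p`
divides both, and in each term of the convolution one of the four factors is divisible by `p`:
`f4 Q n = 0`. About 180 lines. -/
def S_Id : Prop :=
  (∀ Q l : ℕ, 1 ≤ l → Nat.Coprime l Q →
    dv l ^ 2 = ∑ a ∈ (Icc 1 l).filter (fun a => a ^ 2 ∣ l),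
      (ArithmeticFunction.moebius a : ℝ) * f4 Q (l / a ^ 2)) ∧
  (∀ Q n : ℕ, ¬ Nat.Coprime n Q → f4 Q n = 0) ∧
  (∀ Q n : ℕ, 0 ≤ f4 Q n)

/-- **Asymptotic formula for `∑ d(l)^2/l` over `l` coprime to `Q`.**

Uses `S_T4`, `S_Id`. Proof. Let `F(y) = ∑_{b ≤ y} f4 Q b/b`, so `|F(y) - τ(log y)^4| ≤
C(1+log y)^3` for `y ≥ 1` and `F(0) = 0`. By `S_Id`
`∑_{l ≤ x, (l,Q)=1} d(l)^2/l = ∑_{a ≤ x, (a,Q)=1} μ(a)/a^2 * F(⌊x/a^2⌋)`: write `l = a^2 b`; if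
`(a,Q) = 1` then `(l,Q) = 1` iff `(b,Q) = 1`, and `f4 Q b = 0` for other `b`; if `(l,Q) = 1` and
`a^2 | l` then `(a,Q) = 1`. Divide by `(log x)^4`: for fixed `a`, `F(⌊x/a^2⌋)/(log x)^4 → τ` as
`log⌊x/a^2⌋/log x → 1`; and `|F(⌊x/a^2⌋)| ≤ (τ+|C|)(1+log x)^4 ≤ 16(τ+|C|)(log x)^4` for `x ≥ 3`.
`∑ 1/a^2` converges, so by dominated convergence for series
(`tendsto_tsum_of_dominated_convergence`) the quotient tends to
`c = τ ∑_{a ≥ 1, (a,Q)=1} μ(a)/a^2 ≥ τ (1 - ∑_{a ≥ 2} 1/a^2) > 0` (`∑_{a ≥ 1} 1/a^2 = π^2/6 < 2`,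
`hasSum_zeta_two`). About 150 lines. -/
def S_DQ : Prop :=
  ∀ Q : ℕ, 1 ≤ Q → ∃ c : ℝ, 0 < c ∧
    Tendsto (fun N : ℕ => (∑ l ∈ Icc 1 N, hq Q l * dv l ^ 2 / l) / Real.log N ^ 4) atTop (𝓝 c)

/-- **Asymptotic formula for `∑ d(rl) d(sl)/l`.**

Uses `S_Aks`, `S_DQ`. Proof. Let `Q = r s`, `D(x) = ∑_{l ≤ x} hq Q l * d(l)^2/l`. Every `l ≥ 1` is
uniquely `l = l₁ l₂` with all primes of `l₁` dividing `Q` and `l₂` coprime to `Q` (e.g. with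
`Nat.factoredNumbers Q.primeFactors`), and then `d(r l) = d(r l₁) d(l₂)`, `d(s l) = d(s l₁) d(l₂)`
(`Nat.Coprime.card_divisors_mul`). Hence
`∑_{l ≤ x} d(rl)d(sl)/l = ∑_{l₁} d(r l₁) d(s l₁)/l₁ * D(⌊x/l₁⌋)` over the `l₁ ≤ x` of this kind. The
series `∑_{l₁} d(r l₁)d(s l₁)/l₁ ≤ d(r)d(s) ∑_{l₁} d(l₁)^2/l₁` converges: the last sum over the
integers composed of the finitely many primes `p | Q` is at most the product over `p | Q` of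
`∑_k (k+1)^2/p^k < ∞` (`EulerProduct.summable_and_hasSum_factoredNumbers_prod_filter_prime_tsum`, or
induction on the set of primes). For fixed `l₁`, `D(⌊x/l₁⌋)/(log x)^4 → c_Q`, and
`0 ≤ D(⌊x/l₁⌋) ≤ (1+log x)^4 ≤ 16 (log x)^4` for `x ≥ 3` by `S_Aks`. Dominated convergence for series
(`tendsto_tsum_of_dominated_convergence`). The second statement is `S_DQ` for `Q = 1`.
About 180 lines. -/
def S_Rs : Prop :=
  (∀ r s : ℕ, 1 ≤ r → 1 ≤ s → Nat.Coprime r s → ∃ c : ℝ,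
    Tendsto (fun N : ℕ => (∑ l ∈ Icc 1 N, dv (r * l) * dv (s * l) / l) / Real.log N ^ 4)
      atTop (𝓝 c)) ∧
  (∃ c : ℝ, 0 < c ∧
    Tendsto (fun N : ℕ => (∑ l ∈ Icc 1 N, dv l ^ 2 / l) / Real.log N ^ 4) atTop (𝓝 c))

/-! ### Limits of the twisted fourth moments -/

/-- **From mean squares of `PP` to the fourth moment.**

Uses `S_KEY`. Proof. Given `δ > 0` choose `0 < ε < 1/2` and `η > 0` with
`16C√ε + 2(4ε‖c‖+η) < δ/2`, `C` from `S_KEY`. Let `N = ⌊T^(1-ε)⌋₊`, for large `T`: `1 ≤ N ≤ T`,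
`T/N ≤ 2T^ε`, `1 + log(T/N) ≤ 2 + ε log T ≤ 2ε log T` (if `log T ≥ 2/ε`), `1+log T ≤ 2 log T`, so
`(1+log T)^3 √((1+log T)(1+log(T/N))) ≤ 8 (log T)^3 √(4ε (log T)^2) = 16√ε (log T)^4`; and
`(θ+θ⁻¹) N (1+log N)^3 ≤ (θ+θ⁻¹) T^(1-ε) (2 log T)^3` is at most `η' T (log T)^4` for large `T`.
With `S_KEY` and the hypothesis: the quotient differs from `2c` by at most `δ`. (Compare
`weight_key` and `weight_facts` in Weight.lean.) About 110 lines. -/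
def S_Wk : Prop :=
  ∀ (θ : ℝ) (c : ℂ), 0 < θ →
    (∀ ε : ℝ, 0 < ε → ε < 1 / 2 → ∀ η : ℝ, 0 < η → ∀ᶠ T : ℝ in atTop,
      ‖JJ T ⌊T ^ (1 - ε)⌋₊ θ - c * ((T * Real.log T ^ 4 : ℝ) : ℂ)‖ ≤
        (4 * ε * ‖c‖ + η) * (T * Real.log T ^ 4)) →
    Tendsto (fun T : ℝ =>
      (∫ t in T..(2 * T), ((‖riemannZeta (1 / 2 + t * I)‖ ^ 4 : ℝ) : ℂ) * (θ : ℂ) ^ (t * I)) /
        ((T * Real.log T ^ 4 : ℝ) : ℂ)) atTop (𝓝 (2 * c))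

/-- **Rational `θ = r/s ≥ 1`.**

Uses `S_Rat`. Proof. Put `R = r`, `N = ⌊T^(1-ε)⌋₊`, `M = N/r` (natural division). As `T → ∞`:
`M → ∞`, `log M/log T → 1-ε`, so `(∑_{l ≤ M} d(rl)d(sl)/l)/(log T)^4 → c₀(1-ε)^4` and
`JJ T N θ/(T (log T)^4) → c(1-ε)^4` with `c = c₀/√(rs)` (the error term `C N L^4` is
`O(T^(1-ε) (log T)^4)`). `|(1-ε)^4 - 1| ≤ 4ε`, so the difference to `c` is eventually at most
`4ε|c| + η`. About 110 lines. -/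
def S_WRat : Prop :=
  ∀ (r s : ℕ) (c₀ : ℝ), 1 ≤ s → s ≤ r → Nat.Coprime r s →
    Tendsto (fun N : ℕ => (∑ l ∈ Icc 1 N, dv (r * l) * dv (s * l) / l) / Real.log N ^ 4)
      atTop (𝓝 c₀) →
    ∀ ε : ℝ, 0 < ε → ε < 1 / 2 → ∀ η : ℝ, 0 < η → ∀ᶠ T : ℝ in atTop,
      ‖JJ T ⌊T ^ (1 - ε)⌋₊ ((r : ℝ) / s) -
        ((c₀ / √((r : ℝ) * s) : ℝ) : ℂ) * ((T * Real.log T ^ 4 : ℝ) : ℂ)‖ ≤
        (4 * ε * ‖((c₀ / √((r : ℝ) * s) : ℝ) : ℂ)‖ + η) * (T * Real.log T ^ 4)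

/-- **Irrational `θ ≥ 1`.**

Uses `S_One`. Proof. Take `δ = T^(-ε/2)`, `N = ⌊T^(1-ε)⌋₊ ≤ T^(1-ε)`, `L(N) ≤ 2 log T`. `S_One`:
`‖JJ T N θ‖ ≤ C T (log T)^4 (16 (qp)^(-3/8) + 512 T^(-ε/4) (log T)^5 + 16 θ T^(-ε/2))`, where
`|θq-p| ≤ 2T^(-ε/2)`. The last two terms in the bracket tend to 0. The first: given `Q₀`, the
numbers `|θn-m|`, `1 ≤ n ≤ Q₀`, `m` an integer, are bounded below by a positive constant (θ is
irrational: the minimum of the distances of `θn` to the nearest integer), so `q > Q₀` for large `T`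
and `(qp)^(-3/8) ≤ Q₀^(-3/8)`. About 120 lines. -/
def S_WIrr : Prop :=
  ∀ θ : ℝ, Irrational θ → 1 ≤ θ → ∀ ε : ℝ, 0 < ε → ε < 1 / 2 → ∀ η : ℝ, 0 < η →
    ∀ᶠ T : ℝ in atTop, ‖JJ T ⌊T ^ (1 - ε)⌋₊ θ‖ ≤ η * (T * Real.log T ^ 4)

/-- **All twisted fourth moments have limits, and the fourth moment has a positive one.**

Uses `S_Rs`, `S_Wk`, `S_WRat`, `S_WIrr`. Proof. `θ ≥ 1` irrational: `S_WIrr` and `S_Wk` with
`c = 0`. `θ ≥ 1` rational: `θ = r/s` in lowest terms, `s ≤ r`; `S_Rs`, `S_WRat`, `S_Wk`. `θ < 1`: the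
integral for `θ` is the complex conjugate of the integral for `θ⁻¹` (`weight_conj` in Weight.lean,
or `conj(θ^(it)) = (θ⁻¹)^(it)`), so the limit is the conjugate. Fourth moment: `θ = 1`,
`r = s = 1`, the second part of `S_Rs`, and real parts. About 100 lines. -/
def S_TwL : Prop :=
  (∀ θ : ℝ, 0 < θ → ∃ c : ℂ, Tendsto (fun T : ℝ =>
    (∫ t in T..(2 * T), ((‖riemannZeta (1 / 2 + t * I)‖ ^ 4 : ℝ) : ℂ) * (θ : ℂ) ^ (t * I)) /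
      ((T * Real.log T ^ 4 : ℝ) : ℂ)) atTop (𝓝 c)) ∧
  (∃ D : ℝ, 0 < D ∧ Tendsto (fun T : ℝ =>
    (∫ t in T..(2 * T), ‖riemannZeta (1 / 2 + t * I)‖ ^ 4) / (T * Real.log T ^ 4)) atTop (𝓝 D))

end Pool.Agent.Lib.MP_aa9ae4_nt.K2
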