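import Mathlib
import Pool.Agent.Lib.MP_aa9ae4_nt.K2.Defs
import Pool.Agent.Lib.MP_aa9ae4_nt.K2.SpecA
import Pool.Agent.Lib.MP_aa9ae4_nt.K2.SpecB

/-!
MP_aa9ae4_nt, k = 2. Part C: the bound `ζ(1/2+it) ≪ t^(1/6) (1 + log t)` (van der Corput), and the
weighted second moment of prime sums.

Every `S_X : Prop` is to be proved as `theorem pX : S_X` in `K2/PX.lean`, the statements used are
hypotheses. The docstrings contain the complete proofs.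
-/

namespace Pool.Agent.Lib.MP_aa9ae4_nt.K2

open Finset MeasureTheory Filter Topology
open Complex (I)

/-- **Van der Corput's inequality.**

Proof. Let `Z(m) = z m` for `a ≤ m < b` and `0` otherwise. For `k < b-a+H-1` put
`T_k = ∑_{j<H} Z(a+k-j)` (a term is 0 if `j > k`; as natural numbers take `if j ≤ k ∧ a+k-j < b then
z (a+k-j) else 0`). Each `m ∈ [a,b)` occurs in exactly `H` of the `T_k` (`k = m-a+j`), so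
`∑_k T_k = H S`. Cauchy-Schwarz: `H^2 ‖S‖^2 ≤ (b-a+H-1) ∑_k ‖T_k‖^2`, and
`∑_k ‖T_k‖^2 = ∑_{j,j'} ∑_k Z(a+k-j) conj Z(a+k-j')`; the pairs with `j = j'` give `H ∑ ‖z‖^2`, the
pairs with `|j-j'| = h ≥ 1` (there are `H-h ≤ H` of them with `j < j'`) give `C_h` or its conjugate,
`C_h = ∑_{n, n+h ∈ [a,b)} z(n+h) conj(z n)`. So
`H^2 ‖S‖^2 ≤ (b-a+H) H (∑ ‖z‖^2 + 2 ∑_{1≤h<H} ‖C_h‖)`; divide by `H`. (If `b - h < a` the sum `C_h`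
is empty, as in the statement.) About 150 lines. -/
def S_V1 : Prop :=
  ∀ (z : ℕ → ℂ) (a b H : ℕ), a ≤ b → 1 ≤ H →
    (H : ℝ) * ‖∑ n ∈ Ico a b, z n‖ ^ 2 ≤ ((b : ℝ) - a + H) *
      (∑ n ∈ Ico a b, ‖z n‖ ^ 2 +
        2 * ∑ h ∈ Ico 1 H, ‖∑ n ∈ Ico a (b - h), z (n + h) * starRingEnd ℂ (z n)‖)

/-- **The differenced sum.**

Proof. `(n+h)^(-it) conj(n^(-it)) = exp(-it(log(n+h) - log n)) = exp(2πi x_n)` with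
`x_n = -(t/2π) log(1+h/n)`. `x_{n+1} - x_n = (t/2π) ∫_n^{n+1} φ`, `φ(u) = h/(u(u+h))`, positive and
decreasing in `n ≥ 1`. For `M < n ≤ 2M`, `h ≤ M`: `x_{n+1} - x_n ≤ (t/2π) h/M^2 ≤ th/M^2`, and
`(x_{n+1}-x_n) - (x_{n+2}-x_{n+1}) = (t/2π) ∫_n^{n+1} (φ(u) - φ(u+1)) du` with
`φ(u) - φ(u+1) = h(2u+1+h)/(u(u+h)(u+1)(u+1+h)) ≥ 2h/((u+h)(u+1)(u+1+h)) ≥ h/(30M^3)` if
`M ≤ u ≤ 2M`, so one can take `λ = th/(200 M^3)`. (Instead of integrals: concavity, the mean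
value theorem, or explicit logarithms.) `vdc_general` (Vdc.lean) with `a = M+1`, `b = N-h+1`
(if `M < N-h`, otherwise the sum is empty), `k = ⌊th/M^2⌋+1`, `θ = √λ`: the sum is at most
`k(2(1/√λ+1) + 2/√λ) = k(4/√λ + 2)`, `k ≤ th/M^2+1`, `1/√λ = √200 M^(3/2)/√(th)`, and
`(th/M^2)(M√M/√(th)) = √(th/M)`. The hypotheses of `vdc_general` about all `n ≥ a` (antitone,
nonnegative differences) hold for all `n ≥ 1`, the gap hypothesis is needed for `n+1 < b`, so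
`n+1 ≤ 2M`. (Compare the proof of `vdc_second` in Vdc.lean.) About 160 lines. -/
def S_V2 : Prop :=
  ∃ C : ℝ, 0 < C ∧ ∀ (t : ℝ) (M N h : ℕ), 1 ≤ t → 1 ≤ M → M ≤ N → N ≤ 2 * M → 1 ≤ h → h ≤ M →
    ‖∑ n ∈ Ioc M (N - h), ((n + h : ℕ) : ℂ) ^ (-(t * I)) *
      starRingEnd ℂ ((n : ℂ) ^ (-(t * I)))‖ ≤
      C * (√(t * h / M) + t * h / (M : ℝ) ^ 2 + 1 + M * √(M : ℝ) / √(t * h))

/-- **Third derivative test for `n^(-it)`.**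

Uses `S_V1`, `S_V2`. Proof. `H = ⌈M t^(-1/3)⌉₊`: `1 ≤ H`, `M t^(-1/3) ≤ H ≤ M t^(-1/3) + 1 ≤
2M t^(-1/3)` (as `t^(1/3) ≤ M`), and `h < H` implies `h ≤ M t^(-1/3) ≤ M`. `S_V1` with `a = M+1`,
`b = N+1` (`Ioc M N = Ico (M+1) (N+1)`, `Ico (M+1) (N+1-h) = Ioc M (N-h)` as `h ≤ M ≤ N`),
`‖z n‖ = 1`, and `b - a + H ≤ M + 2M = 3M`: by `S_V2`, and `h ≤ H` in the increasing terms,
`∑_{1≤h<H} 1/√h ≤ 2√H`:
`‖S‖^2 ≤ (3M/H)(M + 2C(H√(tH/M) + tH^2/M^2 + H + 2M√M√H/√t))`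
`= 3M^2/H + 6C(M√(tH/M) + tH/M + M + 2M^2√M/√(tH))`, and with the bounds for `H`: `M^2/H ≤ M t^(1/3)`,
`M√(tH/M) ≤ √2 M t^(1/3)`, `tH/M ≤ 2t^(2/3) ≤ 2M t^(1/3)`, `M ≤ M t^(1/3)`,
`M^2√M/√(tH) ≤ M^2 t^(-1/3)`. So `‖S‖^2 ≤ C'(M t^(1/3) + M^2 t^(-1/3))`; take square roots
(`√(x+y) ≤ √x+√y`). About 130 lines. -/
def S_V3 : Prop :=
  ∃ C : ℝ, 0 < C ∧ ∀ (t : ℝ) (M N : ℕ), 1 ≤ t → 1 ≤ M → M ≤ N → N ≤ 2 * M →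
    t ^ (1 / 3 : ℝ) ≤ M →
    ‖∑ n ∈ Ioc M N, (n : ℂ) ^ (-(t * I))‖ ≤
      C * (√(M : ℝ) * t ^ (1 / 6 : ℝ) + M * t ^ (-(1 / 6) : ℝ))

/-- **Van der Corput's bound for zeta on the half line.**

Uses `S_V3`. Proof. `zeta_half_approx` (Half.lean) with `N = ⌊t⌋₊` (if `t ≥ 2`; for `1 ≤ t ≤ 2` use
`N = 1` or continuity): `‖ζ(1/2+it)‖ ≤ C + ‖zsum (1/2+it) N‖`. Let `M₀ = ⌈t^(1/3)⌉₊`; the first part
`‖zsum M₀‖ ≤ 2√M₀ ≤ 4 t^(1/6)` (`half_triv`). The rest is covered by at most `2(1+log t)` blocks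
`(M, min(2M,N)]`, `M = 2^j M₀ < N`. For one block, partial summation (`half_zsum_sub`,
`half_abel_const` as in `half_block`) gives the bound `M^(-1/2) max ‖∑_{M<n≤x} n^(-it)‖`. If
`M ≤ t^(2/3)`: by `S_V3` at most `C(t^(1/6) + √M t^(-1/6)) ≤ 2C t^(1/6)`. If `M > t^(2/3)`: by
`vdc_second` at most `C(√(t/M) + √(M/t)) ≤ C(t^(1/6) + 1)` as `M ≤ t`. About 130 lines. -/
def S_V4 : Prop :=
  ∃ C : ℝ, 0 < C ∧ ∀ t : ℝ, 1 ≤ t →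
    ‖riemannZeta (1 / 2 + t * I)‖ ≤ C * (t ^ (1 / 6 : ℝ) * (1 + Real.log t))

/-! ### Prime sums with the weight `|ζ|^4` -/

/-- **Pairs of primes and the fractions near `(p₂/p₁)^a`.**

Proof. For `x ∈ D` let `u = 1/(x₁x₂)`, `v = (Q₁Q₂)^(-3/8)`, `λ = √W`. If `v ≤ λ√u` then
`uv ≤ λ u^(3/2)`, otherwise `√u < v/λ`, `u < v^2/λ^2` and `uv ≤ v^3/λ^2`. So
`∑_D uv ≤ λ ∑_D (x₁x₂)^(-3/2) + λ^(-2) ∑_D (Q₁Q₂)^(-9/8)`. The first sum is at most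
`(∑_{n>W} n^(-3/2))^2 ≤ (2/√W)^2 = 4/W` (finite parts), the second, `Q` being injective, at most
`(∑_{n ≥ 1} n^(-9/8))^2 ≤ 81`. Total: `4/√W + 81/W ≤ 85/√W`. (Compare `primeweight_pairs`,
`primeweight_three_halves` in PrimeWeight.lean; `∑_{n ≤ M} n^(-9/8) ≤ 9`, or any bound from
summability.) About 120 lines. -/
def S_Prs : Prop :=
  ∃ C : ℝ, 0 < C ∧ ∀ (W : ℕ) (D : Finset (ℕ × ℕ)) (Q : ℕ × ℕ → ℕ × ℕ), 1 ≤ W →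
    (∀ x ∈ D, W < x.1 ∧ W < x.2) → (∀ x ∈ D, 1 ≤ (Q x).1 ∧ 1 ≤ (Q x).2) → Set.InjOn Q D →
    ∑ x ∈ D, 1 / ((x.1 : ℝ) * x.2) * (((Q x).1 : ℝ) * (Q x).2) ^ (-(3 / 8) : ℝ) ≤ C / √(W : ℝ)

/-- **Mean square of `PP N` times a prime sum.**

Proof: exactly as `primeweight_integral` in PrimeWeight.lean, with `PP N (1/2+it)` in place of
`zsum (1/2+it) N` (only the continuity of `t ↦ PP N (1/2+it)` is used). Second part: as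
`primeweight_J_inv`. About 90 lines. -/
def S_Pint : Prop :=
  (∀ (T : ℝ) (N W W' : ℕ) (a : ℝ), 0 ≤ T →
    ∫ t in T..(2 * T), ‖PP N (1 / 2 + t * I)‖ ^ 2 * ‖psum W W' (a * t)‖ ^ 2 ≤
      ∑ x ∈ ((Ioc W W').filter Nat.Prime) ×ˢ ((Ioc W W').filter Nat.Prime),
        1 / ((x.1 : ℝ) * x.2) * ‖JJ T N (((x.2 : ℝ) / x.1) ^ a)‖) ∧
  (∀ (T θ : ℝ) (N : ℕ), 0 ≤ T → 0 < θ → ‖JJ T N θ⁻¹‖ = ‖JJ T N θ‖)

/-- **Summation over the pairs of primes.**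

Uses `S_Prs`, `S_Pint` (second part). Proof, as `primeweight_sum` in PrimeWeight.lean. Let `P` be the
primes in `(W, W']`. The diagonal pairs contribute `B ∑_{p>W} 1/p^2 ≤ B * (1/W) ≤ B/√W` (`θ = 1`). For
`p ≠ q` in `P` the two ordered pairs have `θ` and `θ⁻¹`, so by `‖JJ θ⁻¹‖ = ‖JJ θ‖` the off-diagonal
sum is at most twice the sum over the pairs `x` with `x.1 > x.2` of
`1/(x₁x₂) ‖JJ((x₁/x₂)^a)‖`, `θ_x = (x₁/x₂)^a ∈ [1, W'^a]`. Choose `(q,r) = Q x` with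
`|θ_x q - r| ≤ η` and `‖JJ‖ ≤ B((q r)^(-3/8) + e)`. `Q` is injective on these pairs: if
`Q x = Q y = (q,r)`, `x ≠ y`, then `|θ_x - θ_y| ≤ 2η/q ≤ 2η < a/W'^3`, which contradicts
`primeweight_sep`. By `S_Prs` the sum is at most `B(C/√W + e S^2)` (`∑ 1/(x₁x₂) ≤ S^2`).
About 130 lines. -/
def S_PS : Prop :=
  ∃ C : ℝ, 0 < C ∧ ∀ (T a B η e S : ℝ) (N W W' : ℕ), 0 < a → 0 ≤ T → 0 ≤ B → 0 ≤ e → 1 ≤ W →
    ∑ p ∈ (Ioc W W').filter Nat.Prime, (1 / (p : ℝ)) ≤ S →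
    ‖JJ T N 1‖ ≤ B → 2 * η < a / (W' : ℝ) ^ 3 →
    (∀ θ : ℝ, 1 ≤ θ → θ ≤ (W' : ℝ) ^ a → ∃ q r : ℕ, 1 ≤ q ∧ 1 ≤ r ∧ |θ * q - r| ≤ η ∧
      ‖JJ T N θ‖ ≤ B * (((q : ℝ) * r) ^ (-(3 / 8) : ℝ) + e)) →
    ∑ x ∈ ((Ioc W W').filter Nat.Prime) ×ˢ ((Ioc W W').filter Nat.Prime),
        1 / ((x.1 : ℝ) * x.2) * ‖JJ T N (((x.2 : ℝ) / x.1) ^ a)‖ ≤
      B * (C / √(W : ℝ) + 2 * e * S ^ 2)

/-- **Prime sums with the weight `|ζ|^4`.**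

Uses `S_MV`, `S_CMP`, `S_One`, `S_Pint`, `S_PS`. Proof. `L = log T`, `l = log L`; everything for large
`T`. Choose `N = ⌊T exp(-√L)⌋₊`, `δ = exp(-√L/2)`, `S = 151 l` (`∑_{W<p≤W'} 1/p ≤ 1 + log W' ≤
1 + 150 l`, `primeweight_sum_inv`), so `‖psum W W' u‖ ≤ S` (`primeweight_norm_psum`).
(1) `‖ζ‖^4 ≤ |‖ζ‖^4 - ‖RR‖^2| + ‖RR‖^2` and `‖RR N (1/2+it)‖ ≤ 2‖PP N (1/2+it)‖` (`S_Nrm`:
`‖XX(1/2-it)‖ = 1`, `PP N (1-s) = conj (PP N s)`), so the integral is at most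
`4 ∫ ‖PP‖^2 ‖psum‖^2 + S^2 C T (1+L)^3 √((1+L)(1+log(T/N)))` by `S_CMP`; `log(T/N) ≤ √L + 1`, so the
last term divided by `T L^4` is at most `C' l^2 L^(-1/4)` which is `≤ l^(-K)/2` for large `T`.
(2) `S_Pint` and `S_PS` with `η = 2δ`, `B = C_B T L^4`, `C_B` an absolute constant: `‖JJ T N 1‖ ≤
∫ ‖PP‖^2 ≤ C T (1+log N)^4 ≤ B` by (c) of `S_MV`; for `1 ≤ θ ≤ W'^a ≤ L^(150a)` by `S_One`
`‖JJ T N θ‖ ≤ B((qr)^(-3/8) + √δ (2L)^9 + θ exp(-√L)/δ) ≤ B((qr)^(-3/8) + e)` with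
`e = exp(-√L/4) (2L)^9 + L^(150a) exp(-√L/2)`. `4δ < a/L^450 ≤ a/W'^3` for large `T`. Hence
`4∫ ‖PP‖^2‖psum‖^2/(T L^4) ≤ 4C_B (C/√W + 2 e S^2)` and `8 C_B e S^2 ≤ l^(-K)/2` for large `T`, since
`exp(-√L/4)` is smaller than every power of `L`. (Compare `prime_weight` and
`primeweight_eventually` in PrimeWeight.lean.) The constant of the statement is `4 C_B C`.
About 200 lines. -/
def S_PW : Prop :=
  ∀ (a : ℝ) (K : ℕ), 0 < a → ∃ C : ℝ, 0 < C ∧ ∀ᶠ T : ℝ in atTop,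
    ∀ W W' : ℕ, 2 ≤ W → W < W' → W' ≤ W ^ 2 → (W' : ℝ) ≤ (Real.log T) ^ 150 →
    (∫ t in T..(2 * T), ‖riemannZeta (1 / 2 + t * I)‖ ^ 4 * ‖psum W W' (a * t)‖ ^ 2) /
      (T * Real.log T ^ 4) ≤ C / √W + (Real.log (Real.log T)) ^ (-(K : ℝ))

end Pool.Agent.Lib.MP_aa9ae4_nt.K2
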