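import Mathlib
import Pool.Agent.Lib.MP_aa9ae4_nt.Final
import Pool.Agent.Lib.MP_aa9ae4_nt.K2.SpecC

/-!
MP_aa9ae4_nt, k = 2: the assembly.
-/

namespace Pool.Agent.Lib.MP_aa9ae4_nt.K2

open Finset MeasureTheory Filter Topology
open Complex (I)

/-- the weight -/
noncomputable def fw4 (t : ℝ) : ℝ := ‖riemannZeta (1 / 2 + t * I)‖ ^ 4

/-- the normalisation -/
noncomputable def fn4 (T : ℝ) : ℝ := T * Real.log T ^ 4

lemma fin4_fw_cont : Continuous fw4 := (fin_cont_half.norm).pow 4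

lemma fin4_fw_nonneg (t : ℝ) : 0 ≤ fw4 t := by
  unfold fw4
  positivity

lemma fin4_pow_contOn (a γ T : ℝ) (ha : 0 < a) (hT : 0 < T) :
    ContinuousOn (fun t => fw4 t * ‖fz a t‖ ^ γ) (Set.Icc T (2 * T)) := by
  apply fin4_fw_cont.continuousOn.mul
  intro t ht
  have ht0 : 0 < t := lt_of_lt_of_le hT ht.1
  have h1 : ContinuousAt (fz a) t := fin_fz_contAt a t (by positivity)
  exact (h1.norm.rpow_const (Or.inl (fin_fz_pos a t).ne')).continuousWithinAt

lemma fin4_pow_int (a γ T : ℝ) (ha : 0 < a) (hT : 0 < T) :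
    IntervalIntegrable (fun t => fw4 t * ‖fz a t‖ ^ γ) volume T (2 * T) := by
  apply ContinuousOn.intervalIntegrable
  rw [Set.uIcc_of_le (by linarith)]
  exact fin4_pow_contOn a γ T ha hT

/-- bounds on the exceptional set -/
lemma fin4_bad (hV4 : S_V4) (a γ : ℝ) (ha : 0 < a) : ∃ K r : ℝ, 0 < K ∧ 0 < r ∧ ∀ᶠ T : ℝ in atTop,
    ∀ t ∈ Set.Icc T (2 * T), fw4 t * |‖fz a t‖ ^ (-γ) - ‖eul 0 ⌊(Real.log T) ^ 150⌋₊ (a * t)‖ ^ γ| ≤
      K * (Real.log T) ^ r * T ^ (2 / 3 : ℝ) := by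
  obtain ⟨Ch, hCh, hhalf⟩ := hV4
  obtain ⟨Cu, hCu, hup⟩ := zeta_one_upper
  obtain ⟨cl, hcl, hlow⟩ := zeta_one_lower
  obtain ⟨C1, hC1p, hC1⟩ := sp_log_bound
  set g := |γ| with hg
  have hg0 : 0 ≤ g := abs_nonneg γ
  set A := (Cu + cl⁻¹ + 1) with hA
  have hApos : 0 < A := by positivity
  refine ⟨(256 * Ch ^ 4) * (A ^ g * 4 ^ (7 * g) + Real.exp (g * C1)), 150 * g + 1 + 4, by positivity,
    by positivity, ?_⟩
  filter_upwards [fin_log_mul a ha, Real.tendsto_log_atTop.eventually_ge_atTop 8,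
    (tendsto_id.const_mul_atTop ha).eventually_ge_atTop 2, eventually_ge_atTop (1 : ℝ)] with
    T hT h8 hT2 hT1 t ht
  simp only [id] at hT2
  have ht1 : 1 ≤ t := hT1.trans ht.1
  set x := Real.log T with hx
  have hx0 : 0 < x := by linarith
  have hat : 2 ≤ a * t := hT2.trans (mul_le_mul_of_nonneg_left ht.1 ha.le)
  -- the weight
  have hw : fw4 t ≤ (256 * Ch ^ 4) * (x ^ 4 * T ^ (2 / 3 : ℝ)) := by
    have h1 := hhalf t ht1
    have hT0 : 0 < T := by linarith
    have h2 : t ^ (1 / 6 : ℝ) ≤ 2 * T ^ (1 / 6 : ℝ) := by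
      calc t ^ (1 / 6 : ℝ) ≤ (2 * T) ^ (1 / 6 : ℝ) :=
            Real.rpow_le_rpow (by linarith) ht.2 (by norm_num)
        _ = 2 ^ (1 / 6 : ℝ) * T ^ (1 / 6 : ℝ) := Real.mul_rpow (by norm_num) hT0.le
        _ ≤ 2 * T ^ (1 / 6 : ℝ) := by
            apply mul_le_mul_of_nonneg_right _ (by positivity)
            calc (2 : ℝ) ^ (1 / 6 : ℝ) ≤ 2 ^ (1 : ℝ) :=
                  Real.rpow_le_rpow_of_exponent_le (by norm_num) (by norm_num)
              _ = 2 := by norm_num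
    have h3 : 1 + Real.log t ≤ 2 * x := by
      have h4 : Real.log t ≤ Real.log (2 * T) := Real.log_le_log (by linarith) ht.2
      rw [Real.log_mul (by norm_num) hT0.ne'] at h4
      have h5 := Real.log_two_lt_d9
      linarith
    have hlt : 0 ≤ Real.log t := Real.log_nonneg ht1
    have h4 : ‖riemannZeta (1 / 2 + t * I)‖ ≤ Ch * (2 * T ^ (1 / 6 : ℝ) * (2 * x)) := by
      refine h1.trans (mul_le_mul_of_nonneg_left ?_ hCh.le)
      exact mul_le_mul h2 h3 (by linarith) (by positivity)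
    have h5 : fw4 t ≤ (Ch * (2 * T ^ (1 / 6 : ℝ) * (2 * x))) ^ 4 :=
      pow_le_pow_left₀ (norm_nonneg _) h4 4
    refine h5.trans (le_of_eq ?_)
    have h6 : (T ^ (1 / 6 : ℝ)) ^ 4 = T ^ (2 / 3 : ℝ) := by
      rw [← Real.rpow_natCast, ← Real.rpow_mul hT0.le]
      norm_num
    rw [← h6]
    ring
  -- logarithm of `a t`
  have hlogat0 : 0 < Real.log (a * t) := Real.log_pos (by linarith)
  have hlogat : Real.log (a * t) ≤ 4 * x := by
    have h1 : Real.log (a * t) ≤ Real.log (2 * (a * T)) := by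
      apply Real.log_le_log (by linarith)
      have := mul_le_mul_of_nonneg_left ht.2 ha.le
      linarith
    rw [Real.log_mul (x := 2) (y := a * T) (by norm_num) (by linarith)] at h1
    have h2 : Real.log 2 ≤ 1 := by
      have := Real.log_two_lt_d9
      linarith
    linarith [hT.2]
  -- zeta on the one line
  have hZu := hup (a * t) hat
  have hZl := hlow (a * t) hat
  have hfz : ‖fz a t‖ = ‖riemannZeta (1 + ((a * t : ℝ) : ℂ) * I)‖ := rfl
  rw [← hfz] at hZu hZl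
  have h4x : 1 ≤ 4 * x := by linarith
  have hZpow : ‖fz a t‖ ^ (-γ) ≤ A ^ g * (4 * x) ^ (7 * g) := by
    have hb : |Real.log ‖fz a t‖| ≤ Real.log (A * (4 * x) ^ (7 : ℝ)) := by
      have hp7 : 1 ≤ (4 * x) ^ (7 : ℝ) := Real.one_le_rpow h4x (by norm_num)
      have hx7 : 4 * x ≤ (4 * x) ^ (7 : ℝ) := by
        calc 4 * x = (4 * x) ^ (1 : ℝ) := (Real.rpow_one _).symm
          _ ≤ (4 * x) ^ (7 : ℝ) := Real.rpow_le_rpow_of_exponent_le h4x (by norm_num)
      rw [abs_le]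
      constructor
      · rw [neg_le, ← Real.log_inv]
        apply Real.log_le_log (inv_pos.mpr (fin_fz_pos a t))
        rw [inv_le_comm₀ (fin_fz_pos a t) (by positivity)]
        refine le_trans ?_ hZl
        have h1 : (4 * x) ^ (-7 : ℝ) ≤ Real.log (a * t) ^ (-7 : ℝ) :=
          Real.rpow_le_rpow_of_nonpos hlogat0 hlogat (by norm_num)
        have h2 : (A * (4 * x) ^ (7 : ℝ))⁻¹ ≤ cl * (4 * x) ^ (-7 : ℝ) := by
          rw [mul_inv, ← Real.rpow_neg (by linarith)]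
          apply mul_le_mul_of_nonneg_right _ (by positivity)
          rw [inv_le_comm₀ hApos hcl, hA]
          linarith
        exact h2.trans (mul_le_mul_of_nonneg_left h1 hcl.le)
      · apply Real.log_le_log (fin_fz_pos a t)
        calc ‖fz a t‖ ≤ Cu * Real.log (a * t) := hZu
          _ ≤ A * (4 * x) ^ (7 : ℝ) := by
            apply mul_le_mul _ (hlogat.trans hx7) hlogat0.le hApos.le
            rw [hA]
            have : 0 < cl⁻¹ := inv_pos.mpr hcl
            linarith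
    have h1 := sp_rpow_le _ (-γ) _ (fin_fz_pos a t) hb
    rw [abs_neg, ← hg, mul_comm, Real.exp_mul, Real.exp_log (by positivity),
      Real.mul_rpow hApos.le (by positivity), ← Real.rpow_mul (by linarith)] at h1
    exact h1
  -- the Euler product
  have hz2 : 2 ≤ ⌊x ^ 150⌋₊ := by
    apply Nat.le_floor
    have : (8 : ℝ) ^ 150 ≤ x ^ 150 := pow_le_pow_left₀ (by norm_num) h8 150
    norm_num at this ⊢
    linarith
  have hzle : (⌊x ^ 150⌋₊ : ℝ) ≤ x ^ 150 := Nat.floor_le (by positivity)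
  have hEpow : ‖eul 0 ⌊x ^ 150⌋₊ (a * t)‖ ^ γ ≤ Real.exp (g * C1) * x ^ (150 * g) := by
    have h1 := sp_rpow_le _ γ _ (sp_eul_pos 0 ⌊x ^ 150⌋₊ (a * t)) (hC1 _ hz2 (a * t))
    refine h1.trans ?_
    have hzr : (2 : ℝ) ≤ (⌊x ^ 150⌋₊ : ℝ) := by exact_mod_cast hz2
    have h2 : Real.log (⌊x ^ 150⌋₊ : ℝ) + 1 ≤ x ^ 150 := by
      have := Real.log_le_sub_one_of_pos (show (0 : ℝ) < (⌊x ^ 150⌋₊ : ℝ) by linarith)
      linarith
    have h3 : 0 ≤ Real.log (⌊x ^ 150⌋₊ : ℝ) := Real.log_nonneg (by linarith)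
    rw [← hg, mul_add, Real.exp_add, mul_comm]
    apply mul_le_mul_of_nonneg_left _ (Real.exp_pos _).le
    rw [mul_comm, Real.exp_mul, Real.exp_log (by linarith)]
    calc (Real.log (⌊x ^ 150⌋₊ : ℝ) + 1) ^ g ≤ (x ^ 150) ^ g :=
          Real.rpow_le_rpow (by linarith) h2 hg0
      _ = x ^ (150 * g) := by
          rw [← Real.rpow_natCast, ← Real.rpow_mul hx0.le]
          norm_num
  have hx1 : 1 ≤ x := by linarith
  have hZ2 : A ^ g * (4 * x) ^ (7 * g) ≤ A ^ g * 4 ^ (7 * g) * x ^ (150 * g + 1) := by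
    rw [Real.mul_rpow (by norm_num) hx0.le, mul_assoc]
    apply mul_le_mul_of_nonneg_left _ (by positivity)
    apply mul_le_mul_of_nonneg_left _ (by positivity)
    exact Real.rpow_le_rpow_of_exponent_le hx1 (by linarith)
  have hE2 : Real.exp (g * C1) * x ^ (150 * g) ≤ Real.exp (g * C1) * x ^ (150 * g + 1) := by
    apply mul_le_mul_of_nonneg_left _ (by positivity)
    exact Real.rpow_le_rpow_of_exponent_le hx1 (by linarith)
  have habs : |‖fz a t‖ ^ (-γ) - ‖eul 0 ⌊x ^ 150⌋₊ (a * t)‖ ^ γ| ≤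
      (A ^ g * 4 ^ (7 * g) + Real.exp (g * C1)) * x ^ (150 * g + 1) := by
    have h1 : 0 ≤ ‖fz a t‖ ^ (-γ) := by positivity
    have h2 : 0 ≤ ‖eul 0 ⌊x ^ 150⌋₊ (a * t)‖ ^ γ := by positivity
    rw [abs_le]
    constructor <;> nlinarith
  calc fw4 t * |‖fz a t‖ ^ (-γ) - ‖eul 0 ⌊x ^ 150⌋₊ (a * t)‖ ^ γ| ≤
      ((256 * Ch ^ 4) * (x ^ 4 * T ^ (2 / 3 : ℝ))) *
        ((A ^ g * 4 ^ (7 * g) + Real.exp (g * C1)) * x ^ (150 * g + 1)) :=
        mul_le_mul hw habs (abs_nonneg _) (by positivity)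
    _ = (256 * Ch ^ 4) * (A ^ g * 4 ^ (7 * g) + Real.exp (g * C1)) *
        x ^ (150 * g + 1 + 4) * T ^ (2 / 3 : ℝ) := by
        have h1 : x ^ (150 * g + 1 + 4) = x ^ (150 * g + 1) * x ^ 4 := by
          rw [Real.rpow_add hx0]
          congr 1
          exact_mod_cast Real.rpow_natCast x 4
        rw [h1]
        ring

lemma fin4_error_limit (K r a : ℝ) (ha : 0 < a) : Tendsto (fun T : ℝ =>
    (K * (Real.log T) ^ r * T ^ (2 / 3 : ℝ) * (a⁻¹ * (a * T) ^ (1 / 9 : ℝ))) / fn4 T)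
    atTop (𝓝 0) := by
  have h1 := (isLittleO_log_rpow_rpow_atTop (s := 2 / 9) (r - 4) (by norm_num)).tendsto_div_nhds_zero
  have h2 := h1.const_mul (K * (a⁻¹ * a ^ (1 / 9 : ℝ)))
  rw [mul_zero] at h2
  refine h2.congr' ?_
  filter_upwards [eventually_gt_atTop (1 : ℝ)] with T hT
  have hT0 : 0 < T := by linarith
  have hx : 0 < Real.log T := Real.log_pos hT
  unfold fn4
  rw [Real.mul_rpow ha.le hT0.le, Real.rpow_sub hx]
  have e4 : Real.log T ^ (4 : ℝ) = Real.log T ^ 4 := by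
    exact_mod_cast Real.rpow_natCast (Real.log T) 4
  rw [e4]
  have e : T ^ (2 / 3 : ℝ) * T ^ (1 / 9 : ℝ) * T ^ (2 / 9 : ℝ) = T := by
    rw [← Real.rpow_add hT0, ← Real.rpow_add hT0]
    norm_num
  have hp : 0 < T ^ (2 / 9 : ℝ) := by positivity
  rw [div_div, mul_div_assoc', div_eq_div_iff (by positivity) (by positivity)]
  linear_combination (-(K * (a⁻¹ * a ^ (1 / 9 : ℝ)) * Real.log T ^ r * Real.log T ^ 4)) * e

lemma fin4_cont_E (z : ℕ) (a γ : ℝ) : Continuous fun t => fw4 t * ‖eul 0 z (a * t)‖ ^ γ :=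
  fin4_fw_cont.mul (sp_cont_eul 0 z a γ)

lemma fin4_diff_int (a γ T : ℝ) (z : ℕ) (ha : 0 < a) (hT : 0 < T) :
    IntervalIntegrable (fun t => fw4 t * |‖fz a t‖ ^ (-γ) - ‖eul 0 z (a * t)‖ ^ γ|)
      volume T (2 * T) := by
  apply ContinuousOn.intervalIntegrable
  rw [Set.uIcc_of_le (by linarith)]
  apply fin4_fw_cont.continuousOn.mul
  apply ContinuousOn.abs
  apply ContinuousOn.sub
  · intro t ht
    have ht0 : 0 < t := lt_of_lt_of_le hT ht.1
    have h1 : ContinuousAt (fz a) t := fin_fz_contAt a t (by positivity)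
    exact (h1.norm.rpow_const (Or.inl (fin_fz_pos a t).ne')).continuousWithinAt
  · exact (sp_cont_eul 0 z a γ).continuousOn

lemma fin4_stepA (hV4 : S_V4) (a γ ε : ℝ) (ha : 0 < a) (hε : 0 < ε) : ∀ᶠ T : ℝ in atTop,
    (∫ t in T..(2 * T), fw4 t * |‖fz a t‖ ^ (-γ) - ‖eul 0 ⌊(Real.log T) ^ 150⌋₊ (a * t)‖ ^ γ|) /
      fn4 T ≤
    ε * ((∫ t in T..(2 * T), fw4 t * ‖eul 0 ⌊(Real.log T) ^ 150⌋₊ (a * t)‖ ^ γ) / fn4 T) + ε := by
  obtain ⟨δ, hδ, hgood⟩ := fin_good γ ε hε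
  obtain ⟨K, r, hK, hr, hbad⟩ := fin4_bad hV4 a γ ha
  have hlog : ∀ᶠ T : ℝ in atTop, 1 / Real.log (a * T) ≤ δ := by
    have h1 : Tendsto (fun T : ℝ => 1 / Real.log (a * T)) atTop (𝓝 0) :=
      (Real.tendsto_log_atTop.comp (tendsto_id.const_mul_atTop ha)).const_div_atTop 1
    exact (h1.eventually (gt_mem_nhds hδ)).mono fun _ h => h.le
  filter_upwards [hlog, hbad, fin_exc_vol a ha, eventually_gt_atTop (1 : ℝ),
    (fin4_error_limit K r a ha).eventually (gt_mem_nhds hε)] with T hT1 hT2 hT3 hT4 hT5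
  have hT0 : 0 < T := by linarith
  have hx : 0 < Real.log T := Real.log_pos hT4
  have hfn : 0 < fn4 T := mul_pos hT0 (pow_pos hx 4)
  set z := ⌊(Real.log T) ^ 150⌋₊ with hz
  set P := K * (Real.log T) ^ r * T ^ (2 / 3 : ℝ) with hP
  have hP0 : 0 ≤ P := by positivity
  have hle : T ≤ 2 * T := by linarith
  have hpt : ∀ t ∈ Set.Icc T (2 * T), fw4 t * |‖fz a t‖ ^ (-γ) - ‖eul 0 z (a * t)‖ ^ γ| ≤
      ε * (fw4 t * ‖eul 0 z (a * t)‖ ^ γ) + (fexc a T z).indicator (fun _ => P) t := by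
    intro t ht
    by_cases hmem : t ∈ fexc a T z
    · rw [Set.indicator_of_mem hmem]
      have h1 : 0 ≤ ε * (fw4 t * ‖eul 0 z (a * t)‖ ^ γ) := by
        have := fin4_fw_nonneg t
        positivity
      linarith [hT2 t ht]
    · rw [Set.indicator_of_notMem hmem, add_zero]
      have h1 : ‖fz a t * eul 0 z (a * t) - 1‖ ≤ δ := by
        have : ¬ (1 / Real.log (a * T) < ‖fz a t * eul 0 z (a * t) - 1‖) :=
          fun h => hmem ⟨ht, h⟩
        push Not at this
        exact this.trans hT1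
      have h2 := hgood _ _ (fin_fz_ne a t) (sp_eul_ne 0 z (a * t)) h1
      have h3 := mul_le_mul_of_nonneg_left h2 (fin4_fw_nonneg t)
      linarith
  have hmeas := fin_exc_meas a T z ha hT0
  have hvol : (volume (fexc a T z)).toReal ≤ a⁻¹ * (a * T) ^ (1 / 9 : ℝ) := by
    have h1 : 0 ≤ a⁻¹ * (a * T) ^ (1 / 9 : ℝ) := by positivity
    exact ENNReal.toReal_le_of_le_ofReal h1 hT3
  have hfin : volume (fexc a T z) ≠ ⊤ := (hT3.trans_lt ENNReal.ofReal_lt_top).ne
  have hindi : Integrable ((fexc a T z).indicator (fun _ => P)) volume := by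
    rw [integrable_indicator_iff hmeas]
    exact integrableOn_const hfin
  have hint : ∫ t in T..(2 * T), fw4 t * |‖fz a t‖ ^ (-γ) - ‖eul 0 z (a * t)‖ ^ γ| ≤
      ∫ t in T..(2 * T), (ε * (fw4 t * ‖eul 0 z (a * t)‖ ^ γ) +
        (fexc a T z).indicator (fun _ => P) t) := by
    apply intervalIntegral.integral_mono_on hle (fin4_diff_int a γ T z ha hT0)
    · exact ((continuous_const.mul (fin4_cont_E z a γ)).intervalIntegrable _ _).add
        hindi.intervalIntegrable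
    · exact hpt
  have hEint : IntervalIntegrable (fun t => ε * (fw4 t * ‖eul 0 z (a * t)‖ ^ γ)) volume T (2 * T) :=
    (continuous_const.mul (fin4_cont_E z a γ)).intervalIntegrable _ _
  rw [intervalIntegral.integral_add hEint hindi.intervalIntegrable,
    intervalIntegral.integral_const_mul] at hint
  have hindint : ∫ t in T..(2 * T), (fexc a T z).indicator (fun _ => P) t ≤
      P * (a⁻¹ * (a * T) ^ (1 / 9 : ℝ)) := by
    rw [intervalIntegral.integral_of_le hle]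
    calc ∫ t in Set.Ioc T (2 * T), (fexc a T z).indicator (fun _ => P) t
        ≤ ∫ t, (fexc a T z).indicator (fun _ => P) t := by
          apply setIntegral_le_integral hindi
          exact Eventually.of_forall fun t => Set.indicator_nonneg (fun _ _ => hP0) t
      _ = P * (volume (fexc a T z)).toReal := by
          rw [integral_indicator hmeas, setIntegral_const, smul_eq_mul, mul_comm]
          rfl
      _ ≤ P * (a⁻¹ * (a * T) ^ (1 / 9 : ℝ)) := mul_le_mul_of_nonneg_left hvol hP0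
  have htot := div_le_div_of_nonneg_right (hint.trans (add_le_add le_rfl hindint)) hfn.le
  rw [add_div, mul_div_assoc] at htot
  linarith

/-- the quotient studied -/
noncomputable def fG4 (a γ T : ℝ) : ℝ := (∫ t in T..(2 * T), fw4 t * ‖fz a t‖ ^ (-γ)) / fn4 T

lemma fin4_fn_pos : ∀ᶠ T : ℝ in atTop, 0 < fn4 T := by
  filter_upwards [eventually_gt_atTop (1 : ℝ)] with T hT
  exact mul_pos (by linarith) (pow_pos (Real.log_pos hT) 4)

lemma fin4_diff_abs (F G : ℝ → ℝ) (T : ℝ) (hT : 0 ≤ T) (hn : 0 < fn4 T)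
    (hF : IntervalIntegrable (fun t => fw4 t * F t) volume T (2 * T))
    (hG : IntervalIntegrable (fun t => fw4 t * G t) volume T (2 * T)) :
    |(∫ t in T..(2 * T), fw4 t * F t) / fn4 T - (∫ t in T..(2 * T), fw4 t * G t) / fn4 T| ≤
      (∫ t in T..(2 * T), fw4 t * |F t - G t|) / fn4 T := by
  have hle : T ≤ 2 * T := by linarith
  rw [← sub_div, abs_div, abs_of_pos hn, ← intervalIntegral.integral_sub hF hG]
  apply div_le_div_of_nonneg_right _ hn.le
  refine (intervalIntegral.abs_integral_le_integral_abs hle).trans (le_of_eq ?_)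
  congr 1
  ext t
  rw [← mul_sub, abs_mul, abs_of_nonneg (fin4_fw_nonneg t)]

lemma fin4_close (hV4 : S_V4) (hTwL : S_TwL) (hPW : S_PW) (a γ η : ℝ) (ha : 0 < a) (hη : 0 < η) : ∃ D : ℝ, ∀ᶠ T : ℝ in atTop,
    |fG4 a γ T - D| ≤ η := by
  obtain ⟨D₀, hD₀, hml⟩ := hTwL.2
  have hmass : ∃ C : ℝ, ∀ᶠ T : ℝ in atTop, (∫ t in T..(2 * T), fw4 t) / fn4 T ≤ C :=
    ⟨D₀ + 1, (hml.eventually (gt_mem_nhds (show D₀ < D₀ + 1 by linarith))).mono
      fun _ h => h.le⟩
  have hsp := small_primes fw4 fn4 fin4_fw_nonneg fin4_fw_cont fin4_fn_pos hmass a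
    (fun K => hPW a K ha) γ (η / 4) (by linarith)
  obtain ⟨y, hy⟩ := hsp
  have hy' := hy y le_rfl
  obtain ⟨D, hD⟩ := torus_limit fw4 fn4 fin4_fw_nonneg fin4_fw_cont fin4_fn_pos
    (fun θ hθ => hTwL.1 θ hθ) a y γ
  refine ⟨D, ?_⟩
  set ε := η / (4 * (|D| + η + 2)) with hεd
  have hden : 0 < 4 * (|D| + η + 2) := by positivity
  have hε : 0 < ε := by positivity
  have hDη := hD.eventually (Metric.closedBall_mem_nhds D (show 0 < η / 4 by linarith))
  filter_upwards [hy', hDη, fin4_stepA hV4 a γ ε ha hε, fin4_fn_pos, eventually_gt_atTop (0 : ℝ)] with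
    T h1 h2 h3 h4 h5
  rw [Real.dist_eq] at h2
  set z := ⌊(Real.log T) ^ 150⌋₊ with hz
  set Ez := (∫ t in T..(2 * T), fw4 t * ‖eul 0 z (a * t)‖ ^ γ) / fn4 T with hEz
  set Ey := (∫ t in T..(2 * T), fw4 t * ‖eul 0 y (a * t)‖ ^ γ) / fn4 T with hEy
  have h6 : |Ez - Ey| ≤ η / 4 :=
    (fin4_diff_abs _ _ T h5.le h4 ((fin4_cont_E z a γ).intervalIntegrable _ _)
      ((fin4_cont_E y a γ).intervalIntegrable _ _)).trans h1
  have h7 : |fG4 a γ T - Ez| ≤ ε * Ez + ε :=
    (fin4_diff_abs _ _ T h5.le h4 (fin4_pow_int a (-γ) T ha h5)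
      ((fin4_cont_E z a γ).intervalIntegrable _ _)).trans h3
  have h8 : Ez ≤ |D| + η / 2 := by
    have := le_abs_self D
    have := (abs_le.mp h6).2
    have := (abs_le.mp h2).2
    linarith
  have h9 : ε * Ez + ε ≤ η / 4 := by
    have h10 : ε * Ez + ε ≤ ε * (|D| + η + 2) := by nlinarith
    have h11 : ε * (|D| + η + 2) = η / 4 := by
      rw [hεd]
      field_simp
    linarith
  calc |fG4 a γ T - D| = |(fG4 a γ T - Ez) + (Ez - Ey) + (Ey - D)| := by ring_nf
    _ ≤ |fG4 a γ T - Ez| + |Ez - Ey| + |Ey - D| := abs_add_three _ _ _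
    _ ≤ η := by linarith

theorem fin4_limit (hV4 : S_V4) (hTwL : S_TwL) (hPW : S_PW) (a γ : ℝ) (ha : 0 < a) : ∃ D : ℝ, Tendsto (fG4 a γ) atTop (𝓝 D) :=
  fin_conv _ fun η hη => fin4_close hV4 hTwL hPW a γ η ha hη

/-- Cauchy-Schwarz gives positivity of the limits -/
lemma fin4_cs (a γ T : ℝ) (ha : 0 < a) (hT : 0 < T) (hn : 0 < fn4 T) :
    ((∫ t in T..(2 * T), fw4 t) / fn4 T) ^ 2 ≤ fG4 a γ T * fG4 a (-γ) T := by
  have hle : T ≤ 2 * T := by linarith
  set A := ∫ t in T..(2 * T), fw4 t with hA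
  set B := ∫ t in T..(2 * T), fw4 t * ‖fz a t‖ ^ (-γ) with hB
  set C := ∫ t in T..(2 * T), fw4 t * ‖fz a t‖ ^ (-(-γ)) with hC
  have hBi := fin4_pow_int a (-γ) T ha hT
  have hCi := fin4_pow_int a (-(-γ)) T ha hT
  have hAi : IntervalIntegrable fw4 volume T (2 * T) := fin4_fw_cont.intervalIntegrable _ _
  have hB0 : 0 ≤ B := intervalIntegral.integral_nonneg hle fun t _ => by
    have := fin4_fw_nonneg t
    positivity
  have hC0 : 0 ≤ C := intervalIntegral.integral_nonneg hle fun t _ => by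
    have := fin4_fw_nonneg t
    positivity
  have hA0 : 0 ≤ A := intervalIntegral.integral_nonneg hle fun t _ => fin4_fw_nonneg t
  -- for every positive s : 2 A ≤ s B + C / s
  have key : ∀ s : ℝ, 0 < s → 2 * A ≤ s * B + s⁻¹ * C := by
    intro s hs
    have h1 : ∫ t in T..(2 * T), 2 * fw4 t ≤
        ∫ t in T..(2 * T), (s * (fw4 t * ‖fz a t‖ ^ (-γ)) + s⁻¹ * (fw4 t * ‖fz a t‖ ^ (-(-γ)))) := by
      apply intervalIntegral.integral_mono_on hle (hAi.const_mul 2)
        ((hBi.const_mul s).add (hCi.const_mul s⁻¹))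
      intro t _
      have hp : 0 < ‖fz a t‖ ^ (-γ) := by
        have := fin_fz_pos a t
        positivity
      have hinv : ‖fz a t‖ ^ (-(-γ)) = (‖fz a t‖ ^ (-γ))⁻¹ := by
        rw [Real.rpow_neg (fin_fz_pos a t).le (-γ)]
      rw [hinv]
      set x := ‖fz a t‖ ^ (-γ) with hx
      have h2 : 2 ≤ s * x + s⁻¹ * x⁻¹ := by
        have hsx : 0 < s * x := by positivity
        have h3 : s * x + s⁻¹ * x⁻¹ - 2 = (s * x - 1) ^ 2 / (s * x) := by
          field_simp
          ring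
        have h4 : 0 ≤ (s * x - 1) ^ 2 / (s * x) := by positivity
        linarith
      have h5 := mul_le_mul_of_nonneg_left h2 (fin4_fw_nonneg t)
      linarith
    rw [intervalIntegral.integral_const_mul, intervalIntegral.integral_add (hBi.const_mul s)
      (hCi.const_mul s⁻¹), intervalIntegral.integral_const_mul,
      intervalIntegral.integral_const_mul] at h1
    exact h1
  have hsq : A ^ 2 ≤ B * C := by
    rcases eq_or_lt_of_le hA0 with hA' | hA'
    · rw [← hA']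
      have := mul_nonneg hB0 hC0
      simpa using this
    · by_cases hBz : B = 0
      · exfalso
        have h1 := key ((C + 1) / A) (by positivity)
        rw [hBz, mul_zero, zero_add, inv_div] at h1
        have h2 : A / (C + 1) * C ≤ A := by
          rw [div_mul_eq_mul_div, div_le_iff₀ (by linarith)]
          nlinarith
        linarith
      · have hBp : 0 < B := lt_of_le_of_ne hB0 (Ne.symm hBz)
        have h1 := key (A / B) (by positivity)
        rw [div_mul_cancel₀ _ hBz, inv_div] at h1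
        have h2 : A ≤ B / A * C := by linarith
        rw [div_mul_eq_mul_div, le_div_iff₀ hA'] at h2
        nlinarith
  unfold fG4
  rw [← hB, ← hC, div_pow, div_mul_div_comm, ← sq]
  exact div_le_div_of_nonneg_right hsq (by positivity)

theorem fin4_pos (hV4 : S_V4) (hTwL : S_TwL) (hPW : S_PW) (a γ D : ℝ) (ha : 0 < a) (hD : Tendsto (fG4 a γ) atTop (𝓝 D)) : 0 < D := by
  obtain ⟨D', hD'⟩ := fin4_limit hV4 hTwL hPW a (-γ) ha
  obtain ⟨D₀, hD₀, hml⟩ := hTwL.2
  have h1 : Tendsto (fun T => ((∫ t in T..(2 * T), fw4 t) / fn4 T) ^ 2) atTop (𝓝 (D₀ ^ 2)) :=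
    hml.pow 2
  have h2 := hD.mul hD'
  have h3 : D₀ ^ 2 ≤ D * D' := by
    apply le_of_tendsto_of_tendsto h1 h2
    filter_upwards [fin4_fn_pos, eventually_gt_atTop (0 : ℝ)] with T hT1 hT2
    exact fin4_cs a γ T ha hT2 hT1
  have h4 : 0 ≤ D := by
    apply ge_of_tendsto hD
    filter_upwards [fin4_fn_pos, eventually_gt_atTop (0 : ℝ)] with T hT1 hT2
    apply div_nonneg _ hT1.le
    apply intervalIntegral.integral_nonneg (by linarith)
    intro t _
    have := fin4_fw_nonneg t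
    positivity
  rcases eq_or_lt_of_le h4 with h5 | h5
  · rw [← h5, zero_mul] at h3
    have := pow_pos hD₀ 2
    linarith
  · exact h5

/-- **Main theorem**: the asymptotic formula for `k = 2`, `σ = 1` and all positive `a`. -/
theorem main4 (hV4 : S_V4) (hTwL : S_TwL) (hPW : S_PW) (a β : ℝ) (ha : 0 < a) :
    ∃ D : ℝ, 0 < D ∧ Tendsto (fun T : ℝ => (∫ t in T..(2 * T),
      (‖riemannZeta (1 / 2 + t * I)‖ / ‖riemannZeta (1 + a * t * I)‖ ^ β) ^ 4) /
      (T * Real.log T ^ 4)) atTop (𝓝 D) := by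
  obtain ⟨D, hD⟩ := fin4_limit hV4 hTwL hPW a (4 * β) ha
  refine ⟨D, fin4_pos hV4 hTwL hPW a (4 * β) D ha hD, ?_⟩
  refine hD.congr fun T => ?_
  unfold fG4 fn4
  congr 2
  ext t
  have e : fz a t = riemannZeta (1 + a * t * I) := by
    unfold fz
    push_cast
    ring_nf
  rw [← e]
  unfold fw4
  have hp := fin_fz_pos a t
  rw [div_pow, Real.rpow_neg hp.le, div_eq_mul_inv]
  congr 2
  rw [← Real.rpow_natCast (‖fz a t‖ ^ β) 4, ← Real.rpow_mul hp.le, mul_comm β]
  norm_num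

end Pool.Agent.Lib.MP_aa9ae4_nt.K2
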