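import Mathlib
import Pool.Agent.Lib.MP_aa9ae4_nt.K2.SpecB

/-!
MP_aa9ae4_nt, k = 2: the asymptotic formula for `∑ d(rl) d(sl)/l`.
-/

namespace Pool.Agent.Lib.MP_aa9ae4_nt.K2

open Finset MeasureTheory Filter Topology
open Complex (I)

/-- all prime factors of `a` divide `Q` -/
private def Sp (Q a : ℕ) : Prop := 1 ≤ a ∧ ∀ p, p.Prime → p ∣ a → p ∣ Q

private theorem Sp_ex (Q : ℕ) : ∀ l, 1 ≤ l → ∃ a, Sp Q a ∧ a ∣ l ∧ Nat.Coprime (l / a) Q := by
  intro l
  induction l using Nat.strong_induction_on with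
  | _ l ih =>
    intro hl
    by_cases hc : Nat.Coprime l Q
    · exact ⟨1, ⟨le_rfl, fun p hp h => absurd (Nat.dvd_one.1 h) hp.one_lt.ne'⟩, one_dvd _,
        by simpa using hc⟩
    · obtain ⟨p, hp, hpl, hpQ⟩ := Nat.Prime.not_coprime_iff_dvd.1 hc
      obtain ⟨k, rfl⟩ := hpl
      have hk : 1 ≤ k := Nat.pos_of_ne_zero (by rintro rfl; omega)
      have hlt : k < p * k := by
        have := hp.two_le
        nlinarith
      obtain ⟨a, ha, hak, hc'⟩ := ih k hlt hk
      refine ⟨p * a, ⟨Nat.mul_pos hp.pos ha.1, ?_⟩, Nat.mul_dvd_mul_left p hak, ?_⟩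
      · intro q hq h
        rcases (Nat.Prime.dvd_mul hq).1 h with h | h
        · rw [(Nat.prime_dvd_prime_iff_eq hq hp).1 h]
          exact hpQ
        · exact ha.2 q hq h
      · rw [Nat.mul_div_mul_left _ _ hp.pos]
        exact hc'

private theorem Sp_cop {Q a b : ℕ} (h : Sp Q a) (hb : Nat.Coprime b Q) : Nat.Coprime a b := by
  by_contra hc
  obtain ⟨p, hp, hpa, hpb⟩ := Nat.Prime.not_coprime_iff_dvd.1 hc
  exact Nat.Prime.not_coprime_iff_dvd.2 ⟨p, hp, hpb, h.2 p hp hpa⟩ hb

private theorem Sp_uniq {Q l a a' : ℕ} (h1 : Sp Q a) (h2 : a ∣ l) (h3 : Nat.Coprime (l / a) Q)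
    (h1' : Sp Q a') (h2' : a' ∣ l) (h3' : Nat.Coprime (l / a') Q) : a = a' := by
  refine Nat.dvd_antisymm ?_ ?_
  · have h4 : a ∣ l / a' * a' := by
      rw [Nat.div_mul_cancel h2']
      exact h2
    exact (Sp_cop h1 h3').dvd_of_dvd_mul_left h4
  · have h4 : a' ∣ l / a * a := by
      rw [Nat.div_mul_cancel h2]
      exact h2'
    exact (Sp_cop h1' h3).dvd_of_dvd_mul_left h4

open Classical in
/-- the weight of the part of `l` composed of primes dividing `r s` -/
private noncomputable def ww (r s a : ℕ) : ℝ :=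
  if Sp (r * s) a then dv (r * a) * dv (s * a) / a else 0

private noncomputable def DD (Q y : ℕ) : ℝ := ∑ b ∈ Icc 1 y, hq Q b * dv b ^ 2 / b

private theorem dv_nn (n : ℕ) : 0 ≤ dv n := Nat.cast_nonneg _

private theorem dv_mul_le (a b : ℕ) : dv (a * b) ≤ dv a * dv b := by
  unfold dv
  rw [Nat.divisors_mul]
  exact_mod_cast Finset.card_mul_le

private theorem dv_cop {a b : ℕ} (h : Nat.Coprime a b) : dv (a * b) = dv a * dv b := by
  unfold dv
  rw [h.card_divisors_mul]
  push_cast
  rfl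

private theorem Rs_mult (m N : ℕ) (hm : 1 ≤ m) (φ : ℕ → ℝ) :
    ∑ l ∈ Icc 1 N, (if m ∣ l then φ (l / m) else 0) = ∑ b ∈ Icc 1 (N / m), φ b := by
  rw [← Finset.sum_filter]
  refine Finset.sum_nbij' (fun l => l / m) (fun b => m * b) ?_ ?_ ?_ ?_ ?_
  · intro l hl
    rw [mem_filter, mem_Icc] at hl
    rw [mem_Icc]
    exact ⟨Nat.div_pos (Nat.le_of_dvd (by omega) hl.2) (by omega), Nat.div_le_div_right hl.1.2⟩
  · intro b hb
    rw [mem_Icc] at hb
    rw [mem_filter, mem_Icc]
    refine ⟨⟨Nat.mul_pos (by omega) (by omega), ?_⟩, dvd_mul_right _ _⟩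
    calc m * b ≤ m * (N / m) := Nat.mul_le_mul_left _ hb.2
      _ ≤ N := Nat.mul_div_le N m
  · intro l hl
    exact Nat.mul_div_cancel' (mem_filter.1 hl).2
  · intro b _
    exact Nat.mul_div_cancel_left b (by omega)
  · intro l _
    rfl

private theorem Rs_term (r s N l : ℕ) (hl : 1 ≤ l) (hlN : l ≤ N) :
    dv (r * l) * dv (s * l) / l = ∑ a ∈ Icc 1 N, if a ∣ l then
      ww r s a * (hq (r * s) (l / a) * dv (l / a) ^ 2 / ((l / a : ℕ) : ℝ)) else 0 := by
  obtain ⟨a, ha1, ha2, ha3⟩ := Sp_ex (r * s) l hl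
  have haN : a ∈ Icc 1 N := mem_Icc.2 ⟨ha1.1, (Nat.le_of_dvd (by omega) ha2).trans hlN⟩
  rw [Finset.sum_eq_single a]
  · obtain ⟨b, rfl⟩ := ha2
    have ha0 : 0 < a := ha1.1
    have hb0 : 0 < b := Nat.pos_of_ne_zero (by rintro rfl; omega)
    rw [Nat.mul_div_cancel_left b ha0] at ha3 ⊢
    rw [if_pos (dvd_mul_right a b)]
    unfold ww hq
    rw [if_pos ha1, if_pos ha3]
    have hab : Nat.Coprime a b := Sp_cop ha1 ha3
    have hrb : Nat.Coprime (r * a) b :=
      Nat.Coprime.mul_left (Nat.Coprime.coprime_mul_right_right ha3).symm hab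
    have hsb : Nat.Coprime (s * a) b :=
      Nat.Coprime.mul_left (Nat.Coprime.coprime_mul_left_right ha3).symm hab
    rw [← mul_assoc, ← mul_assoc, dv_cop hrb, dv_cop hsb]
    have ha0' : (a : ℝ) ≠ 0 := by exact_mod_cast ha0.ne'
    have hb0' : (b : ℝ) ≠ 0 := by exact_mod_cast hb0.ne'
    push_cast
    field_simp
  · intro a' _ hne
    split_ifs with h
    · by_cases h1 : Sp (r * s) a'
      · by_cases h2 : Nat.Coprime (l / a') (r * s)
        · exact absurd (Sp_uniq h1 h h2 ha1 ha2 ha3) hne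
        · unfold hq
          rw [if_neg h2, zero_mul, zero_div, mul_zero]
      · unfold ww
        rw [if_neg h1, zero_mul]
    · rfl
  · intro h
    exact absurd haN h

private theorem ww_zero (r s : ℕ) : ww r s 0 = 0 := by
  unfold ww
  rw [if_neg]
  intro h
  exact absurd h.1 (by norm_num)

private theorem ww_nn (r s a : ℕ) : 0 ≤ ww r s a := by
  unfold ww
  split_ifs
  · exact div_nonneg (mul_nonneg (dv_nn _) (dv_nn _)) (Nat.cast_nonneg _)
  · exact le_rfl

private theorem Rs_sum (r s N : ℕ) :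
    ∑ l ∈ Icc 1 N, dv (r * l) * dv (s * l) / l = ∑' a : ℕ, ww r s a * DD (r * s) (N / a) := by
  have h1 : ∑ l ∈ Icc 1 N, dv (r * l) * dv (s * l) / l =
      ∑ a ∈ Icc 1 N, ww r s a * DD (r * s) (N / a) := by
    rw [Finset.sum_congr rfl fun l hl =>
      Rs_term r s N l (mem_Icc.1 hl).1 (mem_Icc.1 hl).2, Finset.sum_comm]
    refine Finset.sum_congr rfl fun a ha => ?_
    rw [mem_Icc] at ha
    rw [Rs_mult a N ha.1 (fun b => ww r s a * (hq (r * s) b * dv b ^ 2 / (b : ℝ)))]
    unfold DD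
    rw [Finset.mul_sum]
  rw [h1]
  symm
  refine tsum_eq_sum fun a ha => ?_
  rw [mem_Icc] at ha
  rcases Nat.eq_zero_or_pos a with h0 | h0
  · rw [h0, ww_zero, zero_mul]
  · have h3 : N / a = 0 := by
      apply Nat.div_eq_of_lt
      by_contra h5
      exact ha ⟨h0, by omega⟩
    rw [h3]
    unfold DD
    simp

private theorem ww_summable {r s : ℕ} (hr : 1 ≤ r) (hs : 1 ≤ s) : Summable (ww r s) := by
  classical
  obtain ⟨f, hf⟩ : ∃ f : ℕ → ℝ, f = fun n => dv n ^ 2 / n := ⟨_, rfl⟩
  have hfn : ∀ n, 0 ≤ f n := by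
    intro n
    rw [hf]
    exact div_nonneg (pow_nonneg (dv_nn _) 2) (Nat.cast_nonneg _)
  have h1 : f 1 = 1 := by
    rw [hf]
    unfold dv
    simp
  have hmul : ∀ {m n : ℕ}, Nat.Coprime m n → f (m * n) = f m * f n := by
    intro m n hc
    rw [hf]
    show dv (m * n) ^ 2 / ((m * n : ℕ) : ℝ) = dv m ^ 2 / m * (dv n ^ 2 / n)
    rw [dv_cop hc]
    push_cast
    rw [mul_pow, div_mul_div_comm]
  have hsum : ∀ {p : ℕ}, p.Prime → Summable (fun n : ℕ => ‖f (p ^ n)‖) := by
    intro p hp
    have hp1 : ‖((p : ℝ)⁻¹)‖ < 1 := by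
      rw [Real.norm_eq_abs, abs_of_nonneg (by positivity)]
      exact inv_lt_one_of_one_lt₀ (by exact_mod_cast hp.one_lt)
    have e2 := summable_pow_mul_geometric_of_norm_lt_one 2 hp1
    have e1 := summable_pow_mul_geometric_of_norm_lt_one 1 hp1
    have e0 := summable_pow_mul_geometric_of_norm_lt_one 0 hp1
    refine ((e2.add (e1.mul_left 2)).add e0).congr fun n => ?_
    rw [Real.norm_eq_abs, abs_of_nonneg (hfn _), hf]
    show _ = dv (p ^ n) ^ 2 / ((p ^ n : ℕ) : ℝ)
    unfold dv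
    rw [Nat.divisors_prime_pow hp, card_map, card_range]
    push_cast
    rw [inv_pow]
    ring
  have h2 := (EulerProduct.summable_and_hasSum_factoredNumbers_prod_filter_prime_tsum h1 hmul hsum
    (r * s).primeFactors).1
  have h3 : Summable ((Nat.factoredNumbers (r * s).primeFactors).indicator fun m => ‖f m‖) :=
    summable_subtype_iff_indicator.1 h2
  refine Summable.of_nonneg_of_le (ww_nn r s) (fun a => ?_) (h3.mul_left (dv r * dv s))
  unfold ww
  split_ifs with h
  · have h4 : a ∈ Nat.factoredNumbers (r * s).primeFactors := by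
      refine ⟨by have := h.1; omega, fun p hp => ?_⟩
      have hp2 := (Nat.mem_primeFactorsList (by have := h.1; omega)).1 hp
      rw [Nat.mem_primeFactors]
      exact ⟨hp2.1, h.2 p hp2.1 hp2.2, (Nat.mul_pos hr hs).ne'⟩
    rw [Set.indicator_of_mem h4, Real.norm_eq_abs, abs_of_nonneg (hfn a), hf]
    have h5 : dv (r * a) * dv (s * a) ≤ dv r * dv s * dv a ^ 2 := by
      calc dv (r * a) * dv (s * a) ≤ (dv r * dv a) * (dv s * dv a) :=
            mul_le_mul (dv_mul_le _ _) (dv_mul_le _ _) (dv_nn _) (mul_nonneg (dv_nn _) (dv_nn _))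
        _ = _ := by ring
    show dv (r * a) * dv (s * a) / (a : ℝ) ≤ dv r * dv s * (dv a ^ 2 / a)
    rw [← mul_div_assoc]
    exact div_le_div_of_nonneg_right h5 (Nat.cast_nonneg _)
  · exact mul_nonneg (mul_nonneg (dv_nn _) (dv_nn _))
      (Set.indicator_nonneg (fun _ _ => norm_nonneg _) _)

private theorem tendsto_log_nat : Tendsto (fun N : ℕ => Real.log N) atTop atTop :=
  Real.tendsto_log_atTop.comp tendsto_natCast_atTop_atTop

private theorem log_div (m : ℕ) (hm : 1 ≤ m) :
    Tendsto (fun N : ℕ => Real.log ((N / m : ℕ) : ℝ) / Real.log N) atTop (𝓝 1) := by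
  have h1 : Tendsto (fun N : ℕ => 1 - Real.log (2 * m) / Real.log N) atTop (𝓝 (1 - 0)) :=
    tendsto_const_nhds.sub (tendsto_const_nhds.div_atTop tendsto_log_nat)
  rw [sub_zero] at h1
  refine tendsto_of_tendsto_of_tendsto_of_le_of_le' h1 tendsto_const_nhds ?_ ?_
  · filter_upwards [eventually_ge_atTop (m + 3)] with N hN
    have hl : 0 < Real.log N := Real.log_pos (by
      have : (1 : ℕ) < N := by omega
      exact_mod_cast this)
    have hq : 1 ≤ N / m := Nat.div_pos (by omega) (by omega)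
    rw [one_sub_div hl.ne', div_le_div_iff_of_pos_right hl]
    have h3 : (N : ℝ) ≤ 2 * m * ((N / m : ℕ) : ℝ) := by
      have h4 : N < m * (N / m + 1) := by
        have := Nat.lt_mul_div_succ N (show 0 < m by omega)
        exact this
      have h5 : N ≤ 2 * m * (N / m) := by nlinarith
      exact_mod_cast h5
    have h6 : Real.log N ≤ Real.log (2 * m * ((N / m : ℕ) : ℝ)) :=
      Real.log_le_log (by
        have : (0 : ℕ) < N := by omega
        exact_mod_cast this) h3
    rw [Real.log_mul (by positivity) (by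
      have : N / m ≠ 0 := by omega
      exact_mod_cast this)] at h6
    linarith
  · filter_upwards [eventually_ge_atTop (m + 3)] with N hN
    have hl : 0 < Real.log N := Real.log_pos (by
      have : (1 : ℕ) < N := by omega
      exact_mod_cast this)
    have hq : 1 ≤ N / m := Nat.div_pos (by omega) (by omega)
    rw [div_le_one hl]
    refine Real.log_le_log (by exact_mod_cast hq) ?_
    exact_mod_cast Nat.div_le_self N m

private theorem DD_nn (Q y : ℕ) : 0 ≤ DD Q y := by
  unfold DD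
  refine sum_nonneg fun b _ => ?_
  refine div_nonneg (mul_nonneg ?_ (pow_nonneg (dv_nn _) 2)) (Nat.cast_nonneg _)
  unfold hq
  split_ifs <;> norm_num

private theorem DD_bd (h1 : S_Aks) (Q N y : ℕ) (hN : 3 ≤ N) (hy : y ≤ N) :
    DD Q y ≤ 16 * Real.log N ^ 4 := by
  have hlN : 1 ≤ Real.log N := by
    rw [Real.le_log_iff_exp_le (by positivity)]
    have h1 := Real.exp_one_lt_d9
    have h2 : (3 : ℝ) ≤ N := by exact_mod_cast hN
    linarith
  rcases Nat.eq_zero_or_pos y with h0 | h0
  · subst h0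
    unfold DD
    simp only [Icc_eq_empty_of_lt (Nat.zero_lt_one), Finset.sum_empty]
    positivity
  · have hy1 : (1 : ℝ) ≤ y := by exact_mod_cast h0
    have hly : 0 ≤ Real.log y := Real.log_nonneg hy1
    have hlyN : Real.log y ≤ Real.log N :=
      Real.log_le_log (by linarith) (by exact_mod_cast hy)
    have h2 := (h1 2 y h0).2
    have h3 : DD Q y ≤ ∑ n ∈ Icc 1 y, dv n ^ 2 / n := by
      unfold DD
      refine sum_le_sum fun b _ => div_le_div_of_nonneg_right ?_ (Nat.cast_nonneg _)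
      have h4 : hq Q b ≤ 1 := by
        unfold hq
        split_ifs <;> norm_num
      exact mul_le_of_le_one_left (pow_nonneg (dv_nn _) 2) h4
    refine h3.trans (h2.trans ?_)
    calc (1 + Real.log y) ^ (2 ^ 2) ≤ (2 * Real.log N) ^ (2 ^ 2) :=
          pow_le_pow_left₀ (by linarith) (by linarith) _
      _ = 16 * Real.log N ^ 4 := by norm_num [mul_pow]

theorem pRs (h1 : S_Aks) (h2 : S_DQ) : S_Rs := by
  constructor
  · intro r s hr hs _
    obtain ⟨c, hc, hT⟩ := h2 (r * s) (Nat.mul_pos hr hs)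
    have hw := ww_summable hr hs
    refine ⟨∑' a, ww r s a * c, ?_⟩
    have h3 : ∀ N : ℕ, (∑ l ∈ Icc 1 N, dv (r * l) * dv (s * l) / l) / Real.log N ^ 4 =
        ∑' a : ℕ, ww r s a * (DD (r * s) (N / a) / Real.log N ^ 4) := by
      intro N
      rw [Rs_sum, ← tsum_div_const]
      refine tsum_congr fun a => ?_
      rw [mul_div_assoc]
    simp_rw [h3]
    refine tendsto_tsum_of_dominated_convergence
      (bound := fun a : ℕ => ww r s a * 16) (hw.mul_right _) ?_ ?_
    · intro a
      rcases Nat.eq_zero_or_pos a with h0 | h0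
      · subst h0
        simp only [ww_zero, zero_mul]
        exact tendsto_const_nhds
      · refine Tendsto.const_mul _ ?_
        have hd : Tendsto (fun N : ℕ => N / a) atTop atTop :=
          Nat.tendsto_div_const_atTop (by omega)
        have h4 := (hT.comp hd).mul ((log_div a h0).pow 4)
        rw [one_pow, mul_one] at h4
        refine h4.congr' ?_
        filter_upwards [hd.eventually_ge_atTop 3, eventually_ge_atTop 3] with N hN hN3
        have hl : 0 < Real.log ((N / a : ℕ) : ℝ) := Real.log_pos (by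
          have : 1 < N / a := by omega
          exact_mod_cast this)
        show DD (r * s) (N / a) / Real.log ((N / a : ℕ) : ℝ) ^ 4 *
          (Real.log ((N / a : ℕ) : ℝ) / Real.log N) ^ 4 = _
        rw [div_pow]
        field_simp
    · filter_upwards [eventually_ge_atTop 3] with N hN
      intro a
      have hlN : 0 < Real.log N := Real.log_pos (by
        have : (1 : ℕ) < N := by omega
        exact_mod_cast this)
      rw [Real.norm_eq_abs, abs_of_nonneg (mul_nonneg (ww_nn _ _ _)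
        (div_nonneg (DD_nn _ _) (pow_nonneg hlN.le 4)))]
      refine mul_le_mul_of_nonneg_left ?_ (ww_nn _ _ _)
      rw [div_le_iff₀ (pow_pos hlN 4)]
      exact DD_bd h1 _ N _ hN (Nat.div_le_self _ _)
  · obtain ⟨c, hc, hT⟩ := h2 1 le_rfl
    refine ⟨c, hc, hT.congr fun N => ?_⟩
    congr 1
    refine sum_congr rfl fun l _ => ?_
    unfold hq
    rw [if_pos (Nat.coprime_one_right l), one_mul]

end Pool.Agent.Lib.MP_aa9ae4_nt.K2
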