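import Mathlib
import Pool.Agent.Lib.MP_aa9ae4_nt.K2.SpecB

/-!
MP_aa9ae4_nt, k = 2: all twisted fourth moments have limits.
-/

namespace Pool.Agent.Lib.MP_aa9ae4_nt.K2

open Finset MeasureTheory Filter Topology
open Complex (I)

private theorem TwL_conj (f : ℝ → ℝ) (θ : ℝ) (hθ : 0 < θ) (a b : ℝ) (hab : a ≤ b) :
    starRingEnd ℂ (∫ t in a..b, ((f t : ℝ) : ℂ) * (θ : ℂ) ^ (t * I)) =
      ∫ t in a..b, ((f t : ℝ) : ℂ) * ((θ⁻¹ : ℝ) : ℂ) ^ (t * I) := by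
  rw [intervalIntegral.integral_of_le hab, intervalIntegral.integral_of_le hab,
    ← integral_conj]
  refine integral_congr_ae (Filter.Eventually.of_forall fun t => ?_)
  change (starRingEnd ℂ) _ = _
  rw [map_mul, Complex.conj_ofReal]
  congr 1
  have h1 : (θ : ℂ) ≠ 0 := by exact_mod_cast hθ.ne'
  have h2 : ((θ⁻¹ : ℝ) : ℂ) ≠ 0 := by exact_mod_cast (inv_pos.mpr hθ).ne'
  rw [Complex.cpow_def_of_ne_zero h1, Complex.cpow_def_of_ne_zero h2, ← Complex.exp_conj,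
    ← Complex.ofReal_log hθ.le, ← Complex.ofReal_log (inv_pos.mpr hθ).le, Real.log_inv]
  congr 1
  simp only [map_mul, Complex.conj_ofReal, Complex.conj_I]
  push_cast
  ring

private theorem TwL_ge (h1 : S_Rs) (h2 : S_Wk) (h3 : S_WRat) (h4 : S_WIrr) (θ : ℝ)
    (hθ : 1 ≤ θ) : ∃ c : ℂ, Tendsto (fun T : ℝ =>
    (∫ t in T..(2 * T), ((‖riemannZeta (1 / 2 + t * I)‖ ^ 4 : ℝ) : ℂ) * (θ : ℂ) ^ (t * I)) /
      ((T * Real.log T ^ 4 : ℝ) : ℂ)) atTop (𝓝 c) := by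
  have hθ0 : 0 < θ := by linarith
  by_cases hirr : Irrational θ
  · refine ⟨2 * 0, h2 θ 0 hθ0 fun ε hε hε1 η hη => ?_⟩
    filter_upwards [h4 θ hirr hθ ε hε hε1 η hη] with T hT
    rw [zero_mul, sub_zero, norm_zero, mul_zero, zero_add]
    exact hT
  · unfold Irrational at hirr
    push Not at hirr
    obtain ⟨q, hq⟩ := hirr
    have hq1 : 1 ≤ q := by
      have : (1 : ℝ) ≤ (q : ℝ) := by rw [hq]; exact hθ
      exact_mod_cast this
    have hnum : (0 : ℤ) < q.num := Rat.num_pos.2 (by linarith)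
    obtain ⟨r, hr⟩ : ∃ r : ℕ, (r : ℤ) = q.num := ⟨q.num.toNat, Int.toNat_of_nonneg hnum.le⟩
    have hden : 1 ≤ q.den := q.den_pos
    have hcop : Nat.Coprime r q.den := by
      have := q.reduced
      rw [← hr] at this
      exact this
    have hqe : (r : ℚ) / q.den = q := by
      have := Rat.num_div_den q
      rwa [← hr, Int.cast_natCast] at this
    have hrd : q.den ≤ r := by
      have e1 : (q.den : ℚ) ≤ r := by
        have e2 : (0 : ℚ) < q.den := by exact_mod_cast hden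
        rw [← hqe, le_div_iff₀ e2, one_mul] at hq1
        exact hq1
      exact_mod_cast e1
    have hθe : (r : ℝ) / q.den = θ := by
      have e1 := congrArg (fun x : ℚ => (x : ℝ)) hqe
      simp only [Rat.cast_div, Rat.cast_natCast] at e1
      rw [← hq]
      exact e1
    obtain ⟨c₀, hc₀⟩ := h1.1 r q.den (hden.trans hrd) hden hcop
    refine ⟨2 * ((c₀ / √((r : ℝ) * q.den) : ℝ) : ℂ), h2 θ _ hθ0 fun ε hε hε1 η hη => ?_⟩
    rw [← hθe]
    exact h3 r q.den c₀ hden hrd hcop hc₀ ε hε hε1 η hη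

theorem pTwL (h1 : S_Rs) (h2 : S_Wk) (h3 : S_WRat) (h4 : S_WIrr) : S_TwL := by
  constructor
  · intro θ hθ
    rcases le_total 1 θ with hθ1 | hθ1
    · exact TwL_ge h1 h2 h3 h4 θ hθ1
    · have hinv : 1 ≤ θ⁻¹ := (one_le_inv₀ hθ).2 hθ1
      obtain ⟨c, hc⟩ := TwL_ge h1 h2 h3 h4 θ⁻¹ hinv
      refine ⟨starRingEnd ℂ c, ?_⟩
      have h5 := (Complex.continuous_conj.tendsto c).comp hc
      refine h5.congr' ?_
      filter_upwards [eventually_ge_atTop (0 : ℝ)] with T hT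
      show starRingEnd ℂ ((∫ t in T..(2 * T), ((‖riemannZeta (1 / 2 + t * I)‖ ^ 4 : ℝ) : ℂ) *
        ((θ⁻¹ : ℝ) : ℂ) ^ (t * I)) / ((T * Real.log T ^ 4 : ℝ) : ℂ)) = _
      rw [map_div₀, Complex.conj_ofReal,
        TwL_conj (fun t => ‖riemannZeta (1 / 2 + t * I)‖ ^ 4) θ⁻¹ (by positivity) T (2 * T)
          (by linarith), inv_inv]
  · obtain ⟨c, hc, hT⟩ := h1.2
    have e0 : Tendsto (fun N : ℕ => (∑ l ∈ Icc 1 N, dv (1 * l) * dv (1 * l) / l) /
        Real.log N ^ 4) atTop (𝓝 c) := by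
      refine hT.congr fun N => ?_
      congr 1
      refine sum_congr rfl fun l _ => ?_
      rw [one_mul, pow_two]
    have e1 := h2 1 _ one_pos fun ε hε hε1 η hη => by
      have := h3 1 1 c le_rfl le_rfl (Nat.coprime_one_right 1) e0 ε hε hε1 η hη
      rw [show ((1 : ℕ) : ℝ) / ((1 : ℕ) : ℝ) = 1 by norm_num] at this
      exact this
    refine ⟨2 * (c / √(((1 : ℕ) : ℝ) * ((1 : ℕ) : ℝ))), by
      norm_num
      exact hc, ?_⟩
    have e2 := (Complex.continuous_re.tendsto _).comp e1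
    have e3 : (2 * ((c / √(((1 : ℕ) : ℝ) * ((1 : ℕ) : ℝ)) : ℝ) : ℂ)).re =
        2 * (c / √(((1 : ℕ) : ℝ) * ((1 : ℕ) : ℝ))) := by
      rw [← Complex.ofReal_ofNat, ← Complex.ofReal_mul, Complex.ofReal_re]
    rw [e3] at e2
    refine e2.congr fun T => ?_
    have e4 : (∫ t in T..(2 * T), ((‖riemannZeta (1 / 2 + t * I)‖ ^ 4 : ℝ) : ℂ) *
        ((1 : ℝ) : ℂ) ^ (t * I)) =
        ((∫ t in T..(2 * T), ‖riemannZeta (1 / 2 + t * I)‖ ^ 4 : ℝ) : ℂ) := by
      rw [← intervalIntegral.integral_ofReal]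
      refine intervalIntegral.integral_congr fun t _ => ?_
      simp
    show ((∫ t in T..(2 * T), ((‖riemannZeta (1 / 2 + t * I)‖ ^ 4 : ℝ) : ℂ) *
        ((1 : ℝ) : ℂ) ^ (t * I)) / ((T * Real.log T ^ 4 : ℝ) : ℂ)).re = _
    rw [e4, ← Complex.ofReal_div, Complex.ofReal_re]

end Pool.Agent.Lib.MP_aa9ae4_nt.K2
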