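import Mathlib
import Pool.Agent.Lib.MP_aa9ae4_nt.K2.SpecC

/-!
MP_aa9ae4_nt, k = 2: van der Corput's inequality.
-/

namespace Pool.Agent.Lib.MP_aa9ae4_nt.K2

open Finset MeasureTheory Filter Topology
open Complex (I)

private theorem V1_corr (z : ℕ → ℂ) (a b h : ℕ) :
    ∑ m ∈ Ico a b, ∑ m' ∈ Ico a b, (if m' + h = m then z m * starRingEnd ℂ (z m') else 0) =
      ∑ n ∈ Ico a (b - h), z (n + h) * starRingEnd ℂ (z n) := by
  rw [sum_comm]
  have h1 : ∀ m' ∈ Ico a b, ∑ m ∈ Ico a b,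
      (if m' + h = m then z m * starRingEnd ℂ (z m') else 0) =
      if m' + h < b then z (m' + h) * starRingEnd ℂ (z m') else 0 := by
    intro m' hm'
    rw [mem_Ico] at hm'
    rw [Finset.sum_ite_eq (Ico a b) (m' + h) fun m => z m * starRingEnd ℂ (z m')]
    by_cases hb : m' + h < b
    · rw [if_pos hb, if_pos (mem_Ico.2 ⟨by omega, hb⟩)]
    · rw [if_neg hb, if_neg (fun h' => hb (mem_Ico.1 h').2)]
  rw [sum_congr rfl h1, ← sum_filter]
  refine sum_congr ?_ fun _ _ => rfl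
  ext n
  rw [mem_filter, mem_Ico, mem_Ico]
  omega

/-- the shifted sequence -/
private noncomputable def UU (z : ℕ → ℂ) (a b j k : ℕ) : ℂ :=
  ∑ m ∈ Ico a b, if m + j = k then z m else 0

private theorem V1_UU (z : ℕ → ℂ) (a b H j : ℕ) (hj : j < H) (V : ℕ → ℂ) :
    ∑ k ∈ Ico a (b + H), UU z a b j k * V k = ∑ m ∈ Ico a b, z m * V (m + j) := by
  unfold UU
  simp_rw [sum_mul]
  rw [sum_comm]
  refine sum_congr rfl fun m hm => ?_
  rw [mem_Ico] at hm
  simp_rw [ite_mul, zero_mul]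
  rw [Finset.sum_ite_eq (Ico a (b + H)) (m + j) fun k => z m * V k,
    if_pos (mem_Ico.2 ⟨by omega, by omega⟩)]

/-- the correlation of two shifts -/
private noncomputable def AA2 (z : ℕ → ℂ) (a b j j' : ℕ) : ℂ :=
  ∑ m ∈ Ico a b, ∑ m' ∈ Ico a b,
    if m' + j' = m + j then z m * starRingEnd ℂ (z m') else 0

private theorem V1_AA (z : ℕ → ℂ) (a b H j j' : ℕ) (hj : j < H) :
    ∑ k ∈ Ico a (b + H), UU z a b j k * starRingEnd ℂ (UU z a b j' k) = AA2 z a b j j' := by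
  rw [V1_UU z a b H j hj fun k => starRingEnd ℂ (UU z a b j' k)]
  unfold AA2
  refine sum_congr rfl fun m _ => ?_
  unfold UU
  rw [map_sum, mul_sum]
  refine sum_congr rfl fun m' _ => ?_
  split_ifs
  · rfl
  · rw [map_zero, mul_zero]

private noncomputable def cc1 (z : ℕ → ℂ) (a b h : ℕ) : ℝ :=
  ‖∑ n ∈ Ico a (b - h), z (n + h) * starRingEnd ℂ (z n)‖

private theorem V1_AA_lt (z : ℕ → ℂ) (a b j h : ℕ) :
    ‖AA2 z a b j (j + h)‖ = cc1 z a b h := by
  unfold cc1 AA2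
  rw [← V1_corr]
  congr 1
  refine sum_congr rfl fun m _ => sum_congr rfl fun m' _ => ?_
  by_cases e : m' + h = m
  · rw [if_pos e, if_pos (by omega)]
  · rw [if_neg e, if_neg (by omega)]

private theorem V1_AA_gt (z : ℕ → ℂ) (a b j h : ℕ) :
    ‖AA2 z a b (j + h) j‖ = cc1 z a b h := by
  unfold cc1 AA2
  rw [← V1_corr, ← Complex.norm_conj, map_sum, sum_comm (s := Ico a b) (t := Ico a b)
    (f := fun m m' => if m' + h = m then z m * starRingEnd ℂ (z m') else 0)]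
  congr 1
  refine sum_congr rfl fun m _ => ?_
  rw [map_sum]
  refine sum_congr rfl fun m' _ => ?_
  by_cases e : m + h = m'
  · rw [if_pos e, if_pos (by omega), map_mul, Complex.conj_conj, mul_comm]
  · rw [if_neg e, if_neg (by omega), map_zero]

private theorem V1_AA_eq (z : ℕ → ℂ) (a b j : ℕ) :
    ‖AA2 z a b j j‖ = ∑ n ∈ Ico a b, ‖z n‖ ^ 2 := by
  have h1 : AA2 z a b j j = ((∑ n ∈ Ico a b, ‖z n‖ ^ 2 : ℝ) : ℂ) := by
    unfold AA2
    rw [Complex.ofReal_sum]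
    refine sum_congr rfl fun m hm => ?_
    have h2 : ∀ m' ∈ Ico a b, (if m' + j = m + j then z m * starRingEnd ℂ (z m') else 0) =
        if m' = m then z m * starRingEnd ℂ (z m') else 0 := by
      intro m' _
      by_cases e : m' = m
      · rw [if_pos e, if_pos (by omega)]
      · rw [if_neg e, if_neg (by omega)]
    rw [sum_congr rfl h2, Finset.sum_ite_eq' (Ico a b) m fun m' => z m * starRingEnd ℂ (z m'),
      if_pos hm, Complex.mul_conj']
    push_cast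
    rfl
  rw [h1, Complex.norm_real, Real.norm_eq_abs, abs_of_nonneg (sum_nonneg fun _ _ => by positivity)]

private theorem V1_bd (z : ℕ → ℂ) (a b H j j' : ℕ) (hj : j < H) (hj' : j' < H) :
    ‖AA2 z a b j j'‖ ≤ (if j = j' then ∑ n ∈ Ico a b, ‖z n‖ ^ 2 else 0) +
      (∑ h ∈ Ico 1 H, if j + h = j' then cc1 z a b h else 0) +
      ∑ h ∈ Ico 1 H, if j' + h = j then cc1 z a b h else 0 := by
  have hc : ∀ h, 0 ≤ cc1 z a b h := fun h => norm_nonneg _
  have hn : ∀ i i' : ℕ, 0 ≤ ∑ h ∈ Ico 1 H, if i + h = i' then cc1 z a b h else 0 := by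
    intro i i'
    refine sum_nonneg fun h _ => ?_
    split_ifs
    · exact hc h
    · exact le_rfl
  have hs : ∀ i i' : ℕ, i < i' → i' < H →
      cc1 z a b (i' - i) ≤ ∑ h ∈ Ico 1 H, if i + h = i' then cc1 z a b h else 0 := by
    intro i i' h1 h2
    have h3 : (if i + (i' - i) = i' then cc1 z a b (i' - i) else 0) ≤
        ∑ h ∈ Ico 1 H, if i + h = i' then cc1 z a b h else 0 := by
      refine single_le_sum (f := fun h => if i + h = i' then cc1 z a b h else 0)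
        (fun h _ => ?_) (mem_Ico.2 ⟨by omega, by omega⟩)
      show 0 ≤ if i + h = i' then cc1 z a b h else 0
      split_ifs
      · exact hc h
      · exact le_rfl
    rwa [if_pos (by omega)] at h3
  rcases lt_trichotomy j j' with h | h | h
  · obtain ⟨e, rfl⟩ : ∃ e, j' = j + e := ⟨j' - j, by omega⟩
    rw [V1_AA_lt, if_neg (by omega)]
    have h1 := hs j (j + e) h hj'
    have h2 := hn (j + e) j
    rw [Nat.add_sub_cancel_left] at h1
    linarith
  · subst h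
    rw [V1_AA_eq, if_pos rfl]
    have h1 := hn j j
    linarith
  · obtain ⟨e, rfl⟩ : ∃ e, j = j' + e := ⟨j - j', by omega⟩
    rw [V1_AA_gt, if_neg (by omega)]
    have h1 := hs j' (j' + e) h hj
    have h2 := hn (j' + e) j'
    rw [Nat.add_sub_cancel_left] at h1
    linarith

private theorem V1_cnt (z : ℕ → ℂ) (a b H : ℕ) :
    ∑ j ∈ range H, ∑ j' ∈ range H, (∑ h ∈ Ico 1 H, if j + h = j' then cc1 z a b h else 0) ≤
      H * ∑ h ∈ Ico 1 H, cc1 z a b h := by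
  have hc : ∀ h, 0 ≤ cc1 z a b h := fun h => norm_nonneg _
  calc ∑ j ∈ range H, ∑ j' ∈ range H, (∑ h ∈ Ico 1 H, if j + h = j' then cc1 z a b h else 0)
      ≤ ∑ _j ∈ range H, ∑ h ∈ Ico 1 H, cc1 z a b h := by
        refine sum_le_sum fun j _ => ?_
        rw [sum_comm]
        refine sum_le_sum fun h _ => ?_
        rw [Finset.sum_ite_eq (range H) (j + h) fun _ => cc1 z a b h]
        split_ifs
        · exact le_rfl
        · exact hc h
    _ = _ := by rw [sum_const, card_range, nsmul_eq_mul]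

theorem pV1 : S_V1 := by
  intro z a b H hab hH
  have hH0 : (0 : ℝ) < H := by exact_mod_cast hH
  obtain ⟨T, hT⟩ : ∃ T : ℕ → ℂ, T = fun k => ∑ j ∈ range H, UU z a b j k := ⟨_, rfl⟩
  have h1 : ∑ k ∈ Ico a (b + H), T k = H * ∑ n ∈ Ico a b, z n := by
    rw [hT]
    rw [sum_comm]
    have h2 : ∀ j ∈ range H, ∑ k ∈ Ico a (b + H), UU z a b j k = ∑ n ∈ Ico a b, z n := by
      intro j hj
      have := V1_UU z a b H j (mem_range.1 hj) fun _ => 1
      simpa using this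
    rw [sum_congr rfl h2, sum_const, card_range, nsmul_eq_mul]
  have h2 : ∑ k ∈ Ico a (b + H), ((‖T k‖ ^ 2 : ℝ) : ℂ) =
      ∑ j ∈ range H, ∑ j' ∈ range H, AA2 z a b j j' := by
    have h3 : ∀ k ∈ Ico a (b + H), ((‖T k‖ ^ 2 : ℝ) : ℂ) =
        ∑ j ∈ range H, ∑ j' ∈ range H, UU z a b j k * starRingEnd ℂ (UU z a b j' k) := by
      intro k _
      rw [← sum_mul_sum, ← map_sum, hT, Complex.mul_conj']
      push_cast
      rfl
    rw [sum_congr rfl h3, sum_comm]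
    refine sum_congr rfl fun j hj => ?_
    rw [sum_comm]
    refine sum_congr rfl fun j' _ => ?_
    exact V1_AA z a b H j j' (mem_range.1 hj)
  have h3 : ∑ k ∈ Ico a (b + H), ‖T k‖ ^ 2 ≤ H * (∑ n ∈ Ico a b, ‖z n‖ ^ 2 +
      2 * ∑ h ∈ Ico 1 H, cc1 z a b h) := by
    have h4 : ∑ k ∈ Ico a (b + H), ‖T k‖ ^ 2 = ‖∑ j ∈ range H, ∑ j' ∈ range H, AA2 z a b j j'‖ := by
      rw [← h2, ← Complex.ofReal_sum, Complex.norm_real, Real.norm_eq_abs,
        abs_of_nonneg (sum_nonneg fun _ _ => by positivity)]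
    rw [h4]
    calc ‖∑ j ∈ range H, ∑ j' ∈ range H, AA2 z a b j j'‖
        ≤ ∑ j ∈ range H, ∑ j' ∈ range H, ‖AA2 z a b j j'‖ :=
          (norm_sum_le _ _).trans (sum_le_sum fun j _ => norm_sum_le _ _)
      _ ≤ ∑ j ∈ range H, ∑ j' ∈ range H, ((if j = j' then ∑ n ∈ Ico a b, ‖z n‖ ^ 2 else 0) +
          (∑ h ∈ Ico 1 H, if j + h = j' then cc1 z a b h else 0) +
          ∑ h ∈ Ico 1 H, if j' + h = j then cc1 z a b h else 0) :=
          sum_le_sum fun j hj => sum_le_sum fun j' hj' =>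
            V1_bd z a b H j j' (mem_range.1 hj) (mem_range.1 hj')
      _ = (∑ j ∈ range H, ∑ j' ∈ range H, if j = j' then ∑ n ∈ Ico a b, ‖z n‖ ^ 2 else 0) +
          (∑ j ∈ range H, ∑ j' ∈ range H,
            ∑ h ∈ Ico 1 H, if j + h = j' then cc1 z a b h else 0) +
          ∑ j ∈ range H, ∑ j' ∈ range H,
            ∑ h ∈ Ico 1 H, if j' + h = j then cc1 z a b h else 0 := by
          simp_rw [sum_add_distrib]
      _ ≤ H * ∑ n ∈ Ico a b, ‖z n‖ ^ 2 + H * ∑ h ∈ Ico 1 H, cc1 z a b h +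
          H * ∑ h ∈ Ico 1 H, cc1 z a b h := by
          refine add_le_add (add_le_add (le_of_eq ?_) (V1_cnt z a b H)) ?_
          · have h5 : ∀ j ∈ range H, (∑ j' ∈ range H,
                if j = j' then ∑ n ∈ Ico a b, ‖z n‖ ^ 2 else 0) = ∑ n ∈ Ico a b, ‖z n‖ ^ 2 := by
              intro j hj
              rw [Finset.sum_ite_eq (range H) j fun _ => ∑ n ∈ Ico a b, ‖z n‖ ^ 2, if_pos hj]
            rw [sum_congr rfl h5, sum_const, card_range, nsmul_eq_mul]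
          · rw [sum_comm]
            exact V1_cnt z a b H
      _ = _ := by ring
  have h4 : ‖∑ k ∈ Ico a (b + H), T k‖ ^ 2 ≤
      ((b : ℝ) - a + H) * ∑ k ∈ Ico a (b + H), ‖T k‖ ^ 2 := by
    have h5 : ‖∑ k ∈ Ico a (b + H), T k‖ ≤ ∑ k ∈ Ico a (b + H), ‖T k‖ := norm_sum_le _ _
    have h6 := sq_sum_le_card_mul_sum_sq (s := Ico a (b + H)) (f := fun k => ‖T k‖)
    have h7 : (((Ico a (b + H)).card : ℕ) : ℝ) = (b : ℝ) - a + H := by
      rw [Nat.card_Ico, Nat.cast_sub (by omega)]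
      push_cast
      ring
    rw [h7] at h6
    exact (pow_le_pow_left₀ (norm_nonneg _) h5 2).trans h6
  rw [h1, norm_mul, Complex.norm_natCast, mul_pow] at h4
  have hpos : 0 ≤ (b : ℝ) - a + H := by
    have : (a : ℝ) ≤ b := by exact_mod_cast hab
    linarith
  have h5 : (H : ℝ) * ((H : ℝ) * ‖∑ n ∈ Ico a b, z n‖ ^ 2) ≤
      (H : ℝ) * (((b : ℝ) - a + H) * (∑ n ∈ Ico a b, ‖z n‖ ^ 2 +
        2 * ∑ h ∈ Ico 1 H, cc1 z a b h)) := by
    calc (H : ℝ) * ((H : ℝ) * ‖∑ n ∈ Ico a b, z n‖ ^ 2)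
        = (H : ℝ) ^ 2 * ‖∑ n ∈ Ico a b, z n‖ ^ 2 := by ring
      _ ≤ ((b : ℝ) - a + H) * ∑ k ∈ Ico a (b + H), ‖T k‖ ^ 2 := h4
      _ ≤ ((b : ℝ) - a + H) * (H * (∑ n ∈ Ico a b, ‖z n‖ ^ 2 +
          2 * ∑ h ∈ Ico 1 H, cc1 z a b h)) := mul_le_mul_of_nonneg_left h3 hpos
      _ = _ := by ring
  exact le_of_mul_le_mul_left h5 hH0

end Pool.Agent.Lib.MP_aa9ae4_nt.K2
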