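import Mathlib
import Pool.Agent.Lib.MP_aa9ae4_nt.K2.SpecC
import Pool.Agent.Lib.MP_aa9ae4_nt.Twist

/-!
MP_aa9ae4_nt, k = 2: the third derivative test for `n^(-it)`.
-/

namespace Pool.Agent.Lib.MP_aa9ae4_nt.K2

open Finset MeasureTheory Filter Topology
open Complex (I)

/-- the sum of the bounds of `S_V2` over `1 ≤ h < H` -/
private theorem V3_sum (t M r C : ℝ) (H : ℕ) (hC : 0 < C) (ht : 0 < t) (hM : 0 < M) (hr : 1 ≤ r)
    (hrt : r ^ 3 = t) (hrM : r ≤ M) (h1 : M ≤ H * r) (h2 : (H : ℝ) * r ≤ 2 * M) :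
    ∑ h ∈ Ico 1 H, C * (√(t * h / M) + t * h / M ^ 2 + 1 + M * √M / √(t * h)) ≤
      H * (C * (5 * r + 2 * M / r)) := by
  have hr0 : 0 < r := by linarith
  have hH0 : (0 : ℝ) < H := by
    by_contra h
    have h3 : (H : ℝ) = 0 := le_antisymm (not_lt.1 h) (Nat.cast_nonneg H)
    rw [h3, zero_mul] at h1
    linarith
  have hE : ∀ h ∈ Ico 1 H, √(t * h / M) + t * h / M ^ 2 + 1 + M * √M / √(t * h) ≤
      5 * r + (M * √M / √t) * (1 / √(h : ℝ)) := by
    intro h hh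
    rw [mem_Ico] at hh
    have hhH : (h : ℝ) ≤ H := by exact_mod_cast hh.2.le
    have hh0 : (0 : ℝ) < h := by
      have : 0 < h := by omega
      exact_mod_cast this
    have e0 : t * h / M ≤ 2 * r ^ 2 := by
      rw [div_le_iff₀ hM, ← hrt]
      calc r ^ 3 * h ≤ r ^ 3 * H := mul_le_mul_of_nonneg_left hhH (by positivity)
        _ = r ^ 2 * (H * r) := by ring
        _ ≤ r ^ 2 * (2 * M) := mul_le_mul_of_nonneg_left h2 (by positivity)
        _ = 2 * r ^ 2 * M := by ring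
    have e1 : √(t * h / M) ≤ 2 * r := by
      rw [Real.sqrt_le_left (by positivity)]
      refine e0.trans ?_
      nlinarith
    have e2 : t * h / M ^ 2 ≤ 2 * r := by
      have e3 : t * h / M ^ 2 = t * h / M / M := by
        field_simp
      rw [e3, div_le_iff₀ hM]
      refine e0.trans ?_
      nlinarith
    have e4 : M * √M / √(t * h) = (M * √M / √t) * (1 / √(h : ℝ)) := by
      rw [Real.sqrt_mul ht.le]
      field_simp
    rw [e4]
    linarith
  have hS : ∑ h ∈ Ico 1 H, 1 / √(h : ℝ) ≤ 2 * √(H : ℝ) := by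
    refine le_trans ?_ (twist_sum_sqrt_le H)
    refine sum_le_sum_of_subset_of_nonneg ?_ fun i _ _ => by positivity
    intro h hh
    rw [mem_Ico] at hh
    rw [mem_Icc]
    omega
  have hsq : √(H : ℝ) * √(H : ℝ) = H := Real.mul_self_sqrt hH0.le
  have hsH : 0 < √(H : ℝ) := Real.sqrt_pos.2 hH0
  have hD : (M * √M / √t) * √(H : ℝ) ≤ H * (M / r) := by
    have e1 : r * √M ≤ √t * √(H : ℝ) := by
      rw [← Real.sqrt_mul ht.le]
      apply Real.le_sqrt_of_sq_le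
      rw [mul_pow, Real.sq_sqrt hM.le, ← hrt]
      calc r ^ 2 * M ≤ r ^ 2 * (H * r) := mul_le_mul_of_nonneg_left h1 (by positivity)
        _ = r ^ 3 * H := by ring
    have hst : 0 < √t := Real.sqrt_pos.2 ht
    rw [div_mul_eq_mul_div, div_le_iff₀ hst]
    calc M * √M * √(H : ℝ) = (M / r) * √(H : ℝ) * (r * √M) := by field_simp
      _ ≤ (M / r) * √(H : ℝ) * (√t * √(H : ℝ)) := mul_le_mul_of_nonneg_left e1 (by positivity)
      _ = (√(H : ℝ) * √(H : ℝ)) * (M / r) * √t := by ring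
      _ = H * (M / r) * √t := by rw [hsq]
  have hcard : ((Ico 1 H).card : ℝ) ≤ H := by
    rw [Nat.card_Ico]
    exact_mod_cast Nat.sub_le H 1
  calc ∑ h ∈ Ico 1 H, C * (√(t * h / M) + t * h / M ^ 2 + 1 + M * √M / √(t * h))
      ≤ ∑ h ∈ Ico 1 H, C * (5 * r + (M * √M / √t) * (1 / √(h : ℝ))) :=
        sum_le_sum fun h hh => mul_le_mul_of_nonneg_left (hE h hh) hC.le
    _ = C * ((Ico 1 H).card * (5 * r) + (M * √M / √t) * ∑ h ∈ Ico 1 H, 1 / √(h : ℝ)) := by
        rw [← mul_sum, sum_add_distrib, sum_const, nsmul_eq_mul, mul_sum]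
    _ ≤ C * (H * (5 * r) + (M * √M / √t) * (2 * √(H : ℝ))) := by
        refine mul_le_mul_of_nonneg_left ?_ hC.le
        exact add_le_add (mul_le_mul_of_nonneg_right hcard (by positivity))
          (mul_le_mul_of_nonneg_left hS (by positivity))
    _ = C * (H * (5 * r) + 2 * ((M * √M / √t) * √(H : ℝ))) := by ring
    _ ≤ C * (H * (5 * r) + 2 * (H * (M / r))) := by
        refine mul_le_mul_of_nonneg_left ?_ hC.le
        linarith
    _ = _ := by ring

theorem pV3 (h1 : S_V1) (h2 : S_V2) : S_V3 := by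
  obtain ⟨C, hC, hV2⟩ := h2
  refine ⟨√(9 + 30 * C), Real.sqrt_pos.2 (by positivity), ?_⟩
  intro t M N ht hM hMN hN htM
  have ht0 : 0 < t := by linarith
  have hM0 : (0 : ℝ) < M := by exact_mod_cast hM
  obtain ⟨r, hr⟩ : ∃ r : ℝ, r = t ^ (1 / 3 : ℝ) := ⟨_, rfl⟩
  obtain ⟨s, hs⟩ : ∃ s : ℝ, s = t ^ (1 / 6 : ℝ) := ⟨_, rfl⟩
  have hr1 : 1 ≤ r := by
    rw [hr]
    exact Real.one_le_rpow ht (by norm_num)
  have hr0 : 0 < r := by linarith
  have hrt : r ^ 3 = t := by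
    rw [hr, ← Real.rpow_natCast, ← Real.rpow_mul ht0.le]
    norm_num
  have hs0 : 0 < s := by
    rw [hs]
    positivity
  have hsr : s ^ 2 = r := by
    rw [hs, hr, ← Real.rpow_natCast, ← Real.rpow_mul ht0.le]
    norm_num
  have hsn : t ^ (-(1 / 6) : ℝ) = 1 / s := by
    rw [Real.rpow_neg ht0.le, hs]
    exact (one_div _).symm
  rw [← hr] at htM
  rw [← hs, hsn]
  obtain ⟨H, hH⟩ : ∃ H : ℕ, H = ⌈(M : ℝ) / r⌉₊ := ⟨_, rfl⟩
  have hMr : 1 ≤ (M : ℝ) / r := by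
    rw [le_div_iff₀ hr0]
    linarith
  have hH1 : (M : ℝ) / r ≤ H := by
    rw [hH]
    exact Nat.le_ceil _
  have hH2 : (H : ℝ) ≤ 2 * (M / r) := by
    have := Nat.ceil_lt_add_one (show 0 ≤ (M : ℝ) / r by linarith)
    rw [← hH] at this
    linarith
  have hHpos : 1 ≤ H := by
    have : (1 : ℝ) ≤ H := hMr.trans hH1
    exact_mod_cast this
  have hH0 : (0 : ℝ) < H := by exact_mod_cast hHpos
  have hA : (M : ℝ) ≤ H * r := by
    rwa [div_le_iff₀ hr0] at hH1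
  have hB : (H : ℝ) * r ≤ 2 * M := by
    calc (H : ℝ) * r ≤ 2 * (M / r) * r := mul_le_mul_of_nonneg_right hH2 hr0.le
      _ = 2 * M := by field_simp
  have hHM : (H : ℝ) ≤ 2 * M := by nlinarith
  have hsum := V3_sum t M r C H hC ht0 hM0 hr1 hrt htM hA hB
  -- van der Corput
  have hV := h1 (fun n => (n : ℂ) ^ (-(t * I))) (M + 1) (N + 1) H (by omega) hHpos
  have hnorm : ∀ n ∈ Ico (M + 1) (N + 1), ‖(n : ℂ) ^ (-(t * I))‖ ^ 2 = 1 := by
    intro n hn
    rw [mem_Ico] at hn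
    rw [Complex.norm_natCast_cpow_of_pos (by omega)]
    have h2 : (-(t * I) : ℂ).re = 0 := by simp
    rw [h2, Real.rpow_zero, one_pow]
  have hN' : (N : ℝ) ≤ 2 * M := by exact_mod_cast hN
  have hMN' : (M : ℝ) ≤ N := by exact_mod_cast hMN
  have hfirst : ∑ n ∈ Ico (M + 1) (N + 1), ‖(n : ℂ) ^ (-(t * I))‖ ^ 2 ≤ M := by
    rw [sum_congr rfl hnorm, sum_const, Nat.card_Ico, nsmul_eq_mul, mul_one,
      Nat.cast_sub (by omega)]
    push_cast
    linarith
  have hsecond : ∑ h ∈ Ico 1 H, ‖∑ n ∈ Ico (M + 1) (N + 1 - h), ((n + h : ℕ) : ℂ) ^ (-(t * I)) *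
      starRingEnd ℂ ((n : ℂ) ^ (-(t * I)))‖ ≤ H * (C * (5 * r + 2 * M / r)) := by
    refine le_trans (sum_le_sum fun h hh => ?_) hsum
    rw [mem_Ico] at hh
    have hhM : h ≤ M := by
      have e1 : (h : ℝ) < M / r := by
        have := hh.2
        rw [hH] at this
        exact Nat.lt_ceil.1 this
      have e2 : (M : ℝ) / r ≤ M := div_le_self hM0.le hr1
      have e3 : (h : ℝ) ≤ M := (e1.trans_le e2).le
      exact_mod_cast e3
    have e4 : Ico (M + 1) (N + 1 - h) = Ioc M (N - h) := by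
      ext n
      simp only [mem_Ioc, mem_Ico]
      omega
    rw [e4]
    exact hV2 t M N h ht hM hMN hN hh.1 hhM
  have hIoc : Ico (M + 1) (N + 1) = Ioc M N := by
    ext n
    simp only [mem_Ioc, mem_Ico]
    omega
  have hK : (H : ℝ) * ‖∑ n ∈ Ioc M N, (n : ℂ) ^ (-(t * I))‖ ^ 2 ≤
      H * ((9 + 30 * C) * (M * r + (M : ℝ) ^ 2 / r)) := by
    rw [← hIoc]
    refine hV.trans ?_
    have e1 : (((N + 1 : ℕ) : ℝ) - ((M + 1 : ℕ) : ℝ) + H) ≤ 3 * M := by
      push_cast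
      linarith
    calc _ ≤ 3 * (M : ℝ) * (M + 2 * (H * (C * (5 * r + 2 * M / r)))) := by
          refine mul_le_mul e1 ?_ (by positivity) (by positivity)
          exact add_le_add hfirst (mul_le_mul_of_nonneg_left hsecond (by norm_num))
      _ ≤ 3 * (M : ℝ) * (H * r + 2 * (H * (C * (5 * r + 2 * M / r)))) := by
          refine mul_le_mul_of_nonneg_left ?_ (by positivity)
          linarith
      _ = H * ((3 + 30 * C) * (M * r) + 12 * C * ((M : ℝ) ^ 2 / r)) := by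
          field_simp
          ring
      _ ≤ H * ((9 + 30 * C) * (M * r + (M : ℝ) ^ 2 / r)) := by
          refine mul_le_mul_of_nonneg_left ?_ hH0.le
          have e2 : 0 ≤ (M : ℝ) * r := by positivity
          have e3 : 0 ≤ (M : ℝ) ^ 2 / r := by positivity
          have e4 := mul_nonneg hC.le e3
          nlinarith
  have hK2 := le_of_mul_le_mul_left hK hH0
  have hK3 : (M : ℝ) * r + (M : ℝ) ^ 2 / r ≤ (√(M : ℝ) * s + M * (1 / s)) ^ 2 := by
    have e1 : (√(M : ℝ) * s + M * (1 / s)) ^ 2 =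
        M * r + (M : ℝ) ^ 2 / r + 2 * (√(M : ℝ) * M) := by
      have e2 : √(M : ℝ) ^ 2 = M := Real.sq_sqrt hM0.le
      have e3 : (√(M : ℝ) * s + M * (1 / s)) ^ 2 =
        √(M : ℝ) ^ 2 * s ^ 2 + 2 * (√(M : ℝ) * M) * (s * (1 / s)) + (M : ℝ) ^ 2 * (1 / s ^ 2) := by
        ring
      rw [e3, e2, hsr, mul_one_div_cancel hs0.ne']
      ring
    rw [e1]
    have : 0 ≤ 2 * (√(M : ℝ) * M) := by positivity
    linarith
  have hX : 0 ≤ √(M : ℝ) * s + M * (1 / s) := by positivity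
  have hK4 : ‖∑ n ∈ Ioc M N, (n : ℂ) ^ (-(t * I))‖ ^ 2 ≤
      (√(9 + 30 * C) * (√(M : ℝ) * s + M * (1 / s))) ^ 2 := by
    rw [mul_pow, Real.sq_sqrt (by positivity)]
    exact hK2.trans (mul_le_mul_of_nonneg_left hK3 (by positivity))
  exact le_of_sq_le_sq hK4 (mul_nonneg (Real.sqrt_nonneg _) hX)

end Pool.Agent.Lib.MP_aa9ae4_nt.K2
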