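import Mathlib
import Pool.Agent.Lib.MP_aa9ae4_nt.K2.SpecC
import Pool.Agent.Lib.MP_aa9ae4_nt.Half
import Pool.Agent.Lib.MP_aa9ae4_nt.Vdc

/-!
MP_aa9ae4_nt, k = 2: van der Corput's bound for zeta on the half line.
-/

namespace Pool.Agent.Lib.MP_aa9ae4_nt.K2

open Finset MeasureTheory Filter Topology
open Complex (I)

private theorem V4_block {C C' t r s : ℝ} (hC : 0 < C) (hC' : 0 < C') (ht : 1 ≤ t)
    (hs1 : 1 ≤ s) (hsr : s ^ 2 = r) (hrt : r ^ 3 = t)
    (hV3 : ∀ M N : ℕ, 1 ≤ M → M ≤ N → N ≤ 2 * M → r ≤ M →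
      ‖∑ n ∈ Ioc M N, (n : ℂ) ^ (-(t * I))‖ ≤ C * (√(M : ℝ) * s + M * (1 / s)))
    (hvdc : ∀ M N : ℕ, 1 ≤ M → M ≤ N → N ≤ 2 * M →
      ‖∑ n ∈ Ioc M N, (n : ℂ) ^ (-(t * I))‖ ≤ C' * (√t + M / √t))
    (M N : ℕ) (hM : 1 ≤ M) (hMN : M ≤ N) (hN : N ≤ 2 * M) (hMt : (M : ℝ) ≤ t) (hrM : r ≤ M) :
    ‖zsum (1 / 2 + t * I) N‖ ≤ ‖zsum (1 / 2 + t * I) M‖ + 2 * (C + C') * s := by
  have ht0 : 0 < t := by linarith
  have hs0 : 0 < s := by linarith
  have hr0 : 0 < r := by
    rw [← hsr]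
    positivity
  have hM0 : (0 : ℝ) < M := by exact_mod_cast hM
  have hsM : 0 < √(M : ℝ) := Real.sqrt_pos.2 hM0
  have hst : 0 < √t := Real.sqrt_pos.2 ht0
  have hMM : √(M : ℝ) * √(M : ℝ) = M := Real.mul_self_sqrt hM0.le
  have key : ‖zsum (1 / 2 + t * I) N - zsum (1 / 2 + t * I) M‖ ≤ 2 * (C + C') * s := by
    rw [half_zsum_sub t hMN]
    by_cases hc : (M : ℝ) ≤ r ^ 2
    · have h1 : ‖∑ n ∈ Ioc M N, (n : ℂ) ^ (-(t * I)) * ((1 / √(n : ℝ) : ℝ) : ℂ)‖ ≤
          (C * (√(M : ℝ) * s + M * (1 / s))) / √(M : ℝ) := by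
        refine half_abel_const _ _ M N hM hMN ?_
        intro x hx hxN
        exact hV3 M x hM hx (hxN.trans hN) hrM
      refine h1.trans ?_
      have h2 : √(M : ℝ) ≤ s ^ 2 := by
        rw [hsr, Real.sqrt_le_left hr0.le]
        exact hc
      rw [div_le_iff₀ hsM]
      have h3 : (M : ℝ) * (1 / s) ≤ s * √(M : ℝ) := by
        rw [mul_one_div, div_le_iff₀ hs0]
        nlinarith
      have h4 : 0 ≤ C' * (s * √(M : ℝ)) := by positivity
      calc C * (√(M : ℝ) * s + M * (1 / s)) ≤ C * (√(M : ℝ) * s + s * √(M : ℝ)) :=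
            mul_le_mul_of_nonneg_left (by linarith) hC.le
        _ ≤ C * (√(M : ℝ) * s + s * √(M : ℝ)) + 2 * (C' * (s * √(M : ℝ))) := by linarith
        _ = 2 * (C + C') * s * √(M : ℝ) := by ring
    · push Not at hc
      have h1 : ‖∑ n ∈ Ioc M N, (n : ℂ) ^ (-(t * I)) * ((1 / √(n : ℝ) : ℝ) : ℂ)‖ ≤
          (C' * (√t + M / √t)) / √(M : ℝ) := by
        refine half_abel_const _ _ M N hM hMN ?_
        intro x hx hxN
        exact hvdc M x hM hx (hxN.trans hN)
      refine h1.trans ?_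
      rw [div_le_iff₀ hsM]
      have h2 : √t ≤ s * √(M : ℝ) := by
        rw [Real.sqrt_le_left (by positivity), mul_pow, Real.sq_sqrt hM0.le, hsr, ← hrt]
        nlinarith
      have h3 : (M : ℝ) / √t ≤ s * √(M : ℝ) := by
        have h4 : √(M : ℝ) ≤ √t := Real.sqrt_le_sqrt hMt
        rw [div_le_iff₀ hst]
        calc (M : ℝ) = √(M : ℝ) * √(M : ℝ) := hMM.symm
          _ ≤ √(M : ℝ) * √t := mul_le_mul_of_nonneg_left h4 hsM.le
          _ = 1 * (√(M : ℝ) * √t) := by ring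
          _ ≤ s * (√(M : ℝ) * √t) := mul_le_mul_of_nonneg_right hs1 (by positivity)
          _ = s * √(M : ℝ) * √t := by ring
      have h4 : 0 ≤ C * (s * √(M : ℝ)) := by positivity
      calc C' * (√t + M / √t) ≤ C' * (s * √(M : ℝ) + s * √(M : ℝ)) :=
            mul_le_mul_of_nonneg_left (by linarith) hC'.le
        _ ≤ C' * (s * √(M : ℝ) + s * √(M : ℝ)) + 2 * (C * (s * √(M : ℝ))) := by linarith
        _ = 2 * (C + C') * s * √(M : ℝ) := by ring
  have h3 : zsum (1 / 2 + t * I) N = zsum (1 / 2 + t * I) M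
      + (zsum (1 / 2 + t * I) N - zsum (1 / 2 + t * I) M) := by ring
  rw [h3]
  refine (norm_add_le _ _).trans ?_
  linarith

theorem pV4 (h1 : S_V3) : S_V4 := by
  obtain ⟨C, hC, hV3⟩ := h1
  obtain ⟨C', hC', hvdc⟩ := vdc_second
  obtain ⟨D, hD, happ⟩ := zeta_half_approx
  refine ⟨D + 4 + 8 * (C + C'), by positivity, ?_⟩
  intro t ht
  have ht0 : 0 < t := by linarith
  obtain ⟨r, hr⟩ : ∃ r : ℝ, r = t ^ (1 / 3 : ℝ) := ⟨_, rfl⟩
  obtain ⟨s, hs⟩ : ∃ s : ℝ, s = t ^ (1 / 6 : ℝ) := ⟨_, rfl⟩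
  have hr1 : 1 ≤ r := by
    rw [hr]
    exact Real.one_le_rpow ht (by norm_num)
  have hs1 : 1 ≤ s := by
    rw [hs]
    exact Real.one_le_rpow ht (by norm_num)
  have hrt : r ^ 3 = t := by
    rw [hr, ← Real.rpow_natCast, ← Real.rpow_mul ht0.le]
    norm_num
  have hsr : s ^ 2 = r := by
    rw [hs, hr, ← Real.rpow_natCast, ← Real.rpow_mul ht0.le]
    norm_num
  have hsn : t ^ (-(1 / 6) : ℝ) = 1 / s := by
    rw [Real.rpow_neg ht0.le, hs]
    exact (one_div _).symm
  rw [← hs]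
  have hV3' : ∀ M N : ℕ, 1 ≤ M → M ≤ N → N ≤ 2 * M → r ≤ M →
      ‖∑ n ∈ Ioc M N, (n : ℂ) ^ (-(t * I))‖ ≤ C * (√(M : ℝ) * s + M * (1 / s)) := by
    intro M N h2 h3 h4 h5
    have := hV3 t M N ht h2 h3 h4 (by rw [← hr]; exact h5)
    rw [← hs, hsn] at this
    exact this
  have key : ∀ N : ℕ, 1 ≤ N → (N : ℝ) ≤ t →
      ‖zsum (1 / 2 + t * I) N‖ ≤ 4 * s + 8 * (C + C') * s * Real.log N := by
    intro N
    induction N using Nat.strong_induction_on with
    | _ N ih =>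
      intro hN1 hN2
      have hN0 : (1 : ℝ) ≤ N := by exact_mod_cast hN1
      by_cases h3 : (N : ℝ) ≤ 2 * r
      · have h4 := half_triv t N
        have h5 : √(N : ℝ) ≤ 2 * s := by
          rw [Real.sqrt_le_left (by positivity), mul_pow, hsr]
          linarith
        have h6 : 0 ≤ 8 * (C + C') * s * Real.log N :=
          mul_nonneg (by positivity) (Real.log_nonneg hN0)
        linarith
      · push Not at h3
        have hN2' : 2 < N := by
          have : (2 : ℝ) < N := by linarith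
          exact_mod_cast this
        obtain ⟨M, hM⟩ : ∃ M, M = (N + 1) / 2 := ⟨_, rfl⟩
        have hM1 : 1 ≤ M := by omega
        have hMN : M < N := by omega
        have hNM : N ≤ 2 * M := by omega
        have hNM' : (N : ℝ) ≤ 2 * M := by exact_mod_cast hNM
        have hMN' : (M : ℝ) ≤ N := by exact_mod_cast hMN.le
        have hM0 : (0 : ℝ) < M := by exact_mod_cast hM1
        have h4 := ih M hMN hM1 (by linarith)
        have h5 := V4_block hC hC' ht hs1 hsr hrt hV3' (hvdc t ht) M N hM1 hMN.le hNM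
          (by linarith) (by linarith)
        have h6 : 4 * M ≤ 3 * N := by omega
        have h6' : 4 * (M : ℝ) ≤ 3 * N := by exact_mod_cast h6
        have h7 : 1 / 4 ≤ Real.log N - Real.log M := by
          rw [← Real.log_div (by positivity) (by positivity)]
          have h8 : (4 / 3 : ℝ) ≤ N / M := by
            rw [le_div_iff₀ hM0]
            linarith
          have h9 := Real.one_sub_inv_le_log_of_pos (show (0 : ℝ) < N / M by positivity)
          have h10 : ((N : ℝ) / M)⁻¹ ≤ (4 / 3)⁻¹ := inv_anti₀ (by norm_num) h8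
          have h11 : ((4 : ℝ) / 3)⁻¹ = 3 / 4 := by norm_num
          rw [h11] at h10
          linarith
        have h8 : 0 ≤ 8 * (C + C') * s := by positivity
        have h9 := mul_le_mul_of_nonneg_left h7 h8
        linarith
  obtain ⟨N, hN⟩ : ∃ N : ℕ, N = ⌊t⌋₊ := ⟨_, rfl⟩
  have hN1 : 1 ≤ N := by
    rw [hN]
    exact Nat.le_floor (by simpa using ht)
  have hN1' : (1 : ℝ) ≤ N := by exact_mod_cast hN1
  have hN2 : (N : ℝ) ≤ t := by
    rw [hN]
    exact Nat.floor_le ht0.le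
  have hN3 : t < N + 1 := by
    rw [hN]
    exact Nat.lt_floor_add_one t
  have h1 := happ t ht N (by linarith) (by nlinarith)
  have h3 := key N hN1 hN2
  have hlog : Real.log N ≤ Real.log t := Real.log_le_log (by linarith) hN2
  have hlt : 0 ≤ Real.log t := Real.log_nonneg ht
  have h7 : riemannZeta (1 / 2 + t * I)
      = (riemannZeta (1 / 2 + t * I) - zsum (1 / 2 + t * I) N) + zsum (1 / 2 + t * I) N := by
    ring
  rw [h7]
  refine (norm_add_le _ _).trans ?_
  have h8 : 8 * (C + C') * s * Real.log N ≤ 8 * (C + C') * s * Real.log t :=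
    mul_le_mul_of_nonneg_left hlog (by positivity)
  have h9 : D ≤ D * s := le_mul_of_one_le_right hD.le hs1
  have h10 : 0 ≤ D * (s * Real.log t) := by positivity
  have h11 : 0 ≤ s * Real.log t := by positivity
  have h12 : 0 ≤ (C + C') * s := by positivity
  calc _ ≤ D + (4 * s + 8 * (C + C') * s * Real.log N) := add_le_add h1 h3
    _ ≤ D * s + (4 * s + 8 * (C + C') * s * Real.log t) := by linarith
    _ ≤ D * s + (4 * s + 8 * (C + C') * s * Real.log t) + D * (s * Real.log t) +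
        4 * (s * Real.log t) + 8 * ((C + C') * s) := by linarith
    _ = (D + 4 + 8 * (C + C')) * (s * (1 + Real.log t)) := by ring

end Pool.Agent.Lib.MP_aa9ae4_nt.K2
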