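import Mathlib
import Pool.Agent.Lib.MP_aa9ae4_nt.K2.SpecB
import Pool.Agent.Lib.MP_aa9ae4_nt.Weight

/-!
MP_aa9ae4_nt, k = 2: the twisted mean square of `PP` for irrational `θ`.
-/

namespace Pool.Agent.Lib.MP_aa9ae4_nt.K2

open Finset MeasureTheory Filter Topology
open Complex (I)

private theorem WIrr_pow (s : ℝ) (hs : 0 < s) (η : ℝ) (hη : 0 < η) :
    ∀ᶠ T : ℝ in atTop, T ^ (-s) * Real.log T ^ 5 ≤ η := by
  have h1 : Tendsto (fun x : ℝ => Real.log x ^ (5 : ℝ) / x ^ s) atTop (𝓝 0) :=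
    (isLittleO_log_rpow_rpow_atTop 5 hs).tendsto_div_nhds_zero
  filter_upwards [h1.eventually_le_const hη, eventually_gt_atTop (0 : ℝ)] with T h2 h3
  rw [Real.rpow_neg h3.le, mul_comm, ← div_eq_mul_inv]
  have h4 : Real.log T ^ (5 : ℝ) = Real.log T ^ 5 := by
    exact_mod_cast Real.rpow_natCast (Real.log T) 5
  rw [h4] at h2
  exact h2

theorem pWIrr (h1 : S_One) : S_WIrr := by
  intro θ hθ hθ1 ε hε hε1 η hη
  obtain ⟨C, hC, hb⟩ := h1
  -- the threshold for `q`
  have hq0 : ∃ q₀ : ℕ, 1 ≤ q₀ ∧ (q₀ : ℝ) ^ (-(3 / 8) : ℝ) ≤ η / (48 * C) := by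
    have e1 : Tendsto (fun n : ℕ => (n : ℝ) ^ (-(3 / 8) : ℝ)) atTop (𝓝 0) :=
      (tendsto_rpow_neg_atTop (by norm_num : (0 : ℝ) < 3 / 8)).comp tendsto_natCast_atTop_atTop
    have e2 := (e1.eventually_le_const (show (0 : ℝ) < η / (48 * C) by positivity)).and
      (eventually_ge_atTop 1)
    obtain ⟨n, h2, h3⟩ := e2.exists
    exact ⟨n, h3, h2⟩
  obtain ⟨q₀, hq₀, hqη⟩ := hq0
  have hfin : ∀ᶠ T : ℝ in atTop, ∀ n ∈ range q₀, 1 ≤ n →
      2 * T ^ (-(ε / 2)) < |θ * n - round (θ * n)| := by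
    rw [Filter.eventually_all_finset]
    intro n _
    by_cases hn : 1 ≤ n
    · have hpos : 0 < |θ * n - round (θ * n)| := by
        rw [abs_pos, sub_ne_zero]
        have h1 : Irrational (θ * n) := hθ.mul_natCast (by omega)
        exact h1.ne_int _
      have h2 : Tendsto (fun T : ℝ => 2 * T ^ (-(ε / 2))) atTop (𝓝 0) := by
        have := (tendsto_rpow_neg_atTop (half_pos hε)).const_mul (2 : ℝ)
        rwa [mul_zero] at this
      filter_upwards [h2.eventually_lt_const hpos] with T hT _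
      exact hT
    · exact Filter.Eventually.of_forall fun T h => absurd h hn
  have hlog := Real.tendsto_log_atTop.eventually_ge_atTop (1 : ℝ)
  filter_upwards [hlog, eventually_ge_atTop (3 : ℝ), weight_small (ε / 2) (half_pos hε)
    (min (1 / 8) (η / (48 * C * θ))) (by positivity), hfin,
    WIrr_pow (ε / 4) (by positivity) (η / (1536 * C)) (by positivity)] with T hL1 h3 h4 h5 h6
  have hT0 : 0 < T := by linarith
  have hθ0 : 0 < θ := by linarith
  obtain ⟨g1, _, _⟩ := weight_floor ε T hε1 (by linarith)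
  obtain ⟨f1, f2, f3⟩ := weight_facts ε T hε hε1 (by linarith)
  have f4 := weight_logN ε T hε hε1 (by linarith) hL1
  obtain ⟨N, hN⟩ : ∃ N : ℕ, N = ⌊T ^ (1 - ε)⌋₊ := ⟨_, rfl⟩
  rw [← hN] at g1 f1 f2 f3 f4 ⊢
  obtain ⟨δ, hδ⟩ : ∃ δ : ℝ, δ = T ^ (-(ε / 2)) := ⟨_, rfl⟩
  rw [← hδ] at h4 h5
  have hδ0 : 0 < δ := by
    rw [hδ]
    positivity
  have hδ1 : δ ≤ 1 / 8 := h4.trans (min_le_left _ _)
  have hδ2 : δ ≤ η / (48 * C * θ) := h4.trans (min_le_right _ _)
  obtain ⟨q, p, hq, hp, hqp, hJ⟩ := hb T θ δ N (by linarith) hθ1 hδ0 hδ1 g1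
  have hqq : q₀ ≤ q := by
    by_contra hcon
    have h7 := h5 q (mem_range.2 (by omega)) hq
    have h8 := round_le (θ * q) (p : ℤ)
    push_cast at h8
    linarith
  have hlogN : 0 ≤ Real.log N := Real.log_nonneg (by exact_mod_cast g1)
  have hq0' : (0 : ℝ) < q₀ := by exact_mod_cast hq₀
  have hqp0 : (q₀ : ℝ) ≤ (q : ℝ) * p := by
    have : q₀ ≤ q * p := hqq.trans (Nat.le_mul_of_pos_right q (by omega))
    exact_mod_cast this
  have hA : ((q : ℝ) * p) ^ (-(3 / 8) : ℝ) ≤ η / (48 * C) :=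
    (Real.rpow_le_rpow_of_nonpos hq0' hqp0 (by norm_num)).trans hqη
  have hA0 : 0 ≤ ((q : ℝ) * p) ^ (-(3 / 8) : ℝ) := by positivity
  have hsδ : √δ = T ^ (-(ε / 4)) := by
    rw [hδ, Real.sqrt_eq_rpow, ← Real.rpow_mul hT0.le]
    congr 1
    ring
  have hpw4 : (1 + Real.log N) ^ 4 ≤ 16 * Real.log T ^ 4 := by
    calc (1 + Real.log N) ^ 4 ≤ (2 * Real.log T) ^ 4 := pow_le_pow_left₀ (by linarith) f4 4
      _ = _ := by ring
  have hpw9 : (1 + Real.log N) ^ 9 ≤ 512 * (Real.log T ^ 5 * Real.log T ^ 4) := by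
    calc (1 + Real.log N) ^ 9 ≤ (2 * Real.log T) ^ 9 := pow_le_pow_left₀ (by linarith) f4 9
      _ = _ := by ring
  -- the three terms
  have t1 : C * (T * ((1 + Real.log N) ^ 4 * ((q : ℝ) * p) ^ (-(3 / 8) : ℝ))) ≤
      η / 3 * (T * Real.log T ^ 4) := by
    calc C * (T * ((1 + Real.log N) ^ 4 * ((q : ℝ) * p) ^ (-(3 / 8) : ℝ)))
        ≤ C * (T * ((16 * Real.log T ^ 4) * (η / (48 * C)))) := by
          refine mul_le_mul_of_nonneg_left ?_ hC.le
          refine mul_le_mul_of_nonneg_left ?_ hT0.le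
          exact mul_le_mul hpw4 hA hA0 (by positivity)
      _ = _ := by
          field_simp
          ring
  have t2 : C * (T * (√δ * (1 + Real.log N) ^ 9)) ≤ η / 3 * (T * Real.log T ^ 4) := by
    have e1 : √δ * (1 + Real.log N) ^ 9 ≤ 512 * (η / (1536 * C)) * Real.log T ^ 4 := by
      calc √δ * (1 + Real.log N) ^ 9
          ≤ √δ * (512 * (Real.log T ^ 5 * Real.log T ^ 4)) :=
            mul_le_mul_of_nonneg_left hpw9 (Real.sqrt_nonneg _)
        _ = 512 * (T ^ (-(ε / 4)) * Real.log T ^ 5) * Real.log T ^ 4 := by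
            rw [hsδ]
            ring
        _ ≤ 512 * (η / (1536 * C)) * Real.log T ^ 4 := by
            refine mul_le_mul_of_nonneg_right ?_ (by positivity)
            exact mul_le_mul_of_nonneg_left h6 (by norm_num)
    calc C * (T * (√δ * (1 + Real.log N) ^ 9))
        ≤ C * (T * (512 * (η / (1536 * C)) * Real.log T ^ 4)) := by
          refine mul_le_mul_of_nonneg_left ?_ hC.le
          exact mul_le_mul_of_nonneg_left e1 hT0.le
      _ = _ := by
          field_simp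
          ring
  have t3 : C * (θ * (N * (1 + Real.log N) ^ 4) / δ) ≤ η / 3 * (T * Real.log T ^ 4) := by
    have e1 : (N : ℝ) ≤ T * (δ * δ) := by
      refine f3.trans (le_of_eq ?_)
      rw [hδ, ← Real.rpow_add hT0]
      congr 2
      ring
    calc C * (θ * (N * (1 + Real.log N) ^ 4) / δ)
        ≤ C * (θ * ((T * (δ * δ)) * (16 * Real.log T ^ 4)) / δ) := by
          refine mul_le_mul_of_nonneg_left ?_ hC.le
          refine div_le_div_of_nonneg_right ?_ hδ0.le
          refine mul_le_mul_of_nonneg_left ?_ hθ0.le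
          exact mul_le_mul e1 hpw4 (by positivity) (by positivity)
      _ = C * θ * 16 * δ * (T * Real.log T ^ 4) := by
          field_simp
      _ ≤ C * θ * 16 * (η / (48 * C * θ)) * (T * Real.log T ^ 4) := by
          refine mul_le_mul_of_nonneg_right ?_ (by positivity)
          exact mul_le_mul_of_nonneg_left hδ2 (by positivity)
      _ = _ := by
          field_simp
          ring
  refine hJ.trans ?_
  calc C * (T * ((1 + Real.log N) ^ 4 * ((q : ℝ) * p) ^ (-(3 / 8) : ℝ) +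
        √δ * (1 + Real.log N) ^ 9) + θ * (N * (1 + Real.log N) ^ 4) / δ)
      = C * (T * ((1 + Real.log N) ^ 4 * ((q : ℝ) * p) ^ (-(3 / 8) : ℝ))) +
        C * (T * (√δ * (1 + Real.log N) ^ 9)) + C * (θ * (N * (1 + Real.log N) ^ 4) / δ) := by
        ring
    _ ≤ η / 3 * (T * Real.log T ^ 4) + η / 3 * (T * Real.log T ^ 4) +
        η / 3 * (T * Real.log T ^ 4) := add_le_add (add_le_add t1 t2) t3
    _ = η * (T * Real.log T ^ 4) := by ring

end Pool.Agent.Lib.MP_aa9ae4_nt.K2
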