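import Mathlib
import Pool.Agent.Lib.MP_aa9ae4_nt.K2.SpecB
import Pool.Agent.Lib.MP_aa9ae4_nt.Weight

/-!
MP_aa9ae4_nt, k = 2: the twisted mean square of `PP` for rational `θ`.
-/

namespace Pool.Agent.Lib.MP_aa9ae4_nt.K2

open Finset MeasureTheory Filter Topology
open Complex (I)

private theorem WRat_log_nat : Tendsto (fun N : ℕ => Real.log N) atTop atTop :=
  Real.tendsto_log_atTop.comp tendsto_natCast_atTop_atTop

private theorem WRat_log_div (m : ℕ) (hm : 1 ≤ m) :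
    Tendsto (fun N : ℕ => Real.log ((N / m : ℕ) : ℝ) / Real.log N) atTop (𝓝 1) := by
  have h1 : Tendsto (fun N : ℕ => 1 - Real.log (2 * m) / Real.log N) atTop (𝓝 (1 - 0)) :=
    tendsto_const_nhds.sub (tendsto_const_nhds.div_atTop WRat_log_nat)
  rw [sub_zero] at h1
  refine tendsto_of_tendsto_of_tendsto_of_le_of_le' h1 tendsto_const_nhds ?_ ?_
  · filter_upwards [eventually_ge_atTop (m + 3)] with N hN
    have hl : 0 < Real.log N := Real.log_pos (by
      have : (1 : ℕ) < N := by omega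
      exact_mod_cast this)
    have hq : 1 ≤ N / m := Nat.div_pos (by omega) (by omega)
    rw [one_sub_div hl.ne', div_le_div_iff_of_pos_right hl]
    have h3 : (N : ℝ) ≤ 2 * m * ((N / m : ℕ) : ℝ) := by
      have h4 : N < m * (N / m + 1) := by
        have := Nat.lt_mul_div_succ N (show 0 < m by omega)
        exact this
      have h5 : N ≤ 2 * m * (N / m) := by nlinarith
      exact_mod_cast h5
    have h6 : Real.log N ≤ Real.log (2 * m * ((N / m : ℕ) : ℝ)) :=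
      Real.log_le_log (by
        have : (0 : ℕ) < N := by omega
        exact_mod_cast this) h3
    rw [Real.log_mul (by positivity) (by
      have : N / m ≠ 0 := by omega
      exact_mod_cast this)] at h6
    linarith
  · filter_upwards [eventually_ge_atTop (m + 3)] with N hN
    have hl : 0 < Real.log N := Real.log_pos (by
      have : (1 : ℕ) < N := by omega
      exact_mod_cast this)
    have hq : 1 ≤ N / m := Nat.div_pos (by omega) (by omega)
    rw [div_le_one hl]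
    refine Real.log_le_log (by exact_mod_cast hq) ?_
    exact_mod_cast Nat.div_le_self N m

private theorem WRat_floor (ε : ℝ) (hε : 0 < ε) (hε1 : ε < 1 / 2) :
    Tendsto (fun T : ℝ => ⌊T ^ (1 - ε)⌋₊) atTop atTop ∧
    Tendsto (fun T : ℝ => Real.log ((⌊T ^ (1 - ε)⌋₊ : ℕ) : ℝ) / Real.log T) atTop
      (𝓝 (1 - ε)) := by
  constructor
  · exact tendsto_nat_floor_atTop.comp (tendsto_rpow_atTop (by linarith))
  · have h1 : Tendsto (fun T : ℝ => (1 - ε) - Real.log 2 / Real.log T) atTop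
        (𝓝 ((1 - ε) - 0)) :=
      tendsto_const_nhds.sub (tendsto_const_nhds.div_atTop Real.tendsto_log_atTop)
    rw [sub_zero] at h1
    refine tendsto_of_tendsto_of_tendsto_of_le_of_le' h1 tendsto_const_nhds ?_ ?_
    · filter_upwards [eventually_ge_atTop (3 : ℝ)] with T hT
      have hl : 0 < Real.log T := Real.log_pos (by linarith)
      obtain ⟨g1, g2, g3⟩ := weight_floor ε T hε1 (by linarith)
      have hN : (0 : ℝ) < ((⌊T ^ (1 - ε)⌋₊ : ℕ) : ℝ) := by
        have : 0 < ⌊T ^ (1 - ε)⌋₊ := g1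
        exact_mod_cast this
      have h2 := Real.log_le_log (by positivity) g3
      rw [Real.log_rpow (by linarith), Real.log_mul (by norm_num) hN.ne'] at h2
      rw [sub_le_iff_le_add, ← add_div, le_div_iff₀ hl]
      linarith
    · filter_upwards [eventually_ge_atTop (3 : ℝ)] with T hT
      have hl : 0 < Real.log T := Real.log_pos (by linarith)
      obtain ⟨g1, g2, g3⟩ := weight_floor ε T hε1 (by linarith)
      have hN : (0 : ℝ) < ((⌊T ^ (1 - ε)⌋₊ : ℕ) : ℝ) := by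
        have : 0 < ⌊T ^ (1 - ε)⌋₊ := g1
        exact_mod_cast this
      have h2 := Real.log_le_log hN g2
      rw [Real.log_rpow (by linarith)] at h2
      rw [div_le_iff₀ hl]
      exact h2

theorem pWRat (h1 : S_Rat) : S_WRat := by
  intro r s c₀ hs hsr hrs hT ε hε hε1 η hη
  obtain ⟨C, hC, hb⟩ := h1 r s hs hsr hrs
  have hr : 1 ≤ r := hs.trans hsr
  have hr0 : (1 : ℝ) ≤ r := by exact_mod_cast hr
  have hs0 : (1 : ℝ) ≤ s := by exact_mod_cast hs
  obtain ⟨κ, hκ⟩ : ∃ κ : ℝ, κ = 1 / √((r : ℝ) * s) := ⟨_, rfl⟩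
  have hκ0 : 0 < κ := by rw [hκ]; positivity
  have hκ1 : κ ≤ 1 := by
    rw [hκ, div_le_one (by positivity), Real.one_le_sqrt]
    nlinarith
  have hcκ : c₀ / √((r : ℝ) * s) = c₀ * κ := by
    rw [hκ]
    ring
  rw [hcκ]
  obtain ⟨SS, hSS⟩ : ∃ S : ℕ → ℝ, S = fun N : ℕ =>
    ∑ l ∈ Icc 1 N, dv (r * l) * dv (s * l) / l := ⟨_, rfl⟩
  obtain ⟨hfl1, hfl2⟩ := WRat_floor ε hε hε1
  have hdiv : Tendsto (fun T : ℝ => ⌊T ^ (1 - ε)⌋₊ / r) atTop atTop :=
    (Nat.tendsto_div_const_atTop (by omega)).comp hfl1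
  have hlim : Tendsto (fun T : ℝ => SS (⌊T ^ (1 - ε)⌋₊ / r) / Real.log T ^ 4) atTop
      (𝓝 (c₀ * (1 - ε) ^ 4)) := by
    have e1 := (hT.comp hdiv).mul ((((WRat_log_div r hr).comp hfl1).mul hfl2).pow 4)
    rw [one_mul] at e1
    refine e1.congr' ?_
    filter_upwards [hdiv.eventually_ge_atTop 3, hfl1.eventually_ge_atTop 3,
      eventually_ge_atTop (3 : ℝ)] with T g1 g2 g3
    have hl1 : 0 < Real.log (((⌊T ^ (1 - ε)⌋₊ / r : ℕ)) : ℝ) := Real.log_pos (by
      have : 1 < ⌊T ^ (1 - ε)⌋₊ / r := by omega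
      exact_mod_cast this)
    have hl2 : 0 < Real.log ((⌊T ^ (1 - ε)⌋₊ : ℕ) : ℝ) := Real.log_pos (by
      have : 1 < ⌊T ^ (1 - ε)⌋₊ := by omega
      exact_mod_cast this)
    rw [hSS]
    show (∑ l ∈ Icc 1 (⌊T ^ (1 - ε)⌋₊ / r), dv (r * l) * dv (s * l) / l) /
      Real.log (((⌊T ^ (1 - ε)⌋₊ / r : ℕ)) : ℝ) ^ 4 *
      (Real.log (((⌊T ^ (1 - ε)⌋₊ / r : ℕ)) : ℝ) / Real.log ((⌊T ^ (1 - ε)⌋₊ : ℕ) : ℝ) *
        (Real.log ((⌊T ^ (1 - ε)⌋₊ : ℕ) : ℝ) / Real.log T)) ^ 4 = _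
    rw [div_mul_div_cancel₀ hl2.ne', div_pow, div_mul_div_cancel₀ (pow_pos hl1 4).ne']
  have hclose := (Metric.tendsto_nhds.1 hlim) (η / 2) (by positivity)
  have hlog := Real.tendsto_log_atTop.eventually_ge_atTop 1
  filter_upwards [hclose, hlog, eventually_ge_atTop (3 : ℝ), weight_small ε hε (η / (32 * C))
    (by positivity)] with T h2 hL1 h3 hsm
  have hT0 : 0 < T := by linarith
  obtain ⟨g1, _, _⟩ := weight_floor ε T hε1 (by linarith)
  obtain ⟨f1, f2, f3⟩ := weight_facts ε T hε hε1 (by linarith)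
  have f4 := weight_logN ε T hε hε1 (by linarith) hL1
  obtain ⟨N, hN⟩ : ∃ N : ℕ, N = ⌊T ^ (1 - ε)⌋₊ := ⟨_, rfl⟩
  rw [← hN] at g1 f1 f2 f3 f4 h2 ⊢
  have hL0 : 0 < Real.log T ^ 4 := by positivity
  have h5 := hb T N g1
  have hlogN : 0 ≤ Real.log N := Real.log_nonneg (by exact_mod_cast g1)
  have h6 : C * (N * (1 + Real.log N) ^ 4) ≤ η / 2 * (T * Real.log T ^ 4) := by
    calc C * (N * (1 + Real.log N) ^ 4)
        ≤ C * ((T * (η / (32 * C))) * (2 * Real.log T) ^ 4) := by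
          refine mul_le_mul_of_nonneg_left ?_ hC.le
          refine mul_le_mul ?_ (pow_le_pow_left₀ (by linarith) f4 4) (by positivity)
            (by positivity)
          exact f3.trans (mul_le_mul_of_nonneg_left hsm hT0.le)
      _ = _ := by
          field_simp
          ring
  rw [Real.dist_eq] at h2
  have h7 : |SS (N / r) / Real.log T ^ 4 - c₀| ≤ η / 2 + 4 * ε * |c₀| := by
    have e1 : SS (N / r) / Real.log T ^ 4 - c₀ =
        (SS (N / r) / Real.log T ^ 4 - c₀ * (1 - ε) ^ 4) + c₀ * ((1 - ε) ^ 4 - 1) := by ring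
    have e2 : |(1 - ε) ^ 4 - 1| ≤ 4 * ε := by
      rw [abs_le]
      constructor
      · nlinarith [sq_nonneg ε, sq_nonneg (ε * (ε - 2)), mul_nonneg hε.le hε.le]
      · have e3 : (1 - ε) ^ 4 ≤ 1 := pow_le_one₀ (by linarith) (by linarith)
        linarith
    rw [e1]
    refine (abs_add_le _ _).trans ?_
    rw [abs_mul]
    have e4 := mul_le_mul_of_nonneg_left e2 (abs_nonneg c₀)
    linarith
  have h8 : ‖(((T / √((r : ℝ) * s) *
      ∑ l ∈ Icc 1 (N / r), dv (r * l) * dv (s * l) / l : ℝ)) : ℂ) -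
      ((c₀ * κ : ℝ) : ℂ) * ((T * Real.log T ^ 4 : ℝ) : ℂ)‖ ≤
      (4 * ε * (|c₀| * κ) + η / 2) * (T * Real.log T ^ 4) := by
    rw [← Complex.ofReal_mul, ← Complex.ofReal_sub, Complex.norm_real, Real.norm_eq_abs]
    have e1 : T / √((r : ℝ) * s) * ∑ l ∈ Icc 1 (N / r), dv (r * l) * dv (s * l) / l -
        c₀ * κ * (T * Real.log T ^ 4) =
        κ * (T * Real.log T ^ 4) * (SS (N / r) / Real.log T ^ 4 - c₀) := by
      rw [hSS, hκ]
      field_simp
    rw [e1, abs_mul, abs_of_pos (by positivity)]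
    calc κ * (T * Real.log T ^ 4) * |SS (N / r) / Real.log T ^ 4 - c₀|
        ≤ κ * (T * Real.log T ^ 4) * (η / 2 + 4 * ε * |c₀|) :=
          mul_le_mul_of_nonneg_left h7 (by positivity)
      _ = (4 * ε * (|c₀| * κ) + κ * (η / 2)) * (T * Real.log T ^ 4) := by ring
      _ ≤ (4 * ε * (|c₀| * κ) + 1 * (η / 2)) * (T * Real.log T ^ 4) := by
          refine mul_le_mul_of_nonneg_right ?_ (by positivity)
          have := mul_le_mul_of_nonneg_right hκ1 (show 0 ≤ η / 2 by positivity)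
          linarith
      _ = _ := by ring
  have h9 : ‖((c₀ * κ : ℝ) : ℂ)‖ = |c₀| * κ := by
    rw [Complex.norm_real, Real.norm_eq_abs, abs_mul, abs_of_pos hκ0]
  rw [h9]
  calc _ ≤ _ := norm_sub_le_norm_sub_add_norm_sub _ (((T / √((r : ℝ) * s) *
        ∑ l ∈ Icc 1 (N / r), dv (r * l) * dv (s * l) / l : ℝ)) : ℂ) _
    _ ≤ C * (N * (1 + Real.log N) ^ 4) +
        (4 * ε * (|c₀| * κ) + η / 2) * (T * Real.log T ^ 4) := add_le_add h5 h8
    _ ≤ (4 * ε * (|c₀| * κ) + η) * (T * Real.log T ^ 4) := by linarith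

end Pool.Agent.Lib.MP_aa9ae4_nt.K2
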