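import Mathlib
import Pool.Agent.Lib.MP_aa9ae4_nt.K2.SpecB
import Pool.Agent.Lib.MP_aa9ae4_nt.Weight

/-!
MP_aa9ae4_nt, k = 2: from mean squares of `PP` to the fourth moment.
-/

namespace Pool.Agent.Lib.MP_aa9ae4_nt.K2

open Finset MeasureTheory Filter Topology
open Complex (I)

theorem pWk (h1 : S_KEY) : S_Wk := by
  intro θ c hθ h
  obtain ⟨C, hC, hkey⟩ := h1
  rw [Metric.tendsto_nhds]
  intro δ hδ
  have hc0 : 0 ≤ ‖c‖ := norm_nonneg c
  obtain ⟨Θ, hΘ⟩ : ∃ Θ : ℝ, Θ = θ + θ⁻¹ := ⟨_, rfl⟩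
  have hΘ0 : 0 < Θ := by
    rw [hΘ]
    positivity
  obtain ⟨s, hs⟩ : ∃ s : ℝ, s = min (1 / 2) (δ / (4 * (16 * C + 8 * ‖c‖ + 1))) := ⟨_, rfl⟩
  have hs0 : 0 < s := by
    rw [hs]
    exact lt_min (by norm_num) (by positivity)
  have hs1 : s ≤ 1 / 2 := by rw [hs]; exact min_le_left _ _
  have hs2 : s * (4 * (16 * C + 8 * ‖c‖ + 1)) ≤ δ := by
    rw [← le_div_iff₀ (by positivity), hs]
    exact min_le_right _ _
  have hε : 0 < s ^ 2 := by positivity
  have hε1 : s ^ 2 < 1 / 2 := by nlinarith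
  have hlog := Real.tendsto_log_atTop.eventually_ge_atTop (2 / s ^ 2)
  filter_upwards [hlog, eventually_ge_atTop (3 : ℝ), h (s ^ 2) hε hε1 (δ / 16) (by positivity),
    weight_small (s ^ 2) hε (δ / (32 * C * Θ)) (by positivity)] with T h2 h3 h1 hsm
  have hT0 : 0 < T := by linarith
  have h7 : 2 ≤ s ^ 2 * Real.log T := by
    rw [div_le_iff₀ hε] at h2
    linarith
  have hL1 : 1 ≤ Real.log T := by nlinarith
  have hL0 : 0 < T * Real.log T ^ 4 := by positivity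
  obtain ⟨g1, _, _⟩ := weight_floor (s ^ 2) T hε1 (by linarith)
  obtain ⟨f1, f2, f3⟩ := weight_facts (s ^ 2) T hε hε1 (by linarith)
  have f4 := weight_logN (s ^ 2) T hε hε1 (by linarith) hL1
  obtain ⟨N, hN⟩ : ∃ N : ℕ, N = ⌊T ^ (1 - s ^ 2)⌋₊ := ⟨_, rfl⟩
  rw [← hN] at g1 f1 f2 f3 f4 h1
  have h4 := hkey T θ N (by linarith) hθ g1 f1
  rw [← hΘ] at h4
  have h5 : √((1 + Real.log T) * (1 + Real.log (T / N))) ≤ 2 * s * Real.log T := by
    have h6 : (2 * s * Real.log T) = √((2 * s * Real.log T) ^ 2) :=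
      (Real.sqrt_sq (by positivity)).symm
    rw [h6]
    refine Real.sqrt_le_sqrt ?_
    have h8 : 1 + Real.log (T / N) ≤ 2 * (s ^ 2 * Real.log T) := by linarith
    have h9 : 1 + Real.log T ≤ 2 * Real.log T := by linarith
    calc (1 + Real.log T) * (1 + Real.log (T / N))
        ≤ (1 + Real.log T) * (2 * (s ^ 2 * Real.log T)) :=
          mul_le_mul_of_nonneg_left h8 (by linarith)
      _ ≤ (2 * Real.log T) * (2 * (s ^ 2 * Real.log T)) :=
          mul_le_mul_of_nonneg_right h9 (by positivity)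
      _ = (2 * s * Real.log T) ^ 2 := by ring
  have h10 : T * (1 + Real.log T) ^ 3 * √((1 + Real.log T) * (1 + Real.log (T / N))) ≤
      16 * s * (T * Real.log T ^ 4) := by
    calc T * (1 + Real.log T) ^ 3 * √((1 + Real.log T) * (1 + Real.log (T / N)))
        ≤ T * (2 * Real.log T) ^ 3 * (2 * s * Real.log T) := by
          refine mul_le_mul ?_ h5 (Real.sqrt_nonneg _) (by positivity)
          refine mul_le_mul_of_nonneg_left ?_ hT0.le
          exact pow_le_pow_left₀ (by linarith) (by linarith) 3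
      _ = 16 * s * (T * Real.log T ^ 4) := by ring
  have hlogN : 0 ≤ Real.log N := Real.log_nonneg (by exact_mod_cast g1)
  have h11 : Θ * (N * (1 + Real.log N) ^ 3) ≤ δ / (4 * C) * (T * Real.log T ^ 4) := by
    calc Θ * (N * (1 + Real.log N) ^ 3)
        ≤ Θ * ((T * (δ / (32 * C * Θ))) * (2 * Real.log T) ^ 3) := by
          refine mul_le_mul_of_nonneg_left ?_ hΘ0.le
          refine mul_le_mul ?_ (pow_le_pow_left₀ (by linarith) f4 3) (by positivity)
            (by positivity)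
          exact f3.trans (mul_le_mul_of_nonneg_left hsm hT0.le)
      _ = δ / (4 * C) * (T * (Real.log T ^ 3 * 1)) := by
          field_simp
          ring
      _ ≤ δ / (4 * C) * (T * (Real.log T ^ 3 * Real.log T)) := by
          refine mul_le_mul_of_nonneg_left ?_ (by positivity)
          refine mul_le_mul_of_nonneg_left ?_ hT0.le
          exact mul_le_mul_of_nonneg_left hL1 (by positivity)
      _ = _ := by ring
  have h12 : ‖(∫ t in T..(2 * T), ((‖riemannZeta (1 / 2 + t * I)‖ ^ 4 : ℝ) : ℂ) *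
      (θ : ℂ) ^ (t * I)) - 2 * JJ T N θ‖ ≤ (16 * C * s + δ / 4) * (T * Real.log T ^ 4) := by
    refine h4.trans ?_
    calc C * (T * (1 + Real.log T) ^ 3 * √((1 + Real.log T) * (1 + Real.log (T / N))) +
          Θ * (N * (1 + Real.log N) ^ 3))
        ≤ C * (16 * s * (T * Real.log T ^ 4) + δ / (4 * C) * (T * Real.log T ^ 4)) :=
          mul_le_mul_of_nonneg_left (add_le_add h10 h11) hC.le
      _ = _ := by
          field_simp
  rw [dist_eq_norm]
  have hne : ((T * Real.log T ^ 4 : ℝ) : ℂ) ≠ 0 := by exact_mod_cast hL0.ne'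
  have h13 : (∫ t in T..(2 * T), ((‖riemannZeta (1 / 2 + t * I)‖ ^ 4 : ℝ) : ℂ) *
      (θ : ℂ) ^ (t * I)) / ((T * Real.log T ^ 4 : ℝ) : ℂ) - 2 * c =
      ((∫ t in T..(2 * T), ((‖riemannZeta (1 / 2 + t * I)‖ ^ 4 : ℝ) : ℂ) *
      (θ : ℂ) ^ (t * I)) - 2 * c * ((T * Real.log T ^ 4 : ℝ) : ℂ)) /
        ((T * Real.log T ^ 4 : ℝ) : ℂ) := by
    rw [sub_div, mul_div_cancel_right₀ _ hne]
  rw [h13, norm_div, Complex.norm_real, Real.norm_eq_abs, abs_of_pos hL0, div_lt_iff₀ hL0]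
  have h14 : ‖2 * JJ T N θ - 2 * c * ((T * Real.log T ^ 4 : ℝ) : ℂ)‖ ≤
      2 * ((4 * s ^ 2 * ‖c‖ + δ / 16) * (T * Real.log T ^ 4)) := by
    have e : 2 * JJ T N θ - 2 * c * ((T * Real.log T ^ 4 : ℝ) : ℂ) =
        2 * (JJ T N θ - c * ((T * Real.log T ^ 4 : ℝ) : ℂ)) := by ring
    rw [e, norm_mul, Complex.norm_ofNat]
    exact mul_le_mul_of_nonneg_left h1 (by norm_num)
  have h15 := (norm_sub_le_norm_sub_add_norm_sub (∫ t in T..(2 * T),
    ((‖riemannZeta (1 / 2 + t * I)‖ ^ 4 : ℝ) : ℂ) * (θ : ℂ) ^ (t * I)) (2 * JJ T N θ)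
    (2 * c * ((T * Real.log T ^ 4 : ℝ) : ℂ))).trans (add_le_add h12 h14)
  refine lt_of_le_of_lt h15 ?_
  have h16 : (16 * C * s + δ / 4) + 2 * (4 * s ^ 2 * ‖c‖ + δ / 16) < δ := by
    have h17 : s ^ 2 * ‖c‖ ≤ s * ‖c‖ := by
      refine mul_le_mul_of_nonneg_right ?_ hc0
      nlinarith
    nlinarith
  calc (16 * C * s + δ / 4) * (T * Real.log T ^ 4) +
        2 * ((4 * s ^ 2 * ‖c‖ + δ / 16) * (T * Real.log T ^ 4))
      = ((16 * C * s + δ / 4) + 2 * (4 * s ^ 2 * ‖c‖ + δ / 16)) * (T * Real.log T ^ 4) := by ring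
    _ < δ * (T * Real.log T ^ 4) := mul_lt_mul_of_pos_right h16 hL0

end Pool.Agent.Lib.MP_aa9ae4_nt.K2
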