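import Pool.Agent.Lib.MP_aa9ae4_nt.K2.MainA
import Pool.Agent.Lib.MP_aa9ae4_nt.K2.PRs
import Pool.Agent.Lib.MP_aa9ae4_nt.K2.PWk
import Pool.Agent.Lib.MP_aa9ae4_nt.K2.PWRat
import Pool.Agent.Lib.MP_aa9ae4_nt.K2.PWIrr
import Pool.Agent.Lib.MP_aa9ae4_nt.K2.PTwL
import Pool.Agent.Lib.MP_aa9ae4_nt.K2.PV1
import Pool.Agent.Lib.MP_aa9ae4_nt.K2.PV3
import Pool.Agent.Lib.MP_aa9ae4_nt.K2.PV4

/-!
MP_aa9ae4_nt, k = 2: assembly of the modules.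
-/

namespace Pool.Agent.Lib.MP_aa9ae4_nt.K2

open Filter Topology
open Complex (I)

theorem allV4 : S_V4 := pV4 (pV3 pV1 pV2)

theorem allRs : S_Rs := pRs pAks allDQ

theorem allTwL : S_TwL := pTwL allRs (pWk allKEY) (pWRat allRat) (pWIrr allOne)

/-- The asymptotic formula for `k = 2`, `σ = 1` and all positive `a`. -/
theorem main (a β : ℝ) (ha : 0 < a) :
    ∃ D : ℝ, 0 < D ∧ Tendsto (fun T : ℝ => (∫ t in T..(2 * T),
      (‖riemannZeta (1 / 2 + t * I)‖ / ‖riemannZeta (1 + a * t * I)‖ ^ β) ^ 4) /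
      (T * Real.log T ^ 4)) atTop (𝓝 D) :=
  main4 allV4 allTwL allPW a β ha

end Pool.Agent.Lib.MP_aa9ae4_nt.K2
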