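import Mathlib
import Pool.Agent.Lib.MP_aa9ae4_nt.K2.SpecA

namespace Pool.Agent.Lib.MP_aa9ae4_nt.K2

open Finset MeasureTheory Filter Topology
open Complex (I)

theorem pAFE (hF : S_Fun) (hTL : S_TL) (hr : S_FFr) (hl : S_FFl) (hg : S_FFg) : S_AFE := by
  obtain ⟨_, _, _, hFd, _⟩ := hF
  obtain ⟨C2, hC2, hr⟩ := hr
  obtain ⟨C1, hC1, hl⟩ := hl
  refine ⟨Real.exp 8 * (C1 + C2), by positivity, fun T hT => ?_⟩
  have hT0 : 0 < T := by linarith
  have hlog : 0 ≤ Real.log T := Real.log_nonneg (by linarith)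
  obtain ⟨hc, hd, K, hK⟩ := hg T hT
  have h1 := hTL (FF T) K (1 / T ^ 2) (C1 * (T ^ 3 * (1 + Real.log T) ^ 3))
    (C2 * ((1 + Real.log T) ^ 3 / T)) (by positivity) hc hd hK (hl T hT) (hr T hT) (2 * T)
    (by linarith)
  have e1 : 1 / T ^ 2 * (C1 * (T ^ 3 * (1 + Real.log T) ^ 3)) +
      C2 * ((1 + Real.log T) ^ 3 / T) / (1 / T ^ 2) =
      (C1 + C2) * (T * (1 + Real.log T) ^ 3) := by
    field_simp
  rw [e1] at h1
  have hline : Continuous (fun y : ℝ => FF T (1 / 2 + y * I)) := by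
    refine hc.comp_continuous (by fun_prop) fun y => ?_
    refine ⟨?_, ?_⟩
    · norm_num
    · norm_num
  have hcF : Continuous (fun y : ℝ => ‖FF T (1 / 2 + y * I)‖ ^ 2) := hline.norm.pow 2
  set N : ℕ := ⌊T⌋₊ with hN
  have hpt : ∀ t ∈ Set.Icc T (2 * T),
      ‖riemannZeta (1 / 2 + t * I) ^ 2 - RR N (1 / 2 + t * I)‖ ^ 2 ≤
      Real.exp 8 * ‖FF T (1 / 2 + t * I)‖ ^ 2 := by
    intro t ht
    set s : ℂ := 1 / 2 + t * I with hs
    have hs1 : s ≠ 1 := by
      intro h0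
      have := congrArg Complex.re h0
      rw [hs] at this
      norm_num at this
    have hs2 : 1 - s ≠ 0 := fun h0 => hs1 (by linear_combination -h0)
    have e2 : riemannZeta₁ s = (s - 1) * riemannZeta s := by
      rw [riemannZeta_eq_inv_sub_mul hs1]
      have : s - 1 ≠ 0 := sub_ne_zero.2 hs1
      field_simp
    have hTc : (T : ℂ) ≠ 0 := by exact_mod_cast hT0.ne'
    have e3 : FF T s = (((s - 1) / T) ^ 2 * (riemannZeta s ^ 2 - RR N s)) *
        Complex.exp ((s / (T : ℂ)) ^ 2) := by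
      unfold FF RR
      rw [e2, hFd (1 - s) hs2, ← hN]
      congr 1
      field_simp
      ring
    have e4 : ‖s - 1‖ ^ 2 = 1 / 4 + t ^ 2 := by
      rw [hs, show (1 / 2 + t * I - 1 : ℂ) = ((-(1 / 2) : ℝ) : ℂ) + (t : ℂ) * I by
        push_cast; ring, Complex.norm_add_mul_I, Real.sq_sqrt (by positivity)]
      ring
    have h2 : 1 ≤ ‖((s - 1) / T) ^ 2‖ := by
      rw [norm_pow, norm_div, Complex.norm_real, Real.norm_of_nonneg hT0.le, div_pow, e4,
        le_div_iff₀ (by positivity)]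
      nlinarith [ht.1]
    have h3 : Real.exp (-4) ≤ ‖Complex.exp ((s / (T : ℂ)) ^ 2)‖ := by
      rw [Complex.norm_exp]
      refine Real.exp_le_exp.2 ?_
      have e5 : ((s / (T : ℂ)) ^ 2).re = (s.re / T) ^ 2 - (s.im / T) ^ 2 := by
        rw [sq, Complex.mul_re, Complex.div_ofReal_re, Complex.div_ofReal_im]
        ring
      have e6 : s.im = t := by rw [hs]; simp
      rw [e5, e6]
      have h4 : (t / T) ^ 2 ≤ 4 := by
        rw [div_pow, div_le_iff₀ (by positivity)]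
        nlinarith [ht.1, ht.2]
      nlinarith [sq_nonneg (s.re / T)]
    have h4 : Real.exp (-4) * ‖riemannZeta s ^ 2 - RR N s‖ ≤ ‖FF T s‖ := by
      rw [e3, norm_mul, norm_mul]
      calc Real.exp (-4) * ‖riemannZeta s ^ 2 - RR N s‖ =
          1 * ‖riemannZeta s ^ 2 - RR N s‖ * Real.exp (-4) := by ring
        _ ≤ _ := by gcongr
    have h5 : ‖riemannZeta s ^ 2 - RR N s‖ ≤ Real.exp 4 * ‖FF T s‖ := by
      have h6 : Real.exp 4 * (Real.exp (-4) * ‖riemannZeta s ^ 2 - RR N s‖) ≤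
          Real.exp 4 * ‖FF T s‖ := mul_le_mul_of_nonneg_left h4 (Real.exp_pos _).le
      rw [← mul_assoc, ← Real.exp_add] at h6
      norm_num at h6
      exact h6
    calc _ ≤ (Real.exp 4 * ‖FF T s‖) ^ 2 := pow_le_pow_left₀ (norm_nonneg _) h5 2
      _ = Real.exp 8 * ‖FF T s‖ ^ 2 := by
        rw [mul_pow, ← Real.exp_nat_mul]
        norm_num
  by_cases hint : IntervalIntegrable (fun t : ℝ =>
      ‖riemannZeta (1 / 2 + t * I) ^ 2 - RR N (1 / 2 + t * I)‖ ^ 2) volume T (2 * T)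
  · calc _ ≤ ∫ t in T..(2 * T), Real.exp 8 * ‖FF T (1 / 2 + t * I)‖ ^ 2 :=
          intervalIntegral.integral_mono_on (by linarith) hint
            ((continuous_const.mul hcF).intervalIntegrable _ _) hpt
      _ = Real.exp 8 * ∫ t in T..(2 * T), ‖FF T (1 / 2 + t * I)‖ ^ 2 :=
          intervalIntegral.integral_const_mul _ _
      _ ≤ Real.exp 8 * ∫ t in (-(2 * T))..(2 * T), ‖FF T (1 / 2 + t * I)‖ ^ 2 := by
          refine mul_le_mul_of_nonneg_left ?_ (Real.exp_pos _).le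
          refine intervalIntegral.integral_mono_interval (by linarith) (by linarith) le_rfl ?_ ?_
          · exact Eventually.of_forall fun y => by positivity
          · exact hcF.intervalIntegrable _ _
      _ ≤ Real.exp 8 * ((C1 + C2) * (T * (1 + Real.log T) ^ 3)) :=
          mul_le_mul_of_nonneg_left h1 (Real.exp_pos _).le
      _ = _ := by ring
  · rw [intervalIntegral.integral_undef hint]
    positivity

end Pool.Agent.Lib.MP_aa9ae4_nt.K2
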