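import Pool.Agent.Lib.MP_aa9ae4_nt.K2.SpecA

namespace Pool.Agent.Lib.MP_aa9ae4_nt.K2

open Finset MeasureTheory Filter Topology
open Complex (I)

private lemma abs_sqrt_step (n : ℕ) (hn : 1 ≤ n) :
    (n : ℝ) * (1 / √(n : ℝ) - 1 / √((n + 1 : ℕ) : ℝ)) ≤ √((n + 1 : ℕ) : ℝ) - √(n : ℝ) := by
  have hn0 : (0 : ℝ) < n := by exact_mod_cast hn
  set a := √(n : ℝ) with ha
  set b := √((n + 1 : ℕ) : ℝ) with hb
  have ha0 : 0 < a := Real.sqrt_pos.2 hn0
  have hb0 : 0 < b := Real.sqrt_pos.2 (by positivity)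
  have ha2 : a * a = n := Real.mul_self_sqrt hn0.le
  have hb2 : b * b = n + 1 := by
    rw [hb, Real.mul_self_sqrt (by positivity)]
    push_cast
    ring
  rw [← ha2]
  have e : a * a * (1 / a - 1 / b) = a - a * a / b := by
    field_simp
  rw [e]
  have h1 : 2 * a ≤ b + a * a / b := by
    have h2 : b + a * a / b - 2 * a = (b - a) ^ 2 / b := by
      field_simp
      ring
    have h3 : 0 ≤ (b - a) ^ 2 / b := by positivity
    linarith
  linarith

private lemma abs_sqrt_sum (f : ℕ → ℝ) (c : ℝ) (_hf : ∀ n, 0 ≤ f n) (N : ℕ)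
    (hA : ∀ n, 1 ≤ n → n ≤ N → ∑ j ∈ Icc 1 n, f j ≤ c * n) (n : ℕ) (hn : 1 ≤ n) (hnN : n ≤ N) :
    ∑ j ∈ Icc 1 n, f j / √(j : ℝ) ≤ (∑ j ∈ Icc 1 n, f j) / √(n : ℝ) + c * √(n : ℝ) := by
  have hc0 : 0 ≤ c := by
    have h1 := hA 1 le_rfl (hn.trans hnN)
    simp at h1
    linarith [_hf 1]
  induction n, hn using Nat.le_induction with
  | base =>
    simp
    exact hc0
  | succ n hn ih =>
    have ih' := ih (by omega)
    rw [sum_Icc_succ_top (by omega), sum_Icc_succ_top (by omega)]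
    have hn0 : (0 : ℝ) < n := by exact_mod_cast hn
    set A := ∑ j ∈ Icc 1 n, f j with hAd
    have h1 := hA n hn (by omega)
    rw [← hAd] at h1
    have h2 := abs_sqrt_step n hn
    set a := √(n : ℝ) with ha
    set b := √((n + 1 : ℕ) : ℝ) with hb
    have ha0 : 0 < a := Real.sqrt_pos.2 hn0
    have hb0 : 0 < b := Real.sqrt_pos.2 (by positivity)
    have hab : a ≤ b := Real.sqrt_le_sqrt (by push_cast; linarith)
    have h3 : 0 ≤ 1 / a - 1 / b := by
      have := one_div_le_one_div_of_le ha0 hab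
      linarith
    have h4 : A * (1 / a - 1 / b) ≤ c * (b - a) := by
      calc A * (1 / a - 1 / b) ≤ (c * n) * (1 / a - 1 / b) := mul_le_mul_of_nonneg_right h1 h3
        _ = c * (n * (1 / a - 1 / b)) := by ring
        _ ≤ c * (b - a) := mul_le_mul_of_nonneg_left h2 hc0
    have e : (A + f (n + 1)) / b = A / b + f (n + 1) / b := add_div _ _ _
    rw [e]
    have e2 : A * (1 / a - 1 / b) = A / a - A / b := by ring
    rw [e2] at h4
    linarith

private lemma abs_log_sum (f : ℕ → ℝ) (c : ℝ) (hf : ∀ n, 0 ≤ f n) (M N : ℕ) (hM : 1 ≤ M)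
    (hA : ∀ n, 1 ≤ n → n ≤ N → ∑ j ∈ Icc 1 n, f j ≤ c * n) (n : ℕ) (hn : M ≤ n) (hnN : n ≤ N) :
    ∑ j ∈ Ioc M n, f j / (j : ℝ) ≤ (∑ j ∈ Ioc M n, f j) / (n : ℝ) +
      c * (Real.log n - Real.log M) := by
  have hc0 : 0 ≤ c := by
    have h1 := hA 1 le_rfl (by omega)
    simp at h1
    linarith [hf 1]
  induction n, hn using Nat.le_induction with
  | base => simp
  | succ n hn ih =>
    have ih' := ih (by omega)
    rw [sum_Ioc_succ_top (by omega), sum_Ioc_succ_top (by omega)]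
    have hn0 : (0 : ℝ) < n := by exact_mod_cast (by omega : 0 < n)
    set A := ∑ j ∈ Ioc M n, f j with hAd
    have h1 : A ≤ c * n := by
      refine le_trans ?_ (hA n (by omega) (by omega))
      apply sum_le_sum_of_subset_of_nonneg
      · intro j hj
        rw [mem_Ioc] at hj
        rw [mem_Icc]
        omega
      · intro j _ _
        exact hf j
    have h2 : (1 : ℝ) / (n + 1) ≤ Real.log ((n + 1 : ℕ) : ℝ) - Real.log n := by
      rw [← Real.log_div (by positivity) hn0.ne']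
      have h3 := Real.one_sub_inv_le_log_of_pos (show 0 < ((n + 1 : ℕ) : ℝ) / n by positivity)
      refine le_trans (le_of_eq ?_) h3
      push_cast
      field_simp
      ring
    have h3 : A * (1 / (n : ℝ) - 1 / (n + 1)) ≤ c * (1 / (n + 1)) := by
      have e : (1 / (n : ℝ) - 1 / (n + 1)) = 1 / (n * (n + 1)) := by
        field_simp
        ring
      rw [e]
      calc A * (1 / ((n : ℝ) * (n + 1))) ≤ (c * n) * (1 / (n * (n + 1))) :=
            mul_le_mul_of_nonneg_right h1 (by positivity)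
        _ = c * (1 / (n + 1)) := by field_simp
    have h4 := mul_le_mul_of_nonneg_left h2 hc0
    have e2 : A * (1 / (n : ℝ) - 1 / (n + 1)) = A / n - A / (n + 1) := by ring
    rw [e2] at h3
    have e3 : (A + f (n + 1)) / ((n + 1 : ℕ) : ℝ) = A / (n + 1) + f (n + 1) / ((n + 1 : ℕ) : ℝ) := by
      rw [add_div]
      push_cast
      rfl
    rw [e3]
    linarith

private lemma abs_moment (h : S_Aks) (k N : ℕ) (n : ℕ) (hn : 1 ≤ n) (hnN : n ≤ N) :
    ∑ j ∈ Icc 1 n, dv j ^ k ≤ (1 + Real.log N) ^ (2 ^ k - 1) * n := by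
  have h1 := (h k n hn).1
  have hn0 : (0 : ℝ) < n := by exact_mod_cast hn
  have h2 : Real.log (n : ℝ) ≤ Real.log N := Real.log_le_log hn0 (by exact_mod_cast hnN)
  have h3 : 0 ≤ Real.log (n : ℝ) := Real.log_natCast_nonneg n
  refine h1.trans ?_
  rw [mul_comm]
  gcongr

theorem pAbs (h : S_Aks) : S_Abs := by
  have hd0 : ∀ k n, 0 ≤ dv n ^ k := fun k n => by unfold dv; positivity
  refine ⟨?_, ?_, ?_, ?_⟩
  · intro N hN
    set L := 1 + Real.log (N : ℝ) with hL
    have h1 := abs_sqrt_sum (fun n => dv n ^ 2) (L ^ 3) (hd0 2) N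
      (fun n hn hnN => abs_moment h 2 N n hn hnN) N hN le_rfl
    have h2 := abs_moment h 2 N N hN le_rfl
    have hN0 : (0 : ℝ) < N := by exact_mod_cast hN
    have hs : 0 < √(N : ℝ) := Real.sqrt_pos.2 hN0
    have h3 : (∑ j ∈ Icc 1 N, dv j ^ 2) / √(N : ℝ) ≤ L ^ 3 * √(N : ℝ) := by
      rw [div_le_iff₀ hs, mul_assoc, Real.mul_self_sqrt hN0.le]
      exact h2
    calc _ ≤ _ := h1
      _ ≤ L ^ 3 * √(N : ℝ) + L ^ 3 * √(N : ℝ) := add_le_add h3 le_rfl
      _ = _ := by ring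
  · intro N hN
    set L := 1 + Real.log (N : ℝ) with hL
    have h0 := abs_moment h 1 N
    have h0' : ∀ n, 1 ≤ n → n ≤ N → ∑ j ∈ Icc 1 n, dv j ≤ L * n := by
      intro n hn hnN
      have := h0 n hn hnN
      simpa using this
    have h1 := abs_sqrt_sum (fun n => dv n) L (fun n => by unfold dv; positivity) N h0' N hN le_rfl
    have h2 := h0' N hN le_rfl
    have hN0 : (0 : ℝ) < N := by exact_mod_cast hN
    have hs : 0 < √(N : ℝ) := Real.sqrt_pos.2 hN0
    have h3 : (∑ j ∈ Icc 1 N, dv j) / √(N : ℝ) ≤ L * √(N : ℝ) := by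
      rw [div_le_iff₀ hs, mul_assoc, Real.mul_self_sqrt hN0.le]
      exact h2
    calc _ ≤ _ := h1
      _ ≤ L * √(N : ℝ) + L * √(N : ℝ) := add_le_add h3 le_rfl
      _ = _ := by ring
  · intro M N hM hMN
    set L := 1 + Real.log (N : ℝ) with hL
    have h1 := abs_log_sum (fun n => dv n ^ 2) (L ^ 3) (hd0 2) M N hM
      (fun n hn hnN => abs_moment h 2 N n hn hnN) N hMN le_rfl
    have h2 := abs_moment h 2 N N (by omega) le_rfl
    have hN0 : (0 : ℝ) < N := by exact_mod_cast (by omega : 0 < N)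
    have hM0 : (0 : ℝ) < M := by exact_mod_cast (by omega : 0 < M)
    have h3 : (∑ j ∈ Ioc M N, dv j ^ 2) / (N : ℝ) ≤ L ^ 3 := by
      rw [div_le_iff₀ hN0]
      refine le_trans ?_ h2
      apply sum_le_sum_of_subset_of_nonneg
      · intro j hj
        rw [mem_Ioc] at hj
        rw [mem_Icc]
        omega
      · intro j _ _
        exact hd0 2 j
    rw [Real.log_div hN0.ne' hM0.ne']
    calc _ ≤ _ := h1
      _ ≤ L ^ 3 + L ^ 3 * (Real.log N - Real.log M) := add_le_add h3 le_rfl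
      _ = _ := by ring
  · intro M hM
    have hM0 : (0 : ℝ) < M := by exact_mod_cast hM
    set L := 1 + Real.log ((2 * M : ℕ) : ℝ) with hL
    have h2 := abs_moment h 2 (2 * M) (2 * M) (by omega) le_rfl
    have h3 : ∑ j ∈ Ioc M (2 * M), dv j ^ 2 ≤ L ^ 3 * (2 * M : ℕ) := by
      refine le_trans ?_ h2
      apply sum_le_sum_of_subset_of_nonneg
      · intro j hj
        rw [mem_Ioc] at hj
        rw [mem_Icc]
        omega
      · intro j _ _
        exact hd0 2 j
    calc ∑ n ∈ Ioc M (2 * M), dv n ^ 2 / (n : ℝ) ^ 3 ≤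
        ∑ n ∈ Ioc M (2 * M), dv n ^ 2 / (M : ℝ) ^ 3 := by
          refine sum_le_sum fun n hn => ?_
          have h4 : (M : ℝ) ≤ n := by exact_mod_cast (mem_Ioc.1 hn).1.le
          apply div_le_div_of_nonneg_left (hd0 2 n) (by positivity)
          gcongr
      _ = (∑ n ∈ Ioc M (2 * M), dv n ^ 2) / (M : ℝ) ^ 3 := by rw [sum_div]
      _ ≤ (L ^ 3 * (2 * M : ℕ)) / (M : ℝ) ^ 3 := by gcongr
      _ = _ := by
          push_cast
          field_simp

end Pool.Agent.Lib.MP_aa9ae4_nt.K2
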