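import Pool.Agent.Lib.MP_aa9ae4_nt.K2.SpecB

namespace Pool.Agent.Lib.MP_aa9ae4_nt.K2

open Finset MeasureTheory Filter Topology
open Complex (I)

/-- fourth powers over a finite set bounded by the full sum -/
private lemma blk_sum (h : S_Aks) (S : Finset ℕ) (N x : ℕ) (hN : 1 ≤ N) (hx : 1 ≤ x)
    (h1 : ∀ n ∈ S, 1 ≤ n ∧ n ≤ N ∧ n ≤ x) :
    ∑ n ∈ S, dv n ^ 4 ≤ x * (1 + Real.log N) ^ 15 := by
  set y := min N x with hy
  have hy1 : 1 ≤ y := le_min hN hx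
  have h2 := (h 4 y hy1).1
  have h3 : ∑ n ∈ S, dv n ^ 4 ≤ ∑ n ∈ Icc 1 y, dv n ^ 4 := by
    apply sum_le_sum_of_subset_of_nonneg
    · intro n hn
      rw [mem_Icc]
      exact ⟨(h1 n hn).1, le_min (h1 n hn).2.1 (h1 n hn).2.2⟩
    · intro n _ _
      positivity
  refine h3.trans (h2.trans ?_)
  have hy0 : (0 : ℝ) < y := by exact_mod_cast hy1
  have h4 : Real.log (y : ℝ) ≤ Real.log N :=
    Real.log_le_log hy0 (by exact_mod_cast min_le_left N x)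
  have h5 : 0 ≤ Real.log (y : ℝ) := Real.log_natCast_nonneg y
  have h6 : (y : ℝ) ≤ x := by exact_mod_cast min_le_right N x
  have h7 : (2 ^ 4 - 1 : ℕ) = 15 := by norm_num
  rw [h7]
  gcongr

private lemma blk_holder (B : Finset ℕ) (a b : ℕ → ℝ) (c x y : ℝ)
    (hc : (B.card : ℝ) ≤ c) (hx : ∑ n ∈ B, a n ^ 4 ≤ x) (hy : ∑ n ∈ B, b n ^ 4 ≤ y) :
    (∑ n ∈ B, a n * b n) ^ 4 ≤ c ^ 2 * (x * y) := by
  have h1 : (∑ n ∈ B, a n * b n) ^ 2 ≤ B.card * ∑ n ∈ B, (a n * b n) ^ 2 :=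
    sq_sum_le_card_mul_sum_sq
  have h2 : (∑ n ∈ B, (a n * b n) ^ 2) ^ 2 ≤ (∑ n ∈ B, a n ^ 4) * ∑ n ∈ B, b n ^ 4 := by
    have h3 := sum_mul_sq_le_sq_mul_sq B (fun n => a n ^ 2) (fun n => b n ^ 2)
    have e1 : ∀ n, (a n * b n) ^ 2 = a n ^ 2 * b n ^ 2 := fun n => by ring
    have e2 : ∀ n, (a n ^ 2) ^ 2 = a n ^ 4 := fun n => by ring
    have e3 : ∀ n, (b n ^ 2) ^ 2 = b n ^ 4 := fun n => by ring
    simp only [e2, e3] at h3
    simp only [e1]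
    exact h3
  have p1 : 0 ≤ ∑ n ∈ B, (a n * b n) ^ 2 := sum_nonneg fun n _ => by positivity
  have p2 : 0 ≤ ∑ n ∈ B, a n ^ 4 := sum_nonneg fun n _ => by positivity
  have p3 : 0 ≤ ∑ n ∈ B, b n ^ 4 := sum_nonneg fun n _ => by positivity
  have p4 : (0 : ℝ) ≤ B.card := by positivity
  have p5 : 0 ≤ x := p2.trans hx
  calc (∑ n ∈ B, a n * b n) ^ 4 = ((∑ n ∈ B, a n * b n) ^ 2) ^ 2 := by ring
    _ ≤ (B.card * ∑ n ∈ B, (a n * b n) ^ 2) ^ 2 := by gcongr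
    _ = (B.card : ℝ) ^ 2 * (∑ n ∈ B, (a n * b n) ^ 2) ^ 2 := by ring
    _ ≤ (B.card : ℝ) ^ 2 * ((∑ n ∈ B, a n ^ 4) * ∑ n ∈ B, b n ^ 4) := by gcongr
    _ ≤ c ^ 2 * (x * y) := by gcongr

theorem pBlk (h : S_Aks) : S_Blk := by
  refine ⟨80, by norm_num, ?_⟩
  intro θ δ N M B f hθ hδ hδ8 hN hM hBN hBM hf hcard
  have hθ0 : 0 < θ := by linarith
  have hM1 : (1 : ℝ) ≤ M := by exact_mod_cast hM
  have hlog : 0 ≤ Real.log (N : ℝ) := Real.log_natCast_nonneg N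
  set L := 1 + Real.log (N : ℝ) with hL
  have hL1 : 1 ≤ L := by linarith
  have hdv0 : ∀ n, 0 ≤ dv n := fun n => by unfold dv; positivity
  -- the two fourth moments
  have hA : ∑ n ∈ B, dv n ^ 4 ≤ (2 * M) * L ^ 15 := by
    have := blk_sum h B N (2 * M) hN (by omega) (fun n hn =>
      ⟨(mem_Icc.1 (hBN hn)).1, (mem_Icc.1 (hBN hn)).2, (mem_Ioc.1 (hBM hn)).2⟩)
    push_cast at this
    exact this
  have hinj : Set.InjOn f B := by
    have key : ∀ a ∈ B, ∀ b ∈ B, f a = f b → ¬ a < b := by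
      intro a ha b hb hab hlt
      have h1 := abs_le.1 (hf a ha).2.2
      have h2 := abs_le.1 (hf b hb).2.2
      rw [hab] at h1
      have h3 : (a : ℝ) + 1 ≤ b := by exact_mod_cast hlt
      nlinarith [h1.1, h1.2, h2.1, h2.2]
    intro a ha b hb hab
    rcases lt_trichotomy a b with h1 | h1 | h1
    · exact absurd h1 (key a ha b hb hab)
    · exact h1
    · exact absurd h1 (key b hb a ha hab.symm)
  have hBsum : ∑ n ∈ B, dv (f n) ^ 4 ≤ (3 * θ * M) * L ^ 15 := by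
    have h1 : ∑ n ∈ B, dv (f n) ^ 4 = ∑ m ∈ B.image f, dv m ^ 4 := by
      rw [sum_image hinj]
    have hx1 : 1 ≤ ⌊2 * θ * M + 1⌋₊ := by
      apply Nat.le_floor
      push_cast
      have : 0 ≤ 2 * θ * M := by positivity
      linarith
    have h2 := blk_sum h (B.image f) N ⌊2 * θ * M + 1⌋₊ hN hx1 (fun m hm => by
      obtain ⟨n, hn, rfl⟩ := mem_image.1 hm
      obtain ⟨f1, f2, f3⟩ := hf n hn
      refine ⟨f1, f2, ?_⟩
      apply Nat.le_floor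
      have h3 := (abs_le.1 f3).1
      have h4 : (n : ℝ) ≤ 2 * M := by exact_mod_cast (mem_Ioc.1 (hBM hn)).2
      nlinarith)
    rw [h1]
    refine h2.trans ?_
    have h3 : (⌊2 * θ * M + 1⌋₊ : ℝ) ≤ 3 * θ * M := by
      refine (Nat.floor_le (by positivity)).trans ?_
      nlinarith
    gcongr
  have hhol := blk_holder B dv (fun n => dv (f n)) (40 * δ * M) _ _ hcard hA hBsum
  -- the denominators
  have hden : ∀ n ∈ B, dv n * dv (f n) / √((n : ℝ) * f n) ≤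
      dv n * dv (f n) * (2 / (M * √θ)) := by
    intro n hn
    obtain ⟨f1, f2, f3⟩ := hf n hn
    have h3 := (abs_le.1 f3).2
    have h4 : (M : ℝ) ≤ n := by exact_mod_cast (mem_Ioc.1 (hBM hn)).1.le
    have h5 : 3 / 4 * (θ * M) ≤ f n := by nlinarith
    have h6 : (M * √θ / 2) ≤ √((n : ℝ) * f n) := by
      apply Real.le_sqrt_of_sq_le
      have h7 : (M * √θ / 2) ^ 2 = M ^ 2 * θ / 4 := by
        rw [div_pow, mul_pow, Real.sq_sqrt hθ0.le]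
        norm_num
      rw [h7]
      have h8 : (M : ℝ) * (3 / 4 * (θ * M)) ≤ n * f n :=
        mul_le_mul h4 h5 (by positivity) (by positivity)
      nlinarith [mul_pos hθ0 (by positivity : (0 : ℝ) < M ^ 2)]
    have h9 : 0 < M * √θ / 2 := by positivity
    rw [div_eq_mul_inv]
    apply mul_le_mul_of_nonneg_left _ (mul_nonneg (hdv0 _) (hdv0 _))
    calc (√((n : ℝ) * f n))⁻¹ ≤ (M * √θ / 2)⁻¹ := inv_anti₀ h9 h6
      _ = _ := by rw [inv_div]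
  refine (sum_le_sum hden).trans ?_
  rw [← sum_mul]
  set S := ∑ n ∈ B, dv n * dv (f n) with hS
  have hS0 : 0 ≤ S := sum_nonneg fun n _ => mul_nonneg (hdv0 _) (hdv0 _)
  -- compare fourth powers
  have hsq : (√δ) ^ 4 = δ ^ 2 := by
    rw [show (√δ) ^ 4 = ((√δ) ^ 2) ^ 2 by ring, Real.sq_sqrt hδ.le]
  have hsθ : (√θ) ^ 4 = θ ^ 2 := by
    rw [show (√θ) ^ 4 = ((√θ) ^ 2) ^ 2 by ring, Real.sq_sqrt hθ0.le]
  have hgoal : (S * (2 / (M * √θ))) ^ 4 ≤ (80 * (√δ * L ^ 8)) ^ 4 := by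
    have e1 : (S * (2 / (M * √θ))) ^ 4 = S ^ 4 * (16 / (M ^ 4 * θ ^ 2)) := by
      rw [mul_pow, div_pow, mul_pow, hsθ]
      norm_num
    rw [e1]
    have h2 : S ^ 4 * (16 / (M ^ 4 * θ ^ 2)) ≤
        ((40 * δ * M) ^ 2 * ((2 * M) * L ^ 15 * ((3 * θ * M) * L ^ 15))) *
          (16 / (M ^ 4 * θ ^ 2)) := mul_le_mul_of_nonneg_right hhol (by positivity)
    refine h2.trans ?_
    have e2 : ((40 * δ * M) ^ 2 * ((2 * M) * L ^ 15 * ((3 * θ * M) * L ^ 15))) *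
          (16 / (M ^ 4 * θ ^ 2)) = 153600 * δ ^ 2 * L ^ 30 * θ⁻¹ := by
      field_simp
      ring
    rw [e2]
    have e3 : (80 * (√δ * L ^ 8)) ^ 4 = 40960000 * δ ^ 2 * L ^ 32 := by
      rw [mul_pow, mul_pow, hsq]
      ring
    rw [e3]
    have h4 : θ⁻¹ ≤ 1 := inv_le_one_of_one_le₀ hθ
    have h5 : L ^ 30 ≤ L ^ 32 := pow_le_pow_right₀ hL1 (by norm_num)
    calc 153600 * δ ^ 2 * L ^ 30 * θ⁻¹ ≤ 40960000 * δ ^ 2 * L ^ 32 * 1 := by
          gcongr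
          norm_num
      _ = _ := mul_one _
  exact le_of_pow_le_pow_left₀ (by norm_num) (by positivity) hgoal

end Pool.Agent.Lib.MP_aa9ae4_nt.K2
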