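import Mathlib
import Pool.Agent.Lib.MP_aa9ae4_nt.K2.SpecA

namespace Pool.Agent.Lib.MP_aa9ae4_nt.K2

open Finset MeasureTheory Filter Topology
open Complex (I)

theorem cmp_cont_PP (N : ℕ) : Continuous fun t : ℝ => PP N (1 / 2 + t * I) := by
  unfold PP
  refine continuous_finsetSum _ fun n hn => ?_
  have hn0 : (n : ℂ) ≠ 0 := by
    have := (mem_Icc.1 hn).1
    exact_mod_cast (by omega : n ≠ 0)
  exact continuous_const.mul (Continuous.const_cpow (by fun_prop) (Or.inl hn0))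

theorem cmp_conj_PP (N : ℕ) (t : ℝ) :
    PP N (1 - (1 / 2 + t * I)) = starRingEnd ℂ (PP N (1 / 2 + t * I)) := by
  unfold PP
  rw [map_sum]
  refine sum_congr rfl fun n hn => ?_
  have harg : (n : ℂ).arg ≠ Real.pi := by
    rw [Complex.natCast_arg]
    exact Real.pi_pos.ne
  have h1 : (n : ℂ) ^ (-(1 - (1 / 2 + (t : ℂ) * I))) =
      starRingEnd ℂ ((n : ℂ) ^ (-(1 / 2 + (t : ℂ) * I))) := by
    have h2 := Complex.cpow_conj (n : ℂ) (-(1 / 2 + (t : ℂ) * I)) harg
    rw [Complex.conj_natCast] at h2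
    rw [← h2]
    congr 1
    have h3 : (1 / 2 : ℂ) = ((1 / 2 : ℝ) : ℂ) := by push_cast; rfl
    rw [map_neg, map_add, map_mul, Complex.conj_ofReal, Complex.conj_I, h3, Complex.conj_ofReal]
    push_cast
    ring
  rw [map_mul, Complex.conj_ofReal, h1]

theorem cmp_cont_XX : Continuous fun t : ℝ => XX (1 - (1 / 2 + t * I)) := by
  rw [continuous_iff_continuousAt]
  intro t
  have h : ∀ m : ℕ, (1 - (1 / 2 + (t : ℂ) * I)) ≠ -m := by
    intro m hm
    have h1 := congrArg Complex.re hm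
    have hm0 : (0 : ℝ) ≤ m := Nat.cast_nonneg m
    have h2 : (1 - (1 / 2 + (t : ℂ) * I)).re = 1 / 2 := by
      simp
      norm_num
    rw [h2] at h1
    simp only [Complex.neg_re, Complex.natCast_re] at h1
    linarith
  have hG := (Complex.differentiableAt_Gamma _ h).continuousAt
  have h2 : ContinuousAt (fun t : ℝ => Complex.Gamma (1 - (1 / 2 + (t : ℂ) * I))) t :=
    ContinuousAt.comp (f := fun t : ℝ => (1 - (1 / 2 + (t : ℂ) * I))) hG (by fun_prop)
  have hpi : (2 * Real.pi : ℂ) ≠ 0 := by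
    exact_mod_cast (by positivity : (2 * Real.pi : ℝ) ≠ 0)
  have h3 : Continuous fun t : ℝ => (2 * Real.pi : ℂ) ^ (-(1 - (1 / 2 + (t : ℂ) * I))) :=
    Continuous.const_cpow (by fun_prop) (Or.inl hpi)
  unfold XX
  exact ((continuousAt_const.mul h3.continuousAt).mul h2).mul (by fun_prop)

theorem cmp_cont_zeta : Continuous fun t : ℝ => riemannZeta (1 / 2 + t * I) := by
  rw [continuous_iff_continuousAt]
  intro t
  have h1 : ((1 / 2 : ℂ) + t * I) ≠ 1 := by
    intro h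
    have := congrArg Complex.re h
    norm_num at this
  exact ContinuousAt.comp (f := fun t : ℝ => ((1 / 2 : ℂ) + t * I)) (g := riemannZeta)
    (differentiableAt_riemannZeta h1).continuousAt (by fun_prop)

theorem cmp_cont_RR (N : ℕ) : Continuous fun t : ℝ => RR N (1 / 2 + t * I) := by
  unfold RR
  have h1 : Continuous fun t : ℝ => PP N (1 - (1 / 2 + t * I)) := by
    simp_rw [cmp_conj_PP]
    exact Complex.continuous_conj.comp (cmp_cont_PP N)
  exact (cmp_cont_PP N).add ((cmp_cont_XX.pow 2).mul h1)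

theorem cmp_norm_XX (hN1 : ∀ t : ℝ, ‖XX (1 / 2 + t * I)‖ = 1) (t : ℝ) :
    ‖XX (1 - (1 / 2 + t * I))‖ = 1 := by
  have h := hN1 (-t)
  rw [show ((1 : ℂ) - (1 / 2 + t * I)) = 1 / 2 + ((-t : ℝ) : ℂ) * I by push_cast; ring]
  exact h

theorem pCMP (hN : S_Nrm) (hMV : S_MV) (hA : S_AFE) : S_CMP := by
  obtain ⟨hN1, _, _⟩ := hN
  obtain ⟨C1, hC1, _, hMVb, hMVc⟩ := hMV
  obtain ⟨C2, hC2, hAFE⟩ := hA
  refine ⟨20 * C1 + 4 * C2, by positivity, fun T N hT hN hNT => ?_⟩
  have hT0 : 0 < T := by linarith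
  set N' : ℕ := ⌊T⌋₊ with hN'
  have hNN' : N ≤ N' := Nat.le_floor hNT
  have hN'T : (N' : ℝ) ≤ T := Nat.floor_le hT0.le
  have hN0 : (0 : ℝ) < N := by exact_mod_cast hN
  have hN'0 : (0 : ℝ) < N' := by exact_mod_cast (by omega : 0 < N')
  set L : ℝ := 1 + Real.log T with hL
  set M : ℝ := 1 + Real.log (T / N) with hM
  have hlogN : 0 ≤ Real.log (N : ℝ) := Real.log_natCast_nonneg N
  have hlogN' : 0 ≤ Real.log (N' : ℝ) := Real.log_natCast_nonneg N'
  have hM1 : 1 ≤ M := by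
    have : 0 ≤ Real.log (T / N) := Real.log_nonneg (by rw [le_div_iff₀ hN0]; linarith)
    linarith
  have hML : M ≤ L := by
    rw [hM, hL, Real.log_div hT0.ne' hN0.ne']
    linarith
  have hL1 : 1 ≤ L := hM1.trans hML
  have hM0 : 0 < M := by linarith
  have hL0 : 0 < L := by linarith
  have hlN : 1 + Real.log N ≤ L := by
    have := Real.log_le_log hN0 hNT
    linarith
  have hlN' : 1 + Real.log N' ≤ L := by
    have := Real.log_le_log hN'0 hN'T
    linarith
  -- the three integrals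
  set a : ℝ → ℝ := fun t => ‖riemannZeta (1 / 2 + t * I) ^ 2 - RR N' (1 / 2 + t * I)‖ with ha
  set b : ℝ → ℝ := fun t => ‖PP N' (1 / 2 + t * I) - PP N (1 / 2 + t * I)‖ with hb
  set p : ℝ → ℝ := fun t => ‖PP N (1 / 2 + t * I)‖ with hp
  have hac : Continuous a := ((cmp_cont_zeta.pow 2).sub (cmp_cont_RR N')).norm
  have hbc : Continuous b := ((cmp_cont_PP N').sub (cmp_cont_PP N)).norm
  have hpc : Continuous p := (cmp_cont_PP N).norm
  have hTT : T + T = 2 * T := by ring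
  have iA : ∫ t in T..(2 * T), a t ^ 2 ≤ C2 * (T * L ^ 3) := hAFE T hT
  have iB : ∫ t in T..(2 * T), b t ^ 2 ≤ C1 * (T * L ^ 3 * M) := by
    have h1 := hMVb T T N N' (by linarith) hN hNN' hN'T
    rw [hTT] at h1
    refine h1.trans ?_
    have h2 : Real.log ((N' : ℝ) / N) ≤ Real.log (T / N) :=
      Real.log_le_log (by positivity) (by gcongr)
    have h3 : (1 + Real.log N') ^ 3 ≤ L ^ 3 := pow_le_pow_left₀ (by linarith) hlN' 3
    have h4 : 0 ≤ 1 + Real.log ((N' : ℝ) / N) := by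
      have : 0 ≤ Real.log ((N' : ℝ) / N) := Real.log_nonneg (by
        rw [le_div_iff₀ hN0, one_mul]
        exact_mod_cast hNN')
      linarith
    have h5 : 1 + Real.log ((N' : ℝ) / N) ≤ M := by linarith
    gcongr
  have iP : ∫ t in T..(2 * T), p t ^ 2 ≤ C1 * (T * L ^ 4) := by
    have h1 := hMVc T T N (by linarith) hN hNT
    rw [hTT] at h1
    refine h1.trans ?_
    have h3 : (1 + Real.log N) ^ 4 ≤ L ^ 4 := pow_le_pow_left₀ (by linarith) hlN 4
    gcongr
  -- pointwise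
  set q : ℝ := √(L * M) with hq
  have hq0 : 0 < q := Real.sqrt_pos.2 (by positivity)
  have hq2 : q ^ 2 = L * M := Real.sq_sqrt (by positivity)
  set lam : ℝ := q / L with hlam
  have hlam0 : 0 < lam := by positivity
  have hqL : q ≤ L := by
    rw [hq, Real.sqrt_le_left hL0.le]
    nlinarith
  have hlam1 : lam ≤ 1 := by rw [hlam, div_le_one hL0]; exact hqL
  have hpt : ∀ t : ℝ, |‖riemannZeta (1 / 2 + t * I)‖ ^ 4 - ‖RR N (1 / 2 + t * I)‖ ^ 2| ≤
      4 * lam * p t ^ 2 + 2 / lam * (2 * a t ^ 2 + 8 * b t ^ 2) := by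
    intro t
    set z : ℂ := riemannZeta (1 / 2 + t * I) ^ 2 with hz
    set r : ℂ := RR N (1 / 2 + t * I) with hr
    have hX := cmp_norm_XX hN1 t
    have e1 : ‖riemannZeta (1 / 2 + t * I)‖ ^ 4 = ‖z‖ ^ 2 := by
      rw [hz, norm_pow]
      ring
    have e2 : ‖RR N' (1 / 2 + t * I) - r‖ ≤ 2 * b t := by
      have e3 : RR N' (1 / 2 + t * I) - r = (PP N' (1 / 2 + t * I) - PP N (1 / 2 + t * I)) +
          XX (1 - (1 / 2 + t * I)) ^ 2 *
            starRingEnd ℂ (PP N' (1 / 2 + t * I) - PP N (1 / 2 + t * I)) := by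
        rw [hr]
        unfold RR
        rw [cmp_conj_PP, cmp_conj_PP, map_sub]
        ring
      rw [e3]
      refine (norm_add_le _ _).trans ?_
      rw [norm_mul, norm_pow, hX, one_pow, one_mul, Complex.norm_conj]
      simp only [hb]
      linarith
    have e4 : ‖r‖ ≤ 2 * p t := by
      rw [hr]
      unfold RR
      refine (norm_add_le _ _).trans ?_
      rw [norm_mul, norm_pow, hX, one_pow, one_mul, cmp_conj_PP, Complex.norm_conj]
      simp only [hp]
      linarith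
    have e5 : ‖z - r‖ ≤ a t + 2 * b t := by
      have e6 : z - r = (z - RR N' (1 / 2 + t * I)) + (RR N' (1 / 2 + t * I) - r) := by ring
      rw [e6]
      refine (norm_add_le _ _).trans ?_
      have : ‖z - RR N' (1 / 2 + t * I)‖ = a t := rfl
      linarith
    have ha0 : 0 ≤ a t := norm_nonneg _
    have hb0 : 0 ≤ b t := norm_nonneg _
    have hp0 : 0 ≤ p t := norm_nonneg _
    set E : ℝ := ‖z - r‖ with hE
    have hE0 : 0 ≤ E := norm_nonneg _
    have hr0 : 0 ≤ ‖r‖ := norm_nonneg _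
    have hz0 : 0 ≤ ‖z‖ := norm_nonneg _
    have h1 : |‖z‖ - ‖r‖| ≤ E := abs_norm_sub_norm_le z r
    have h2 : |‖z‖ ^ 2 - ‖r‖ ^ 2| ≤ E * (2 * ‖r‖ + E) := by
      have e7 : ‖z‖ ^ 2 - ‖r‖ ^ 2 = (‖z‖ - ‖r‖) * (‖z‖ + ‖r‖) := by ring
      rw [e7, abs_mul, abs_of_nonneg (by positivity : 0 ≤ ‖z‖ + ‖r‖)]
      have h3 := (abs_le.1 h1).2
      refine mul_le_mul h1 ?_ (by positivity) hE0
      linarith
    have h3 : E ^ 2 ≤ 2 * a t ^ 2 + 8 * b t ^ 2 := by
      calc E ^ 2 ≤ (a t + 2 * b t) ^ 2 := pow_le_pow_left₀ hE0 e5 2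
        _ ≤ _ := by nlinarith [sq_nonneg (a t - 2 * b t)]
    have h4 : ‖r‖ ^ 2 ≤ 4 * p t ^ 2 := by
      calc ‖r‖ ^ 2 ≤ (2 * p t) ^ 2 := pow_le_pow_left₀ hr0 e4 2
        _ = _ := by ring
    have h5 : E * (2 * ‖r‖ + E) ≤ lam * ‖r‖ ^ 2 + 2 / lam * E ^ 2 := by
      have h6 : lam * ‖r‖ ^ 2 + 1 / lam * E ^ 2 - 2 * E * ‖r‖ = 1 / lam * (lam * ‖r‖ - E) ^ 2 := by
        field_simp
        ring
      have h7 : 0 ≤ 1 / lam * (lam * ‖r‖ - E) ^ 2 := by positivity
      have h8 : 1 ≤ 1 / lam := by rw [le_div_iff₀ hlam0]; linarith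
      have h9 : E ^ 2 ≤ 1 / lam * E ^ 2 := by nlinarith [sq_nonneg E]
      have h10 : 2 / lam * E ^ 2 = 1 / lam * E ^ 2 + 1 / lam * E ^ 2 := by ring
      rw [h10]
      nlinarith
    rw [e1]
    calc _ ≤ E * (2 * ‖r‖ + E) := h2
      _ ≤ _ := h5
      _ ≤ lam * (4 * p t ^ 2) + 2 / lam * (2 * a t ^ 2 + 8 * b t ^ 2) := by gcongr
      _ = _ := by ring
  have hLc : Continuous fun t : ℝ =>
      |‖riemannZeta (1 / 2 + t * I)‖ ^ 4 - ‖RR N (1 / 2 + t * I)‖ ^ 2| :=
    ((cmp_cont_zeta.norm.pow 4).sub ((cmp_cont_RR N).norm.pow 2)).abs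
  have i1 : IntervalIntegrable (fun t => 4 * lam * p t ^ 2) volume T (2 * T) :=
    (continuous_const.mul (hpc.pow 2)).intervalIntegrable _ _
  have i2 : IntervalIntegrable (fun t => 4 / lam * a t ^ 2) volume T (2 * T) :=
    (continuous_const.mul (hac.pow 2)).intervalIntegrable _ _
  have i3 : IntervalIntegrable (fun t => 16 / lam * b t ^ 2) volume T (2 * T) :=
    (continuous_const.mul (hbc.pow 2)).intervalIntegrable _ _
  have hlamL : lam * L = q := by rw [hlam]; field_simp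
  have hlamM : M / lam = q := by
    rw [div_eq_iff hlam0.ne', hlam]
    field_simp
    linarith
  have hlaminv : 1 / lam ≤ q := by
    rw [← hlamM]
    gcongr
  calc ∫ t in T..(2 * T), |‖riemannZeta (1 / 2 + t * I)‖ ^ 4 - ‖RR N (1 / 2 + t * I)‖ ^ 2| ≤
      ∫ t in T..(2 * T), (4 * lam * p t ^ 2 + (4 / lam * a t ^ 2 + 16 / lam * b t ^ 2)) := by
        refine intervalIntegral.integral_mono_on (by linarith)
          (hLc.intervalIntegrable _ _) (i1.add (i2.add i3)) fun t _ => ?_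
        refine (hpt t).trans (le_of_eq ?_)
        ring
    _ = 4 * lam * (∫ t in T..(2 * T), p t ^ 2) + (4 / lam * (∫ t in T..(2 * T), a t ^ 2) +
        16 / lam * ∫ t in T..(2 * T), b t ^ 2) := by
        rw [intervalIntegral.integral_add i1 (i2.add i3), intervalIntegral.integral_add i2 i3,
          intervalIntegral.integral_const_mul, intervalIntegral.integral_const_mul,
          intervalIntegral.integral_const_mul]
    _ ≤ 4 * lam * (C1 * (T * L ^ 4)) + (4 / lam * (C2 * (T * L ^ 3)) +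
        16 / lam * (C1 * (T * L ^ 3 * M))) := by gcongr
    _ = 4 * C1 * (T * L ^ 3) * (lam * L) + (4 * C2 * (T * L ^ 3) * (1 / lam) +
        16 * C1 * (T * L ^ 3) * (M / lam)) := by ring
    _ ≤ 4 * C1 * (T * L ^ 3) * q + (4 * C2 * (T * L ^ 3) * q +
        16 * C1 * (T * L ^ 3) * q) := by
        rw [hlamL, hlamM]
        gcongr
    _ = _ := by ring

end Pool.Agent.Lib.MP_aa9ae4_nt.K2
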