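import Mathlib
import Pool.Agent.Lib.MP_aa9ae4_nt.K2.SpecA

namespace Pool.Agent.Lib.MP_aa9ae4_nt.K2

open Finset MeasureTheory Filter Topology
open Complex (I)

private lemma cr_PP_diff (N : ℕ) : Differentiable ℂ (PP N) := by
  intro s
  unfold PP
  refine DifferentiableAt.fun_sum fun n hn => ?_
  have hn0 : (n : ℂ) ≠ 0 := by
    have := (mem_Icc.1 hn).1
    exact_mod_cast (by omega : n ≠ 0)
  exact (differentiableAt_const _).mul ((differentiableAt_id.neg).const_cpow (Or.inl hn0))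

private lemma cr_XX_diff (s : ℂ) (hs : 0 < s.im) : DifferentiableAt ℂ XX s := by
  unfold XX
  have h0 : (2 * Real.pi : ℂ) ≠ 0 := by
    have h : (2 * Real.pi : ℝ) ≠ 0 := by positivity
    exact_mod_cast h
  have h1 : DifferentiableAt ℂ (fun s : ℂ => (2 * Real.pi : ℂ) ^ (-s)) s :=
    (differentiableAt_id.neg).const_cpow (Or.inl h0)
  have h2 : DifferentiableAt ℂ Complex.Gamma s := by
    refine Complex.differentiableAt_Gamma _ fun m hm => ?_
    have h3 := congrArg Complex.im hm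
    simp at h3
    linarith
  have h3 : DifferentiableAt ℂ (fun s : ℂ => Complex.cos (Real.pi * s / 2)) s := by
    fun_prop
  exact (((differentiableAt_const (2 : ℂ)).mul h1).mul h2).mul h3

private lemma cr_PP (N : ℕ) (σ y : ℝ) (hσ : σ ≤ 1 / 2)
    (hAbs : ∑ n ∈ Icc 1 N, dv n / √(n : ℝ) ≤ 2 * √(N : ℝ) * (1 + Real.log N)) :
    ‖PP N (σ + y * I)‖ ≤ (N : ℝ) ^ (1 / 2 - σ) * (2 * √(N : ℝ) * (1 + Real.log N)) := by
  unfold PP
  calc _ ≤ ∑ n ∈ Icc 1 N, (N : ℝ) ^ (1 / 2 - σ) * (dv n / √(n : ℝ)) := by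
        refine norm_sum_le_of_le _ fun n hn => ?_
        have hn1 := (mem_Icc.1 hn).1
        have hn2 := (mem_Icc.1 hn).2
        have hn0 : (0 : ℝ) < n := by exact_mod_cast hn1
        have hd : 0 ≤ dv n := by unfold dv; positivity
        rw [norm_mul, Complex.norm_real, Real.norm_of_nonneg hd,
          Complex.norm_natCast_cpow_of_pos (by omega)]
        have e1 : (-((σ : ℂ) + y * I)).re = -σ := by simp
        rw [e1]
        have e2 : (n : ℝ) ^ (-σ) = (n : ℝ) ^ (1 / 2 - σ) / √(n : ℝ) := by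
          rw [Real.sqrt_eq_rpow, ← Real.rpow_sub hn0]
          congr 1
          ring
        rw [e2]
        have e3 : (n : ℝ) ^ (1 / 2 - σ) ≤ (N : ℝ) ^ (1 / 2 - σ) :=
          Real.rpow_le_rpow hn0.le (by exact_mod_cast hn2) (by linarith)
        have hs : 0 < √(n : ℝ) := Real.sqrt_pos.2 hn0
        calc dv n * ((n : ℝ) ^ (1 / 2 - σ) / √(n : ℝ)) =
            (n : ℝ) ^ (1 / 2 - σ) * (dv n / √(n : ℝ)) := by ring
          _ ≤ _ := mul_le_mul_of_nonneg_right e3 (by positivity)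
    _ = (N : ℝ) ^ (1 / 2 - σ) * ∑ n ∈ Icc 1 N, dv n / √(n : ℝ) := by rw [mul_sum]
    _ ≤ _ := mul_le_mul_of_nonneg_left hAbs (by positivity)

private lemma cr_theta (θ e : ℝ) (hθ : 0 < θ) (h1 : -1 ≤ e) (h2 : e ≤ 0) :
    θ ^ e ≤ max 1 θ⁻¹ := by
  rcases le_or_gt 1 θ with h | h
  · exact (Real.rpow_le_one_of_one_le_of_nonpos h h2).trans (le_max_left _ _)
  · refine le_trans ?_ (le_max_right _ _)
    rw [← Real.rpow_neg_one]
    exact Real.rpow_le_rpow_of_exponent_ge hθ h.le h1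

theorem pCR (hN : S_Nrm) (hA : S_Abs) (hMV : S_MV) (hX : S_XB) : S_CR := by
  obtain ⟨_, _, hN3⟩ := hN
  obtain ⟨_, hAbs, _, _⟩ := hA
  obtain ⟨C1, hC1, hMVa, _, _⟩ := hMV
  obtain ⟨C2, hC2, hX⟩ := hX
  have hπ := Real.pi_pos
  refine ⟨4 * Real.pi ^ 2 * C1 + 8 * C2 ^ 2, by positivity, fun T θ N hT hθ hN1 hNT => ?_⟩
  have hT0 : 0 < T := by linarith
  have hN0 : (0 : ℝ) < N := by exact_mod_cast hN1
  have hlogN : 0 ≤ Real.log (N : ℝ) := Real.log_natCast_nonneg N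
  set L : ℝ := 1 + Real.log N with hL
  have hL1 : 1 ≤ L := by linarith
  set m : ℝ := max 1 θ⁻¹ with hm
  have hm1 : 1 ≤ m := le_max_left _ _
  have hm2 : θ⁻¹ ≤ m := le_max_right _ _
  have hm0 : 0 < m := by linarith
  have hθc : (θ : ℂ) ≠ 0 := by exact_mod_cast hθ.ne'
  set g : ℂ → ℂ := fun s => PP N s ^ 2 * XX s ^ 2 * (θ : ℂ) ^ (s - 1 / 2) with hg
  have hgd : ∀ s : ℂ, 0 < s.im → DifferentiableAt ℂ g s := by
    intro s hs
    have a1 : DifferentiableAt ℂ (fun s : ℂ => (θ : ℂ) ^ (s - 1 / 2)) s :=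
      (by fun_prop : DifferentiableAt ℂ (fun s : ℂ => s - 1 / 2) s).const_cpow (Or.inl hθc)
    exact (((cr_PP_diff N s).pow 2).mul ((cr_XX_diff s hs).pow 2)).mul a1
  have hgn : ∀ s : ℂ, ‖g s‖ = ‖PP N s‖ ^ 2 * ‖XX s‖ ^ 2 * θ ^ (s.re - 1 / 2) := by
    intro s
    simp only [hg]
    rw [norm_mul, norm_mul, norm_pow, norm_pow, Complex.norm_cpow_eq_rpow_re_of_pos hθ]
    congr 2
    rw [Complex.sub_re]
    norm_num
  -- Cauchy
  have hrect := Complex.integral_boundary_rect_eq_zero_of_differentiableOn g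
    (⟨-(1 / 2), T⟩ : ℂ) (⟨1 / 2, 2 * T⟩ : ℂ) (by
      intro s hs
      rw [Complex.mem_reProdIm] at hs
      have h1 := hs.2
      rw [Set.uIcc_of_le (by simp only; linarith)] at h1
      have h2 := h1.1
      simp only at h2
      exact (hgd s (by linarith)).differentiableWithinAt)
  simp only [smul_eq_mul] at hrect
  have e1 : (∫ y in T..(2 * T), g (((1 / 2 : ℝ) : ℂ) + y * I)) =
      ∫ t in T..(2 * T), PP N (1 / 2 + t * I) ^ 2 * XX (1 / 2 + t * I) ^ 2 *
        (θ : ℂ) ^ (t * I) := by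
    refine intervalIntegral.integral_congr fun y _ => ?_
    simp only [hg]
    rw [show (((1 / 2 : ℝ)) : ℂ) = 1 / 2 by push_cast; rfl, add_sub_cancel_left]
  rw [e1] at hrect
  set J : ℂ := ∫ t in T..(2 * T), PP N (1 / 2 + t * I) ^ 2 * XX (1 / 2 + t * I) ^ 2 *
        (θ : ℂ) ^ (t * I) with hJ
  set A : ℂ := ∫ x in (-(1 / 2) : ℝ)..(1 / 2), g (x + (T : ℂ) * I) with hA'
  set B : ℂ := ∫ x in (-(1 / 2) : ℝ)..(1 / 2), g (x + ((2 * T : ℝ) : ℂ) * I) with hB'
  set D : ℂ := ∫ y in T..(2 * T), g (((-(1 / 2) : ℝ) : ℂ) + y * I) with hD'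
  have e2 : I * J = B - A + I * D := by
    have h5 : A - B + I * J - I * D = 0 := hrect
    linear_combination h5
  have hhor : ∀ τ : ℝ, T ≤ τ → ‖∫ x in (-(1 / 2) : ℝ)..(1 / 2), g (x + (τ : ℂ) * I)‖ ≤
      4 * C2 ^ 2 * (m * (N * L ^ 3)) := by
    intro τ hτ
    have h5 := intervalIntegral.norm_integral_le_of_norm_le_const (a := -(1 / 2)) (b := 1 / 2)
      (C := 4 * C2 ^ 2 * (m * (N * L ^ 3))) (f := fun x : ℝ => g (x + (τ : ℂ) * I))
      (fun x hx => by
        rw [Set.uIoc_of_le (by norm_num)] at hx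
        obtain ⟨hx1, hx2⟩ := hx
        have h6 := cr_PP N x τ hx2 (hAbs N hN1)
        have h7 := hX x τ hx1.le hx2 (by linarith)
        have h8 : τ ^ (x - 1 / 2) ≤ (N : ℝ) ^ (x - 1 / 2) :=
          Real.rpow_le_rpow_of_nonpos hN0 (by linarith) (by linarith)
        have h9 : (N : ℝ) ^ (1 / 2 - x) * (N : ℝ) ^ (x - 1 / 2) = 1 := by
          rw [← Real.rpow_add hN0]
          simp
        have h10 : ‖PP N (x + τ * I)‖ * ‖XX (x + τ * I)‖ ≤ 2 * C2 * (√(N : ℝ) * L) := by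
          calc _ ≤ ((N : ℝ) ^ (1 / 2 - x) * (2 * √(N : ℝ) * L)) *
                (C2 * (N : ℝ) ^ (x - 1 / 2)) := by
                refine mul_le_mul h6 (h7.trans ?_) (norm_nonneg _) (by positivity)
                exact mul_le_mul_of_nonneg_left h8 hC2.le
            _ = 2 * C2 * (√(N : ℝ) * L) * ((N : ℝ) ^ (1 / 2 - x) * (N : ℝ) ^ (x - 1 / 2)) := by
                ring
            _ = _ := by rw [h9, mul_one]
        have h11 : ((x : ℂ) + τ * I).re = x := by simp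
        rw [hgn, h11]
        have h12 : θ ^ (x - 1 / 2) ≤ m := cr_theta θ _ hθ (by linarith) (by linarith)
        calc ‖PP N (x + τ * I)‖ ^ 2 * ‖XX (x + τ * I)‖ ^ 2 * θ ^ (x - 1 / 2) =
            (‖PP N (x + τ * I)‖ * ‖XX (x + τ * I)‖) ^ 2 * θ ^ (x - 1 / 2) := by ring
          _ ≤ (2 * C2 * (√(N : ℝ) * L)) ^ 2 * m := by
              refine mul_le_mul (pow_le_pow_left₀ (by positivity) h10 2) h12
                (Real.rpow_nonneg hθ.le _) (by positivity)
          _ = 4 * C2 ^ 2 * (m * ((√(N : ℝ)) ^ 2 * L ^ 2)) := by ring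
          _ = 4 * C2 ^ 2 * (m * (N * L ^ 2)) := by rw [Real.sq_sqrt hN0.le]
          _ ≤ _ := by
              have h13 : L ^ 2 ≤ L ^ 3 := pow_le_pow_right₀ hL1 (by norm_num)
              gcongr)
    refine h5.trans (le_of_eq ?_)
    norm_num
  have hD : ‖D‖ ≤ 4 * Real.pi ^ 2 * C1 * (m * (N * L ^ 3)) := by
    have hc : Continuous fun t : ℝ => PP N (-(1 / 2) + t * I) :=
      (cr_PP_diff N).continuous.comp (by fun_prop)
    have h5 := intervalIntegral.norm_integral_le_of_norm_le (a := T) (b := 2 * T)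
      (μ := volume) (f := fun y : ℝ => g (((-(1 / 2) : ℝ) : ℂ) + y * I))
      (g := fun y : ℝ => 4 * Real.pi ^ 2 / T ^ 2 * θ⁻¹ * ‖PP N (-(1 / 2) + y * I)‖ ^ 2)
      (by linarith)
      (Eventually.of_forall fun y hy => by
        rw [hgn]
        have h6 : (((-(1 / 2) : ℝ) : ℂ) + y * I).re = -(1 / 2) := by simp
        rw [h6, show (-(1 / 2) : ℝ) - 1 / 2 = -1 by norm_num, Real.rpow_neg_one,
          show (((-(1 / 2) : ℝ)) : ℂ) = -(1 / 2) by push_cast; rfl, hN3 y, div_pow,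
          Real.sq_sqrt (by positivity)]
        have h7 : (2 * Real.pi) ^ 2 / (1 / 4 + y ^ 2) ≤ 4 * Real.pi ^ 2 / T ^ 2 := by
          have h8 : T < y := hy.1
          rw [show (2 * Real.pi) ^ 2 = 4 * Real.pi ^ 2 by ring]
          refine div_le_div_of_nonneg_left (by positivity) (by positivity) ?_
          nlinarith
        calc _ = (2 * Real.pi) ^ 2 / (1 / 4 + y ^ 2) * (θ⁻¹ * ‖PP N (-(1 / 2) + y * I)‖ ^ 2) := by
              ring
          _ ≤ 4 * Real.pi ^ 2 / T ^ 2 * (θ⁻¹ * ‖PP N (-(1 / 2) + y * I)‖ ^ 2) :=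
              mul_le_mul_of_nonneg_right h7 (by positivity)
          _ = _ := by ring)
      ((continuous_const.mul (hc.norm.pow 2)).intervalIntegrable _ _)
    refine h5.trans ?_
    rw [intervalIntegral.integral_const_mul]
    have h6 := hMVa T T N (by linarith) hN1 hNT
    rw [show T + T = 2 * T by ring] at h6
    calc _ ≤ 4 * Real.pi ^ 2 / T ^ 2 * θ⁻¹ * (C1 * (T * (N : ℝ) ^ 2 * L ^ 3)) :=
          mul_le_mul_of_nonneg_left h6 (by positivity)
      _ = 4 * Real.pi ^ 2 * C1 * (θ⁻¹ * (N * L ^ 3)) * (N / T) := by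
          field_simp
      _ ≤ 4 * Real.pi ^ 2 * C1 * (θ⁻¹ * (N * L ^ 3)) * 1 := by
          refine mul_le_mul_of_nonneg_left ?_ (by positivity)
          rw [div_le_one hT0]
          exact hNT
      _ ≤ 4 * Real.pi ^ 2 * C1 * (m * (N * L ^ 3)) := by
          rw [mul_one]
          gcongr
  have h3 : ‖J‖ = ‖B - A + I * D‖ := by
    rw [← e2, norm_mul, Complex.norm_I, one_mul]
  rw [h3]
  have h4 := norm_add_le (B - A) (I * D)
  have h5 := norm_sub_le B A
  have h6 := hhor T le_rfl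
  have h7 := hhor (2 * T) (by linarith)
  rw [norm_mul, Complex.norm_I, one_mul] at h4
  calc _ ≤ ‖B‖ + ‖A‖ + ‖D‖ := by linarith
    _ ≤ 4 * C2 ^ 2 * (m * (N * L ^ 3)) + 4 * C2 ^ 2 * (m * (N * L ^ 3)) +
        4 * Real.pi ^ 2 * C1 * (m * (N * L ^ 3)) := by
        gcongr
    _ = _ := by ring

end Pool.Agent.Lib.MP_aa9ae4_nt.K2
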