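import Pool.Agent.Lib.MP_aa9ae4_nt.K2.SpecB

namespace Pool.Agent.Lib.MP_aa9ae4_nt.K2

open Finset MeasureTheory Filter Topology
open Complex (I)

private lemma cnt_int (S : Finset ℤ) (l : ℝ) (hl : 0 ≤ l) (h : ∀ a ∈ S, ∀ b ∈ S, (b : ℝ) - a ≤ l) :
    (S.card : ℝ) ≤ l + 1 := by
  rcases S.eq_empty_or_nonempty with h0 | h0
  · rw [h0, card_empty, Nat.cast_zero]
    linarith
  · set a := S.min' h0 with ha
    have hsub : S ⊆ Icc a (a + ⌊l⌋) := by
      intro b hb
      rw [mem_Icc]
      refine ⟨S.min'_le b hb, ?_⟩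
      have h1 := h a (S.min'_mem h0) b hb
      have h2 : ((b - a : ℤ) : ℝ) ≤ l := by
        push_cast
        exact h1
      have h3 := Int.le_floor.mpr h2
      linarith
    have h4 := card_le_card hsub
    rw [Int.card_Icc] at h4
    have h5 : 0 ≤ ⌊l⌋ := Int.floor_nonneg.mpr hl
    have h6 : ((a + ⌊l⌋ + 1 - a).toNat : ℤ) = ⌊l⌋ + 1 := by
      rw [Int.toNat_of_nonneg (by linarith)]
      ring
    have h7 : (S.card : ℤ) ≤ ⌊l⌋ + 1 := by
      rw [← h6]
      exact_mod_cast h4
    have h8 : (S.card : ℝ) ≤ (⌊l⌋ : ℝ) + 1 := by exact_mod_cast h7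
    have h9 := Int.floor_le l
    linarith

private lemma cnt_nat (S : Finset ℕ) (q : ℕ) (hq : 1 ≤ q) (l : ℝ) (hl : 0 ≤ l)
    (h : ∀ a ∈ S, ∀ b ∈ S, (b : ℝ) - a ≤ l) (hs : ∀ a ∈ S, ∀ b ∈ S, a < b → q ≤ b - a) :
    (S.card : ℝ) ≤ l / q + 1 := by
  have hq0 : (0 : ℝ) < q := by exact_mod_cast hq
  rcases S.eq_empty_or_nonempty with h0 | h0
  · rw [h0, card_empty, Nat.cast_zero]
    positivity
  · set a := S.min' h0 with ha
    have hmin : ∀ b ∈ S, a ≤ b := fun b hb => S.min'_le b hb
    have hmem : a ∈ S := S.min'_mem h0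
    have hcard : S.card ≤ (range (⌊l / q⌋₊ + 1)).card := by
      apply card_le_card_of_injOn (fun n => (n - a) / q)
      · intro b hb
        have hb' : b ∈ S := hb
        simp only [coe_range, Set.mem_Iio]
        rw [Nat.lt_succ_iff]
        apply Nat.le_floor
        have h1 := h a hmem b hb'
        have h2 := hmin b hb'
        have h3 : (((b - a) / q : ℕ) : ℝ) ≤ ((b - a : ℕ) : ℝ) / q := Nat.cast_div_le
        refine h3.trans ?_
        apply div_le_div_of_nonneg_right _ hq0.le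
        rw [Nat.cast_sub h2]
        exact h1
      · intro b hb c hc hbc
        have hb' : b ∈ S := hb
        have hc' : c ∈ S := hc
        have key : ∀ x ∈ S, ∀ y ∈ S, (x - a) / q = (y - a) / q → ¬ x < y := by
          intro x hx y hy hxy hlt
          have h1 := hs x hx y hy hlt
          have h2 := hmin x hx
          have h3 : (x - a) + q ≤ y - a := by omega
          have h4 : ((x - a) + q) / q ≤ (y - a) / q := Nat.div_le_div_right h3
          rw [Nat.add_div_right _ (by omega)] at h4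
          omega
        rcases lt_trichotomy b c with h1 | h1 | h1
        · exact absurd h1 (key b hb' c hc' hbc)
        · exact h1
        · exact absurd h1 (key c hc' b hb' hbc.symm)
    rw [card_range] at hcard
    have h1 : (S.card : ℝ) ≤ (⌊l / q⌋₊ : ℝ) + 1 := by exact_mod_cast hcard
    have h2 := Nat.floor_le (show 0 ≤ l / q by positivity)
    linarith

theorem pCnt : S_Cnt := by
  intro θ δ q M p B hδ hq hδq hκ2 hmin hB hBM hM hκM
  classical
  have hq0 : (0 : ℝ) < q := by exact_mod_cast hq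
  have hM0 : (0 : ℝ) < M := by exact_mod_cast hM
  set κ' := θ * q - p with hκ'
  set κ := |κ'| with hκ
  have hκ0 : 0 < κ := by
    rcases (abs_nonneg κ').lt_or_eq with h | h
    · exact h
    · rw [hκ, ← h] at hκM
      linarith
  -- the integers `m`
  have hch : ∀ n : ℕ, ∃ m : ℤ, n ∈ B → |θ * n - m| ≤ δ := by
    intro n
    by_cases hn : n ∈ B
    · obtain ⟨m, hm⟩ := hB n hn
      exact ⟨m, fun _ => hm⟩
    · exact ⟨0, fun h => absurd h hn⟩
  choose m hm using hch
  set h : ℕ → ℤ := fun n => q * m n - p * n with hh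
  have hdist : ∀ n ∈ B, |κ' * n - h n| ≤ q * δ := by
    intro n hn
    have e : κ' * n - (h n : ℝ) = q * (θ * n - m n) := by
      simp only [hh, hκ']
      push_cast
      ring
    rw [e, abs_mul, abs_of_pos hq0]
    exact mul_le_mul_of_nonneg_left (hm n hn) hq0.le
  have hsep : ∀ a ∈ B, ∀ b ∈ B, a < b → q ≤ b - a := by
    intro a ha b hb hab
    by_contra hcon
    have h1 := hmin (b - a) (by omega) (by omega) (m b - m a)
    have h2 : θ * ((b - a : ℕ) : ℝ) - ((m b - m a : ℤ) : ℝ) =
        (θ * b - m b) - (θ * a - m a) := by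
      rw [Nat.cast_sub hab.le]
      push_cast
      ring
    rw [h2] at h1
    have h3 := abs_sub (θ * b - m b) (θ * a - m a)
    have h4 := hm a ha
    have h5 := hm b hb
    linarith
  -- the number of values
  have hH : ((B.image h).card : ℝ) ≤ (κ * M + 1 / 2) + 1 := by
    apply cnt_int _ _ (by positivity)
    intro y hy z hz
    obtain ⟨a, ha, rfl⟩ := mem_image.1 hy
    obtain ⟨b, hb, rfl⟩ := mem_image.1 hz
    have h1 := abs_le.1 (hdist a ha)
    have h2 := abs_le.1 (hdist b hb)
    have h3 : κ' * b - κ' * a ≤ κ * M := by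
      have e : κ' * b - κ' * a = κ' * ((b : ℝ) - a) := by ring
      rw [e]
      have ha' := mem_Ioc.1 (hBM ha)
      have hb' := mem_Ioc.1 (hBM hb)
      have a1 : (M : ℝ) < a := by exact_mod_cast ha'.1
      have a2 : (a : ℝ) ≤ 2 * M := by exact_mod_cast ha'.2
      have b1 : (M : ℝ) < b := by exact_mod_cast hb'.1
      have b2 : (b : ℝ) ≤ 2 * M := by exact_mod_cast hb'.2
      have h4 : |(b : ℝ) - a| ≤ M := by
        rw [abs_le]
        constructor <;> linarith
      calc κ' * ((b : ℝ) - a) ≤ |κ' * ((b : ℝ) - a)| := le_abs_self _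
        _ = κ * |(b : ℝ) - a| := abs_mul _ _
        _ ≤ κ * M := mul_le_mul_of_nonneg_left h4 hκ0.le
    linarith [h1.1, h1.2, h2.1, h2.2]
  -- the fibres
  have hfib : ∀ y ∈ B.image h, ((B.filter (fun n => h n = y)).card : ℝ) ≤ 2 * δ / κ + 1 := by
    intro y _
    have h1 := cnt_nat (B.filter (fun n => h n = y)) q hq (2 * q * δ / κ) (by positivity) ?_ ?_
    · refine h1.trans (le_of_eq ?_)
      field_simp
    · intro a ha b hb
      rw [mem_filter] at ha hb
      have h1 := abs_le.1 (hdist a ha.1)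
      have h2 := abs_le.1 (hdist b hb.1)
      rw [ha.2] at h1
      rw [hb.2] at h2
      rw [le_div_iff₀ hκ0]
      have h3 : |κ' * ((b : ℝ) - a)| ≤ 2 * q * δ := by
        rw [abs_le]
        constructor <;> linarith [h1.1, h1.2, h2.1, h2.2]
      rw [abs_mul] at h3
      have h4 := le_abs_self ((b : ℝ) - a)
      nlinarith [mul_le_mul_of_nonneg_left h4 hκ0.le]
    · intro a ha b hb
      exact hsep a (mem_filter.1 ha).1 b (mem_filter.1 hb).1
  -- conclusion
  have hcard : (B.card : ℝ) ≤ (2 * δ / κ + 1) * ((κ * M + 1 / 2) + 1) := by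
    have h1 : B.card = ∑ y ∈ B.image h, (B.filter (fun n => h n = y)).card :=
      card_eq_sum_card_image h B
    rw [h1, Nat.cast_sum]
    calc ∑ y ∈ B.image h, ((B.filter (fun n => h n = y)).card : ℝ) ≤
        ∑ y ∈ B.image h, (2 * δ / κ + 1) := sum_le_sum hfib
      _ = ((B.image h).card : ℝ) * (2 * δ / κ + 1) := by rw [sum_const, nsmul_eq_mul]
      _ ≤ ((κ * M + 1 / 2) + 1) * (2 * δ / κ + 1) :=
          mul_le_mul_of_nonneg_right hH (by positivity)
      _ = _ := by ring
  refine hcard.trans ?_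
  have e : (2 * δ / κ + 1) * ((κ * M + 1 / 2) + 1) = 2 * δ * M + κ * M + 3 * (δ / κ) + 3 / 2 := by
    field_simp
    ring
  rw [e]
  have h1 : δ / κ ≤ 4 * δ * M := by
    rw [div_le_iff₀ hκ0]
    nlinarith
  have h2 : κ * M ≤ 2 * δ * M := mul_le_mul_of_nonneg_right hκ2 hM0.le
  nlinarith

end Pool.Agent.Lib.MP_aa9ae4_nt.K2
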