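import Pool.Agent.Lib.MP_aa9ae4_nt.K2.SpecB

namespace Pool.Agent.Lib.MP_aa9ae4_nt.K2

open Finset MeasureTheory Filter Topology
open Complex (I)

private theorem cv_swap (x : ℕ) (G : ℕ → ℕ → ℝ) :
    ∑ n ∈ Icc 1 x, ∑ a ∈ n.divisors, G a (n / a) =
      ∑ a ∈ Icc 1 x, ∑ b ∈ Icc 1 (x / a), G a b := by
  rw [sum_sigma', sum_sigma']
  refine sum_nbij' (fun y => (⟨y.2, y.1 / y.2⟩ : (_ : ℕ) × ℕ))
    (fun z => (⟨z.1 * z.2, z.1⟩ : (_ : ℕ) × ℕ)) ?_ ?_ ?_ ?_ ?_
  · rintro ⟨n, a⟩ h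
    simp only [mem_sigma, mem_Icc, Nat.mem_divisors] at h ⊢
    obtain ⟨⟨h1, h2⟩, h3, h4⟩ := h
    have ha : 0 < a := Nat.pos_of_dvd_of_pos h3 (by omega)
    have hle : a ≤ n := Nat.le_of_dvd (by omega) h3
    refine ⟨⟨ha, hle.trans h2⟩, ?_, Nat.div_le_div_right h2⟩
    exact (Nat.one_le_div_iff ha).2 hle
  · rintro ⟨a, b⟩ h
    simp only [mem_sigma, mem_Icc, Nat.mem_divisors] at h ⊢
    obtain ⟨⟨h1, h2⟩, h3, h4⟩ := h
    have h5 : b * a ≤ x := (Nat.le_div_iff_mul_le (by omega)).1 h4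
    have h6 : 0 < a * b := Nat.mul_pos (by omega) (by omega)
    refine ⟨⟨h6, ?_⟩, Dvd.intro b rfl, by omega⟩
    rw [mul_comm]
    exact h5
  · rintro ⟨n, a⟩ h
    simp only [mem_sigma, mem_Icc, Nat.mem_divisors] at h ⊢
    have h3 := h.2.1
    have h4 : a * (n / a) = n := Nat.mul_div_cancel' h3
    rw [h4]
  · rintro ⟨a, b⟩ h
    simp only [mem_sigma, mem_Icc] at h ⊢
    have h4 : a * b / a = b := Nat.mul_div_cancel_left b (by omega)
    rw [h4]
  · rintro ⟨n, a⟩ _
    rfl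

/-- `(k+1)(p-q)q^k ≤ p^{k+1}-q^{k+1} ≤ (k+1)(p-q)p^k` -/
private lemma cv_pow (p q : ℝ) (hq : 0 ≤ q) (hpq : q ≤ p) (k : ℕ) :
    (k + 1 : ℝ) * (p - q) * q ^ k ≤ p ^ (k + 1) - q ^ (k + 1) ∧
      p ^ (k + 1) - q ^ (k + 1) ≤ (k + 1 : ℝ) * (p - q) * p ^ k := by
  have hp : 0 ≤ p := hq.trans hpq
  induction k with
  | zero => simp
  | succ k ih =>
    obtain ⟨h1, h2⟩ := ih
    have e : p ^ (k + 1 + 1) - q ^ (k + 1 + 1) =
        p * (p ^ (k + 1) - q ^ (k + 1)) + (p - q) * q ^ (k + 1) := by ring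
    have hqk : q ^ (k + 1) ≤ p ^ (k + 1) := pow_le_pow_left₀ hq hpq _
    have h0 : 0 ≤ p - q := by linarith
    constructor
    · rw [e]
      have h3 : q * ((k + 1 : ℝ) * (p - q) * q ^ k) ≤ p * (p ^ (k + 1) - q ^ (k + 1)) := by
        apply mul_le_mul hpq h1 (by positivity) hp
      have e2 : (((k + 1 : ℕ) : ℝ) + 1) * (p - q) * q ^ (k + 1) =
          q * ((k + 1 : ℝ) * (p - q) * q ^ k) + (p - q) * q ^ (k + 1) := by
        push_cast
        ring
      rw [e2]
      linarith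
    · rw [e]
      have h3 := mul_le_mul_of_nonneg_left h2 hp
      have h4 := mul_le_mul_of_nonneg_left hqk h0
      have e2 : (((k + 1 : ℕ) : ℝ) + 1) * (p - q) * p ^ (k + 1) =
          p * ((k + 1 : ℝ) * (p - q) * p ^ k) + (p - q) * p ^ (k + 1) := by
        push_cast
        ring
      rw [e2]
      linarith

private noncomputable def cvPsi (X : ℝ) (k : ℕ) (w : ℝ) : ℝ :=
  -(w * (X - w) ^ k) - (X - w) ^ (k + 1) / (k + 1)

private lemma cv_psi (X : ℝ) (k : ℕ) (u v : ℝ) (_hu : 0 ≤ u) (huv : u ≤ v) (hvX : v ≤ X)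
    (hvu : v - u ≤ 1) :
    |u * ((X - u) ^ k - (X - v) ^ k) - (cvPsi X k v - cvPsi X k u)| ≤
      (X - u) ^ k - (X - v) ^ k := by
  have hq : 0 ≤ X - v := by linarith
  have hpq : X - v ≤ X - u := by linarith
  obtain ⟨h1, h2⟩ := cv_pow (X - u) (X - v) hq hpq k
  set p := X - u with hp
  set q := X - v with hqd
  have hk : (0 : ℝ) < k + 1 := by positivity
  have hpk : 0 ≤ p ^ k - q ^ k := by
    have := pow_le_pow_left₀ hq hpq k
    linarith
  have e : u * (p ^ k - q ^ k) - (cvPsi X k v - cvPsi X k u) =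
      (p - q) * q ^ k - (p ^ (k + 1) - q ^ (k + 1)) / (k + 1) := by
    unfold cvPsi
    rw [← hp, ← hqd]
    have : v - u = p - q := by rw [hp, hqd]; ring
    have hv : v = u + (p - q) := by linarith
    rw [hv]
    ring
  rw [e]
  have h3 : (p - q) * q ^ k ≤ (p ^ (k + 1) - q ^ (k + 1)) / (k + 1) := by
    rw [le_div_iff₀ hk]
    linarith
  have h4 : (p ^ (k + 1) - q ^ (k + 1)) / (k + 1) ≤ (p - q) * p ^ k := by
    rw [div_le_iff₀ hk]
    linarith
  have hpq1 : p - q ≤ 1 := by rw [hp, hqd]; linarith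
  have h5 : (p - q) * (p ^ k - q ^ k) ≤ 1 * (p ^ k - q ^ k) :=
    mul_le_mul_of_nonneg_right hpq1 hpk
  rw [abs_le]
  constructor
  · linarith
  · linarith

theorem pCv : S_Cv := by
  intro h f κ μ C k hh hk hH hF
  have hC0 : 0 ≤ C := (abs_nonneg _).trans (hH 1 le_rfl)
  refine ⟨(C + |μ| * k) * (|κ| + C) + |μ| * (C + |κ|), fun x hx => ?_⟩
  have hx0 : (0 : ℝ) < x := by exact_mod_cast hx
  set X := Real.log (x : ℝ) with hX
  have hX0 : 0 ≤ X := Real.log_natCast_nonneg x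
  set H : ℕ → ℝ := fun y => ∑ b ∈ Icc 1 y, h b / b with hHd
  set F : ℕ → ℝ := fun y => ∑ n ∈ Icc 1 y, f n / n with hFd
  set φ : ℕ → ℝ := fun b => (X - Real.log b) ^ k with hφ
  -- the exchange
  have hswap : ∑ n ∈ Icc 1 x, cv h f n / n = ∑ b ∈ Icc 1 x, h b / b * F (x / b) := by
    have h1 : ∑ n ∈ Icc 1 x, cv h f n / n =
        ∑ n ∈ Icc 1 x, ∑ a ∈ n.divisors, (h a / a) * (f (n / a) / ((n / a : ℕ) : ℝ)) := by
      refine sum_congr rfl fun n hn => ?_
      unfold cv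
      rw [sum_div]
      refine sum_congr rfl fun a ha => ?_
      have hd := Nat.dvd_of_mem_divisors ha
      have h2 : a * (n / a) = n := Nat.mul_div_cancel' hd
      have h3 : (n : ℝ) = (a : ℝ) * ((n / a : ℕ) : ℝ) := by exact_mod_cast h2.symm
      rw [div_mul_div_comm, ← h3]
    rw [h1, cv_swap x (fun a b => (h a / a) * (f b / b))]
    refine sum_congr rfl fun a _ => ?_
    rw [hFd, mul_sum]
  -- the inner sums
  have hinner : ∀ b ∈ Icc 1 x, |F (x / b) - μ * φ b| ≤ (C + |μ| * k) * (1 + X) ^ (k - 1) := by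
    intro b hb
    obtain ⟨hb1, hbx⟩ := mem_Icc.1 hb
    have hb0 : (0 : ℝ) < b := by exact_mod_cast hb1
    set y := x / b with hy
    have hy1 : 1 ≤ y := (Nat.one_le_div_iff hb1).2 hbx
    have hy0 : (0 : ℝ) < y := by exact_mod_cast hy1
    have hy1' : (1 : ℝ) ≤ y := by exact_mod_cast hy1
    have hyx : (y : ℝ) ≤ (x : ℝ) / b := Nat.cast_div_le
    have hyx2 : (x : ℝ) / b ≤ 2 * y := by
      have h1 : x < b * (x / b + 1) := Nat.lt_mul_div_succ x hb1
      have h2 : (x : ℝ) < b * (y + 1) := by exact_mod_cast h1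
      rw [div_le_iff₀ hb0]
      nlinarith
    have hly0 : 0 ≤ Real.log (y : ℝ) := Real.log_natCast_nonneg y
    have hlx : Real.log ((x : ℝ) / b) = X - Real.log b := Real.log_div hx0.ne' hb0.ne'
    have hl1 : Real.log (y : ℝ) ≤ X - Real.log b := by
      rw [← hlx]
      exact Real.log_le_log hy0 hyx
    have hl2 : X - Real.log b ≤ Real.log y + 1 := by
      rw [← hlx]
      have h1 := Real.log_le_log (by positivity) hyx2
      rw [Real.log_mul (by norm_num) hy0.ne'] at h1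
      have := Real.log_two_lt_d9
      linarith
    have hlb : 0 ≤ Real.log (b : ℝ) := Real.log_natCast_nonneg b
    have hlyX : Real.log (y : ℝ) ≤ X := by linarith
    have h1 := hF y hy1
    have h2 : C * (1 + Real.log y) ^ (k - 1) ≤ C * (1 + X) ^ (k - 1) := by
      apply mul_le_mul_of_nonneg_left _ hC0
      gcongr
    have h3 : |Real.log (y : ℝ) ^ k - (X - Real.log b) ^ k| ≤ k * (1 + X) ^ (k - 1) := by
      have h4 := abs_pow_sub_pow_le (Real.log (y : ℝ)) (X - Real.log b) k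
      refine h4.trans ?_
      have h5 : |Real.log (y : ℝ) - (X - Real.log b)| ≤ 1 := by
        rw [abs_le]
        constructor <;> linarith
      have h6 : max |Real.log (y : ℝ)| |X - Real.log b| ≤ 1 + X := by
        apply max_le
        · rw [abs_of_nonneg hly0]
          linarith
        · rw [abs_of_nonneg (by linarith)]
          linarith
      calc |Real.log (y : ℝ) - (X - Real.log b)| * k *
            max |Real.log (y : ℝ)| |X - Real.log b| ^ (k - 1) ≤ 1 * k * (1 + X) ^ (k - 1) := by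
            gcongr
        _ = _ := by ring
    have e : F y - μ * φ b = (F y - μ * Real.log y ^ k) +
        μ * (Real.log (y : ℝ) ^ k - (X - Real.log b) ^ k) := by
      simp only [hφ]
      ring
    rw [e]
    refine (abs_add_le _ _).trans ?_
    rw [abs_mul]
    have h7 := mul_le_mul_of_nonneg_left h3 (abs_nonneg μ)
    have e2 : (C + |μ| * k) * (1 + X) ^ (k - 1) = C * (1 + X) ^ (k - 1) +
        |μ| * (k * (1 + X) ^ (k - 1)) := by ring
    rw [e2]
    exact add_le_add (h1.trans h2) h7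
  -- replacement of the inner sums
  have hHx : H x ≤ |κ| * X + C := by
    have h1 := (abs_le.1 (hH x hx)).2
    have h2 := mul_le_mul_of_nonneg_right (le_abs_self κ) hX0
    simp only [hHd]
    linarith
  have hpk : (1 + X) ^ (k - 1) * (1 + X) = (1 + X) ^ k := by
    rw [← pow_succ]
    congr 1
    omega
  have hdiff : |∑ b ∈ Icc 1 x, h b / b * F (x / b) - μ * ∑ b ∈ Icc 1 x, h b / b * φ b| ≤
      (C + |μ| * k) * (|κ| + C) * (1 + X) ^ k := by
    rw [mul_sum, ← sum_sub_distrib]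
    refine (abs_sum_le_sum_abs _ _).trans ?_
    calc ∑ b ∈ Icc 1 x, |h b / b * F (x / b) - μ * (h b / b * φ b)| ≤
        ∑ b ∈ Icc 1 x, h b / b * ((C + |μ| * k) * (1 + X) ^ (k - 1)) := by
          refine sum_le_sum fun b hb => ?_
          have e : h b / b * F (x / b) - μ * (h b / b * φ b) =
              h b / b * (F (x / b) - μ * φ b) := by ring
          have h0 : 0 ≤ h b / b := div_nonneg (hh b) (Nat.cast_nonneg b)
          rw [e, abs_mul, abs_of_nonneg h0]
          exact mul_le_mul_of_nonneg_left (hinner b hb) h0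
      _ = H x * ((C + |μ| * k) * (1 + X) ^ (k - 1)) := by rw [sum_mul]
      _ ≤ (|κ| * X + C) * ((C + |μ| * k) * (1 + X) ^ (k - 1)) :=
          mul_le_mul_of_nonneg_right hHx (by positivity)
      _ ≤ ((|κ| + C) * (1 + X)) * ((C + |μ| * k) * (1 + X) ^ (k - 1)) := by
          apply mul_le_mul_of_nonneg_right _ (by positivity)
          have := abs_nonneg κ
          nlinarith
      _ = (C + |μ| * k) * (|κ| + C) * ((1 + X) ^ (k - 1) * (1 + X)) := by ring
      _ = _ := by rw [hpk]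
  -- partial summation
  have habel : ∀ y : ℕ, 1 ≤ y → ∑ b ∈ Icc 1 y, h b / b * φ b =
      ∑ b ∈ Ico 1 y, H b * (φ b - φ (b + 1)) + H y * φ y := by
    intro y hy
    induction y, hy using Nat.le_induction with
    | base => simp [hHd]
    | succ y hy ih =>
      rw [sum_Icc_succ_top (by omega), ih, sum_Ico_succ_top hy]
      have e : H (y + 1) = H y + h (y + 1) / ((y + 1 : ℕ) : ℝ) := by
        simp only [hHd]
        rw [sum_Icc_succ_top (by omega)]
      rw [e]
      ring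
  have hφx : φ x = 0 := by
    simp only [hφ]
    rw [← hX, sub_self]
    exact zero_pow (by omega)
  have hφ1 : φ 1 = X ^ k := by
    simp only [hφ]
    simp
  have hψ : ∀ b ∈ Ico 1 x,
      |H b * (φ b - φ (b + 1)) -
        κ * (cvPsi X k (Real.log ((b + 1 : ℕ) : ℝ)) - cvPsi X k (Real.log b))| ≤
      (C + |κ|) * (φ b - φ (b + 1)) := by
    intro b hb
    obtain ⟨hb1, hbx⟩ := mem_Ico.1 hb
    have hb0 : (0 : ℝ) < b := by exact_mod_cast hb1
    have hb1' : (1 : ℝ) ≤ b := by exact_mod_cast hb1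
    have hu : 0 ≤ Real.log (b : ℝ) := Real.log_natCast_nonneg b
    have huv : Real.log (b : ℝ) ≤ Real.log ((b + 1 : ℕ) : ℝ) :=
      Real.log_le_log hb0 (by push_cast; linarith)
    have hvX : Real.log ((b + 1 : ℕ) : ℝ) ≤ X :=
      Real.log_le_log (by positivity) (by exact_mod_cast hbx)
    have hvu : Real.log ((b + 1 : ℕ) : ℝ) - Real.log b ≤ 1 := by
      have h1 : Real.log ((b + 1 : ℕ) : ℝ) ≤ Real.log (2 * b) :=
        Real.log_le_log (by positivity) (by push_cast; linarith)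
      rw [Real.log_mul (by norm_num) hb0.ne'] at h1
      have := Real.log_two_lt_d9
      linarith
    have h1 := cv_psi X k _ _ hu huv hvX hvu
    have h2 : 0 ≤ φ b - φ (b + 1) := by
      simp only [hφ]
      have := pow_le_pow_left₀ (by linarith : 0 ≤ X - Real.log ((b + 1 : ℕ) : ℝ))
        (by linarith : X - Real.log ((b + 1 : ℕ) : ℝ) ≤ X - Real.log b) k
      linarith
    have h3 := hH b hb1
    have e : H b * (φ b - φ (b + 1)) -
        κ * (cvPsi X k (Real.log ((b + 1 : ℕ) : ℝ)) - cvPsi X k (Real.log b)) =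
        (H b - κ * Real.log b) * (φ b - φ (b + 1)) +
        κ * (Real.log b * (φ b - φ (b + 1)) -
          (cvPsi X k (Real.log ((b + 1 : ℕ) : ℝ)) - cvPsi X k (Real.log b))) := by ring
    rw [e]
    refine (abs_add_le _ _).trans ?_
    rw [abs_mul, abs_mul, abs_of_nonneg h2]
    have h4 : |H b - κ * Real.log b| * (φ b - φ (b + 1)) ≤ C * (φ b - φ (b + 1)) :=
      mul_le_mul_of_nonneg_right h3 h2
    have h5 := mul_le_mul_of_nonneg_left h1 (abs_nonneg κ)
    have e2 : (C + |κ|) * (φ b - φ (b + 1)) = C * (φ b - φ (b + 1)) +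
        |κ| * (φ b - φ (b + 1)) := by ring
    rw [e2]
    exact add_le_add h4 h5
  have htel1 : ∑ b ∈ Ico 1 x, (φ b - φ (b + 1)) = X ^ k := by
    have h1 := Finset.sum_Ico_sub (fun b : ℕ => -φ b) hx
    have h2 : ∑ b ∈ Ico 1 x, (φ b - φ (b + 1)) = ∑ b ∈ Ico 1 x, (-φ (b + 1) - -φ b) :=
      sum_congr rfl fun b _ => by ring
    rw [h2, h1, hφx, hφ1]
    ring
  have htel2 : ∑ b ∈ Ico 1 x,
      (cvPsi X k (Real.log ((b + 1 : ℕ) : ℝ)) - cvPsi X k (Real.log b)) =
      X ^ (k + 1) / (k + 1) := by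
    have h1 := Finset.sum_Ico_sub (fun b : ℕ => cvPsi X k (Real.log (b : ℝ))) hx
    rw [h1, ← hX]
    unfold cvPsi
    simp
    right
    omega
  have hmain : |∑ b ∈ Icc 1 x, h b / b * φ b - κ * (X ^ (k + 1) / (k + 1))| ≤
      (C + |κ|) * X ^ k := by
    rw [habel x hx, hφx, mul_zero, add_zero, ← htel2, mul_sum, ← sum_sub_distrib]
    refine (abs_sum_le_sum_abs _ _).trans ?_
    refine (sum_le_sum hψ).trans ?_
    rw [← mul_sum, htel1]
  rw [hswap]
  have e : ∑ b ∈ Icc 1 x, h b / b * F (x / b) - κ * μ / (k + 1) * X ^ (k + 1) =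
      (∑ b ∈ Icc 1 x, h b / b * F (x / b) - μ * ∑ b ∈ Icc 1 x, h b / b * φ b) +
      μ * (∑ b ∈ Icc 1 x, h b / b * φ b - κ * (X ^ (k + 1) / (k + 1))) := by ring
  rw [e]
  refine (abs_add_le _ _).trans ?_
  rw [abs_mul]
  have h8 : |μ| * |∑ b ∈ Icc 1 x, h b / b * φ b - κ * (X ^ (k + 1) / (k + 1))| ≤
      |μ| * ((C + |κ|) * (1 + X) ^ k) := by
    apply mul_le_mul_of_nonneg_left _ (abs_nonneg μ)
    refine hmain.trans ?_
    apply mul_le_mul_of_nonneg_left _ (by positivity)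
    exact pow_le_pow_left₀ hX0 (by linarith) k
  calc _ ≤ (C + |μ| * k) * (|κ| + C) * (1 + X) ^ k + |μ| * ((C + |κ|) * (1 + X) ^ k) :=
        add_le_add hdiff h8
    _ = _ := by ring

end Pool.Agent.Lib.MP_aa9ae4_nt.K2
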