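import Mathlib
import Pool.Agent.Lib.MP_aa9ae4_nt.K2.SpecB

/-!
MP_aa9ae4_nt, k = 2: the asymptotic formula for `∑ d(l)^2/l` over the `l` coprime to `Q`.
-/

namespace Pool.Agent.Lib.MP_aa9ae4_nt.K2

open Finset MeasureTheory Filter Topology
open Complex (I)

private noncomputable def gg (Q a : ℕ) : ℝ :=
  hq Q a * (ArithmeticFunction.moebius a : ℝ) / (a : ℝ) ^ 2

private noncomputable def FF4 (Q y : ℕ) : ℝ := ∑ b ∈ Icc 1 y, f4 Q b / b

private theorem hq_abs (Q n : ℕ) : |hq Q n| ≤ 1 := by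
  unfold hq
  split_ifs <;> norm_num

private theorem gg_abs (Q a : ℕ) : |gg Q a| ≤ 1 / (a : ℝ) ^ 2 := by
  unfold gg
  rw [abs_div, abs_mul, abs_of_nonneg (by positivity : (0 : ℝ) ≤ (a : ℝ) ^ 2)]
  have h1 : |(ArithmeticFunction.moebius a : ℝ)| ≤ 1 := by
    have := ArithmeticFunction.abs_moebius_le_one (n := a)
    exact_mod_cast this
  exact div_le_div_of_nonneg_right
    (by simpa using mul_le_mul (hq_abs Q a) h1 (abs_nonneg _) zero_le_one) (by positivity)

private theorem gg_zero (Q : ℕ) : gg Q 0 = 0 := by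
  unfold gg
  simp

private theorem gg_one (Q : ℕ) : gg Q 1 = 1 := by
  unfold gg hq
  rw [if_pos (Nat.coprime_one_left Q)]
  simp

private theorem sum_mult (m N : ℕ) (hm : 1 ≤ m) (φ : ℕ → ℝ) :
    ∑ l ∈ Icc 1 N, (if m ∣ l then φ (l / m) else 0) = ∑ b ∈ Icc 1 (N / m), φ b := by
  rw [← Finset.sum_filter]
  refine Finset.sum_nbij' (fun l => l / m) (fun b => m * b) ?_ ?_ ?_ ?_ ?_
  · intro l hl
    rw [mem_filter, mem_Icc] at hl
    rw [mem_Icc]
    exact ⟨Nat.div_pos (Nat.le_of_dvd (by omega) hl.2) (by omega), Nat.div_le_div_right hl.1.2⟩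
  · intro b hb
    rw [mem_Icc] at hb
    rw [mem_filter, mem_Icc]
    refine ⟨⟨Nat.mul_pos (by omega) (by omega), ?_⟩, dvd_mul_right _ _⟩
    calc m * b ≤ m * (N / m) := Nat.mul_le_mul_left _ hb.2
      _ ≤ N := Nat.mul_div_le N m
  · intro l hl
    exact Nat.mul_div_cancel' (mem_filter.1 hl).2
  · intro b _
    exact Nat.mul_div_cancel_left b (by omega)
  · intro l _
    rfl

private theorem DQ_term (h2 : S_Id) (Q N l : ℕ) (hl : 1 ≤ l) (hlN : l ≤ N) :
    hq Q l * dv l ^ 2 / l = ∑ a ∈ Icc 1 N,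
      if a ^ 2 ∣ l then gg Q a * (f4 Q (l / a ^ 2) / ((l / a ^ 2 : ℕ) : ℝ)) else 0 := by
  by_cases hc : Nat.Coprime l Q
  · have e1 : hq Q l = 1 := by
      unfold hq
      rw [if_pos hc]
    rw [e1, one_mul, h2.1 Q l hl hc, ← Finset.sum_filter, Finset.sum_div]
    have e2 : (Icc 1 l).filter (fun a => a ^ 2 ∣ l) = (Icc 1 N).filter (fun a => a ^ 2 ∣ l) := by
      ext a
      rw [mem_filter, mem_filter, mem_Icc, mem_Icc]
      constructor
      · rintro ⟨⟨h3, h4⟩, h5⟩
        exact ⟨⟨h3, h4.trans hlN⟩, h5⟩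
      · rintro ⟨⟨h3, h4⟩, h5⟩
        refine ⟨⟨h3, ?_⟩, h5⟩
        exact (Nat.le_self_pow (by norm_num) a).trans (Nat.le_of_dvd (by omega) h5)
    rw [e2]
    refine Finset.sum_congr rfl fun a ha => ?_
    rw [mem_filter, mem_Icc] at ha
    have ha0 : (a : ℝ) ≠ 0 := by
      have : a ≠ 0 := by omega
      exact_mod_cast this
    have hl0 : (l : ℝ) ≠ 0 := by
      have : l ≠ 0 := by omega
      exact_mod_cast this
    have hac : Nat.Coprime a Q :=
      Nat.Coprime.of_dvd_left ((dvd_pow_self a (by norm_num)).trans ha.2) hc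
    unfold gg hq
    rw [if_pos hac, Nat.cast_div ha.2 (by push_cast; exact pow_ne_zero 2 ha0)]
    push_cast
    field_simp
  · have e1 : hq Q l = 0 := by
      unfold hq
      rw [if_neg hc]
    rw [e1, zero_mul, zero_div]
    symm
    refine Finset.sum_eq_zero fun a _ => ?_
    split_ifs with h
    · by_cases hac : Nat.Coprime a Q
      · have h3 : ¬ Nat.Coprime (l / a ^ 2) Q := by
          intro h3
          apply hc
          rw [← Nat.mul_div_cancel' h]
          exact Nat.Coprime.mul_left (Nat.Coprime.pow_left 2 hac) h3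
        rw [h2.2.1 Q _ h3, zero_div, mul_zero]
      · unfold gg hq
        rw [if_neg hac, zero_mul, zero_div, zero_mul]
    · rfl

private theorem DQ_sum (h2 : S_Id) (Q N : ℕ) :
    ∑ l ∈ Icc 1 N, hq Q l * dv l ^ 2 / l = ∑' a : ℕ, gg Q a * FF4 Q (N / a ^ 2) := by
  have h1 : ∑ l ∈ Icc 1 N, hq Q l * dv l ^ 2 / l =
      ∑ a ∈ Icc 1 N, gg Q a * FF4 Q (N / a ^ 2) := by
    rw [Finset.sum_congr rfl fun l hl =>
      DQ_term h2 Q N l (mem_Icc.1 hl).1 (mem_Icc.1 hl).2, Finset.sum_comm]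
    refine Finset.sum_congr rfl fun a ha => ?_
    rw [mem_Icc] at ha
    rw [sum_mult (a ^ 2) N (Nat.one_le_pow _ _ (by omega))
      (fun b => gg Q a * (f4 Q b / (b : ℝ)))]
    unfold FF4
    rw [Finset.mul_sum]
  rw [h1]
  symm
  refine tsum_eq_sum fun a ha => ?_
  rw [mem_Icc] at ha
  rcases Nat.eq_zero_or_pos a with h0 | h0
  · rw [h0, gg_zero, zero_mul]
  · have h3 : N / a ^ 2 = 0 := by
      apply Nat.div_eq_of_lt
      have h4 : N < a := by
        by_contra h5
        exact ha ⟨h0, by omega⟩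
      exact lt_of_lt_of_le h4 (Nat.le_self_pow (by norm_num) a)
    rw [h3]
    unfold FF4
    simp

private theorem tendsto_log_nat : Tendsto (fun N : ℕ => Real.log N) atTop atTop :=
  Real.tendsto_log_atTop.comp tendsto_natCast_atTop_atTop

private theorem log_div (m : ℕ) (hm : 1 ≤ m) :
    Tendsto (fun N : ℕ => Real.log ((N / m : ℕ) : ℝ) / Real.log N) atTop (𝓝 1) := by
  have h1 : Tendsto (fun N : ℕ => 1 - Real.log (2 * m) / Real.log N) atTop (𝓝 (1 - 0)) :=
    tendsto_const_nhds.sub (tendsto_const_nhds.div_atTop tendsto_log_nat)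
  rw [sub_zero] at h1
  refine tendsto_of_tendsto_of_tendsto_of_le_of_le' h1 tendsto_const_nhds ?_ ?_
  · filter_upwards [eventually_ge_atTop (m + 3)] with N hN
    have hl : 0 < Real.log N := Real.log_pos (by
      have : (1 : ℕ) < N := by omega
      exact_mod_cast this)
    have hq : 1 ≤ N / m := Nat.div_pos (by omega) (by omega)
    rw [one_sub_div hl.ne', div_le_div_iff_of_pos_right hl]
    have h3 : (N : ℝ) ≤ 2 * m * ((N / m : ℕ) : ℝ) := by
      have h4 : N < m * (N / m + 1) := by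
        have := Nat.lt_mul_div_succ N (show 0 < m by omega)
        exact this
      have h5 : N ≤ 2 * m * (N / m) := by nlinarith
      exact_mod_cast h5
    have h6 : Real.log N ≤ Real.log (2 * m * ((N / m : ℕ) : ℝ)) :=
      Real.log_le_log (by
        have : (0 : ℕ) < N := by omega
        exact_mod_cast this) h3
    rw [Real.log_mul (by positivity) (by
      have : N / m ≠ 0 := by omega
      exact_mod_cast this)] at h6
    linarith
  · filter_upwards [eventually_ge_atTop (m + 3)] with N hN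
    have hl : 0 < Real.log N := Real.log_pos (by
      have : (1 : ℕ) < N := by omega
      exact_mod_cast this)
    have hq : 1 ≤ N / m := Nat.div_pos (by omega) (by omega)
    rw [div_le_one hl]
    refine Real.log_le_log (by exact_mod_cast hq) ?_
    exact_mod_cast Nat.div_le_self N m

private theorem FF4_lim {Q : ℕ} {τ C : ℝ} (h : ∀ x : ℕ, 1 ≤ x →
    |∑ b ∈ Icc 1 x, f4 Q b / b - τ * Real.log x ^ 4| ≤ C * (1 + Real.log x) ^ 3) :
    Tendsto (fun y : ℕ => FF4 Q y / Real.log y ^ 4) atTop (𝓝 τ) := by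
  have hlog := tendsto_log_nat
  have hinv : Tendsto (fun y : ℕ => (Real.log y)⁻¹) atTop (𝓝 0) :=
    tendsto_inv_atTop_zero.comp hlog
  have h1 : Tendsto (fun y : ℕ => |C| * (((Real.log y)⁻¹ + 1) ^ 3 * (Real.log y)⁻¹)) atTop
      (𝓝 (|C| * ((0 + 1) ^ 3 * 0))) :=
    tendsto_const_nhds.mul (((hinv.add tendsto_const_nhds).pow 3).mul hinv)
  rw [mul_zero, mul_zero] at h1
  rw [tendsto_iff_norm_sub_tendsto_zero]
  refine squeeze_zero' (Eventually.of_forall fun y => norm_nonneg _) ?_ h1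
  filter_upwards [eventually_ge_atTop 3] with y hy
  have hl : 0 < Real.log y := Real.log_pos (by
    have : (1 : ℕ) < y := by omega
    exact_mod_cast this)
  have h2 := h y (by omega)
  have h3 : FF4 Q y / Real.log y ^ 4 - τ = (FF4 Q y - τ * Real.log y ^ 4) / Real.log y ^ 4 := by
    field_simp
  rw [h3, Real.norm_eq_abs, abs_div, abs_of_pos (pow_pos hl 4), div_le_iff₀ (pow_pos hl 4)]
  unfold FF4
  refine h2.trans ?_
  have h4 : |C| * (((Real.log y)⁻¹ + 1) ^ 3 * (Real.log y)⁻¹) * Real.log y ^ 4 =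
      |C| * (1 + Real.log y) ^ 3 := by
    field_simp
  rw [h4]
  exact mul_le_mul_of_nonneg_right (le_abs_self C) (by positivity)

private theorem FF4_bd {Q : ℕ} {τ C : ℝ} (hτ : 0 < τ) (h : ∀ x : ℕ, 1 ≤ x →
    |∑ b ∈ Icc 1 x, f4 Q b / b - τ * Real.log x ^ 4| ≤ C * (1 + Real.log x) ^ 3)
    (N y : ℕ) (hN : 3 ≤ N) (hy : y ≤ N) :
    |FF4 Q y| ≤ 16 * (τ + |C|) * Real.log N ^ 4 := by
  have hlN : 1 ≤ Real.log N := by
    rw [Real.le_log_iff_exp_le (by positivity)]
    have h1 := Real.exp_one_lt_d9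
    have h2 : (3 : ℝ) ≤ N := by exact_mod_cast hN
    linarith
  rcases Nat.eq_zero_or_pos y with h0 | h0
  · subst h0
    unfold FF4
    simp only [Icc_eq_empty_of_lt (Nat.zero_lt_one), Finset.sum_empty, abs_zero]
    positivity
  · have hy1 : (1 : ℝ) ≤ y := by exact_mod_cast h0
    have hly : 0 ≤ Real.log y := Real.log_nonneg hy1
    have hlyN : Real.log y ≤ Real.log N :=
      Real.log_le_log (by linarith) (by exact_mod_cast hy)
    have h2 := h y h0
    have h3 : |FF4 Q y| ≤ τ * Real.log y ^ 4 + C * (1 + Real.log y) ^ 3 := by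
      unfold FF4
      calc |∑ b ∈ Icc 1 y, f4 Q b / b|
          = |(∑ b ∈ Icc 1 y, f4 Q b / b - τ * Real.log y ^ 4) + τ * Real.log y ^ 4| := by ring_nf
        _ ≤ |∑ b ∈ Icc 1 y, f4 Q b / b - τ * Real.log y ^ 4| + |τ * Real.log y ^ 4| :=
            abs_add_le _ _
        _ ≤ C * (1 + Real.log y) ^ 3 + τ * Real.log y ^ 4 := by
            rw [abs_of_nonneg (mul_nonneg hτ.le (pow_nonneg hly 4))]
            linarith
        _ = _ := by ring
    have h4 : Real.log y ^ 4 ≤ 16 * Real.log N ^ 4 := by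
      calc Real.log y ^ 4 ≤ Real.log N ^ 4 := pow_le_pow_left₀ hly hlyN 4
        _ ≤ 16 * Real.log N ^ 4 := by
          have : 0 ≤ Real.log N ^ 4 := by positivity
          linarith
    have h5 : (1 + Real.log y) ^ 3 ≤ 16 * Real.log N ^ 4 := by
      calc (1 + Real.log y) ^ 3 ≤ (2 * Real.log N) ^ 3 :=
            pow_le_pow_left₀ (by linarith) (by linarith) 3
        _ = 8 * (Real.log N ^ 3 * 1) := by ring
        _ ≤ 8 * (Real.log N ^ 3 * Real.log N) := by gcongr
        _ = 8 * Real.log N ^ 4 := by ring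
        _ ≤ 16 * Real.log N ^ 4 := by
          have : 0 ≤ Real.log N ^ 4 := by positivity
          linarith
    calc |FF4 Q y| ≤ τ * Real.log y ^ 4 + C * (1 + Real.log y) ^ 3 := h3
      _ ≤ τ * Real.log y ^ 4 + |C| * (1 + Real.log y) ^ 3 := by
        have := mul_le_mul_of_nonneg_right (le_abs_self C)
          (by positivity : (0 : ℝ) ≤ (1 + Real.log y) ^ 3)
        linarith
      _ ≤ τ * (16 * Real.log N ^ 4) + |C| * (16 * Real.log N ^ 4) :=
        add_le_add (mul_le_mul_of_nonneg_left h4 hτ.le)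
          (mul_le_mul_of_nonneg_left h5 (abs_nonneg C))
      _ = _ := by ring

private theorem gg_sum_pos (Q : ℕ) : Summable (gg Q) ∧ 0 < ∑' a, gg Q a := by
  have hz := hasSum_zeta_two
  have hs : Summable (fun a : ℕ => 1 / (a : ℝ) ^ 2) := hz.summable
  have hg : Summable (gg Q) := Summable.of_norm_bounded hs fun a => gg_abs Q a
  refine ⟨hg, ?_⟩
  have h1 : ∀ a, 0 ≤ gg Q a + 1 / (a : ℝ) ^ 2 := by
    intro a
    have := (abs_le.1 (gg_abs Q a)).1
    linarith
  have h2 := (hg.add hs).le_tsum 1 fun a _ => h1 a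
  rw [hg.tsum_add hs, hz.tsum_eq, gg_one] at h2
  have h3 : Real.pi ^ 2 < 12 := by
    have h4 := Real.pi_lt_d2
    have h5 := Real.pi_pos
    nlinarith
  norm_num at h2
  linarith

theorem pDQ (h1 : S_T4) (h2 : S_Id) : S_DQ := by
  intro Q hQ
  obtain ⟨τ, C, hτ, hT⟩ := h1 Q hQ
  obtain ⟨hg, hgp⟩ := gg_sum_pos Q
  refine ⟨∑' a, gg Q a * τ, ?_, ?_⟩
  · rw [tsum_mul_right]
    exact mul_pos hgp hτ
  have hs : Summable (fun a : ℕ => 1 / (a : ℝ) ^ 2) := hasSum_zeta_two.summable
  have h3 : ∀ N : ℕ, (∑ l ∈ Icc 1 N, hq Q l * dv l ^ 2 / l) / Real.log N ^ 4 =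
      ∑' a : ℕ, gg Q a * (FF4 Q (N / a ^ 2) / Real.log N ^ 4) := by
    intro N
    rw [DQ_sum h2, ← tsum_div_const]
    refine tsum_congr fun a => ?_
    rw [mul_div_assoc]
  simp_rw [h3]
  refine tendsto_tsum_of_dominated_convergence
    (bound := fun a : ℕ => 1 / (a : ℝ) ^ 2 * (16 * (τ + |C|))) (hs.mul_right _) ?_ ?_
  · intro a
    rcases Nat.eq_zero_or_pos a with h0 | h0
    · subst h0
      simp only [gg_zero, zero_mul]
      exact tendsto_const_nhds
    · refine Tendsto.const_mul _ ?_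
      have hm : 1 ≤ a ^ 2 := Nat.one_le_pow _ _ h0
      have hd : Tendsto (fun N : ℕ => N / a ^ 2) atTop atTop :=
        Nat.tendsto_div_const_atTop (by positivity)
      have h4 := ((FF4_lim hT).comp hd).mul ((log_div (a ^ 2) hm).pow 4)
      rw [one_pow, mul_one] at h4
      refine h4.congr' ?_
      filter_upwards [hd.eventually_ge_atTop 3, eventually_ge_atTop 3] with N hN hN3
      have hl : 0 < Real.log ((N / a ^ 2 : ℕ) : ℝ) := Real.log_pos (by
        have : 1 < N / a ^ 2 := by omega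
        exact_mod_cast this)
      show FF4 Q (N / a ^ 2) / Real.log ((N / a ^ 2 : ℕ) : ℝ) ^ 4 *
        (Real.log ((N / a ^ 2 : ℕ) : ℝ) / Real.log N) ^ 4 = _
      rw [div_pow]
      field_simp
  · filter_upwards [eventually_ge_atTop 3] with N hN
    intro a
    have hlN : 0 < Real.log N := Real.log_pos (by
      have : (1 : ℕ) < N := by omega
      exact_mod_cast this)
    rw [Real.norm_eq_abs, abs_mul]
    refine mul_le_mul (gg_abs Q a) ?_ (abs_nonneg _) (by positivity)
    rw [abs_div, abs_of_pos (pow_pos hlN 4), div_le_iff₀ (pow_pos hlN 4)]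
    exact FF4_bd hτ hT N _ hN (Nat.div_le_self _ _)

end Pool.Agent.Lib.MP_aa9ae4_nt.K2
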