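import Pool.Agent.Lib.MP_aa9ae4_nt.K2.SpecB

namespace Pool.Agent.Lib.MP_aa9ae4_nt.K2

open Finset MeasureTheory Filter Topology
open Complex (I)

theorem pDvb (h : S_Aks) : S_Dvb := by
  -- powers of the logarithm
  have hlog : ∃ C : ℝ, 0 < C ∧ ∀ x : ℝ, 1 ≤ x → (1 + Real.log x) ^ 511 ≤ C * x ^ (1 / 8 : ℝ) := by
    have hε : (0 : ℝ) < 1 / (8 * 511) := by norm_num
    refine ⟨(1 + 8 * 511) ^ 511, by positivity, fun x hx => ?_⟩
    have hx0 : 0 < x := by linarith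
    have h1 : Real.log x ≤ x ^ (1 / (8 * 511) : ℝ) / (1 / (8 * 511)) :=
      Real.log_le_rpow_div hx0.le hε
    have h2 : 1 ≤ x ^ (1 / (8 * 511) : ℝ) := Real.one_le_rpow hx hε.le
    have h3 : 1 + Real.log x ≤ (1 + 8 * 511) * x ^ (1 / (8 * 511) : ℝ) := by
      have e : x ^ (1 / (8 * 511) : ℝ) / (1 / (8 * 511)) = 8 * 511 * x ^ (1 / (8 * 511) : ℝ) := by
        field_simp
      rw [e] at h1
      linarith
    have h0 : 0 ≤ Real.log x := Real.log_nonneg hx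
    calc (1 + Real.log x) ^ 511 ≤ ((1 + 8 * 511) * x ^ (1 / (8 * 511) : ℝ)) ^ 511 := by
          gcongr
      _ = (1 + 8 * 511) ^ 511 * x ^ (1 / 8 : ℝ) := by
          rw [mul_pow, ← Real.rpow_natCast (x ^ (1 / (8 * 511) : ℝ)) 511, ← Real.rpow_mul hx0.le]
          congr 2
          norm_num
  obtain ⟨C, hC, hC2⟩ := hlog
  refine ⟨C ^ (1 / 9 : ℝ), by positivity, fun n hn => ?_⟩
  have hn0 : (0 : ℝ) < n := by exact_mod_cast hn
  have hn1 : (1 : ℝ) ≤ n := by exact_mod_cast hn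
  have hd0 : 0 ≤ dv n := by unfold dv; positivity
  have h1 := (h 9 n hn).1
  have h2 : dv n ^ 9 ≤ ∑ m ∈ Icc 1 n, dv m ^ 9 :=
    single_le_sum (f := fun m => dv m ^ 9) (fun m _ => by unfold dv; positivity)
      (mem_Icc.2 ⟨hn, le_rfl⟩)
  have h3 : (2 ^ 9 - 1 : ℕ) = 511 := by norm_num
  rw [h3] at h1
  have h4 : dv n ^ 9 ≤ C * (n : ℝ) ^ (9 / 8 : ℝ) := by
    calc dv n ^ 9 ≤ n * (1 + Real.log n) ^ 511 := h2.trans h1
      _ ≤ n * (C * (n : ℝ) ^ (1 / 8 : ℝ)) := mul_le_mul_of_nonneg_left (hC2 n hn1) hn0.le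
      _ = C * (n : ℝ) ^ (9 / 8 : ℝ) := by
          have : (n : ℝ) ^ (9 / 8 : ℝ) = n * (n : ℝ) ^ (1 / 8 : ℝ) := by
            rw [show (9 / 8 : ℝ) = 1 + 1 / 8 by norm_num, Real.rpow_add hn0, Real.rpow_one]
          rw [this]
          ring
  have h5 : (C ^ (1 / 9 : ℝ) * (n : ℝ) ^ (1 / 8 : ℝ)) ^ 9 = C * (n : ℝ) ^ (9 / 8 : ℝ) := by
    rw [mul_pow, ← Real.rpow_natCast, ← Real.rpow_natCast, ← Real.rpow_mul hC.le,
      ← Real.rpow_mul hn0.le]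
    norm_num
  rw [← h5] at h4
  exact le_of_pow_le_pow_left₀ (by norm_num) (by positivity) h4

end Pool.Agent.Lib.MP_aa9ae4_nt.K2
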