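import Pool.Agent.Lib.MP_aa9ae4_nt.K2.SpecB

namespace Pool.Agent.Lib.MP_aa9ae4_nt.K2

open Finset MeasureTheory Filter Topology
open Complex (I)

private lemma exp_expand (θ : ℝ) (hθ : 0 < θ) (N : ℕ) (t : ℝ) :
    ((‖PP N (1 / 2 + t * I)‖ ^ 2 : ℝ) : ℂ) * (θ : ℂ) ^ (t * I) =
    ∑ n ∈ Icc 1 N, ∑ m ∈ Icc 1 N, ((dv n * dv m / √((n : ℝ) * m) : ℝ) : ℂ) *
      Complex.exp ((t * twistX θ n m : ℝ) * I) := by
  have hθ0 : (θ : ℂ) ≠ 0 := Complex.ofReal_ne_zero.mpr hθ.ne'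
  have h1 : PP N (1 / 2 + t * I) = ∑ m ∈ Icc 1 N,
      ((dv m * (1 / √(m : ℝ)) : ℝ) : ℂ) * Complex.exp ((-(t * Real.log m) : ℝ) * I) := by
    unfold PP
    refine sum_congr rfl fun m hm => ?_
    rw [twist_pow m (mem_Icc.mp hm).1 t]
    push_cast
    ring
  have h2 : ((‖PP N (1 / 2 + t * I)‖ ^ 2 : ℝ) : ℂ) =
      (∑ n ∈ Icc 1 N, ((dv n * (1 / √(n : ℝ)) : ℝ) : ℂ) *
        Complex.exp (((t * Real.log n) : ℝ) * I)) *
      (∑ m ∈ Icc 1 N, ((dv m * (1 / √(m : ℝ)) : ℝ) : ℂ) *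
        Complex.exp ((-(t * Real.log m) : ℝ) * I)) := by
    rw [Complex.ofReal_pow, ← Complex.mul_conj', h1, mul_comm, map_sum]
    congr 1
    refine sum_congr rfl fun n _ => ?_
    rw [map_mul, Complex.conj_ofReal, ← Complex.exp_conj, map_mul, Complex.conj_ofReal,
      Complex.conj_I]
    congr 2
    push_cast
    ring
  rw [h2, sum_mul_sum, sum_mul]
  refine sum_congr rfl fun n hn => ?_
  rw [sum_mul]
  refine sum_congr rfl fun m hm => ?_
  rw [Complex.cpow_def_of_ne_zero hθ0, ← Complex.ofReal_log hθ.le]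
  have e1 : ((dv n * dv m / √((n : ℝ) * m) : ℝ) : ℂ) =
      ((dv n * (1 / √(n : ℝ)) : ℝ) : ℂ) * ((dv m * (1 / √(m : ℝ)) : ℝ) : ℂ) := by
    rw [← Complex.ofReal_mul, Real.sqrt_mul (Nat.cast_nonneg n)]
    congr 1
    rw [div_eq_mul_one_div, ← one_div_mul_one_div]
    ring
  have e2 : Complex.exp ((t * twistX θ n m : ℝ) * I) = Complex.exp (((t * Real.log n) : ℝ) * I) *
      Complex.exp ((-(t * Real.log m) : ℝ) * I) * Complex.exp ((Real.log θ : ℂ) * (t * I)) := by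
    rw [← Complex.exp_add, ← Complex.exp_add]
    congr 1
    unfold twistX
    push_cast
    ring
  rw [e1, e2]
  ring

theorem pExp : S_Exp := by
  intro T θ N hθ
  have h1 : ∀ n m : ℕ, Continuous fun t : ℝ => ((dv n * dv m / √((n : ℝ) * m) : ℝ) : ℂ) *
      Complex.exp ((t * twistX θ n m : ℝ) * I) := by
    intro n m
    fun_prop
  unfold JJ
  rw [intervalIntegral.integral_congr (fun t _ => exp_expand θ hθ N t),
    intervalIntegral.integral_finsetSum]
  · refine sum_congr rfl fun n _ => ?_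
    rw [intervalIntegral.integral_finsetSum]
    · refine sum_congr rfl fun m _ => ?_
      rw [intervalIntegral.integral_const_mul]
      rfl
    · intro m _
      exact (h1 n m).intervalIntegrable _ _
  · intro n _
    exact (continuous_finsetSum _ fun m _ => h1 n m).intervalIntegrable _ _

end Pool.Agent.Lib.MP_aa9ae4_nt.K2
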