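import Mathlib
import Pool.Agent.Lib.MP_aa9ae4_nt.K2.SpecA

namespace Pool.Agent.Lib.MP_aa9ae4_nt.K2

open Finset MeasureTheory Filter Topology
open Complex (I)

lemma ffg_PP_diff (N : ℕ) : Differentiable ℂ (PP N) := by
  intro s
  unfold PP
  refine DifferentiableAt.fun_sum fun n hn => ?_
  have hn0 : (n : ℂ) ≠ 0 := by
    have := (mem_Icc.1 hn).1
    exact_mod_cast (by omega : n ≠ 0)
  exact (differentiableAt_const _).mul ((differentiableAt_id.neg).const_cpow (Or.inl hn0))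

lemma ffg_PP_bound (N : ℕ) (s : ℂ) (h : -(1 / 2) ≤ s.re) :
    ‖PP N s‖ ≤ ∑ n ∈ Icc 1 N, dv n * (n : ℝ) ^ (1 / 2 : ℝ) := by
  unfold PP
  refine norm_sum_le_of_le _ fun n hn => ?_
  have hn1 := (mem_Icc.1 hn).1
  have hd : 0 ≤ dv n := by unfold dv; positivity
  rw [norm_mul, Complex.norm_real, Real.norm_of_nonneg hd,
    Complex.norm_natCast_cpow_of_pos (by omega)]
  refine mul_le_mul_of_nonneg_left ?_ hd
  refine Real.rpow_le_rpow_of_exponent_le (by exact_mod_cast hn1) ?_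
  rw [Complex.neg_re]
  linarith

theorem pFFg (hY : S_Yd) (hZ : S_Zd) : S_FFg := by
  obtain ⟨hYd, C1, hC1, hYb⟩ := hY
  obtain ⟨C2, hC2, hZb⟩ := hZ
  intro T hT
  have hT0 : 0 < T := by linarith
  set N : ℕ := ⌊T⌋₊ with hN
  have hdiff : ∀ s : ℂ, s.re < 2 → DifferentiableAt ℂ (FF T) s := by
    intro s hs
    have h1 : DifferentiableAt ℂ (fun s : ℂ => YY (1 - s)) s := by
      refine DifferentiableAt.comp s (g := YY) (f := fun s : ℂ => 1 - s) (hYd _ ?_) (by fun_prop)
      rw [Complex.sub_re, Complex.one_re]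
      linarith
    have h2 : DifferentiableAt ℂ (fun s : ℂ => PP N (1 - s)) s :=
      DifferentiableAt.comp s (g := PP N) (f := fun s : ℂ => 1 - s) (ffg_PP_diff N _)
        (by fun_prop)
    have h3 := ffg_PP_diff N s
    have h4 := differentiable_riemannZeta₁ s
    unfold FF
    rw [← hN]
    have h5 : DifferentiableAt ℂ (fun s : ℂ => (s - 1) ^ 2) s := by fun_prop
    have h6 : DifferentiableAt ℂ (fun s : ℂ => Complex.exp ((s / (T : ℂ)) ^ 2)) s := by fun_prop
    exact ((((h4.pow 2).sub (h5.mul h3)).sub ((h1.pow 2).mul h2)).div_const _).mul h6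
  refine ⟨fun s hs => ?_, fun s hs => ?_, ?_⟩
  · have h1 := hs.2
    exact (hdiff s (by linarith)).continuousAt.continuousWithinAt
  · have h1 := hs.2
    exact (hdiff s (by linarith)).differentiableWithinAt
  · set P : ℝ := ∑ n ∈ Icc 1 N, dv n * (n : ℝ) ^ (1 / 2 : ℝ) with hP
    have hP0 : 0 ≤ P := (norm_nonneg _).trans (ffg_PP_bound N 0 (by simp))
    refine ⟨(C2 ^ 2 + 4 * P + C1 ^ 2 * P) * Real.exp (9 / 4 + 49 * T ^ 2 / 4),
      fun s h1 h2 => ?_⟩
    set y : ℝ := |s.im| with hy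
    have hy0 : 0 ≤ y := abs_nonneg _
    have h3 := hZb s h1 h2
    have hre : (1 - s).re = 1 - s.re := by simp
    have him : |(1 - s).im| = y := by simp [hy]
    have h4 := hYb (1 - s) (by rw [hre]; linarith) (by rw [hre]; linarith)
    rw [him] at h4
    have h5 := ffg_PP_bound N s h1
    have h6 := ffg_PP_bound N (1 - s) (by rw [hre]; linarith)
    rw [← hP] at h5 h6
    have h7 : ‖s - 1‖ ≤ 2 * Real.exp y := by
      have h8 := Complex.norm_le_abs_re_add_abs_im (s - 1)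
      have h9 : |(s - 1).re| ≤ 3 / 2 := by
        rw [Complex.sub_re, Complex.one_re, abs_le]
        constructor <;> linarith
      have h10 : (s - 1).im = s.im := by simp
      rw [h10] at h8
      have h11 := Real.add_one_le_exp y
      linarith
    have hE1 : Real.exp (3 * y) ^ 2 = Real.exp (6 * y) := by
      rw [← Real.exp_nat_mul]
      congr 1
      push_cast
      ring
    have hE2 : Real.exp y ^ 2 ≤ Real.exp (6 * y) := by
      rw [← Real.exp_nat_mul]
      refine Real.exp_le_exp.2 ?_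
      push_cast
      linarith
    have hE3 : Real.exp (2 * y) ^ 2 ≤ Real.exp (6 * y) := by
      rw [← Real.exp_nat_mul]
      refine Real.exp_le_exp.2 ?_
      push_cast
      linarith
    have a1 : ‖riemannZeta₁ s ^ 2‖ ≤ C2 ^ 2 * Real.exp (6 * y) := by
      rw [norm_pow, ← hE1, ← mul_pow]
      exact pow_le_pow_left₀ (norm_nonneg _) h3 2
    have a2 : ‖(s - 1) ^ 2 * PP N s‖ ≤ 4 * P * Real.exp (6 * y) := by
      rw [norm_mul, norm_pow]
      calc _ ≤ (2 * Real.exp y) ^ 2 * P := by gcongr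
        _ = 4 * P * Real.exp y ^ 2 := by ring
        _ ≤ _ := by gcongr
    have a3 : ‖YY (1 - s) ^ 2 * PP N (1 - s)‖ ≤ C1 ^ 2 * P * Real.exp (6 * y) := by
      rw [norm_mul, norm_pow]
      calc _ ≤ (C1 * Real.exp (2 * y)) ^ 2 * P := by gcongr
        _ = C1 ^ 2 * P * Real.exp (2 * y) ^ 2 := by ring
        _ ≤ _ := by gcongr
    have a4 : ‖riemannZeta₁ s ^ 2 - (s - 1) ^ 2 * PP N s - YY (1 - s) ^ 2 * PP N (1 - s)‖ ≤
        (C2 ^ 2 + 4 * P + C1 ^ 2 * P) * Real.exp (6 * y) := by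
      have b1 := norm_sub_le (riemannZeta₁ s ^ 2 - (s - 1) ^ 2 * PP N s)
        (YY (1 - s) ^ 2 * PP N (1 - s))
      have b2 := norm_sub_le (riemannZeta₁ s ^ 2) ((s - 1) ^ 2 * PP N s)
      rw [add_mul, add_mul]
      linarith
    have a5 : ‖Complex.exp ((s / (T : ℂ)) ^ 2)‖ ≤ Real.exp (9 / 4 - (y / T) ^ 2) := by
      rw [Complex.norm_exp]
      refine Real.exp_le_exp.2 ?_
      have e1 : ((s / (T : ℂ)) ^ 2).re = (s.re / T) ^ 2 - (s.im / T) ^ 2 := by
        rw [sq, Complex.mul_re, Complex.div_ofReal_re, Complex.div_ofReal_im]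
        ring
      rw [e1]
      have e2 : (y / T) ^ 2 = (s.im / T) ^ 2 := by
        rw [div_pow, div_pow, hy, sq_abs]
      have e3 : (s.re / T) ^ 2 ≤ 9 / 4 := by
        rw [div_pow, div_le_iff₀ (by positivity)]
        nlinarith
      rw [e2]
      linarith
    have a6 : Real.exp (6 * y) * Real.exp (9 / 4 - (y / T) ^ 2) ≤
        Real.exp (9 / 4 + 49 * T ^ 2 / 4) * Real.exp (-y) := by
      rw [← Real.exp_add, ← Real.exp_add]
      refine Real.exp_le_exp.2 ?_
      have e1 : y = (y / T) * T := by field_simp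
      nlinarith [sq_nonneg (y / T - 7 * T / 2)]
    unfold FF
    rw [← hN, norm_mul, norm_div, norm_pow, Complex.norm_real, Real.norm_of_nonneg hT0.le]
    have a7 : ‖riemannZeta₁ s ^ 2 - (s - 1) ^ 2 * PP N s - YY (1 - s) ^ 2 * PP N (1 - s)‖ /
        T ^ 2 ≤ (C2 ^ 2 + 4 * P + C1 ^ 2 * P) * Real.exp (6 * y) := by
      refine (div_le_self (norm_nonneg _) ?_).trans a4
      nlinarith
    calc _ ≤ ((C2 ^ 2 + 4 * P + C1 ^ 2 * P) * Real.exp (6 * y)) *
          Real.exp (9 / 4 - (y / T) ^ 2) :=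
          mul_le_mul a7 a5 (norm_nonneg _) (by positivity)
      _ = (C2 ^ 2 + 4 * P + C1 ^ 2 * P) * (Real.exp (6 * y) *
          Real.exp (9 / 4 - (y / T) ^ 2)) := by ring
      _ ≤ (C2 ^ 2 + 4 * P + C1 ^ 2 * P) * (Real.exp (9 / 4 + 49 * T ^ 2 / 4) *
          Real.exp (-y)) := mul_le_mul_of_nonneg_left a6 (by positivity)
      _ = _ := by ring

end Pool.Agent.Lib.MP_aa9ae4_nt.K2
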