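import Mathlib
import Pool.Agent.Lib.MP_aa9ae4_nt.K2.SpecA

namespace Pool.Agent.Lib.MP_aa9ae4_nt.K2

open Finset MeasureTheory Filter Topology
open Complex (I)

lemma ff_cont_PP (N : ℕ) (σ : ℂ) : Continuous fun t : ℝ => PP N (σ + t * I) := by
  unfold PP
  refine continuous_finsetSum _ fun n hn => ?_
  have hn0 : (n : ℂ) ≠ 0 := by
    have := (mem_Icc.1 hn).1
    exact_mod_cast (by omega : n ≠ 0)
  exact continuous_const.mul (Continuous.const_cpow (by fun_prop) (Or.inl hn0))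

lemma ff_cont_zeta : Continuous fun t : ℝ => riemannZeta (3 / 2 + t * I) := by
  rw [continuous_iff_continuousAt]
  intro t
  have h1 : ((3 / 2 : ℂ) + t * I) ≠ 1 := by
    intro h
    have := congrArg Complex.re h
    norm_num at this
  exact ContinuousAt.comp (f := fun t : ℝ => ((3 / 2 : ℂ) + t * I)) (g := riemannZeta)
    (differentiableAt_riemannZeta h1).continuousAt (by fun_prop)

lemma ff_exp (T : ℝ) (hT : 2 ≤ T) (σ t : ℝ) (hσ : σ ^ 2 ≤ 9 / 4) :
    ‖Complex.exp ((((σ : ℂ) + t * I) / (T : ℂ)) ^ 2)‖ ^ 2 ≤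
      Real.exp 2 * Real.exp (-(2 * (t / T) ^ 2)) := by
  have hT0 : 0 < T := by linarith
  rw [Complex.norm_exp, ← Real.exp_nat_mul, ← Real.exp_add]
  refine Real.exp_le_exp.2 ?_
  have e1 : ((((σ : ℂ) + t * I) / (T : ℂ)) ^ 2).re = (σ / T) ^ 2 - (t / T) ^ 2 := by
    have e2 : (((σ : ℂ) + t * I) / (T : ℂ)) = ((σ / T : ℝ) : ℂ) + ((t / T : ℝ) : ℂ) * I := by
      push_cast
      ring
    have e3 : (((σ / T : ℝ) : ℂ) + ((t / T : ℝ) : ℂ) * I) ^ 2 =
        (((σ / T) ^ 2 - (t / T) ^ 2 : ℝ) : ℂ) + ((2 * (σ / T) * (t / T) : ℝ) : ℂ) * I := by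
      push_cast
      linear_combination ((t : ℂ) / T) ^ 2 * Complex.I_sq
    rw [e2, e3, Complex.add_re, Complex.ofReal_re, Complex.re_ofReal_mul, Complex.I_re, mul_zero,
      add_zero]
  rw [e1]
  have h2 : (σ / T) ^ 2 ≤ 1 := by
    rw [div_pow, div_le_one (by positivity)]
    nlinarith
  push_cast
  linarith

lemma ff_sq (q a b : ℝ) (hq : 1 ≤ q) (ha : 0 ≤ a) (hb : 0 ≤ b) :
    (q * (a + b)) ^ 2 ≤ q ^ 4 * (2 * a ^ 2 + 2 * b ^ 2) := by
  have h1 : (a + b) ^ 2 ≤ 2 * a ^ 2 + 2 * b ^ 2 := by nlinarith [sq_nonneg (a - b)]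
  have h2 : q ^ 2 ≤ q ^ 4 := pow_le_pow_right₀ hq (by norm_num)
  rw [mul_pow]
  exact mul_le_mul h2 h1 (by positivity) (by positivity)

lemma ff_norm_half (t : ℝ) : ‖((-(1 / 2) : ℂ) + t * I)‖ = √(1 / 4 + t ^ 2) := by
  rw [show ((-(1 / 2) : ℂ) + t * I) = ((-(1 / 2) : ℝ) : ℂ) + (t : ℂ) * I by push_cast; ring,
    Complex.norm_add_mul_I]
  norm_num

theorem pFFr (hF : S_Fun) (hN : S_Nrm) (hBL : S_BL) (hMV : S_MV) (hTail : S_Tail) : S_FFr := by
  obtain ⟨_, _, _, hFd, _⟩ := hF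
  obtain ⟨_, _, hN3⟩ := hN
  obtain ⟨C1, hC1, hBL⟩ := hBL
  obtain ⟨C2, hC2, hMVa, _, _⟩ := hMV
  obtain ⟨C3, hC3, hTail⟩ := hTail
  have hπ := Real.pi_pos
  refine ⟨Real.exp 2 * (C1 * (2 * C3 + 2 * (4 * Real.pi ^ 2) ^ 2 * C2)), by positivity,
    fun T hT R hR => ?_⟩
  have hT0 : 0 < T := by linarith
  set N : ℕ := ⌊T⌋₊ with hNd
  have hN1 : 1 ≤ N := Nat.le_floor (by push_cast; linarith)
  have hNT : (N : ℝ) ≤ T := Nat.floor_le (by linarith)
  have hN0 : (0 : ℝ) < N := by exact_mod_cast hN1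
  have hlogN : 0 ≤ Real.log (N : ℝ) := Real.log_natCast_nonneg N
  have hlogT : Real.log (N : ℝ) ≤ Real.log T := Real.log_le_log hN0 hNT
  have hlogT0 : 0 ≤ Real.log T := by linarith
  set a : ℝ → ℝ := fun t => ‖riemannZeta (3 / 2 + t * I) ^ 2 - PP N (3 / 2 + t * I)‖ with ha
  set b : ℝ → ℝ := fun t => ‖PP N (-(1 / 2) + ((-t : ℝ) : ℂ) * I)‖ with hb
  set h : ℝ → ℝ := fun t => 2 * a t ^ 2 + 2 * (4 * Real.pi ^ 2 / T ^ 2 * b t) ^ 2 with hh
  have hac : Continuous a := ((ff_cont_zeta.pow 2).sub (ff_cont_PP N (3 / 2))).norm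
  have hbc : Continuous b :=
    ((ff_cont_PP N (-(1 / 2))).comp continuous_neg).norm
  have hhc : Continuous h := by
    simp only [hh]
    exact (continuous_const.mul (hac.pow 2)).add
      (continuous_const.mul ((continuous_const.mul hbc).pow 2))
  have hh0 : ∀ t, 0 ≤ h t := fun t => by simp only [hh]; positivity
  -- the pointwise bound
  have hpt : ∀ t : ℝ, ‖FF T (3 / 2 + t * I)‖ ^ 2 ≤ Real.exp 2 *
      (h t * ((1 + (t / T) ^ 2) ^ 4 * Real.exp (-(2 * (t / T) ^ 2)))) := by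
    intro t
    set s : ℂ := 3 / 2 + t * I with hs
    have hs1 : s ≠ 1 := by
      intro h0
      have := congrArg Complex.re h0
      rw [hs] at this
      norm_num at this
    have e1 : 1 - s = -(1 / 2) + ((-t : ℝ) : ℂ) * I := by
      rw [hs]
      push_cast
      ring
    have hs2 : 1 - s ≠ 0 := fun h0 => hs1 (by linear_combination -h0)
    have e2 : riemannZeta₁ s = (s - 1) * riemannZeta s := by
      rw [riemannZeta_eq_inv_sub_mul hs1]
      have : s - 1 ≠ 0 := sub_ne_zero.2 hs1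
      field_simp
    have e3 : ‖YY (1 - s)‖ = 2 * Real.pi := by
      rw [hFd (1 - s) hs2, norm_mul, e1, hN3 (-t), ff_norm_half, neg_sq]
      have : 0 < √(1 / 4 + t ^ 2) := Real.sqrt_pos.2 (by positivity)
      field_simp
    have e4 : ‖s - 1‖ ^ 2 = 1 / 4 + t ^ 2 := by
      rw [show s - 1 = -(1 - s) by ring, norm_neg, e1, ff_norm_half, Real.sq_sqrt (by positivity)]
      ring
    have hTc : (T : ℂ) ≠ 0 := by exact_mod_cast hT0.ne'
    have e5 : FF T s = (((s - 1) / T) ^ 2 * (riemannZeta s ^ 2 - PP N s) -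
        (YY (1 - s) / T) ^ 2 * PP N (1 - s)) * Complex.exp ((s / (T : ℂ)) ^ 2) := by
      unfold FF
      rw [e2, ← hNd]
      congr 1
      field_simp
    set q : ℝ := 1 + (t / T) ^ 2 with hq
    have hq1 : 1 ≤ q := by rw [hq]; nlinarith [sq_nonneg (t / T)]
    have h1 : ‖((s - 1) / T) ^ 2 * (riemannZeta s ^ 2 - PP N s)‖ ≤ q * a t := by
      rw [norm_mul, norm_pow, norm_div, Complex.norm_real, Real.norm_of_nonneg hT0.le]
      refine mul_le_mul_of_nonneg_right ?_ (norm_nonneg _)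
      rw [div_pow, e4, hq, div_le_iff₀ (by positivity)]
      have e6 : (t / T) ^ 2 * T ^ 2 = t ^ 2 := by field_simp
      nlinarith
    have h2 : ‖(YY (1 - s) / T) ^ 2 * PP N (1 - s)‖ ≤ q * (4 * Real.pi ^ 2 / T ^ 2 * b t) := by
      rw [norm_mul, norm_pow, norm_div, e3, Complex.norm_real, Real.norm_of_nonneg hT0.le, e1]
      have e6 : (2 * Real.pi / T) ^ 2 = 4 * Real.pi ^ 2 / T ^ 2 := by ring
      rw [e6]
      have h3 : 0 ≤ 4 * Real.pi ^ 2 / T ^ 2 * b t := by positivity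
      nlinarith
    have h3 : ‖((s - 1) / T) ^ 2 * (riemannZeta s ^ 2 - PP N s) -
        (YY (1 - s) / T) ^ 2 * PP N (1 - s)‖ ≤ q * (a t + 4 * Real.pi ^ 2 / T ^ 2 * b t) := by
      refine (norm_sub_le _ _).trans ?_
      rw [mul_add]
      exact add_le_add h1 h2
    have h4 := ff_exp T hT (3 / 2) t (by norm_num)
    rw [show ((3 / 2 : ℝ) : ℂ) + t * I = s by rw [hs]; push_cast; rfl] at h4
    rw [e5, norm_mul, mul_pow]
    calc _ ≤ (q * (a t + 4 * Real.pi ^ 2 / T ^ 2 * b t)) ^ 2 *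
          (Real.exp 2 * Real.exp (-(2 * (t / T) ^ 2))) := by
          refine mul_le_mul (pow_le_pow_left₀ (norm_nonneg _) h3 2) h4 (by positivity)
            (by positivity)
      _ ≤ (q ^ 4 * h t) * (Real.exp 2 * Real.exp (-(2 * (t / T) ^ 2))) := by
          refine mul_le_mul_of_nonneg_right ?_ (by positivity)
          exact ff_sq q (a t) _ hq1 (norm_nonneg _) (by positivity)
      _ = _ := by ring
  -- blocks
  have hblk : ∀ c : ℝ, ∫ t in c..(c + T), h t ≤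
      (2 * C3 + 2 * (4 * Real.pi ^ 2) ^ 2 * C2) * ((1 + Real.log T) ^ 3 / T) := by
    intro c
    have h1 := hTail T hT c
    have h2 : ∫ t in c..(c + T), b t ^ 2 ≤ C2 * (T * (N : ℝ) ^ 2 * (1 + Real.log N) ^ 3) := by
      have e1 := intervalIntegral.integral_comp_neg (a := c) (b := c + T)
        (fun x : ℝ => ‖PP N (-(1 / 2) + (x : ℂ) * I)‖ ^ 2)
      have e2 := hMVa (-(c + T)) T N (by linarith) hN1 hNT
      rw [show -(c + T) + T = -c by ring] at e2
      calc _ = ∫ t in (-(c + T))..(-c), ‖PP N (-(1 / 2) + (t : ℂ) * I)‖ ^ 2 := e1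
        _ ≤ _ := e2
    have e3 : ∫ t in c..(c + T), h t = 2 * (∫ t in c..(c + T), a t ^ 2) +
        2 * (4 * Real.pi ^ 2 / T ^ 2) ^ 2 * ∫ t in c..(c + T), b t ^ 2 := by
      have hi1 : IntervalIntegrable (fun t => 2 * a t ^ 2) volume c (c + T) :=
        (continuous_const.mul (hac.pow 2)).intervalIntegrable _ _
      have hi2 : IntervalIntegrable (fun t => 2 * (4 * Real.pi ^ 2 / T ^ 2) ^ 2 * b t ^ 2)
          volume c (c + T) := (continuous_const.mul (hbc.pow 2)).intervalIntegrable _ _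
      rw [← intervalIntegral.integral_const_mul, ← intervalIntegral.integral_const_mul,
        ← intervalIntegral.integral_add hi1 hi2]
      refine intervalIntegral.integral_congr fun t _ => ?_
      simp only [hh]
      ring
    rw [e3]
    have h3 : (1 + Real.log N) ^ 3 ≤ (1 + Real.log T) ^ 3 :=
      pow_le_pow_left₀ (by linarith) (by linarith) 3
    have h4 : (N : ℝ) ^ 2 ≤ T ^ 2 := pow_le_pow_left₀ hN0.le hNT 2
    calc 2 * (∫ t in c..(c + T), a t ^ 2) +
        2 * (4 * Real.pi ^ 2 / T ^ 2) ^ 2 * ∫ t in c..(c + T), b t ^ 2 ≤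
        2 * (C3 * ((1 + Real.log T) ^ 3 / T)) + 2 * (4 * Real.pi ^ 2 / T ^ 2) ^ 2 *
          (C2 * (T * T ^ 2 * (1 + Real.log T) ^ 3)) := by
          refine add_le_add (mul_le_mul_of_nonneg_left h1 (by norm_num)) ?_
          refine mul_le_mul_of_nonneg_left (h2.trans ?_) (by positivity)
          gcongr
      _ = _ := by
          field_simp
  have hBLT := hBL T ((2 * C3 + 2 * (4 * Real.pi ^ 2) ^ 2 * C2) * ((1 + Real.log T) ^ 3 / T)) h
    (by linarith) hhc hh0 hblk R hR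
  by_cases hint : IntervalIntegrable (fun t : ℝ => ‖FF T (3 / 2 + t * I)‖ ^ 2) volume (-R) R
  · calc ∫ t in (-R)..R, ‖FF T (3 / 2 + t * I)‖ ^ 2 ≤ ∫ t in (-R)..R, Real.exp 2 *
          (h t * ((1 + (t / T) ^ 2) ^ 4 * Real.exp (-(2 * (t / T) ^ 2)))) := by
          refine intervalIntegral.integral_mono_on (by linarith) hint ?_ fun t _ => hpt t
          refine Continuous.intervalIntegrable ?_ _ _
          exact continuous_const.mul (hhc.mul (by fun_prop))
      _ = Real.exp 2 * ∫ t in (-R)..R,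
          (h t * ((1 + (t / T) ^ 2) ^ 4 * Real.exp (-(2 * (t / T) ^ 2)))) :=
          intervalIntegral.integral_const_mul _ _
      _ ≤ Real.exp 2 * (C1 * ((2 * C3 + 2 * (4 * Real.pi ^ 2) ^ 2 * C2) *
          ((1 + Real.log T) ^ 3 / T))) := mul_le_mul_of_nonneg_left hBLT (by positivity)
      _ = _ := by ring
  · rw [intervalIntegral.integral_undef hint]
    positivity

end Pool.Agent.Lib.MP_aa9ae4_nt.K2
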