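import Mathlib
import Pool.Agent.Lib.MP_aa9ae4_nt.K2.PFFr

namespace Pool.Agent.Lib.MP_aa9ae4_nt.K2

open Finset MeasureTheory Filter Topology
open Complex (I)

private lemma ffl_sq (q a b : ℝ) (ha : 0 ≤ a) (hb : 0 ≤ b) :
    (q ^ 2 * (a + b)) ^ 2 ≤ q ^ 4 * (2 * a ^ 2 + 2 * b ^ 2) := by
  have h1 : (a + b) ^ 2 ≤ 2 * a ^ 2 + 2 * b ^ 2 := by nlinarith [sq_nonneg (a - b)]
  have h2 : 0 ≤ q ^ 4 := by positivity
  calc (q ^ 2 * (a + b)) ^ 2 = q ^ 4 * (a + b) ^ 2 := by ring
    _ ≤ _ := mul_le_mul_of_nonneg_left h1 h2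

private lemma ffl_norm (t : ℝ) : ‖((3 / 2 : ℂ) + t * I)‖ = √(9 / 4 + t ^ 2) := by
  rw [show ((3 / 2 : ℂ) + t * I) = ((3 / 2 : ℝ) : ℂ) + (t : ℂ) * I by push_cast; ring,
    Complex.norm_add_mul_I]
  norm_num

theorem pFFl (hF : S_Fun) (hN : S_Nrm) (hBL : S_BL) (hMV : S_MV) (hTail : S_Tail) : S_FFl := by
  obtain ⟨_, _, _, hFd, hFe⟩ := hF
  obtain ⟨_, hN2, _⟩ := hN
  obtain ⟨C1, hC1, hBL⟩ := hBL
  obtain ⟨C2, hC2, hMVa, _, _⟩ := hMV
  obtain ⟨C3, hC3, hTail⟩ := hTail
  have hπ := Real.pi_pos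
  have hπ3 := Real.pi_gt_three
  refine ⟨Real.exp 2 * (C1 * (2 * C3 + 2 * C2)), by positivity, fun T hT R hR => ?_⟩
  have hT0 : 0 < T := by linarith
  set N : ℕ := ⌊T⌋₊ with hNd
  have hN1 : 1 ≤ N := Nat.le_floor (by push_cast; linarith)
  have hNT : (N : ℝ) ≤ T := Nat.floor_le (by linarith)
  have hN0 : (0 : ℝ) < N := by exact_mod_cast hN1
  have hlogN : 0 ≤ Real.log (N : ℝ) := Real.log_natCast_nonneg N
  have hlogT : Real.log (N : ℝ) ≤ Real.log T := Real.log_le_log hN0 hNT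
  have hlogT0 : 0 ≤ Real.log T := by linarith
  set f : ℝ → ℝ := fun t => ‖riemannZeta (3 / 2 + t * I) ^ 2 - PP N (3 / 2 + t * I)‖ with hf
  set b : ℝ → ℝ := fun t => ‖PP N (-(1 / 2) + (t : ℂ) * I)‖ with hb
  set h : ℝ → ℝ := fun t => 2 * (T ^ 2 * f (-t)) ^ 2 + 2 * b t ^ 2 with hh
  have hfc : Continuous f := ((ff_cont_zeta.pow 2).sub (ff_cont_PP N (3 / 2))).norm
  have hfc' : Continuous fun t => f (-t) := hfc.comp continuous_neg
  have hbc : Continuous b := (ff_cont_PP N (-(1 / 2))).norm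
  have hhc : Continuous h := by
    simp only [hh]
    exact (continuous_const.mul ((continuous_const.mul hfc').pow 2)).add
      (continuous_const.mul (hbc.pow 2))
  have hh0 : ∀ t, 0 ≤ h t := fun t => by simp only [hh]; positivity
  -- the pointwise bound
  have hpt : ∀ t : ℝ, ‖FF T (-(1 / 2) + t * I)‖ ^ 2 ≤ Real.exp 2 *
      (h t * ((1 + (t / T) ^ 2) ^ 4 * Real.exp (-(2 * (t / T) ^ 2)))) := by
    intro t
    set s : ℂ := -(1 / 2) + t * I with hs
    have hs0 : s ≠ 0 := by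
      intro h0
      have := congrArg Complex.re h0
      rw [hs] at this
      norm_num at this
    have hsre : s.re = -(1 / 2) := by
      rw [hs]
      norm_num
    have e1 : 1 - s = 3 / 2 + ((-t : ℝ) : ℂ) * I := by
      rw [hs]
      push_cast
      ring
    have hs2 : 1 - s ≠ 0 := by
      intro h0
      have := congrArg Complex.re h0
      rw [Complex.sub_re, hsre] at this
      norm_num at this
    have e2 := hFe s (by rw [hsre]; norm_num) hs0
    have e3 : ‖YY (1 - s)‖ ^ 2 ≤ (9 / 4 + t ^ 2) ^ 2 := by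
      rw [hFd (1 - s) hs2, norm_mul, e1, hN2 (-t), ffl_norm, neg_sq, mul_pow, div_pow,
        Real.sq_sqrt (by positivity), Real.sq_sqrt (by positivity), sq (9 / 4 + t ^ 2)]
      refine mul_le_mul_of_nonneg_left ?_ (by positivity)
      rw [div_le_iff₀ (by positivity)]
      have h9 : 1 ≤ (2 * Real.pi) ^ 2 := by nlinarith
      have h10 : (9 / 4 + t ^ 2) * 1 ≤ (9 / 4 + t ^ 2) * (2 * Real.pi) ^ 2 :=
        mul_le_mul_of_nonneg_left h9 (by positivity)
      linarith
    have e4 : ‖s - 1‖ ^ 2 = 9 / 4 + t ^ 2 := by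
      rw [show s - 1 = -(1 - s) by ring, norm_neg, e1, ffl_norm, Real.sq_sqrt (by positivity)]
      ring
    have hTc : (T : ℂ) ≠ 0 := by exact_mod_cast hT0.ne'
    have e5 : FF T s = ((YY (1 - s) / T) ^ 2 * (riemannZeta (1 - s) ^ 2 - PP N (1 - s)) -
        ((s - 1) / T) ^ 2 * PP N s) * Complex.exp ((s / (T : ℂ)) ^ 2) := by
      unfold FF
      rw [e2, ← hNd]
      congr 1
      field_simp
      ring
    set q : ℝ := 1 + (t / T) ^ 2 with hq
    have hq1 : 1 ≤ q := by rw [hq]; nlinarith [sq_nonneg (t / T)]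
    have e6 : 9 / 4 + t ^ 2 ≤ T ^ 2 * q := by
      have e6 : T ^ 2 * (t / T) ^ 2 = t ^ 2 := by field_simp
      rw [hq]
      nlinarith
    have h1 : ‖(YY (1 - s) / T) ^ 2 * (riemannZeta (1 - s) ^ 2 - PP N (1 - s))‖ ≤
        q ^ 2 * (T ^ 2 * f (-t)) := by
      rw [norm_mul, norm_pow, norm_div, Complex.norm_real, Real.norm_of_nonneg hT0.le, e1,
        ← mul_assoc]
      refine mul_le_mul_of_nonneg_right ?_ (norm_nonneg _)
      rw [← e1, div_pow, div_le_iff₀ (by positivity)]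
      refine e3.trans ?_
      calc (9 / 4 + t ^ 2) ^ 2 ≤ (T ^ 2 * q) ^ 2 := pow_le_pow_left₀ (by positivity) e6 2
        _ = _ := by ring
    have h2 : ‖((s - 1) / T) ^ 2 * PP N s‖ ≤ q ^ 2 * b t := by
      rw [norm_mul, norm_pow, norm_div, Complex.norm_real, Real.norm_of_nonneg hT0.le]
      refine mul_le_mul_of_nonneg_right ?_ (norm_nonneg _)
      rw [div_pow, e4, div_le_iff₀ (by positivity)]
      nlinarith [sq_nonneg T]
    have h3 : ‖(YY (1 - s) / T) ^ 2 * (riemannZeta (1 - s) ^ 2 - PP N (1 - s)) -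
        ((s - 1) / T) ^ 2 * PP N s‖ ≤ q ^ 2 * (T ^ 2 * f (-t) + b t) := by
      refine (norm_sub_le _ _).trans ?_
      rw [mul_add]
      exact add_le_add h1 h2
    have h4 := ff_exp T hT (-(1 / 2)) t (by norm_num)
    rw [show ((-(1 / 2) : ℝ) : ℂ) + t * I = s by rw [hs]; push_cast; rfl] at h4
    have hf0 : 0 ≤ f (-t) := norm_nonneg _
    have hb0 : 0 ≤ b t := norm_nonneg _
    rw [e5, norm_mul, mul_pow]
    calc _ ≤ (q ^ 2 * (T ^ 2 * f (-t) + b t)) ^ 2 *
          (Real.exp 2 * Real.exp (-(2 * (t / T) ^ 2))) := by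
          refine mul_le_mul (pow_le_pow_left₀ (norm_nonneg _) h3 2) h4 (by positivity)
            (by positivity)
      _ ≤ (q ^ 4 * h t) * (Real.exp 2 * Real.exp (-(2 * (t / T) ^ 2))) := by
          refine mul_le_mul_of_nonneg_right ?_ (by positivity)
          exact ffl_sq q _ _ (by positivity) hb0
      _ = _ := by ring
  -- blocks
  have hblk : ∀ c : ℝ, ∫ t in c..(c + T), h t ≤
      (2 * C3 + 2 * C2) * (T ^ 3 * (1 + Real.log T) ^ 3) := by
    intro c
    have h1 : ∫ t in c..(c + T), f (-t) ^ 2 ≤ C3 * ((1 + Real.log T) ^ 3 / T) := by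
      have e1 := intervalIntegral.integral_comp_neg (a := c) (b := c + T)
        (fun x : ℝ => f x ^ 2)
      have e2 := hTail T hT (-(c + T))
      rw [show -(c + T) + T = -c by ring] at e2
      calc _ = ∫ t in (-(c + T))..(-c), f t ^ 2 := e1
        _ ≤ _ := e2
    have h2 := hMVa c T N (by linarith) hN1 hNT
    have hi1 : IntervalIntegrable (fun t => 2 * (T ^ 2) ^ 2 * f (-t) ^ 2) volume c (c + T) :=
      (continuous_const.mul (hfc'.pow 2)).intervalIntegrable _ _
    have hi2 : IntervalIntegrable (fun t => 2 * b t ^ 2)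
        volume c (c + T) := (continuous_const.mul (hbc.pow 2)).intervalIntegrable _ _
    have e3 : ∫ t in c..(c + T), h t = 2 * (T ^ 2) ^ 2 * (∫ t in c..(c + T), f (-t) ^ 2) +
        2 * ∫ t in c..(c + T), b t ^ 2 := by
      rw [← intervalIntegral.integral_const_mul, ← intervalIntegral.integral_const_mul,
        ← intervalIntegral.integral_add hi1 hi2]
      refine intervalIntegral.integral_congr fun t _ => ?_
      simp only [hh]
      ring
    rw [e3]
    have h3 : (1 + Real.log N) ^ 3 ≤ (1 + Real.log T) ^ 3 :=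
      pow_le_pow_left₀ (by linarith) (by linarith) 3
    have h4 : (N : ℝ) ^ 2 ≤ T ^ 2 := pow_le_pow_left₀ hN0.le hNT 2
    calc 2 * (T ^ 2) ^ 2 * (∫ t in c..(c + T), f (-t) ^ 2) +
        2 * ∫ t in c..(c + T), b t ^ 2 ≤
        2 * (T ^ 2) ^ 2 * (C3 * ((1 + Real.log T) ^ 3 / T)) + 2 *
          (C2 * (T * T ^ 2 * (1 + Real.log T) ^ 3)) := by
          refine add_le_add (mul_le_mul_of_nonneg_left h1 (by positivity)) ?_
          refine mul_le_mul_of_nonneg_left (h2.trans ?_) (by positivity)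
          gcongr
      _ = _ := by
          field_simp
  have hBLT := hBL T ((2 * C3 + 2 * C2) * (T ^ 3 * (1 + Real.log T) ^ 3)) h
    (by linarith) hhc hh0 hblk R hR
  by_cases hint : IntervalIntegrable (fun t : ℝ => ‖FF T (-(1 / 2) + t * I)‖ ^ 2) volume (-R) R
  · calc ∫ t in (-R)..R, ‖FF T (-(1 / 2) + t * I)‖ ^ 2 ≤ ∫ t in (-R)..R, Real.exp 2 *
          (h t * ((1 + (t / T) ^ 2) ^ 4 * Real.exp (-(2 * (t / T) ^ 2)))) := by
          refine intervalIntegral.integral_mono_on (by linarith) hint ?_ fun t _ => hpt t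
          refine Continuous.intervalIntegrable ?_ _ _
          exact continuous_const.mul (hhc.mul (by fun_prop))
      _ = Real.exp 2 * ∫ t in (-R)..R,
          (h t * ((1 + (t / T) ^ 2) ^ 4 * Real.exp (-(2 * (t / T) ^ 2)))) :=
          intervalIntegral.integral_const_mul _ _
      _ ≤ Real.exp 2 * (C1 * ((2 * C3 + 2 * C2) * (T ^ 3 * (1 + Real.log T) ^ 3))) :=
          mul_le_mul_of_nonneg_left hBLT (by positivity)
      _ = _ := by ring
  · rw [intervalIntegral.integral_undef hint]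
    positivity

end Pool.Agent.Lib.MP_aa9ae4_nt.K2
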