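import Mathlib
import Pool.Agent.Lib.MP_aa9ae4_nt.K2.SpecA

namespace Pool.Agent.Lib.MP_aa9ae4_nt.K2

open Finset MeasureTheory Filter Topology
open Complex (I)

lemma fun_two_pi_ne : (2 * Real.pi : ℂ) ≠ 0 := by
  have h : (2 * Real.pi : ℝ) ≠ 0 := by positivity
  exact_mod_cast h

lemma fun_pow (s : ℂ) : (2 * Real.pi : ℂ) ^ (-s) =
    Complex.exp (-(s * ((Real.log (2 * Real.pi) : ℝ) : ℂ))) := by
  rw [Complex.cpow_def_of_ne_zero fun_two_pi_ne]
  congr 1
  rw [show (2 * Real.pi : ℂ) = ((2 * Real.pi : ℝ) : ℂ) by push_cast; rfl,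
    ← Complex.ofReal_log (by positivity)]
  ring

lemma fun_b (s : ℂ) (hs : Complex.sin (Real.pi * s) ≠ 0) : XX s * XX (1 - s) = 1 := by
  unfold XX
  have h1 : (2 * Real.pi : ℂ) ^ (-s) * (2 * Real.pi : ℂ) ^ (-(1 - s)) =
      (2 * Real.pi : ℂ)⁻¹ := by
    rw [← Complex.cpow_add _ _ fun_two_pi_ne, show -s + -(1 - s) = (-1 : ℂ) by ring,
      Complex.cpow_neg_one]
  have h2 : Complex.cos (Real.pi * (1 - s) / 2) = Complex.sin (Real.pi * s / 2) := by
    rw [show (Real.pi : ℂ) * (1 - s) / 2 = Real.pi / 2 - Real.pi * s / 2 by ring,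
      Complex.cos_pi_div_two_sub]
  have h3 : Complex.sin (Real.pi * s / 2) * Complex.cos (Real.pi * s / 2) =
      Complex.sin (Real.pi * s) / 2 := by
    have := Complex.sin_two_mul (Real.pi * s / 2)
    rw [show 2 * ((Real.pi : ℂ) * s / 2) = Real.pi * s by ring] at this
    rw [this]
    ring
  have h4 := Complex.Gamma_mul_Gamma_one_sub s
  have hπ : (Real.pi : ℂ) ≠ 0 := by exact_mod_cast Real.pi_ne_zero
  calc _ = 4 * ((2 * Real.pi : ℂ) ^ (-s) * (2 * Real.pi : ℂ) ^ (-(1 - s))) *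
        (Complex.Gamma s * Complex.Gamma (1 - s)) *
        (Complex.sin (Real.pi * s / 2) * Complex.cos (Real.pi * s / 2)) := by rw [h2]; ring
    _ = 4 * (2 * Real.pi : ℂ)⁻¹ * (Real.pi / Complex.sin (Real.pi * s)) *
        (Complex.sin (Real.pi * s) / 2) := by rw [h1, h3, h4]
    _ = 1 := by
      field_simp
      norm_num

lemma fun_c (s : ℂ) : XX (starRingEnd ℂ s) = starRingEnd ℂ (XX s) := by
  unfold XX
  rw [fun_pow, fun_pow, map_mul, map_mul, map_mul, ← Complex.Gamma_conj, ← Complex.cos_conj,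
    ← Complex.exp_conj]
  simp only [map_neg, map_mul, map_div₀, Complex.conj_ofReal, map_ofNat]

lemma fun_d (s : ℂ) (hs : s ≠ 0) : YY s = s * XX s := by
  unfold YY XX
  rw [Complex.Gamma_add_one s hs]
  ring

lemma fun_e (s : ℂ) (h : s.re ≤ 1 / 2) (h0 : s ≠ 0) :
    riemannZeta₁ s = -(YY (1 - s)) * riemannZeta (1 - s) := by
  have h1 : s ≠ 1 := by
    rintro rfl
    norm_num at h
  have h2 := riemannZeta_eq_inv_sub_mul h1
  have h3 : s - 1 ≠ 0 := sub_ne_zero.2 h1
  have h4 : riemannZeta₁ s = (s - 1) * riemannZeta s := by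
    rw [h2]
    field_simp
  have h5 : riemannZeta s = XX (1 - s) * riemannZeta (1 - s) := by
    have h6 := riemannZeta_one_sub (s := 1 - s) (fun n hn => by
      have := congrArg Complex.re hn
      simp at this
      have h7 : (0 : ℝ) ≤ n := Nat.cast_nonneg n
      linarith) (fun h' => h0 (by linear_combination -h'))
    rw [sub_sub_cancel] at h6
    exact h6
  rw [h4, fun_d (1 - s) (fun h' => h1 (by linear_combination -h')), h5]
  ring

theorem pFun : S_Fun := by
  refine ⟨fun s hs => ?_, fun_b, fun_c, fun_d, fun_e⟩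
  exact riemannZeta_one_sub (fun n hn => hs (by rw [hn]; simp)) (fun h' => hs (by rw [h']; simp))

end Pool.Agent.Lib.MP_aa9ae4_nt.K2
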