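import Mathlib
import Pool.Agent.Lib.MP_aa9ae4_nt.K2.SpecB

namespace Pool.Agent.Lib.MP_aa9ae4_nt.K2

open Finset MeasureTheory Filter Topology
open Complex (I)

lemma h1_period (Q x : ℕ) : ∑ b ∈ Ico (x + 1) (x + 1 + Q), hq Q b = Nat.totient Q := by
  rw [← Nat.filter_coprime_Ico_eq_totient Q (x + 1), Finset.card_filter]
  push_cast
  refine sum_congr rfl fun b _ => ?_
  unfold hq
  by_cases h : Nat.Coprime b Q
  · rw [if_pos h, if_pos h.symm]
  · rw [if_neg h, if_neg (fun h' => h (Nat.Coprime.symm h'))]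

lemma h1_D (Q : ℕ) (hQ : 1 ≤ Q) (x : ℕ) :
    |∑ b ∈ Ico 1 (x + 1), hq Q b - (Nat.totient Q : ℝ) / Q * x| ≤ Q := by
  have hQ0 : (0 : ℝ) < Q := by exact_mod_cast hQ
  induction x using Nat.strong_induction_on with
  | _ x ih =>
    rcases lt_or_ge x Q with h | h
    · have h1 : 0 ≤ ∑ b ∈ Ico 1 (x + 1), hq Q b :=
        sum_nonneg fun b _ => by unfold hq; split_ifs <;> norm_num
      have h2 : ∑ b ∈ Ico 1 (x + 1), hq Q b ≤ x := by
        calc _ ≤ ∑ b ∈ Ico 1 (x + 1), (1 : ℝ) :=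
              sum_le_sum fun b _ => by unfold hq; split_ifs <;> norm_num
          _ = x := by simp
      have h3 : 0 ≤ (Nat.totient Q : ℝ) / Q * x := by positivity
      have h5 : (x : ℝ) ≤ Q := by exact_mod_cast h.le
      have h4 : (Nat.totient Q : ℝ) / Q * x ≤ x := by
        have h6 : (Nat.totient Q : ℝ) / Q ≤ 1 := by
          rw [div_le_one hQ0]
          exact_mod_cast Nat.totient_le Q
        have h7 : (0 : ℝ) ≤ x := Nat.cast_nonneg x
        nlinarith
      rw [abs_le]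
      constructor <;> linarith
    · obtain ⟨y, rfl⟩ := Nat.exists_eq_add_of_le' h
      have h1 := ih y (by omega)
      have e : ∑ b ∈ Ico 1 (y + Q + 1), hq Q b =
          ∑ b ∈ Ico 1 (y + 1), hq Q b + Nat.totient Q := by
        rw [← h1_period Q y, show y + Q + 1 = y + 1 + Q by omega,
          sum_Ico_consecutive _ (by omega) (by omega)]
      have e2 : (Nat.totient Q : ℝ) / Q * ((y + Q : ℕ) : ℝ) =
          (Nat.totient Q : ℝ) / Q * y + Nat.totient Q := by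
        push_cast
        field_simp
      rw [e, e2, add_sub_add_right_eq_sub]
      exact h1

lemma h1_abel (g : ℕ → ℝ) (x : ℕ) : ∑ b ∈ Icc 1 x, g b / b =
    (∑ b ∈ Ico 1 (x + 1), g b) / ((x : ℝ) + 1) +
      ∑ b ∈ Icc 1 x, (∑ c ∈ Ico 1 (b + 1), g c) / ((b : ℝ) * (b + 1)) := by
  induction x with
  | zero => simp
  | succ x ih =>
    rw [sum_Icc_succ_top (by omega), sum_Icc_succ_top (by omega), ih,
      sum_Ico_succ_top (show 1 ≤ x + 1 by omega)]
    push_cast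
    have h1 : ((x : ℝ) + 1) ≠ 0 := by positivity
    have h2 : ((x : ℝ) + 1 + 1) ≠ 0 := by positivity
    field_simp
    ring

lemma h1_tel (x : ℕ) : ∑ b ∈ Icc 1 x, 1 / ((b : ℝ) * (b + 1)) ≤ 1 := by
  have h : ∑ b ∈ Icc 1 x, 1 / ((b : ℝ) * (b + 1)) = 1 - 1 / ((x : ℝ) + 1) := by
    induction x with
    | zero => simp
    | succ x ih =>
      rw [sum_Icc_succ_top (by omega), ih]
      push_cast
      have h1 : ((x : ℝ) + 1) ≠ 0 := by positivity
      have h2 : ((x : ℝ) + 1 + 1) ≠ 0 := by positivity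
      field_simp
      ring
  rw [h]
  have : 0 ≤ 1 / ((x : ℝ) + 1) := by positivity
  linarith

theorem pH1 : S_H1 := by
  intro Q hQ
  have hQ0 : (0 : ℝ) < Q := by exact_mod_cast hQ
  have hφ : (0 : ℝ) < Nat.totient Q := by exact_mod_cast Nat.totient_pos.2 hQ
  set κ : ℝ := (Nat.totient Q : ℝ) / Q with hκ
  have hκ0 : 0 < κ := by positivity
  refine ⟨κ, 2 * Q + κ, hκ0, fun x hx => ?_⟩
  have hx0 : (0 : ℝ) < x := by exact_mod_cast hx
  have h1 := h1_abel (fun b => hq Q b - κ) x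
  have hD : ∀ b : ℕ, |∑ c ∈ Ico 1 (b + 1), (hq Q c - κ)| ≤ Q := by
    intro b
    have h2 := h1_D Q hQ b
    have e : ∑ c ∈ Ico 1 (b + 1), (hq Q c - κ) = ∑ c ∈ Ico 1 (b + 1), hq Q c - κ * b := by
      rw [sum_sub_distrib]
      simp
      ring
    rw [e]
    exact h2
  have h3 : |∑ b ∈ Icc 1 x, (hq Q b - κ) / b| ≤ 2 * Q := by
    rw [h1]
    refine (abs_add_le _ _).trans ?_
    have h4 : |(∑ b ∈ Ico 1 (x + 1), (hq Q b - κ)) / ((x : ℝ) + 1)| ≤ Q := by
      rw [abs_div, abs_of_pos (by positivity : (0 : ℝ) < (x : ℝ) + 1), div_le_iff₀ (by positivity)]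
      have := hD x
      nlinarith
    have h5 : |∑ b ∈ Icc 1 x, (∑ c ∈ Ico 1 (b + 1), (hq Q c - κ)) / ((b : ℝ) * (b + 1))| ≤ Q := by
      refine (abs_sum_le_sum_abs _ _).trans ?_
      calc _ ≤ ∑ b ∈ Icc 1 x, Q * (1 / ((b : ℝ) * (b + 1))) := by
            refine sum_le_sum fun b hb => ?_
            have hb1 : (0 : ℝ) < b := by exact_mod_cast (mem_Icc.1 hb).1
            rw [abs_div, abs_of_pos (by positivity : (0 : ℝ) < (b : ℝ) * (b + 1)), mul_one_div]
            exact div_le_div_of_nonneg_right (hD b) (by positivity)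
        _ ≤ Q * 1 := by
            rw [← mul_sum]
            exact mul_le_mul_of_nonneg_left (h1_tel x) hQ0.le
        _ = Q := mul_one _
    linarith
  have e : ∑ b ∈ Icc 1 x, (hq Q b - κ) / b =
      ∑ b ∈ Icc 1 x, hq Q b / b - κ * ∑ b ∈ Icc 1 x, 1 / (b : ℝ) := by
    rw [mul_sum, ← sum_sub_distrib]
    refine sum_congr rfl fun b _ => ?_
    rw [sub_div, mul_one_div]
  have h6 := twist_sum_inv_le x
  have h7 := twist_log_le_sum x
  have h8 : Real.log x ≤ Real.log ((x : ℝ) + 1) := Real.log_le_log hx0 (by linarith)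
  rw [e] at h3
  obtain ⟨h9, h10⟩ := abs_le.1 h3
  have h11 : |∑ b ∈ Icc 1 x, 1 / (b : ℝ) - Real.log x| ≤ 1 := by
    rw [abs_le]
    constructor <;> linarith
  have e2 : ∑ b ∈ Icc 1 x, hq Q b / b - κ * Real.log x =
      (∑ b ∈ Icc 1 x, hq Q b / b - κ * ∑ b ∈ Icc 1 x, 1 / (b : ℝ)) +
      κ * (∑ b ∈ Icc 1 x, 1 / (b : ℝ) - Real.log x) := by ring
  rw [e2]
  refine (abs_add_le _ _).trans ?_
  rw [abs_mul, abs_of_pos hκ0]
  have := mul_le_mul_of_nonneg_left h11 hκ0.le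
  linarith

end Pool.Agent.Lib.MP_aa9ae4_nt.K2
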