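import Mathlib
import Pool.Agent.Lib.MP_aa9ae4_nt.K2.PCMP

namespace Pool.Agent.Lib.MP_aa9ae4_nt.K2

open Finset MeasureTheory Filter Topology
open Complex (I)

lemma key_pow (θ : ℝ) (hθ : 0 < θ) (t : ℝ) :
    (θ : ℂ) ^ ((t : ℂ) * I) = Complex.exp (((t * Real.log θ : ℝ) : ℂ) * I) := by
  have h : (θ : ℂ) ≠ 0 := by exact_mod_cast hθ.ne'
  rw [Complex.cpow_def_of_ne_zero h, ← Complex.ofReal_log hθ.le]
  congr 1
  push_cast
  ring

lemma key_norm (θ : ℝ) (hθ : 0 < θ) (t : ℝ) : ‖(θ : ℂ) ^ ((t : ℂ) * I)‖ = 1 := by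
  rw [key_pow θ hθ, Complex.norm_exp_ofReal_mul_I]

lemma key_conj (θ : ℝ) (hθ : 0 < θ) (t : ℝ) :
    (θ : ℂ) ^ ((t : ℂ) * I) = starRingEnd ℂ (((θ⁻¹ : ℝ) : ℂ) ^ ((t : ℂ) * I)) := by
  rw [key_pow θ hθ, key_pow θ⁻¹ (inv_pos.2 hθ), ← Complex.exp_conj, Real.log_inv]
  congr 1
  rw [map_mul, Complex.conj_ofReal, Complex.conj_I]
  push_cast
  ring

lemma key_cont (θ : ℝ) (hθ : 0 < θ) : Continuous fun t : ℝ => (θ : ℂ) ^ ((t : ℂ) * I) := by
  simp_rw [key_pow θ hθ]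
  fun_prop

theorem pKEY (hF : S_Fun) (hN : S_Nrm) (hCR : S_CR) (hCMP : S_CMP) : S_KEY := by
  obtain ⟨_, _, hFc, _, _⟩ := hF
  obtain ⟨hN1, _, _⟩ := hN
  obtain ⟨C1, hC1, hCR⟩ := hCR
  obtain ⟨C2, hC2, hCMP⟩ := hCMP
  refine ⟨C2 + 2 * C1, by positivity, fun T θ N hT hθ hN hNT => ?_⟩
  have hT0 : 0 < T := by linarith
  have hN0 : (0 : ℝ) < N := by exact_mod_cast hN
  have hlogN : 0 ≤ Real.log (N : ℝ) := Real.log_natCast_nonneg N
  have hconj : ∀ t : ℝ, XX (1 - (1 / 2 + t * I)) = starRingEnd ℂ (XX (1 / 2 + t * I)) := by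
    intro t
    rw [← hFc]
    congr 1
    simp only [map_add, map_mul, map_div₀, map_one, Complex.conj_ofReal, Complex.conj_I,
      map_ofNat]
    ring
  set W : ℝ → ℂ := fun t => PP N (1 / 2 + t * I) ^ 2 * XX (1 / 2 + t * I) ^ 2 with hW
  have hXc : Continuous fun t : ℝ => XX (1 / 2 + t * I) := by
    have h1 : ∀ t : ℝ, XX (1 / 2 + t * I) = starRingEnd ℂ (XX (1 - (1 / 2 + t * I))) := by
      intro t
      rw [hconj, Complex.conj_conj]
    simp_rw [h1]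
    exact Complex.continuous_conj.comp cmp_cont_XX
  have hWc : Continuous W := ((cmp_cont_PP N).pow 2).mul (hXc.pow 2)
  have hRR : ∀ t : ℝ, ((‖RR N (1 / 2 + t * I)‖ ^ 2 : ℝ) : ℂ) =
      2 * ((‖PP N (1 / 2 + t * I)‖ ^ 2 : ℝ) : ℂ) + W t + starRingEnd ℂ (W t) := by
    intro t
    have h1 := hN1 t
    set P := PP N (1 / 2 + t * I) with hP
    set X := XX (1 / 2 + t * I) with hX
    have h2 : RR N (1 / 2 + t * I) = P + starRingEnd ℂ X ^ 2 * starRingEnd ℂ P := by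
      unfold RR
      rw [cmp_conj_PP, hconj]
    have h3 : X * starRingEnd ℂ X = 1 := by
      rw [Complex.mul_conj', h1]
      norm_num
    have h4 : ((‖PP N (1 / 2 + t * I)‖ ^ 2 : ℝ) : ℂ) = P * starRingEnd ℂ P := by
      rw [Complex.mul_conj']
      push_cast
      rfl
    have h5 : ((‖RR N (1 / 2 + t * I)‖ ^ 2 : ℝ) : ℂ) =
        (P + starRingEnd ℂ X ^ 2 * starRingEnd ℂ P) *
          starRingEnd ℂ (P + starRingEnd ℂ X ^ 2 * starRingEnd ℂ P) := by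
      rw [Complex.mul_conj', h2]
      push_cast
      rfl
    rw [h5, h4]
    simp only [hW, map_add, map_mul, map_pow, Complex.conj_conj]
    linear_combination (P * starRingEnd ℂ P * (X * starRingEnd ℂ X + 1)) * h3
  -- decomposition of the integral
  set D : ℝ → ℝ := fun t => ‖riemannZeta (1 / 2 + t * I)‖ ^ 4 - ‖RR N (1 / 2 + t * I)‖ ^ 2 with hD
  have hDc : Continuous D := (cmp_cont_zeta.norm.pow 4).sub ((cmp_cont_RR N).norm.pow 2)
  have hθc := key_cont θ hθ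
  have i1 : IntervalIntegrable (fun t : ℝ => ((D t : ℝ) : ℂ) * (θ : ℂ) ^ ((t : ℂ) * I)) volume
      T (2 * T) := ((Complex.continuous_ofReal.comp hDc).mul hθc).intervalIntegrable _ _
  have i2 : IntervalIntegrable (fun t : ℝ => ((‖PP N (1 / 2 + t * I)‖ ^ 2 : ℝ) : ℂ) *
      (θ : ℂ) ^ ((t : ℂ) * I)) volume T (2 * T) :=
    ((Complex.continuous_ofReal.comp ((cmp_cont_PP N).norm.pow 2)).mul hθc).intervalIntegrable _ _
  have i3 : IntervalIntegrable (fun t : ℝ => W t * (θ : ℂ) ^ ((t : ℂ) * I)) volume T (2 * T) :=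
    (hWc.mul hθc).intervalIntegrable _ _
  have i4 : IntervalIntegrable (fun t : ℝ => starRingEnd ℂ (W t) * (θ : ℂ) ^ ((t : ℂ) * I))
      volume T (2 * T) :=
    ((Complex.continuous_conj.comp hWc).mul hθc).intervalIntegrable _ _
  have hdec : (∫ t in T..(2 * T), ((‖riemannZeta (1 / 2 + t * I)‖ ^ 4 : ℝ) : ℂ) *
        (θ : ℂ) ^ ((t : ℂ) * I)) - 2 * JJ T N θ =
      (∫ t in T..(2 * T), ((D t : ℝ) : ℂ) * (θ : ℂ) ^ ((t : ℂ) * I)) +
      ((∫ t in T..(2 * T), W t * (θ : ℂ) ^ ((t : ℂ) * I)) +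
      ∫ t in T..(2 * T), starRingEnd ℂ (W t) * (θ : ℂ) ^ ((t : ℂ) * I)) := by
    have e1 : (∫ t in T..(2 * T), ((‖riemannZeta (1 / 2 + t * I)‖ ^ 4 : ℝ) : ℂ) *
        (θ : ℂ) ^ ((t : ℂ) * I)) =
        ∫ t in T..(2 * T), (((D t : ℝ) : ℂ) * (θ : ℂ) ^ ((t : ℂ) * I) +
          (2 * (((‖PP N (1 / 2 + t * I)‖ ^ 2 : ℝ) : ℂ) * (θ : ℂ) ^ ((t : ℂ) * I)) +
          (W t * (θ : ℂ) ^ ((t : ℂ) * I) +
            starRingEnd ℂ (W t) * (θ : ℂ) ^ ((t : ℂ) * I)))) := by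
      refine intervalIntegral.integral_congr fun t _ => ?_
      have h1 := hRR t
      have h2 : ((D t : ℝ) : ℂ) = ((‖riemannZeta (1 / 2 + t * I)‖ ^ 4 : ℝ) : ℂ) -
          ((‖RR N (1 / 2 + t * I)‖ ^ 2 : ℝ) : ℂ) := by
        simp only [hD]
        push_cast
        rfl
      rw [h1] at h2
      rw [h2]
      ring
    rw [e1, intervalIntegral.integral_add i1 ((i2.const_mul 2).add (i3.add i4)),
      intervalIntegral.integral_add (i2.const_mul 2) (i3.add i4),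
      intervalIntegral.integral_add i3 i4, intervalIntegral.integral_const_mul]
    unfold JJ
    ring
  have b1 : ‖∫ t in T..(2 * T), ((D t : ℝ) : ℂ) * (θ : ℂ) ^ ((t : ℂ) * I)‖ ≤
      C2 * (T * (1 + Real.log T) ^ 3 *
        √((1 + Real.log T) * (1 + Real.log (T / N)))) := by
    refine le_trans ?_ (hCMP T N hT hN hNT)
    refine intervalIntegral.norm_integral_le_of_norm_le (by linarith)
      (Eventually.of_forall fun t _ => ?_) (hDc.abs.intervalIntegrable _ _)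
    rw [norm_mul, key_norm θ hθ, mul_one, Complex.norm_real]
    rfl
  have b2 : ‖∫ t in T..(2 * T), W t * (θ : ℂ) ^ ((t : ℂ) * I)‖ ≤
      C1 * (max 1 θ⁻¹ * (N * (1 + Real.log N) ^ 3)) := hCR T θ N hT hθ hN hNT
  have b3 : ‖∫ t in T..(2 * T), starRingEnd ℂ (W t) * (θ : ℂ) ^ ((t : ℂ) * I)‖ ≤
      C1 * (max 1 θ * (N * (1 + Real.log N) ^ 3)) := by
    have h1 := hCR T θ⁻¹ N hT (inv_pos.2 hθ) hN hNT
    rw [inv_inv] at h1
    have e1 : (∫ t in T..(2 * T), starRingEnd ℂ (W t) * (θ : ℂ) ^ ((t : ℂ) * I)) =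
        starRingEnd ℂ (∫ t in T..(2 * T), W t * ((θ⁻¹ : ℝ) : ℂ) ^ ((t : ℂ) * I)) := by
      rw [← intervalIntegral.intervalIntegral_conj]
      refine intervalIntegral.integral_congr fun t _ => ?_
      simp only [map_mul]
      rw [key_conj θ hθ]
    rw [e1, Complex.norm_conj]
    exact h1
  have hm1 : max 1 θ⁻¹ ≤ θ + θ⁻¹ := by
    have h1 : 0 < θ⁻¹ := inv_pos.2 hθ
    have h2 : θ * θ⁻¹ = 1 := mul_inv_cancel₀ hθ.ne'
    refine max_le ?_ (by linarith)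
    nlinarith [sq_nonneg (θ - θ⁻¹), sq_nonneg (θ - 1)]
  have hm2 : max 1 θ ≤ θ + θ⁻¹ := by
    have h1 : 0 < θ⁻¹ := inv_pos.2 hθ
    exact max_le ((le_max_left _ _).trans hm1) (by linarith)
  rw [hdec]
  calc _ ≤ ‖∫ t in T..(2 * T), ((D t : ℝ) : ℂ) * (θ : ℂ) ^ ((t : ℂ) * I)‖ +
        (‖∫ t in T..(2 * T), W t * (θ : ℂ) ^ ((t : ℂ) * I)‖ +
        ‖∫ t in T..(2 * T), starRingEnd ℂ (W t) * (θ : ℂ) ^ ((t : ℂ) * I)‖) :=
        (norm_add_le _ _).trans (add_le_add_right (norm_add_le _ _) _)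
    _ ≤ C2 * (T * (1 + Real.log T) ^ 3 *
        √((1 + Real.log T) * (1 + Real.log (T / N)))) +
        (C1 * ((θ + θ⁻¹) * (N * (1 + Real.log N) ^ 3)) +
          C1 * ((θ + θ⁻¹) * (N * (1 + Real.log N) ^ 3))) := by
        refine add_le_add b1 (add_le_add (b2.trans ?_) (b3.trans ?_))
        · gcongr
        · gcongr
    _ ≤ _ := by
        have h1 : 0 ≤ T * (1 + Real.log T) ^ 3 *
            √((1 + Real.log T) * (1 + Real.log (T / N))) := by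
          have : 0 ≤ Real.log T := Real.log_nonneg (by linarith)
          positivity
        have h2 : 0 < θ⁻¹ := inv_pos.2 hθ
        have h3 : 0 ≤ (θ + θ⁻¹) * (N * (1 + Real.log N) ^ 3) := by positivity
        nlinarith

end Pool.Agent.Lib.MP_aa9ae4_nt.K2
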