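import Pool.Agent.Lib.MP_aa9ae4_nt.K2.SpecA

namespace Pool.Agent.Lib.MP_aa9ae4_nt.K2

open Finset MeasureTheory Filter Topology
open Complex (I)

/-- `PP` on a vertical line as a Dirichlet polynomial -/
private lemma mv_PP (N : ℕ) (σ : ℂ) (t : ℝ) : PP N (σ + t * I) =
    ∑ n ∈ Icc 1 N, ((dv n : ℂ) * (n : ℂ) ^ (-σ)) * (n : ℂ) ^ (-(t * I)) := by
  unfold PP
  refine sum_congr rfl fun n hn => ?_
  have hn0 : (n : ℂ) ≠ 0 := by
    have := (mem_Icc.1 hn).1
    exact_mod_cast (by omega : n ≠ 0)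
  rw [neg_add, Complex.cpow_add _ _ hn0, mul_assoc]

private lemma mv_norm (n : ℕ) (hn : 1 ≤ n) (σ : ℝ) :
    ‖(dv n : ℂ) * (n : ℂ) ^ (-(σ : ℂ))‖ ^ 2 = dv n ^ 2 * (n : ℝ) ^ (-(2 * σ)) := by
  have hn0 : (0 : ℝ) < n := by exact_mod_cast hn
  rw [norm_mul, Complex.norm_real, mul_pow, Complex.norm_natCast_cpow_of_pos (by omega),
    Real.norm_eq_abs, sq_abs]
  congr 1
  rw [← Real.rpow_natCast, ← Real.rpow_mul hn0.le]
  congr 1
  simp
  ring

theorem pMV (h1 : S_Aks) (h2 : S_Abs) : S_MV := by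
  obtain ⟨C, hC, hmv⟩ := mean_value
  obtain ⟨-, -, hAbs, -⟩ := h2
  have hd0 : ∀ k n, 0 ≤ dv n ^ k := fun k n => by unfold dv; positivity
  refine ⟨2 * C, by positivity, ?_, ?_, ?_⟩
  · intro c T N hT hN hNT
    have hN0 : (0 : ℝ) < N := by exact_mod_cast hN
    have hlog : 0 ≤ Real.log (N : ℝ) := Real.log_natCast_nonneg N
    have h3 := hmv c T hT N (fun n => (dv n : ℂ) * (n : ℂ) ^ (-((-(1 / 2) : ℝ) : ℂ)))
    have e1 : ∀ t : ℝ, PP N (-(1 / 2) + t * I) =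
        ∑ n ∈ Icc 1 N, ((dv n : ℂ) * (n : ℂ) ^ (-((-(1 / 2) : ℝ) : ℂ))) * (n : ℂ) ^ (-(t * I)) := by
      intro t
      have := mv_PP N ((-(1 / 2) : ℝ) : ℂ) t
      rw [← this]
      congr 1
      push_cast
      ring
    simp_rw [e1]
    refine h3.trans ?_
    have h4 : ∑ n ∈ Icc 1 N, ‖(dv n : ℂ) * (n : ℂ) ^ (-((-(1 / 2) : ℝ) : ℂ))‖ ^ 2 ≤
        (N : ℝ) ^ 2 * (1 + Real.log N) ^ 3 := by
      calc _ = ∑ n ∈ Icc 1 N, dv n ^ 2 * (n : ℝ) := by
            refine sum_congr rfl fun n hn => ?_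
            rw [mv_norm n (mem_Icc.1 hn).1]
            congr 1
            norm_num
        _ ≤ ∑ n ∈ Icc 1 N, dv n ^ 2 * (N : ℝ) := by
            refine sum_le_sum fun n hn => ?_
            apply mul_le_mul_of_nonneg_left _ (hd0 2 n)
            exact_mod_cast (mem_Icc.1 hn).2
        _ = (∑ n ∈ Icc 1 N, dv n ^ 2) * N := by rw [sum_mul]
        _ ≤ (N * (1 + Real.log N) ^ 3) * N := by
            apply mul_le_mul_of_nonneg_right _ hN0.le
            exact (h1 2 N hN).1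
        _ = _ := by ring
    calc C * (T + N) * ∑ n ∈ Icc 1 N, ‖(dv n : ℂ) * (n : ℂ) ^ (-((-(1 / 2) : ℝ) : ℂ))‖ ^ 2 ≤
        C * (2 * T) * ((N : ℝ) ^ 2 * (1 + Real.log N) ^ 3) := by
          apply mul_le_mul _ h4 (sum_nonneg fun n _ => by positivity) (by positivity)
          apply mul_le_mul_of_nonneg_left _ hC.le
          linarith
      _ = _ := by ring
  · intro c T M N hT hM hMN hNT
    have hN0 : (0 : ℝ) < N := by exact_mod_cast (by omega : 0 < N)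
    have h3 := hmv c T hT N (fun n => if M < n then
      (dv n : ℂ) * (n : ℂ) ^ (-((1 / 2 : ℝ) : ℂ)) else 0)
    have e1 : ∀ t : ℝ, PP N (1 / 2 + t * I) - PP M (1 / 2 + t * I) =
        ∑ n ∈ Icc 1 N, (if M < n then (dv n : ℂ) * (n : ℂ) ^ (-((1 / 2 : ℝ) : ℂ)) else 0) *
          (n : ℂ) ^ (-(t * I)) := by
      intro t
      have e2 : ((1 / 2 : ℝ) : ℂ) = (1 / 2 : ℂ) := by push_cast; rfl
      have h5 := mv_PP N ((1 / 2 : ℝ) : ℂ) t
      have h6 := mv_PP M ((1 / 2 : ℝ) : ℂ) t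
      rw [e2] at h5 h6 ⊢
      rw [h5, h6]
      have hsub : Icc 1 N = Icc 1 M ∪ Ioc M N := by
        ext n
        simp only [mem_Icc, mem_union, mem_Ioc]
        omega
      have hdisj : Disjoint (Icc 1 M) (Ioc M N) := by
        rw [disjoint_left]
        intro n h7 h8
        rw [mem_Icc] at h7
        rw [mem_Ioc] at h8
        omega
      rw [hsub, sum_union hdisj, sum_union hdisj]
      have z1 : ∑ n ∈ Icc 1 M, (if M < n then (dv n : ℂ) * (n : ℂ) ^ (-(1 / 2 : ℂ)) else 0) *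
          (n : ℂ) ^ (-(t * I)) = 0 := by
        apply sum_eq_zero
        intro n hn
        rw [if_neg (by have := (mem_Icc.1 hn).2; omega), zero_mul]
      have z2 : ∑ n ∈ Ioc M N, (if M < n then (dv n : ℂ) * (n : ℂ) ^ (-(1 / 2 : ℂ)) else 0) *
          (n : ℂ) ^ (-(t * I)) =
          ∑ n ∈ Ioc M N, ((dv n : ℂ) * (n : ℂ) ^ (-(1 / 2 : ℂ))) * (n : ℂ) ^ (-(t * I)) := by
        refine sum_congr rfl fun n hn => ?_
        rw [if_pos (mem_Ioc.1 hn).1]
      rw [z1, z2]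
      ring
    simp_rw [e1]
    refine h3.trans ?_
    have h4 : ∑ n ∈ Icc 1 N, ‖(if M < n then (dv n : ℂ) * (n : ℂ) ^ (-((1 / 2 : ℝ) : ℂ)) else 0)‖ ^ 2
        ≤ (1 + Real.log N) ^ 3 * (1 + Real.log ((N : ℝ) / M)) := by
      refine le_trans (le_of_eq ?_) (hAbs M N hM hMN)
      have hfil : Ioc M N = (Icc 1 N).filter (fun n => M < n) := by
        ext n
        simp only [mem_Ioc, mem_filter, mem_Icc]
        omega
      rw [hfil, sum_filter]
      refine sum_congr rfl fun n hn => ?_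
      split_ifs with h5
      · have hn0 : (0 : ℝ) < n := by exact_mod_cast (mem_Icc.1 hn).1
        rw [mv_norm n (mem_Icc.1 hn).1]
        rw [show -(2 * (1 / 2) : ℝ) = -1 by norm_num, Real.rpow_neg_one, div_eq_mul_inv]
      · simp
    calc C * (T + N) * ∑ n ∈ Icc 1 N,
          ‖(if M < n then (dv n : ℂ) * (n : ℂ) ^ (-((1 / 2 : ℝ) : ℂ)) else 0)‖ ^ 2 ≤
        C * (2 * T) * ((1 + Real.log N) ^ 3 * (1 + Real.log ((N : ℝ) / M))) := by
          apply mul_le_mul _ h4 (sum_nonneg fun n _ => by positivity) (by positivity)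
          apply mul_le_mul_of_nonneg_left _ hC.le
          linarith
      _ = _ := by ring
  · intro c T N hT hN hNT
    have hN0 : (0 : ℝ) < N := by exact_mod_cast hN
    have hlog : 0 ≤ Real.log (N : ℝ) := Real.log_natCast_nonneg N
    have h3 := hmv c T hT N (fun n => (dv n : ℂ) * (n : ℂ) ^ (-((1 / 2 : ℝ) : ℂ)))
    have e1 : ∀ t : ℝ, PP N (1 / 2 + t * I) =
        ∑ n ∈ Icc 1 N, ((dv n : ℂ) * (n : ℂ) ^ (-((1 / 2 : ℝ) : ℂ))) * (n : ℂ) ^ (-(t * I)) := by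
      intro t
      have := mv_PP N ((1 / 2 : ℝ) : ℂ) t
      rw [← this]
      congr 1
      push_cast
      ring
    simp_rw [e1]
    refine h3.trans ?_
    have h4 : ∑ n ∈ Icc 1 N, ‖(dv n : ℂ) * (n : ℂ) ^ (-((1 / 2 : ℝ) : ℂ))‖ ^ 2 ≤
        (1 + Real.log N) ^ 4 := by
      refine le_trans (le_of_eq ?_) (h1 2 N hN).2
      refine sum_congr rfl fun n hn => ?_
      rw [mv_norm n (mem_Icc.1 hn).1]
      rw [show -(2 * (1 / 2) : ℝ) = -1 by norm_num, Real.rpow_neg_one, div_eq_mul_inv]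
    calc C * (T + N) * ∑ n ∈ Icc 1 N, ‖(dv n : ℂ) * (n : ℂ) ^ (-((1 / 2 : ℝ) : ℂ))‖ ^ 2 ≤
        C * (2 * T) * ((1 + Real.log N) ^ 4) := by
          apply mul_le_mul _ h4 (sum_nonneg fun n _ => by positivity) (by positivity)
          apply mul_le_mul_of_nonneg_left _ hC.le
          linarith
      _ = _ := by ring

end Pool.Agent.Lib.MP_aa9ae4_nt.K2
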