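import Pool.Agent.Lib.MP_aa9ae4_nt.K2.SpecB

namespace Pool.Agent.Lib.MP_aa9ae4_nt.K2

open Finset MeasureTheory Filter Topology
open Complex (I)

private lemma near_cnt_nat (S : Finset ℕ) (q : ℕ) (hq : 1 ≤ q) (l : ℝ) (hl : 0 ≤ l)
    (h : ∀ a ∈ S, ∀ b ∈ S, (b : ℝ) - a ≤ l) (hs : ∀ a ∈ S, ∀ b ∈ S, a < b → q ≤ b - a) :
    (S.card : ℝ) ≤ l / q + 1 := by
  have hq0 : (0 : ℝ) < q := by exact_mod_cast hq
  rcases S.eq_empty_or_nonempty with h0 | h0
  · rw [h0, card_empty, Nat.cast_zero]
    positivity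
  · set a := S.min' h0 with ha
    have hmin : ∀ b ∈ S, a ≤ b := fun b hb => S.min'_le b hb
    have hmem : a ∈ S := S.min'_mem h0
    have hcard : S.card ≤ (range (⌊l / q⌋₊ + 1)).card := by
      apply card_le_card_of_injOn (fun n => (n - a) / q)
      · intro b hb
        have hb' : b ∈ S := hb
        simp only [coe_range, Set.mem_Iio]
        rw [Nat.lt_succ_iff]
        apply Nat.le_floor
        have h1 := h a hmem b hb'
        have h2 := hmin b hb'
        have h3 : (((b - a) / q : ℕ) : ℝ) ≤ ((b - a : ℕ) : ℝ) / q := Nat.cast_div_le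
        refine h3.trans ?_
        apply div_le_div_of_nonneg_right _ hq0.le
        rw [Nat.cast_sub h2]
        exact h1
      · intro b hb c hc hbc
        have hb' : b ∈ S := hb
        have hc' : c ∈ S := hc
        have key : ∀ x ∈ S, ∀ y ∈ S, (x - a) / q = (y - a) / q → ¬ x < y := by
          intro x hx y hy hxy hlt
          have h1 := hs x hx y hy hlt
          have h2 := hmin x hx
          have h3 : (x - a) + q ≤ y - a := by omega
          have h4 : ((x - a) + q) / q ≤ (y - a) / q := Nat.div_le_div_right h3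
          rw [Nat.add_div_right _ (by omega)] at h4
          omega
        rcases lt_trichotomy b c with h1 | h1 | h1
        · exact absurd h1 (key b hb' c hc' hbc)
        · exact h1
        · exact absurd h1 (key c hc' b hb' hbc.symm)
    rw [card_range] at hcard
    have h1 : (S.card : ℝ) ≤ (⌊l / q⌋₊ : ℝ) + 1 := by exact_mod_cast hcard
    have h2 := Nat.floor_le (show 0 ≤ l / q by positivity)
    linarith

private lemma near_dv_mul (a b : ℕ) : dv (a * b) ≤ dv a * dv b := by
  unfold dv
  have h : (Nat.divisors (a * b)).card ≤ (Nat.divisors a).card * (Nat.divisors b).card := by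
    rw [Nat.divisors_mul]
    exact Finset.card_mul_le
  exact_mod_cast h

private lemma near_dv_nonneg (n : ℕ) : 0 ≤ dv n := by unfold dv; positivity

/-- dyadic summation -/
private lemma near_blocks {Cb θ δ : ℝ} {N : ℕ} (hCb : 0 < Cb)
    (hBlk : ∀ (θ δ : ℝ) (N M : ℕ) (B : Finset ℕ) (f : ℕ → ℕ), 1 ≤ θ → 0 < δ → δ ≤ 1 / 8 →
    1 ≤ N → 1 ≤ M → B ⊆ Icc 1 N → B ⊆ Ioc M (2 * M) →
    (∀ n ∈ B, 1 ≤ f n ∧ f n ≤ N ∧ |θ * n - f n| ≤ δ) → (B.card : ℝ) ≤ 40 * δ * M →
    ∑ n ∈ B, dv n * dv (f n) / √((n : ℝ) * f n) ≤ Cb * (√δ * (1 + Real.log N) ^ 8))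
    (hθ : 1 ≤ θ) (hδ : 0 < δ) (hδ8 : δ ≤ 1 / 8) (hN : 1 ≤ N) (S : Finset ℕ) (f : ℕ → ℕ)
    (hSN : S ⊆ Icc 1 N) (hS2 : ∀ n ∈ S, 2 ≤ n)
    (hf : ∀ n ∈ S, 1 ≤ f n ∧ f n ≤ N ∧ |θ * n - f n| ≤ δ)
    (hcard : ∀ j : ℕ, ((S.filter (fun n => 2 ^ j < n ∧ n ≤ 2 ^ (j + 1))).card : ℝ) ≤
      40 * δ * ((2 ^ j : ℕ) : ℝ)) :
    ∑ n ∈ S, dv n * dv (f n) / √((n : ℝ) * f n) ≤ 2 * Cb * (√δ * (1 + Real.log N) ^ 9) := by
  classical
  have hlog : 0 ≤ Real.log (N : ℝ) := Real.log_natCast_nonneg N
  set L := 1 + Real.log (N : ℝ) with hL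
  have hL1 : 1 ≤ L := by linarith
  set J := Nat.log 2 N + 1 with hJ
  set F : ℕ → ℝ := fun n => dv n * dv (f n) / √((n : ℝ) * f n) with hF
  have hF0 : ∀ n, 0 ≤ F n := fun n =>
    div_nonneg (mul_nonneg (near_dv_nonneg _) (near_dv_nonneg _)) (Real.sqrt_nonneg _)
  have h1 : ∑ n ∈ S, F n ≤ ∑ j ∈ range J,
      ∑ n ∈ S.filter (fun n => 2 ^ j < n ∧ n ≤ 2 ^ (j + 1)), F n := by
    have e : ∀ j ∈ range J, ∑ n ∈ S.filter (fun n => 2 ^ j < n ∧ n ≤ 2 ^ (j + 1)), F n =
        ∑ n ∈ S, if 2 ^ j < n ∧ n ≤ 2 ^ (j + 1) then F n else 0 := fun j _ => sum_filter _ _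
    rw [sum_congr rfl e, sum_comm]
    refine sum_le_sum fun n hn => ?_
    have hn2 := hS2 n hn
    have hnN := (mem_Icc.1 (hSN hn)).2
    have hmem : Nat.log 2 (n - 1) ∈ range J := by
      rw [mem_range, hJ]
      have : Nat.log 2 (n - 1) ≤ Nat.log 2 N := Nat.log_mono_right (by omega)
      omega
    have h1 : 2 ^ Nat.log 2 (n - 1) ≤ n - 1 := Nat.pow_log_le_self 2 (by omega)
    have h2 : n - 1 < 2 ^ (Nat.log 2 (n - 1) + 1) := Nat.lt_pow_succ_log_self (by norm_num) _
    have h3 := single_le_sum (s := range J)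
      (f := fun j => if 2 ^ j < n ∧ n ≤ 2 ^ (j + 1) then F n else 0)
      (fun j _ => by
        split_ifs
        · exact hF0 n
        · exact le_rfl) hmem
    rw [if_pos ⟨by omega, by omega⟩] at h3
    exact h3
  refine h1.trans ?_
  have h2 : ∀ j ∈ range J, ∑ n ∈ S.filter (fun n => 2 ^ j < n ∧ n ≤ 2 ^ (j + 1)), F n ≤
      Cb * (√δ * L ^ 8) := by
    intro j _
    apply hBlk θ δ N (2 ^ j) _ f hθ hδ hδ8 hN Nat.one_le_two_pow
    · exact (filter_subset _ _).trans hSN
    · intro n hn
      rw [mem_filter] at hn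
      rw [mem_Ioc]
      refine ⟨hn.2.1, ?_⟩
      have := hn.2.2
      rw [pow_succ] at this
      omega
    · intro n hn
      exact hf n (mem_filter.1 hn).1
    · exact hcard j
  refine (sum_le_sum h2).trans ?_
  rw [sum_const, card_range, nsmul_eq_mul]
  have hJL : (J : ℝ) ≤ 2 * L := by
    have h3 : (2 : ℝ) ^ (Nat.log 2 N) ≤ N := by
      exact_mod_cast Nat.pow_log_le_self 2 (by omega)
    have h4 : (Nat.log 2 N : ℝ) * Real.log 2 ≤ Real.log N := by
      rw [← Real.log_pow]
      exact Real.log_le_log (by positivity) h3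
    have h5 := Real.log_two_gt_d9
    have h6 : (0 : ℝ) ≤ (Nat.log 2 N : ℝ) := by positivity
    rw [hJ]
    push_cast
    nlinarith
  have h3 : 0 ≤ Cb * (√δ * L ^ 8) := by positivity
  calc (J : ℝ) * (Cb * (√δ * L ^ 8)) ≤ 2 * L * (Cb * (√δ * L ^ 8)) :=
        mul_le_mul_of_nonneg_right hJL h3
    _ = _ := by ring

theorem pNear (h1 : S_Aks) (h2 : S_Cnt) (h3 : S_Blk) : S_Near := by
  obtain ⟨Cb, hCb, hBlk⟩ := h3
  refine ⟨1 + 2 * Cb, by positivity, ?_⟩
  intro θ δ N q p hθ hδ hδ8 hN hq hp hκ2 hmin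
  classical
  have hθ0 : 0 < θ := by linarith
  have hq0 : (0 : ℝ) < q := by exact_mod_cast hq
  have hp0 : (0 : ℝ) < p := by exact_mod_cast hp
  have hlog : 0 ≤ Real.log (N : ℝ) := Real.log_natCast_nonneg N
  set L := 1 + Real.log (N : ℝ) with hL
  have hL1 : 1 ≤ L := by linarith
  -- the function `f`
  obtain ⟨P, hP⟩ : ∃ P : ℕ → Prop, ∀ n, P n ↔ ∃ m' ∈ Icc 1 N, |θ * n - (m' : ℝ)| ≤ δ :=
    ⟨fun n => ∃ m' ∈ Icc 1 N, |θ * n - (m' : ℝ)| ≤ δ, fun n => Iff.rfl⟩
  have hch : ∀ n : ℕ, ∃ m : ℕ, P n → m ∈ Icc 1 N ∧ |θ * n - m| ≤ δ := by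
    intro n
    by_cases h : P n
    · obtain ⟨m, hm1, hm2⟩ := (hP n).1 h
      exact ⟨m, fun _ => ⟨hm1, hm2⟩⟩
    · exact ⟨0, fun h' => absurd h' h⟩
  choose f hf using hch
  set B := (Icc 1 N).filter P with hB
  have hBf : ∀ n ∈ B, 1 ≤ f n ∧ f n ≤ N ∧ |θ * n - f n| ≤ δ := by
    intro n hn
    obtain ⟨h4, h5⟩ := hf n (mem_filter.1 hn).2
    exact ⟨(mem_Icc.1 h4).1, (mem_Icc.1 h4).2, h5⟩
  have hBN : B ⊆ Icc 1 N := filter_subset _ _
  set F : ℕ → ℝ := fun n => dv n * dv (f n) / √((n : ℝ) * f n) with hF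
  have hF0 : ∀ n, 0 ≤ F n := fun n =>
    div_nonneg (mul_nonneg (near_dv_nonneg _) (near_dv_nonneg _)) (Real.sqrt_nonneg _)
  have hsum : ∑ n ∈ Icc 1 N, ∑ m ∈ (Icc 1 N).filter (fun m : ℕ => |θ * n - m| ≤ δ),
      dv n * dv m / √((n : ℝ) * m) = ∑ n ∈ B, F n := by
    have hBs : ∑ n ∈ B, F n = ∑ n ∈ Icc 1 N, if P n then F n else 0 := by
      rw [hB]
      exact sum_filter _ _
    rw [hBs]
    refine sum_congr rfl fun n _ => ?_
    split_ifs with h
    · have h4 : (Icc 1 N).filter (fun m : ℕ => |θ * n - m| ≤ δ) = {f n} := by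
        obtain ⟨h5, h6⟩ := hf n h
        ext m
        rw [mem_filter, mem_singleton]
        constructor
        · rintro ⟨h7, h8⟩
          have h9 : |(m : ℝ) - f n| < 1 := by
            have e : (m : ℝ) - f n = (θ * n - f n) - (θ * n - m) := by ring
            rw [e]
            refine lt_of_le_of_lt (abs_sub _ _) ?_
            linarith
          have h10 : |(m : ℤ) - f n| < 1 := by exact_mod_cast h9
          have h11 := Int.abs_lt_one_iff.mp h10
          omega
        · rintro rfl
          exact ⟨h5, h6⟩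
      rw [h4, sum_singleton]
    · have h4 : (Icc 1 N).filter (fun m : ℕ => |θ * n - m| ≤ δ) = ∅ := by
        rw [filter_eq_empty_iff]
        intro m hm h5
        exact h ((hP n).2 ⟨m, hm, h5⟩)
      rw [h4, sum_empty]
  rw [hsum]
  -- separation
  have hqle : ∀ n ∈ B, q ≤ n := by
    intro n hn
    by_contra hcon
    have h4 := hmin n (mem_Icc.1 (hBN hn)).1 (by omega) (f n)
    have h5 := (hBf n hn).2.2
    push_cast at h4
    linarith
  have hsep : ∀ a ∈ B, ∀ b ∈ B, a < b → q ≤ b - a := by
    intro a ha b hb hab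
    by_contra hcon
    have h1 := hmin (b - a) (by omega) (by omega) ((f b : ℤ) - f a)
    have h2 : θ * ((b - a : ℕ) : ℝ) - (((f b : ℤ) - f a : ℤ) : ℝ) =
        (θ * b - f b) - (θ * a - f a) := by
      rw [Nat.cast_sub hab.le]
      push_cast
      ring
    rw [h2] at h1
    have h3 := abs_sub (θ * b - f b) (θ * a - f a)
    have h4 := (hBf a ha).2.2
    have h5 := (hBf b hb).2.2
    linarith
  have hX0 : 0 ≤ dv q * dv p / √((q : ℝ) * p) * L ^ 4 := by
    have := near_dv_nonneg q
    have := near_dv_nonneg p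
    positivity
  have hY0 : 0 ≤ √δ * L ^ 9 := by positivity
  rcases lt_or_ge 1 (4 * δ * q) with hA | hBcase
  · -- case A
    have hq2 : 2 ≤ q := by
      by_contra hcon
      have : q = 1 := by omega
      rw [this, Nat.cast_one] at hA
      linarith
    have hbl := near_blocks hCb hBlk hθ hδ hδ8 hN B f hBN
      (fun n hn => hq2.trans (hqle n hn)) hBf (fun j => by
        rcases (B.filter (fun n => 2 ^ j < n ∧ n ≤ 2 ^ (j + 1))).eq_empty_or_nonempty with h0 | h0
        · rw [h0, card_empty, Nat.cast_zero]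
          positivity
        · obtain ⟨n, hn⟩ := h0
          rw [mem_filter] at hn
          have h4 := hqle n hn.1
          have h5 : (q : ℝ) ≤ 2 * ((2 ^ j : ℕ) : ℝ) := by
            have : q ≤ 2 * 2 ^ j := by
              have := hn.2.2
              rw [pow_succ] at this
              omega
            exact_mod_cast this
          have h6 := near_cnt_nat (B.filter (fun n => 2 ^ j < n ∧ n ≤ 2 ^ (j + 1))) q hq
            ((2 ^ j : ℕ) : ℝ) (by positivity) (fun a ha b hb => by
              rw [mem_filter] at ha hb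
              have a1 : (((2 ^ j : ℕ) : ℝ)) < a := by exact_mod_cast ha.2.1
              have b1 : (b : ℝ) ≤ 2 * ((2 ^ j : ℕ) : ℝ) := by
                have : b ≤ 2 * 2 ^ j := by
                  have := hb.2.2
                  rw [pow_succ] at this
                  omega
                exact_mod_cast this
              linarith)
            (fun a ha b hb => hsep a (mem_filter.1 ha).1 b (mem_filter.1 hb).1)
          refine h6.trans ?_
          set w := ((2 ^ j : ℕ) : ℝ) with hw
          have hw0 : 0 < w := by rw [hw]; positivity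
          have h7 : w / q ≤ 4 * δ * w := by
            rw [div_le_iff₀ hq0]
            nlinarith
          have h8 : 1 ≤ 8 * δ * w := by
            have := mul_le_mul_of_nonneg_left h5 (by positivity : 0 ≤ 4 * δ)
            nlinarith
          nlinarith)
    calc ∑ n ∈ B, F n ≤ 2 * Cb * (√δ * L ^ 9) := hbl
      _ ≤ _ := by nlinarith [mul_nonneg hCb.le hX0]
  · -- case B
    set κ := |θ * q - p| with hκ
    have hκ0 : 0 ≤ κ := abs_nonneg _
    have hcop : Nat.Coprime q p := by
      by_contra hcon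
      have hg : 1 < Nat.gcd q p := by
        have h4 : Nat.gcd q p ≠ 1 := hcon
        have h5 : 0 < Nat.gcd q p := Nat.gcd_pos_of_pos_left _ hq
        omega
      obtain ⟨q', hq'⟩ := Nat.gcd_dvd_left q p
      obtain ⟨p', hp'⟩ := Nat.gcd_dvd_right q p
      set g := Nat.gcd q p with hgd
      have hq'1 : 1 ≤ q' := by
        rcases Nat.eq_zero_or_pos q' with h | h
        · rw [h, mul_zero] at hq'
          omega
        · exact h
      have hq'2 : q' < q := by
        rw [hq']
        nlinarith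
      have h4 := hmin q' hq'1 hq'2 p'
      have hg1 : (1 : ℝ) ≤ g := by exact_mod_cast hg.le
      have h5 : κ = g * |θ * q' - p'| := by
        have e : θ * q - p = g * (θ * q' - p') := by
          have e1 : (q : ℝ) = g * q' := by exact_mod_cast hq'
          have e2 : (p : ℝ) = g * p' := by exact_mod_cast hp'
          rw [e1, e2]
          ring
        rw [hκ, e, abs_mul, abs_of_pos (by linarith)]
      push_cast at h4
      have h6 := abs_nonneg (θ * q' - p')
      nlinarith
    set B1 := B.filter (fun n : ℕ => 2 * κ * n < 1) with hB1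
    set B2 := B.filter (fun n : ℕ => ¬ 2 * κ * n < 1) with hB2
    have hsplit : ∑ n ∈ B, F n = ∑ n ∈ B1, F n + ∑ n ∈ B2, F n :=
      (sum_filter_add_sum_filter_not B _ _).symm
    rw [hsplit]
    -- second part
    have hbl := near_blocks hCb hBlk hθ hδ hδ8 hN B2 f ((filter_subset _ _).trans hBN)
      (fun n hn => by
        have h4 := (mem_filter.1 hn).2
        by_contra hcon
        have h5 : (n : ℝ) ≤ 1 := by exact_mod_cast (by omega : n ≤ 1)
        apply h4
        have h6 : (0 : ℝ) ≤ n := Nat.cast_nonneg n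
        nlinarith) (fun n hn => hBf n (mem_filter.1 hn).1) (fun j => by
        rcases (B2.filter (fun n => 2 ^ j < n ∧ n ≤ 2 ^ (j + 1))).eq_empty_or_nonempty with h0 | h0
        · rw [h0, card_empty, Nat.cast_zero]
          positivity
        · obtain ⟨n, hn⟩ := h0
          rw [mem_filter] at hn
          have h4 := not_lt.1 (mem_filter.1 hn.1).2
          have h5 : (n : ℝ) ≤ 2 * ((2 ^ j : ℕ) : ℝ) := by
            have : n ≤ 2 * 2 ^ j := by
              have := hn.2.2
              rw [pow_succ] at this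
              omega
            exact_mod_cast this
          refine h2 θ δ q (2 ^ j) p _ hδ hq hBcase (by push_cast; exact hκ2) hmin ?_ ?_
            Nat.one_le_two_pow ?_
          · intro a ha
            have := hBf a (mem_filter.1 (mem_filter.1 ha).1).1
            exact ⟨f a, by push_cast; exact this.2.2⟩
          · intro a ha
            rw [mem_filter] at ha
            rw [mem_Ioc]
            refine ⟨ha.2.1, ?_⟩
            have := ha.2.2
            rw [pow_succ] at this
            omega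
          · have e : |θ * (q : ℝ) - ((p : ℤ) : ℝ)| = κ := by rw [hκ]; push_cast; rfl
            rw [e]
            nlinarith)
    -- first part
    have hmul : ∀ n ∈ B1, n = (n / q) * q ∧ f n = (n / q) * p ∧ 1 ≤ n / q := by
      intro n hn
      rw [mem_filter] at hn
      obtain ⟨f1, f2, f3⟩ := hBf n hn.1
      have hn1 := (mem_Icc.1 (hBN hn.1)).1
      have h4 : |(q : ℝ) * f n - p * n| < 1 := by
        have e : (q : ℝ) * f n - p * n = -(q * (θ * n - f n)) + (θ * q - p) * n := by ring
        rw [e]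
        refine lt_of_le_of_lt (abs_add_le _ _) ?_
        rw [abs_neg, abs_mul, abs_mul, abs_of_pos hq0, Nat.abs_cast, ← hκ]
        have h5 := mul_le_mul_of_nonneg_left f3 hq0.le
        have h6 : (q : ℝ) * δ ≤ 1 / 4 := by linarith
        have h7 : κ * n < 1 / 2 := by linarith [hn.2]
        linarith
      have h5 : |(q : ℤ) * f n - p * n| < 1 := by exact_mod_cast h4
      have h6 := Int.abs_lt_one_iff.mp h5
      have h7 : q * f n = p * n := by
        have : (q : ℤ) * f n = p * n := by linarith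
        exact_mod_cast this
      have h8 : q ∣ n := (Nat.Coprime.dvd_of_dvd_mul_left hcop ⟨f n, h7.symm⟩)
      have h9 : n = (n / q) * q := (Nat.div_mul_cancel h8).symm
      refine ⟨h9, ?_, ?_⟩
      · have h10 : q * f n = q * ((n / q) * p) := by
          rw [h7]
          calc p * n = p * ((n / q) * q) := by rw [← h9]
            _ = _ := by ring
        exact Nat.eq_of_mul_eq_mul_left (by omega) h10
      · exact (Nat.one_le_div_iff (by omega)).2 (hqle n hn.1)
    set g : ℕ → ℝ := fun l => dv q * dv p / √((q : ℝ) * p) * (dv l ^ 2 / l) with hg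
    have hg0 : ∀ l, 0 ≤ g l := by
      intro l
      have := near_dv_nonneg q
      have := near_dv_nonneg p
      simp only [hg]
      positivity
    have hfirst : ∑ n ∈ B1, F n ≤ dv q * dv p / √((q : ℝ) * p) * L ^ 4 := by
      have h4 : ∀ n ∈ B1, F n ≤ g (n / q) := by
        intro n hn
        obtain ⟨h5, h6, h7⟩ := hmul n hn
        set l := n / q with hl
        have hl0 : (0 : ℝ) < l := by exact_mod_cast h7
        have e1 : F n = dv (l * q) * dv (l * p) / (l * √((q : ℝ) * p)) := by
          simp only [hF]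
          rw [h6, h5]
          congr 1
          push_cast
          have e2 : (l : ℝ) * q * (l * p) = (l * l) * (q * p) := by ring
          rw [e2, Real.sqrt_mul (by positivity), Real.sqrt_mul_self hl0.le]
        rw [e1]
        have h8 : dv (l * q) * dv (l * p) ≤ (dv l * dv q) * (dv l * dv p) :=
          mul_le_mul (near_dv_mul _ _) (near_dv_mul _ _) (near_dv_nonneg _)
            (mul_nonneg (near_dv_nonneg _) (near_dv_nonneg _))
        calc _ ≤ (dv l * dv q) * (dv l * dv p) / (l * √((q : ℝ) * p)) :=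
              div_le_div_of_nonneg_right h8 (by positivity)
          _ = g l := by
              simp only [hg]
              field_simp
      refine (sum_le_sum h4).trans ?_
      have hinj : Set.InjOn (fun n => n / q) (B1 : Set ℕ) := by
        intro a ha b hb hab
        have h5 := (hmul a ha).1
        have h6 := (hmul b hb).1
        simp only at hab
        rw [h5, h6, hab]
      have h5 : ∑ n ∈ B1, g (n / q) = ∑ l ∈ B1.image (fun n => n / q), g l := by
        rw [sum_image hinj]
      rw [h5]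
      have h6 : ∑ l ∈ B1.image (fun n => n / q), g l ≤ ∑ l ∈ Icc 1 N, g l := by
        apply sum_le_sum_of_subset_of_nonneg
        · intro l hl
          obtain ⟨n, hn, rfl⟩ := mem_image.1 hl
          rw [mem_Icc]
          refine ⟨(hmul n hn).2.2, ?_⟩
          exact (Nat.div_le_self _ _).trans (mem_Icc.1 (hBN (mem_filter.1 hn).1)).2
        · intro l _ _
          exact hg0 l
      refine h6.trans ?_
      simp only [hg]
      rw [← mul_sum]
      have h7 := (h1 2 N hN).2
      have h8 : 0 ≤ dv q * dv p / √((q : ℝ) * p) := by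
        have := near_dv_nonneg q
        have := near_dv_nonneg p
        positivity
      have h9 : (2 ^ 2 : ℕ) = 4 := by norm_num
      rw [h9] at h7
      exact mul_le_mul_of_nonneg_left h7 h8
    have hfin : ∑ n ∈ B2, F n ≤ 2 * Cb * (√δ * L ^ 9) := hbl
    nlinarith [mul_nonneg hCb.le hX0]

end Pool.Agent.Lib.MP_aa9ae4_nt.K2
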