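import Mathlib
import Pool.Agent.Lib.MP_aa9ae4_nt.K2.SpecA

namespace Pool.Agent.Lib.MP_aa9ae4_nt.K2

open Finset MeasureTheory Filter Topology
open Complex (I)

lemma nrm_cosh (y : ℝ) : Complex.cos ((y : ℂ) * I) ≠ 0 := by
  rw [Complex.cos_mul_I, ← Complex.ofReal_cosh]
  exact_mod_cast (Real.cosh_pos y).ne'

lemma nrm_two_pi_ne : (2 * Real.pi : ℂ) ≠ 0 := by
  have h : (2 * Real.pi : ℝ) ≠ 0 := by positivity
  exact_mod_cast h

lemma nrm_norm (t : ℝ) : ‖((1 / 2 : ℂ) + t * I)‖ = √(1 / 4 + t ^ 2) := by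
  rw [show ((1 / 2 : ℂ) + t * I) = ((1 / 2 : ℝ) : ℂ) + (t : ℂ) * I by push_cast; ring,
    Complex.norm_add_mul_I]
  norm_num

theorem pNrm (h : S_Fun) : S_Nrm := by
  obtain ⟨_, hb, hc, _, _⟩ := h
  have h1 : ∀ t : ℝ, ‖XX (1 / 2 + t * I)‖ = 1 := by
    intro t
    have hs : Complex.sin (Real.pi * (1 / 2 + t * I)) ≠ 0 := by
      rw [show (Real.pi : ℂ) * (1 / 2 + t * I) = ((Real.pi * t : ℝ) : ℂ) * I + Real.pi / 2 by
        push_cast; ring, Complex.sin_add_pi_div_two]
      exact nrm_cosh _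
    have h2 := hb _ hs
    rw [show (1 : ℂ) - (1 / 2 + t * I) = starRingEnd ℂ (1 / 2 + t * I) by
      simp only [map_add, map_mul, map_div₀, map_one, Complex.conj_ofReal, Complex.conj_I,
        map_ofNat]
      ring, hc, Complex.mul_conj'] at h2
    have h3 : ‖XX (1 / 2 + t * I)‖ ^ 2 = 1 := by exact_mod_cast h2
    have h4 := norm_nonneg (XX (1 / 2 + t * I))
    nlinarith
  have h2 : ∀ t : ℝ, ‖XX (3 / 2 + t * I)‖ = √(1 / 4 + t ^ 2) / (2 * Real.pi) := by
    intro t
    set s : ℂ := 1 / 2 + t * I with hs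
    have hs0 : s ≠ 0 := by
      intro h0
      have := congrArg Complex.re h0
      rw [hs] at this
      norm_num at this
    have e1 : (3 / 2 + t * I : ℂ) = s + 1 := by rw [hs]; ring
    have e2 : XX (s + 1) = -(s / (2 * Real.pi)) *
        (2 * (2 * Real.pi : ℂ) ^ (-s) * Complex.Gamma s * Complex.sin (Real.pi * s / 2)) := by
      unfold XX
      rw [Complex.Gamma_add_one s hs0, show -(s + 1) = -s - 1 by ring,
        Complex.cpow_sub _ _ nrm_two_pi_ne, Complex.cpow_one,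
        show (Real.pi : ℂ) * (s + 1) / 2 = Real.pi * s / 2 + Real.pi / 2 by ring,
        Complex.cos_add_pi_div_two]
      have := nrm_two_pi_ne
      field_simp
    have e3 : ‖Complex.sin (Real.pi * s / 2)‖ = ‖Complex.cos (Real.pi * s / 2)‖ := by
      have e4 : Complex.sin (Real.pi * s / 2) =
          starRingEnd ℂ (Complex.cos (Real.pi * s / 2)) := by
        rw [← Complex.cos_conj, ← Complex.cos_pi_div_two_sub]
        congr 1
        rw [hs]
        simp only [map_add, map_mul, map_div₀, map_one, Complex.conj_ofReal, Complex.conj_I,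
          map_ofNat]
        ring
      rw [e4, RCLike.norm_conj]
    have e5 : ‖2 * (2 * Real.pi : ℂ) ^ (-s) * Complex.Gamma s *
        Complex.sin (Real.pi * s / 2)‖ = ‖XX s‖ := by
      unfold XX
      rw [norm_mul, norm_mul, e3]
      simp only [norm_mul]
    rw [e1, e2, norm_mul, e5, h1 t, mul_one, norm_neg, norm_div, nrm_norm]
    congr 1
    rw [norm_mul, Complex.norm_real, Real.norm_of_nonneg Real.pi_pos.le]
    norm_num
  refine ⟨h1, h2, fun t => ?_⟩
  have hs : Complex.sin (Real.pi * (-(1 / 2) + t * I)) ≠ 0 := by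
    rw [show (Real.pi : ℂ) * (-(1 / 2) + t * I) = ((Real.pi * t : ℝ) : ℂ) * I - Real.pi / 2 by
      push_cast; ring, Complex.sin_sub_pi_div_two]
    exact neg_ne_zero.2 (nrm_cosh _)
  have h3 := hb _ hs
  have e : (1 : ℂ) - (-(1 / 2) + t * I) = 3 / 2 + ((-t : ℝ) : ℂ) * I := by push_cast; ring
  rw [e] at h3
  have h4 := congrArg norm h3
  rw [norm_mul, norm_one, h2 (-t), neg_sq] at h4
  have h5 : 0 < √(1 / 4 + t ^ 2) := Real.sqrt_pos.2 (by positivity)
  have h6 := Real.pi_pos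
  field_simp at h4 ⊢
  linarith

end Pool.Agent.Lib.MP_aa9ae4_nt.K2
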