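import Pool.Agent.Lib.MP_aa9ae4_nt.K2.SpecB

namespace Pool.Agent.Lib.MP_aa9ae4_nt.K2

open Finset MeasureTheory Filter Topology
open Complex (I)

theorem pOne (h1 : S_Exp) (h2 : S_Far) (h3 : S_Near) (h4 : S_Dvb) : S_One := by
  obtain ⟨Cf, hCf, hFar⟩ := h2
  obtain ⟨Cn, hCn, hNear⟩ := h3
  obtain ⟨Cd, hCd, hDvb⟩ := h4
  refine ⟨Cf + Cn * (Cd ^ 2 + 1), by positivity, ?_⟩
  intro T θ δ N hT hθ hδ hδ8 hN
  have hT0 : 0 < T := by linarith
  have hθ0 : 0 < θ := by linarith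
  have hlog : 0 ≤ Real.log (N : ℝ) := Real.log_natCast_nonneg N
  set L := 1 + Real.log (N : ℝ) with hL
  have hL1 : 1 ≤ L := by linarith
  -- existence of a good denominator
  have hex : ∃ n : ℕ, 1 ≤ n ∧ ∃ m : ℤ, |θ * n - m| ≤ 2 * δ := by
    obtain ⟨n0, hn0⟩ := exists_nat_gt (1 / (2 * δ))
    have hn0' : 0 < n0 := by
      rcases Nat.eq_zero_or_pos n0 with h | h
      · rw [h, Nat.cast_zero] at hn0
        have : 0 < 1 / (2 * δ) := by positivity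
        linarith
      · exact h
    obtain ⟨k, hk1, hk2, hk3⟩ := Real.exists_nat_abs_mul_sub_round_le θ hn0'
    refine ⟨k, hk1, round (k * θ), ?_⟩
    rw [mul_comm θ]
    refine hk3.trans ?_
    rw [div_le_iff₀ (by positivity)]
    rw [div_lt_iff₀ (by positivity)] at hn0
    nlinarith
  classical
  set q := Nat.find hex with hq
  obtain ⟨hq1, m0, hm0⟩ := Nat.find_spec hex
  rw [← hq] at hq1 hm0
  have hmin : ∀ n : ℕ, 1 ≤ n → n < q → ∀ m : ℤ, 2 * δ < |θ * n - m| := by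
    intro n hn1 hn2 m
    by_contra hcon
    exact Nat.find_min hex hn2 ⟨hn1, m, not_lt.mp hcon⟩
  have hq1' : (1 : ℝ) ≤ q := by exact_mod_cast hq1
  have hm1 : 1 ≤ m0 := by
    have h5 := (abs_le.mp hm0).2
    have h6 : (1 : ℝ) * 1 ≤ θ * q := mul_le_mul hθ hq1' zero_le_one hθ0.le
    have h7 : (0 : ℝ) < m0 := by linarith
    have : 0 < m0 := by exact_mod_cast h7
    omega
  obtain ⟨p, hp⟩ := Int.eq_ofNat_of_zero_le (by omega : (0 : ℤ) ≤ m0)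
  have hp1 : 1 ≤ p := by omega
  have hm0' : |θ * q - p| ≤ 2 * δ := by
    rw [hp] at hm0
    exact_mod_cast hm0
  refine ⟨q, p, hq1, hp1, hm0', ?_⟩
  have hnear := hNear θ δ N q p hθ hδ hδ8 hN hq1 hp1 hm0' hmin
  have hfar := hFar T θ (1 / δ) N hθ (by
    rw [le_div_iff₀ hδ]
    linarith) hN
  have hq0 : (0 : ℝ) < q := by linarith
  have hp0 : (0 : ℝ) < p := by exact_mod_cast hp1
  -- the divisor bound
  have hdq : dv q * dv p / √((q : ℝ) * p) ≤ Cd ^ 2 * ((q : ℝ) * p) ^ (-(3 / 8) : ℝ) := by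
    have h5 := hDvb q hq1
    have h6 := hDvb p hp1
    have h7 : 0 ≤ dv p := by unfold dv; positivity
    have h8 : dv q * dv p ≤ (Cd * (q : ℝ) ^ (1 / 8 : ℝ)) * (Cd * (p : ℝ) ^ (1 / 8 : ℝ)) :=
      mul_le_mul h5 h6 h7 (by positivity)
    have h9 : (Cd * (q : ℝ) ^ (1 / 8 : ℝ)) * (Cd * (p : ℝ) ^ (1 / 8 : ℝ)) =
        Cd ^ 2 * ((q : ℝ) * p) ^ (1 / 8 : ℝ) := by
      rw [Real.mul_rpow hq0.le hp0.le]
      ring
    rw [h9] at h8
    rw [div_le_iff₀ (by positivity)]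
    refine h8.trans (le_of_eq ?_)
    rw [Real.sqrt_eq_rpow, mul_assoc, ← Real.rpow_add (by positivity)]
    congr 2
    norm_num
  rw [h1 T θ N hθ0]
  have hdv0 : ∀ n, 0 ≤ dv n := fun n => by unfold dv; positivity
  have hsplit : ‖∑ n ∈ Icc 1 N, ∑ m ∈ Icc 1 N,
      ((dv n * dv m / √((n : ℝ) * m) : ℝ) : ℂ) * twistJ T (twistX θ n m)‖ ≤
      T * ∑ n ∈ Icc 1 N, ∑ m ∈ (Icc 1 N).filter (fun m : ℕ => |θ * n - m| ≤ δ),
        dv n * dv m / √((n : ℝ) * m) +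
      ∑ n ∈ Icc 1 N, ∑ m ∈ (Icc 1 N).filter (fun m : ℕ => 1 ≤ 1 / δ * |θ * n - m|),
        dv n * dv m / √((n : ℝ) * m) * ‖twistJ T (twistX θ n m)‖ := by
    refine (norm_sum_le _ _).trans ?_
    rw [mul_sum, ← sum_add_distrib]
    refine sum_le_sum fun n _ => ?_
    refine (norm_sum_le _ _).trans ?_
    rw [← sum_filter_add_sum_filter_not (Icc 1 N) (fun m : ℕ => |θ * n - m| ≤ δ)]
    refine add_le_add ?_ ?_
    · rw [mul_sum]
      refine sum_le_sum fun m _ => ?_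
      have h5 : 0 ≤ dv n * dv m / √((n : ℝ) * m) :=
        div_nonneg (mul_nonneg (hdv0 n) (hdv0 m)) (Real.sqrt_nonneg _)
      rw [norm_mul, Complex.norm_real, Real.norm_of_nonneg h5, mul_comm]
      exact mul_le_mul_of_nonneg_right (twistJ_le T _ hT0.le) h5
    · have h6 : ∀ m ∈ (Icc 1 N).filter (fun m : ℕ => ¬ |θ * n - m| ≤ δ),
          ‖((dv n * dv m / √((n : ℝ) * m) : ℝ) : ℂ) * twistJ T (twistX θ n m)‖ ≤
          dv n * dv m / √((n : ℝ) * m) * ‖twistJ T (twistX θ n m)‖ := by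
        intro m _
        have h5 : 0 ≤ dv n * dv m / √((n : ℝ) * m) :=
          div_nonneg (mul_nonneg (hdv0 n) (hdv0 m)) (Real.sqrt_nonneg _)
        rw [norm_mul, Complex.norm_real, Real.norm_of_nonneg h5]
      refine (sum_le_sum h6).trans ?_
      apply sum_le_sum_of_subset_of_nonneg
      · intro m hm
        rw [mem_filter] at hm ⊢
        refine ⟨hm.1, ?_⟩
        have h7 := (not_le.mp hm.2).le
        rw [one_div, ← div_eq_inv_mul, le_div_iff₀ hδ, one_mul]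
        exact h7
      · intro m _ _
        have h5 : 0 ≤ dv n * dv m / √((n : ℝ) * m) :=
          div_nonneg (mul_nonneg (hdv0 n) (hdv0 m)) (Real.sqrt_nonneg _)
        positivity
  refine hsplit.trans ?_
  have hnear2 : T * ∑ n ∈ Icc 1 N, ∑ m ∈ (Icc 1 N).filter (fun m : ℕ => |θ * n - m| ≤ δ),
      dv n * dv m / √((n : ℝ) * m) ≤
      Cn * (Cd ^ 2 + 1) * (T * (L ^ 4 * ((q : ℝ) * p) ^ (-(3 / 8) : ℝ) + √δ * L ^ 9)) := by
    have hx0 : 0 ≤ ((q : ℝ) * p) ^ (-(3 / 8) : ℝ) := by positivity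
    calc _ ≤ T * (Cn * (dv q * dv p / √((q : ℝ) * p) * L ^ 4 + √δ * L ^ 9)) :=
          mul_le_mul_of_nonneg_left hnear hT0.le
      _ ≤ T * (Cn * (Cd ^ 2 * ((q : ℝ) * p) ^ (-(3 / 8) : ℝ) * L ^ 4 + √δ * L ^ 9)) := by
          gcongr
      _ ≤ T * (Cn * ((Cd ^ 2 + 1) * (L ^ 4 * ((q : ℝ) * p) ^ (-(3 / 8) : ℝ)) +
            (Cd ^ 2 + 1) * (√δ * L ^ 9))) := by
          have h5 : 0 ≤ L ^ 4 * ((q : ℝ) * p) ^ (-(3 / 8) : ℝ) := by positivity
          have h6 : 0 ≤ √δ * L ^ 9 := by positivity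
          have h7 : 0 ≤ Cd ^ 2 * (√δ * L ^ 9) := by positivity
          apply mul_le_mul_of_nonneg_left _ hT0.le
          apply mul_le_mul_of_nonneg_left _ hCn.le
          nlinarith
      _ = _ := by ring
  have hfar2 : ∑ n ∈ Icc 1 N, ∑ m ∈ (Icc 1 N).filter (fun m : ℕ => 1 ≤ 1 / δ * |θ * n - m|),
        dv n * dv m / √((n : ℝ) * m) * ‖twistJ T (twistX θ n m)‖ ≤
      Cf * (θ * (N * L ^ 4) / δ) := by
    refine hfar.trans (le_of_eq ?_)
    ring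
  have p1 : 0 ≤ T * (L ^ 4 * ((q : ℝ) * p) ^ (-(3 / 8) : ℝ) + √δ * L ^ 9) := by positivity
  have p2 : 0 ≤ θ * (N * L ^ 4) / δ := by positivity
  have p3 := mul_nonneg hCf.le p1
  have p4 : 0 ≤ Cn * (Cd ^ 2 + 1) * (θ * (N * L ^ 4) / δ) := by positivity
  calc _ ≤ Cn * (Cd ^ 2 + 1) * (T * (L ^ 4 * ((q : ℝ) * p) ^ (-(3 / 8) : ℝ) + √δ * L ^ 9)) +
        Cf * (θ * (N * L ^ 4) / δ) := add_le_add hnear2 hfar2
    _ ≤ _ := by
        rw [mul_add, add_mul, add_mul]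
        linarith

end Pool.Agent.Lib.MP_aa9ae4_nt.K2
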