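import Pool.Agent.Lib.MP_aa9ae4_nt.K2.SpecC
import Pool.Agent.Lib.MP_aa9ae4_nt.PrimeWeight

namespace Pool.Agent.Lib.MP_aa9ae4_nt.K2

open Finset MeasureTheory Filter Topology
open Complex (I)

theorem pPS (h1 : S_Prs) (h2 : S_Pint) : S_PS := by
  obtain ⟨C₀, hC₀, hPrs⟩ := h1
  obtain ⟨-, hinv⟩ := h2
  refine ⟨2 * C₀ + 2, by positivity, ?_⟩
  intro T a B η e S N W W' ha hT hB he hW hS h1 hη hone
  classical
  set P := (Ioc W W').filter Nat.Prime with hP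
  have hPmem : ∀ {p}, p ∈ P → W < p ∧ p ≤ W' ∧ p.Prime := by
    intro p hp
    rw [hP, mem_filter, mem_Ioc] at hp
    exact ⟨hp.1.1, hp.1.2, hp.2⟩
  have hW1 : (1 : ℝ) ≤ W := by exact_mod_cast hW
  have hsW : 0 < √(W : ℝ) := Real.sqrt_pos.2 (by linarith)
  set A : ℕ × ℕ → ℝ := fun x => ‖JJ T N (((x.1 : ℝ) / x.2) ^ a)‖ with hA
  -- choice of the approximations
  have hch : ∀ x : ℕ × ℕ, ∃ y : ℕ × ℕ, x ∈ P ×ˢ P → x.2 < x.1 →
      1 ≤ y.1 ∧ 1 ≤ y.2 ∧ |((x.1 : ℝ) / x.2) ^ a * y.1 - y.2| ≤ η ∧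
        A x ≤ B * (((y.1 : ℝ) * y.2) ^ (-(3 / 8) : ℝ) + e) := by
    intro x
    by_cases hx : x ∈ P ×ˢ P ∧ x.2 < x.1
    · have hx1 := hPmem (mem_product.1 hx.1).1
      have hx2 := hPmem (mem_product.1 hx.1).2
      have e2 : (0 : ℝ) < x.2 := by exact_mod_cast hx2.2.2.pos
      have e2' : (1 : ℝ) ≤ x.2 := by exact_mod_cast hx2.2.2.pos
      have e1 : (0 : ℝ) < x.1 := by exact_mod_cast hx1.2.2.pos
      have hθ : 1 ≤ ((x.1 : ℝ) / x.2) ^ a := by
        apply Real.one_le_rpow _ ha.le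
        rw [le_div_iff₀ e2, one_mul]
        exact_mod_cast hx.2.le
      have hθ2 : ((x.1 : ℝ) / x.2) ^ a ≤ (W' : ℝ) ^ a := by
        apply Real.rpow_le_rpow (by positivity) _ ha.le
        rw [div_le_iff₀ e2]
        have h3 : (x.1 : ℝ) ≤ W' := by exact_mod_cast hx1.2.1
        nlinarith
      obtain ⟨q, r, h2, h3, h4, h5⟩ := hone _ hθ hθ2
      exact ⟨(q, r), fun _ _ => ⟨h2, h3, h4, h5⟩⟩
    · exact ⟨(1, 1), fun h2 h3 => absurd ⟨h2, h3⟩ hx⟩
  choose Q hQ using hch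
  set D2 := (P ×ˢ P).filter (fun x => x.2 < x.1) with hD2
  have hD2mem : ∀ {x}, x ∈ D2 → x ∈ P ×ˢ P ∧ x.2 < x.1 := fun {x} hx => by
    rw [hD2, mem_filter] at hx
    exact hx
  -- injectivity
  have hinj : Set.InjOn Q D2 := by
    intro x hx y hy hxy
    obtain ⟨x1, x2⟩ := hD2mem hx
    obtain ⟨y1, y2⟩ := hD2mem hy
    obtain ⟨x4, x5, x6, -⟩ := hQ x x1 x2
    obtain ⟨y4, y5, y6, -⟩ := hQ y y1 y2
    have x7 := hPmem (mem_product.1 x1).1
    have x8 := hPmem (mem_product.1 x1).2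
    have y7 := hPmem (mem_product.1 y1).1
    have y8 := hPmem (mem_product.1 y1).2
    by_contra hne
    have hsep := primeweight_sep ha (M := W') x7.2.2 x8.2.2 y8.2.2.one_lt.le x2 y2 y7.2.2 x7.2.1
      y7.2.1 (by simpa using hne)
    rw [← hxy] at y6
    have hq1 : (1 : ℝ) ≤ (Q x).1 := by exact_mod_cast x4
    have h9 : |((x.1 : ℝ) / x.2) ^ a - ((y.1 : ℝ) / y.2) ^ a| * (Q x).1 ≤ 2 * η := by
      rw [← abs_of_pos (by linarith : (0 : ℝ) < (Q x).1), ← abs_mul]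
      have e : (((x.1 : ℝ) / x.2) ^ a - ((y.1 : ℝ) / y.2) ^ a) * (Q x).1 =
          (((x.1 : ℝ) / x.2) ^ a * (Q x).1 - (Q x).2) -
            (((y.1 : ℝ) / y.2) ^ a * (Q x).1 - (Q x).2) := by ring
      rw [e]
      refine (abs_sub _ _).trans ?_
      linarith
    have h10 := abs_nonneg (((x.1 : ℝ) / x.2) ^ a - ((y.1 : ℝ) / y.2) ^ a)
    nlinarith
  have hpairs := hPrs W D2 Q hW
    (fun x hx => ⟨(hPmem (mem_product.1 (hD2mem hx).1).1).1, (hPmem (mem_product.1 (hD2mem hx).1).2).1⟩)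
    (fun x hx => by
      obtain ⟨x1, x2⟩ := hD2mem hx
      obtain ⟨x4, x5, -⟩ := hQ x x1 x2
      exact ⟨x4, x5⟩) hinj
  set g : ℕ × ℕ → ℝ := fun x => if x ∈ D2 then
    B * (1 / ((x.1 : ℝ) * x.2) * (((Q x).1 : ℝ) * (Q x).2) ^ (-(3 / 8) : ℝ)) else 0 with hg
  have hg0 : ∀ x, 0 ≤ g x := by
    intro x
    simp only [hg]
    split_ifs
    · positivity
    · exact le_rfl
  -- bound for ordered pairs
  have hord : ∀ x ∈ P ×ˢ P, x.2 < x.1 →
      1 / ((x.1 : ℝ) * x.2) * A x ≤ B * e * (1 / ((x.1 : ℝ) * x.2)) + g x := by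
    intro x hx hlt
    have hw : (0 : ℝ) ≤ 1 / ((x.1 : ℝ) * x.2) := by positivity
    have hxD : x ∈ D2 := by
      rw [hD2, mem_filter]
      exact ⟨hx, hlt⟩
    have h2 := (hQ x hx hlt).2.2.2
    have h3 := mul_le_mul_of_nonneg_left h2 hw
    have h4 : g x = B * (1 / ((x.1 : ℝ) * x.2) *
        (((Q x).1 : ℝ) * (Q x).2) ^ (-(3 / 8) : ℝ)) := by
      simp only [hg]
      rw [if_pos hxD]
    rw [h4]
    refine h3.trans (le_of_eq ?_)
    ring
  -- pointwise bound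
  have hpt : ∀ x ∈ P ×ˢ P,
      1 / ((x.1 : ℝ) * x.2) * ‖JJ T N (((x.2 : ℝ) / x.1) ^ a)‖ ≤
      (if x.1 = x.2 then B * (1 / ((x.1 : ℝ) * x.2)) else 0) +
        B * e * (1 / ((x.1 : ℝ) * x.2)) + g x + g x.swap := by
    intro x hx
    have hx1 := hPmem (mem_product.1 hx).1
    have hx2 := hPmem (mem_product.1 hx).2
    have e1 : (0 : ℝ) < x.1 := by exact_mod_cast hx1.2.2.pos
    have e2 : (0 : ℝ) < x.2 := by exact_mod_cast hx2.2.2.pos
    have hw : (0 : ℝ) ≤ 1 / ((x.1 : ℝ) * x.2) := by positivity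
    have g1 := hg0 x
    have g2 := hg0 x.swap
    have hBδ : 0 ≤ B * e * (1 / ((x.1 : ℝ) * x.2)) := by positivity
    rcases lt_trichotomy x.1 x.2 with h | h | h
    · rw [if_neg h.ne]
      have hs : x.swap ∈ P ×ˢ P := by
        rw [mem_product] at hx ⊢
        exact ⟨hx.2, hx.1⟩
      have := hord x.swap hs h
      simp only [hA, Prod.fst_swap, Prod.snd_swap] at this
      rw [mul_comm (x.2 : ℝ) x.1] at this
      linarith
    · rw [if_pos h]
      have e3 : (((x.2 : ℝ) / x.1) ^ a) = 1 := by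
        rw [h, div_self e2.ne', Real.one_rpow]
      rw [e3]
      have := mul_le_mul_of_nonneg_left h1 hw
      linarith
    · rw [if_neg h.ne']
      have e3 : (((x.2 : ℝ) / x.1) ^ a) = (((x.1 : ℝ) / x.2) ^ a)⁻¹ := by
        rw [← Real.inv_rpow (by positivity), inv_div]
      rw [e3, hinv T _ N hT (by positivity)]
      have := hord x hx h
      simp only [hA] at this
      linarith
  refine (Finset.sum_le_sum hpt).trans ?_
  rw [Finset.sum_add_distrib, Finset.sum_add_distrib, Finset.sum_add_distrib, ← Finset.mul_sum]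
  have hgsum : ∑ x ∈ P ×ˢ P, g x ≤ B * (C₀ / √(W : ℝ)) := by
    have : ∑ x ∈ P ×ˢ P, g x = B *
        ∑ x ∈ D2, 1 / ((x.1 : ℝ) * x.2) * (((Q x).1 : ℝ) * (Q x).2) ^ (-(3 / 8) : ℝ) := by
      simp only [hg]
      rw [Finset.sum_ite_mem, Finset.mul_sum]
      congr 1
      rw [Finset.inter_eq_right, hD2]
      exact Finset.filter_subset _ _
    rw [this]
    gcongr
  have hgswap : ∑ x ∈ P ×ˢ P, g x.swap = ∑ x ∈ P ×ˢ P, g x := by
    rw [Finset.sum_product, Finset.sum_product_right]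
    rfl
  have hdiag : ∑ x ∈ P ×ˢ P, (if x.1 = x.2 then B * (1 / ((x.1 : ℝ) * x.2)) else 0) ≤
      2 * B / √(W : ℝ) := by
    rw [Finset.sum_product]
    have h2 : ∀ p ∈ P, (∑ q ∈ P, if p = q then B * (1 / ((p : ℝ) * q)) else 0) ≤
        B * (1 / ((p : ℝ) * √(p : ℝ))) := by
      intro p hp
      rw [Finset.sum_ite_eq, if_pos hp]
      have hp1 := (hPmem hp).2.2.one_lt
      have hp2 : (1 : ℝ) ≤ p := by exact_mod_cast hp1.le
      have hp3 : √(p : ℝ) ≤ p := by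
        rw [Real.sqrt_le_left (by linarith)]
        nlinarith
      have hp4 : 0 < √(p : ℝ) := Real.sqrt_pos.2 (by linarith)
      apply mul_le_mul_of_nonneg_left _ hB
      apply one_div_le_one_div_of_le (by positivity)
      gcongr
    refine (Finset.sum_le_sum h2).trans ?_
    rw [← Finset.mul_sum]
    have h3 : ∑ p ∈ P, 1 / ((p : ℝ) * √(p : ℝ)) ≤ 2 / √(W : ℝ) := by
      refine le_trans ?_ (primeweight_three_halves W hW W')
      apply Finset.sum_le_sum_of_subset_of_nonneg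
      · rw [hP]
        exact Finset.filter_subset _ _
      · intros
        positivity
    calc B * ∑ p ∈ P, 1 / ((p : ℝ) * √(p : ℝ)) ≤ B * (2 / √(W : ℝ)) := by gcongr
      _ = _ := by ring
  have hsq : ∑ x ∈ P ×ˢ P, 1 / ((x.1 : ℝ) * x.2) ≤ S ^ 2 := by
    have h2 : ∑ x ∈ P ×ˢ P, 1 / ((x.1 : ℝ) * x.2) = (∑ p ∈ P, 1 / (p : ℝ)) ^ 2 := by
      rw [pow_two, Finset.sum_mul_sum, Finset.sum_product]
      refine Finset.sum_congr rfl fun p _ => Finset.sum_congr rfl fun q _ => ?_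
      simp only [one_div, mul_inv]
    rw [h2]
    exact pow_le_pow_left₀ (Finset.sum_nonneg fun p _ => by positivity) hS 2
  have hsq' : B * e * ∑ x ∈ P ×ˢ P, 1 / ((x.1 : ℝ) * x.2) ≤ B * e * S ^ 2 := by gcongr
  rw [hgswap]
  have hBe : 0 ≤ B * e * S ^ 2 := by positivity
  have hfin : B * ((2 * C₀ + 2) / √(W : ℝ) + 2 * e * S ^ 2) = 2 * B / √(W : ℝ) +
      2 * (B * e * S ^ 2) + B * (C₀ / √(W : ℝ)) + B * (C₀ / √(W : ℝ)) := by ring
  rw [hfin]
  linarith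

end Pool.Agent.Lib.MP_aa9ae4_nt.K2
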