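import Pool.Agent.Lib.MP_aa9ae4_nt.K2.SpecC
import Pool.Agent.Lib.MP_aa9ae4_nt.PrimeWeight

namespace Pool.Agent.Lib.MP_aa9ae4_nt.K2

open Finset MeasureTheory Filter Topology
open Complex (I)

private theorem pw_cont_PP (N : ℕ) : Continuous fun t : ℝ => PP N (1 / 2 + t * I) := by
  unfold PP
  refine continuous_finsetSum _ fun n hn => ?_
  have hn0 : (n : ℂ) ≠ 0 := by
    have := (mem_Icc.1 hn).1
    exact_mod_cast (by omega : n ≠ 0)
  exact continuous_const.mul (Continuous.const_cpow (by fun_prop) (Or.inl hn0))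

private theorem pw_conj_PP (N : ℕ) (t : ℝ) :
    PP N (1 - (1 / 2 + t * I)) = starRingEnd ℂ (PP N (1 / 2 + t * I)) := by
  unfold PP
  rw [map_sum]
  refine sum_congr rfl fun n hn => ?_
  have harg : (n : ℂ).arg ≠ Real.pi := by
    rw [Complex.natCast_arg]
    exact Real.pi_pos.ne
  have h1 : (n : ℂ) ^ (-(1 - (1 / 2 + (t : ℂ) * I))) =
      starRingEnd ℂ ((n : ℂ) ^ (-(1 / 2 + (t : ℂ) * I))) := by
    have h2 := Complex.cpow_conj (n : ℂ) (-(1 / 2 + (t : ℂ) * I)) harg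
    rw [Complex.conj_natCast] at h2
    rw [← h2]
    congr 1
    have h3 : (1 / 2 : ℂ) = ((1 / 2 : ℝ) : ℂ) := by push_cast; rfl
    rw [map_neg, map_add, map_mul, Complex.conj_ofReal, Complex.conj_I, h3, Complex.conj_ofReal]
    push_cast
    ring
  rw [map_mul, Complex.conj_ofReal, h1]

private theorem pw_cont_XX : Continuous fun t : ℝ => XX (1 - (1 / 2 + t * I)) := by
  rw [continuous_iff_continuousAt]
  intro t
  have h : ∀ m : ℕ, (1 - (1 / 2 + (t : ℂ) * I)) ≠ -m := by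
    intro m hm
    have h1 := congrArg Complex.re hm
    have hm0 : (0 : ℝ) ≤ m := Nat.cast_nonneg m
    have h2 : (1 - (1 / 2 + (t : ℂ) * I)).re = 1 / 2 := by
      simp
      norm_num
    rw [h2] at h1
    simp only [Complex.neg_re, Complex.natCast_re] at h1
    linarith
  have hG := (Complex.differentiableAt_Gamma _ h).continuousAt
  have h2 : ContinuousAt (fun t : ℝ => Complex.Gamma (1 - (1 / 2 + (t : ℂ) * I))) t :=
    ContinuousAt.comp (f := fun t : ℝ => (1 - (1 / 2 + (t : ℂ) * I))) hG (by fun_prop)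
  have hpi : (2 * Real.pi : ℂ) ≠ 0 := by
    exact_mod_cast (by positivity : (2 * Real.pi : ℝ) ≠ 0)
  have h3 : Continuous fun t : ℝ => (2 * Real.pi : ℂ) ^ (-(1 - (1 / 2 + (t : ℂ) * I))) :=
    Continuous.const_cpow (by fun_prop) (Or.inl hpi)
  unfold XX
  exact ((continuousAt_const.mul h3.continuousAt).mul h2).mul (by fun_prop)

private theorem pw_lim1 (c b : ℝ) (hb : 0 < b) :
    Tendsto (fun L : ℝ => L ^ c * Real.exp (-b * √L)) atTop (𝓝 0) := by
  have h1 := (tendsto_rpow_mul_exp_neg_mul_atTop_nhds_zero (2 * c) b hb).comp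
    Real.tendsto_sqrt_atTop
  refine h1.congr' ?_
  filter_upwards [eventually_gt_atTop (0 : ℝ)] with L hL
  simp only [Function.comp_apply]
  congr 1
  rw [Real.sqrt_eq_rpow, ← Real.rpow_mul hL.le]
  congr 1
  ring

private theorem pw_lim (a : ℝ) (m : ℕ) :
    Tendsto (fun L : ℝ => (Real.log L) ^ m * (Real.exp (-(1 / 4) * √L) * L ^ 5 +
      (L ^ 150) ^ a * Real.exp (-(1 / 2) * √L) + L ^ (-(1 / 4) : ℝ))) atTop (𝓝 0) := by
  have hlog : ∀ᶠ L : ℝ in atTop, (Real.log L) ^ m ≤ L := by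
    have h := (Real.isLittleO_pow_log_id_atTop (n := m)).bound (c := 1) one_pos
    filter_upwards [h, eventually_ge_atTop 1] with L hL1 hL2
    rw [one_mul, Real.norm_eq_abs, id, Real.norm_eq_abs,
      abs_of_nonneg (by linarith : (0:ℝ) ≤ L)] at hL1
    exact (le_abs_self _).trans hL1
  have h3 : Tendsto (fun L : ℝ => (Real.log L) ^ m * L ^ (-(1 / 4) : ℝ)) atTop (𝓝 0) := by
    have h := (isLittleO_log_rpow_rpow_atTop (s := 1 / 4) (m : ℝ) (by norm_num)).tendsto_div_nhds_zero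
    refine h.congr' ?_
    filter_upwards [eventually_gt_atTop (1 : ℝ)] with L hL
    rw [Real.rpow_natCast, Real.rpow_neg (by linarith), div_eq_mul_inv]
  have h1 := pw_lim1 6 (1 / 4) (by norm_num)
  have h2 := pw_lim1 (150 * a + 1) (1 / 2) (by norm_num)
  have hsum := (h1.add h2).add h3
  simp only [add_zero] at hsum
  refine squeeze_zero' ?_ ?_ hsum
  · filter_upwards [eventually_ge_atTop (1 : ℝ)] with L hL
    have := Real.log_nonneg hL
    have hL0 : 0 < L := by linarith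
    positivity
  · filter_upwards [hlog, eventually_ge_atTop (1 : ℝ)] with L hL hL1
    have hL0 : 0 < L := by linarith
    have e1 : L ^ (6 : ℝ) = L * L ^ 5 := by
      rw [show (6 : ℝ) = ((6 : ℕ) : ℝ) by norm_num, Real.rpow_natCast]
      ring
    have e2 : L ^ (150 * a + 1) = L * (L ^ 150) ^ a := by
      rw [Real.rpow_add hL0, Real.rpow_one, ← Real.rpow_natCast L 150, ← Real.rpow_mul hL0.le]
      push_cast
      ring
    rw [e1, e2]
    have p1 : 0 ≤ Real.exp (-(1 / 4) * √L) * L ^ 5 := by positivity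
    have p2 : 0 ≤ (L ^ 150) ^ a * Real.exp (-(1 / 2) * √L) := by positivity
    have q1 := mul_le_mul_of_nonneg_right hL p1
    have q2 := mul_le_mul_of_nonneg_right hL p2
    nlinarith

private theorem pw_ev (a : ℝ) (ha : 0 < a) (K : ℕ) (R : ℝ) (_hR : 0 ≤ R) : ∀ᶠ T : ℝ in atTop,
    3 ≤ T ∧ 1 ≤ Real.log T ∧ 1 ≤ Real.log (Real.log T) ∧
    Real.exp (-(1 / 2) * √(Real.log T)) ≤ 1 / 8 ∧
    4 * Real.exp (-(1 / 2) * √(Real.log T)) * (Real.log T) ^ 450 < a ∧
    R * (Real.log (Real.log T)) ^ 2 * (Real.exp (-(1 / 4) * √(Real.log T)) * (Real.log T) ^ 5 +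
      ((Real.log T) ^ 150) ^ a * Real.exp (-(1 / 2) * √(Real.log T)) +
      (Real.log T) ^ (-(1 / 4) : ℝ)) ≤ 1 / (Real.log (Real.log T)) ^ K := by
  have hL : Tendsto (fun T : ℝ => Real.log T) atTop atTop := Real.tendsto_log_atTop
  have hl2 : Tendsto (fun T : ℝ => Real.log (Real.log T)) atTop atTop :=
    Real.tendsto_log_atTop.comp hL
  have h4 : ∀ᶠ L : ℝ in atTop, Real.exp (-(1 / 2) * √L) ≤ 1 / 8 := by
    have h := pw_lim1 0 (1 / 2) (by norm_num)
    filter_upwards [h.eventually_lt_const (show (0 : ℝ) < 1 / 8 by norm_num)] with L hL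
    rw [Real.rpow_zero, one_mul] at hL
    exact hL.le
  have h5 : ∀ᶠ L : ℝ in atTop, 4 * Real.exp (-(1 / 2) * √L) * L ^ 450 < a := by
    have h := pw_lim1 450 (1 / 2) (by norm_num)
    filter_upwards [h.eventually_lt_const (show (0 : ℝ) < a / 4 by positivity)] with L hL
    have e : L ^ (450 : ℝ) = L ^ 450 := by
      rw [show (450 : ℝ) = ((450 : ℕ) : ℝ) by norm_num, Real.rpow_natCast]
    rw [e] at hL
    linarith
  have h6 : ∀ᶠ L : ℝ in atTop, R * ((Real.log L) ^ (K + 2) * (Real.exp (-(1 / 4) * √L) * L ^ 5 +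
      (L ^ 150) ^ a * Real.exp (-(1 / 2) * √L) + L ^ (-(1 / 4) : ℝ))) < 1 := by
    have h := (pw_lim a (K + 2)).const_mul R
    rw [mul_zero] at h
    exact h.eventually_lt_const one_pos
  filter_upwards [eventually_ge_atTop 3, hL.eventually_ge_atTop 1, hl2.eventually_ge_atTop 1,
    hL.eventually h4, hL.eventually h5, hL.eventually h6] with T h1 h2 h3 h4 h5 h6
  refine ⟨h1, h2, h3, h4, h5, ?_⟩
  have hl0 : 0 < Real.log (Real.log T) := by linarith
  rw [le_div_iff₀ (by positivity)]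
  refine le_trans (le_of_eq ?_) h6.le
  rw [pow_add]
  ring

theorem pPW (_h1 : S_Fun) (h2 : S_Nrm) (h3 : S_MV) (h4 : S_CMP) (h5 : S_One) (h6 : S_Pint)
    (h7 : S_PS) : S_PW := by
  intro a K ha
  obtain ⟨CM, hCM, -, -, hMV⟩ := h3
  obtain ⟨Cc, hCc, hCMP⟩ := h4
  obtain ⟨Co, hCo, hOne⟩ := h5
  obtain ⟨Cp, hCp, hPS⟩ := h7
  obtain ⟨hPint, -⟩ := h6
  set CB := CM + Co with hCB
  have hCB0 : 0 < CB := by positivity
  refine ⟨4 * CB * Cp, by positivity, ?_⟩
  filter_upwards [pw_ev a ha K (8 * CB * 22801 + 24 * Cc * 22801) (by positivity)] with T hT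
  obtain ⟨hT3, hL1, hl1, hδ8, hδa, hsmall⟩ := hT
  intro W W' hW2 hWW' _ hW'
  set L := Real.log T with hLdef
  set l := Real.log L with hldef
  set s := √L with hsdef
  have hL0 : 0 < L := by linarith
  have hT0 : 0 < T := by linarith
  have hs1 : 1 ≤ s := by
    rw [hsdef, ← Real.sqrt_one]
    exact Real.sqrt_le_sqrt hL1
  have hss : s * s = L := Real.mul_self_sqrt hL0.le
  set E := Real.exp (-s) with hEdef
  have hE0 : 0 < E := Real.exp_pos _
  set δ := Real.exp (-(1 / 2) * s) with hδdef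
  have hδ0 : 0 < δ := Real.exp_pos _
  have hEδ : E = δ * δ := by
    rw [hEdef, hδdef, ← Real.exp_add]
    congr 1
    ring
  have hsqδ : √δ = Real.exp (-(1 / 4) * s) := by
    rw [Real.sqrt_eq_iff_mul_self_eq hδ0.le (Real.exp_pos _).le, ← Real.exp_add, hδdef]
    congr 1
    ring
  have hE1' : E ≤ 1 := by
    rw [hEdef, Real.exp_le_one_iff]
    linarith
  -- the length of the polynomial
  have hTE : 1 ≤ T * E := by
    have h1 : T * E = Real.exp (L - s) := by
      rw [sub_eq_add_neg, Real.exp_add, ← hEdef, hLdef, Real.exp_log hT0]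
    rw [h1]
    apply Real.one_le_exp
    nlinarith
  set N := ⌊T * E⌋₊ with hNdef
  have hN1 : 1 ≤ N := Nat.one_le_floor_iff _ |>.2 hTE
  have hNle : (N : ℝ) ≤ T * E := Nat.floor_le (by positivity)
  have hNlt : T * E < N + 1 := Nat.lt_floor_add_one _
  have hN1' : (1 : ℝ) ≤ N := by exact_mod_cast hN1
  have hNT : (N : ℝ) ≤ T := by nlinarith
  have hlogN0 : 0 ≤ Real.log N := Real.log_natCast_nonneg N
  have hlogN : 1 + Real.log N ≤ L := by
    have h1 : Real.log N ≤ Real.log (T * E) := Real.log_le_log (by linarith) hNle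
    rw [Real.log_mul hT0.ne' hE0.ne', hEdef, Real.log_exp] at h1
    linarith
  -- the bound for the prime sum
  have hW'0 : (0 : ℝ) < W' := by exact_mod_cast (by omega : 0 < W')
  have hlogW' : 1 + Real.log W' ≤ 151 * l := by
    have h1 : Real.log W' ≤ 150 * l := by
      calc Real.log W' ≤ Real.log (L ^ 150) := Real.log_le_log hW'0 hW'
        _ = 150 * l := by rw [Real.log_pow]; norm_num [hldef]
    linarith
  have hS := (primeweight_sum_inv W W').trans hlogW'
  have hS0 : 0 ≤ 151 * l := by linarith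
  -- the twisted mean squares
  have hB0 : 0 ≤ CB * T * L ^ 4 := by positivity
  have hint1 : ∫ t in T..(2 * T), ‖PP N (1 / 2 + t * I)‖ ^ 2 ≤ CB * T * L ^ 4 := by
    have h1 := hMV T T N (by linarith) hN1 hNT
    rw [← two_mul] at h1
    refine h1.trans ?_
    calc CM * (T * (1 + Real.log N) ^ 4) ≤ CB * (T * L ^ 4) := by
          gcongr
          rw [hCB]
          linarith
      _ = _ := by ring
  have hdiag : ‖JJ T N 1‖ ≤ CB * T * L ^ 4 := by
    refine le_trans ?_ hint1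
    unfold JJ
    refine (intervalIntegral.norm_integral_le_integral_norm (by linarith)).trans (le_of_eq ?_)
    refine intervalIntegral.integral_congr fun t _ => ?_
    simp only [Complex.ofReal_one, Complex.one_cpow, mul_one]
    rw [Complex.norm_real, Real.norm_of_nonneg (by positivity)]
  set e := √δ * L ^ 5 + (L ^ 150) ^ a * δ with hedef
  have he0 : 0 ≤ e := by positivity
  have hone : ∀ θ : ℝ, 1 ≤ θ → θ ≤ (W' : ℝ) ^ a → ∃ q r : ℕ, 1 ≤ q ∧ 1 ≤ r ∧
      |θ * q - r| ≤ 2 * δ ∧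
      ‖JJ T N θ‖ ≤ CB * T * L ^ 4 * (((q : ℝ) * r) ^ (-(3 / 8) : ℝ) + e) := by
    intro θ hθ hθ2
    obtain ⟨q, r, hq, hr, hqr, hJ⟩ := hOne T θ δ N (by linarith) hθ hδ0 hδ8 hN1
    refine ⟨q, r, hq, hr, hqr, hJ.trans ?_⟩
    have hθ3 : θ ≤ (L ^ 150) ^ a := hθ2.trans (Real.rpow_le_rpow hW'0.le hW' ha.le)
    have hθ0 : 0 ≤ θ := by linarith
    have hq0 : (0 : ℝ) < (q : ℝ) * r := by
      have h1 : (0 : ℝ) < q := by exact_mod_cast hq
      have h2 : (0 : ℝ) < r := by exact_mod_cast hr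
      positivity
    have h1 : T * ((1 + Real.log N) ^ 4 * ((q : ℝ) * r) ^ (-(3 / 8) : ℝ) +
        √δ * (1 + Real.log N) ^ 9) ≤
        T * (L ^ 4 * ((q : ℝ) * r) ^ (-(3 / 8) : ℝ) + √δ * L ^ 9) := by
      gcongr
    have h2 : θ * (N * (1 + Real.log N) ^ 4) / δ ≤ T * L ^ 4 * ((L ^ 150) ^ a * δ) := by
      rw [div_le_iff₀ hδ0]
      calc θ * (N * (1 + Real.log N) ^ 4) ≤ (L ^ 150) ^ a * ((T * E) * L ^ 4) := by
            gcongr
        _ = T * L ^ 4 * ((L ^ 150) ^ a * δ) * δ := by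
            rw [hEδ]
            ring
    have h3 : T * (L ^ 4 * ((q : ℝ) * r) ^ (-(3 / 8) : ℝ) + √δ * L ^ 9) +
        T * L ^ 4 * ((L ^ 150) ^ a * δ) =
        T * L ^ 4 * (((q : ℝ) * r) ^ (-(3 / 8) : ℝ) + e) := by
      rw [hedef]
      ring
    calc Co * (T * ((1 + Real.log N) ^ 4 * ((q : ℝ) * r) ^ (-(3 / 8) : ℝ) +
        √δ * (1 + Real.log N) ^ 9) + θ * (N * (1 + Real.log N) ^ 4) / δ)
        ≤ CB * (T * L ^ 4 * (((q : ℝ) * r) ^ (-(3 / 8) : ℝ) + e)) := by
          apply mul_le_mul _ _ _ hCB0.le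
          · rw [hCB]
            linarith
          · linarith
          · positivity
      _ = _ := by ring
  have hηsep : 2 * (2 * δ) < a / (W' : ℝ) ^ 3 := by
    rw [lt_div_iff₀ (by positivity)]
    have h1 : (W' : ℝ) ^ 3 ≤ L ^ 450 := by
      calc (W' : ℝ) ^ 3 ≤ (L ^ 150) ^ 3 := by gcongr
        _ = L ^ 450 := by ring
    calc 2 * (2 * δ) * (W' : ℝ) ^ 3 ≤ 2 * (2 * δ) * L ^ 450 := by gcongr
      _ = 4 * δ * L ^ 450 := by ring
      _ < a := hδa
  have hmain := hPS T a (CB * T * L ^ 4) (2 * δ) e (151 * l) N W W' ha hT0.le hB0 he0 (by omega)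
    hS hdiag hηsep hone
  have hint := (hPint T N W W' a hT0.le).trans hmain
  -- comparison of the weights
  have hTN0 : 0 ≤ Real.log (T / N) :=
    Real.log_nonneg (by rw [le_div_iff₀ (by linarith)]; linarith)
  have hTN : 1 + Real.log (T / N) ≤ 3 * s := by
    have h1 : T / N ≤ 2 / E := by
      rw [div_le_div_iff₀ (by linarith) hE0]
      linarith
    have h2 : Real.log (T / N) ≤ Real.log (2 / E) := Real.log_le_log (by positivity) h1
    have h3 : Real.log (2 / E) = Real.log 2 + s := by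
      rw [Real.log_div (by norm_num) hE0.ne', hEdef, Real.log_exp]
      ring
    have h4 := Real.log_two_lt_d9
    linarith
  set r4 := L ^ (-(1 / 4) : ℝ) with hr4
  have hr40 : 0 < r4 := by positivity
  have hr4s : s = L * r4 ^ 2 := by
    rw [hr4, ← Real.rpow_natCast, ← Real.rpow_mul hL0.le, hsdef, Real.sqrt_eq_rpow]
    nth_rewrite 2 [← Real.rpow_one L]
    rw [← Real.rpow_add hL0]
    congr 1
    norm_num
  have hroot : √((1 + L) * (1 + Real.log (T / N))) ≤ 3 * L * r4 := by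
    apply Real.sqrt_le_iff.2
    refine ⟨by positivity, ?_⟩
    calc (1 + L) * (1 + Real.log (T / N)) ≤ (2 * L) * (3 * s) := by
          gcongr
          linarith
      _ = 6 * L * (L * r4 ^ 2) := by rw [← hr4s]; ring
      _ ≤ (3 * L * r4) ^ 2 := by
          have : 0 ≤ L ^ 2 * r4 ^ 2 := by positivity
          nlinarith
  have hdiff : ∫ t in T..(2 * T),
      |‖riemannZeta (1 / 2 + t * I)‖ ^ 4 - ‖RR N (1 / 2 + t * I)‖ ^ 2| ≤
      24 * Cc * T * L ^ 4 * r4 := by
    refine (hCMP T N (by linarith) hN1 hNT).trans ?_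
    calc Cc * (T * (1 + L) ^ 3 * √((1 + L) * (1 + Real.log (T / N)))) ≤
        Cc * (T * (2 * L) ^ 3 * (3 * L * r4)) := by
          gcongr
          linarith
      _ = _ := by ring
  -- the weighted integral
  have c1 := primeweight_cont_zeta
  have c2 := pw_cont_PP N
  have c3 := primeweight_cont_psum W W' a
  have c4 : Continuous fun t : ℝ => RR N (1 / 2 + t * I) := by
    have c5 : Continuous fun t : ℝ => PP N (1 - (1 / 2 + t * I)) := by
      simp_rw [pw_conj_PP]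
      exact Complex.continuous_conj.comp c2
    unfold RR
    exact c2.add ((pw_cont_XX.pow 2).mul c5)
  have hRR : ∀ t : ℝ, ‖RR N (1 / 2 + t * I)‖ ^ 2 ≤ 4 * ‖PP N (1 / 2 + t * I)‖ ^ 2 := by
    intro t
    have h1 : ‖XX (1 - (1 / 2 + t * I))‖ = 1 := by
      have h2 := h2.1 (-t)
      have e : (1 - (1 / 2 + (t : ℂ) * I)) = 1 / 2 + ((-t : ℝ) : ℂ) * I := by
        push_cast
        ring
      rw [e]
      exact h2
    have h3 : ‖RR N (1 / 2 + t * I)‖ ≤ 2 * ‖PP N (1 / 2 + t * I)‖ := by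
      unfold RR
      refine (norm_add_le _ _).trans ?_
      rw [norm_mul, norm_pow, h1, pw_conj_PP, Complex.norm_conj]
      linarith
    calc ‖RR N (1 / 2 + t * I)‖ ^ 2 ≤ (2 * ‖PP N (1 / 2 + t * I)‖) ^ 2 := by gcongr
      _ = _ := by ring
  have hpt : ∀ t : ℝ, ‖riemannZeta (1 / 2 + t * I)‖ ^ 4 * ‖psum W W' (a * t)‖ ^ 2 ≤
      4 * (‖PP N (1 / 2 + t * I)‖ ^ 2 * ‖psum W W' (a * t)‖ ^ 2) +
        (151 * l) ^ 2 * |‖riemannZeta (1 / 2 + t * I)‖ ^ 4 - ‖RR N (1 / 2 + t * I)‖ ^ 2| := by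
    intro t
    have h1 : ‖psum W W' (a * t)‖ ^ 2 ≤ (151 * l) ^ 2 :=
      pow_le_pow_left₀ (norm_nonneg _) ((primeweight_norm_psum W W' _).trans hlogW') 2
    have h2 := le_abs_self (‖riemannZeta (1 / 2 + t * I)‖ ^ 4 - ‖RR N (1 / 2 + t * I)‖ ^ 2)
    have h3 := abs_nonneg (‖riemannZeta (1 / 2 + t * I)‖ ^ 4 - ‖RR N (1 / 2 + t * I)‖ ^ 2)
    have h4 := mul_le_mul h2 h1 (by positivity) h3
    have h5 := mul_le_mul_of_nonneg_right (hRR t)
      (by positivity : (0 : ℝ) ≤ ‖psum W W' (a * t)‖ ^ 2)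
    linarith
  have hint2 : ∫ t in T..(2 * T), ‖riemannZeta (1 / 2 + t * I)‖ ^ 4 * ‖psum W W' (a * t)‖ ^ 2 ≤
      4 * (CB * T * L ^ 4 * (Cp / √(W : ℝ) + 2 * e * (151 * l) ^ 2)) +
        (151 * l) ^ 2 * (24 * Cc * T * L ^ 4 * r4) := by
    have i1 : IntervalIntegrable (fun t : ℝ => ‖riemannZeta (1 / 2 + t * I)‖ ^ 4 *
        ‖psum W W' (a * t)‖ ^ 2) volume T (2 * T) := Continuous.intervalIntegrable (by fun_prop) _ _
    have i2 : IntervalIntegrable (fun t : ℝ => 4 * (‖PP N (1 / 2 + t * I)‖ ^ 2 *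
        ‖psum W W' (a * t)‖ ^ 2)) volume T (2 * T) :=
      Continuous.intervalIntegrable (by fun_prop) _ _
    have i3 : IntervalIntegrable (fun t : ℝ => (151 * l) ^ 2 *
        |‖riemannZeta (1 / 2 + t * I)‖ ^ 4 - ‖RR N (1 / 2 + t * I)‖ ^ 2|) volume T (2 * T) :=
      Continuous.intervalIntegrable (by fun_prop) _ _
    refine (intervalIntegral.integral_mono_on (by linarith) i1 (i2.add i3)
      (fun t _ => hpt t)).trans ?_
    rw [intervalIntegral.integral_add i2 i3, intervalIntegral.integral_const_mul,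
      intervalIntegral.integral_const_mul]
    exact add_le_add (mul_le_mul_of_nonneg_left hint (by norm_num))
      (mul_le_mul_of_nonneg_left hdiff (by positivity))
  rw [div_le_iff₀ (by positivity)]
  refine hint2.trans ?_
  have hrpow : l ^ (-(K : ℝ)) = 1 / l ^ K := by
    rw [Real.rpow_neg (by linarith), Real.rpow_natCast, one_div]
  rw [hrpow]
  have hfin : 8 * CB * e * (151 * l) ^ 2 + (151 * l) ^ 2 * (24 * Cc * r4) ≤ 1 / l ^ K := by
    refine le_trans ?_ hsmall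
    rw [hedef, hsqδ]
    set x1 := Real.exp (-(1 / 4) * s) * L ^ 5
    set x2 := (L ^ 150) ^ a * δ
    have p1 : 0 ≤ x1 := by positivity
    have p2 : 0 ≤ x2 := by positivity
    have p3 : 0 ≤ Cc * l ^ 2 * (x1 + x2) := by positivity
    have p4 : 0 ≤ CB * l ^ 2 * r4 := by positivity
    nlinarith
  calc 4 * (CB * T * L ^ 4 * (Cp / √(W : ℝ) + 2 * e * (151 * l) ^ 2)) +
        (151 * l) ^ 2 * (24 * Cc * T * L ^ 4 * r4)
      = (4 * CB * Cp / √(W : ℝ) + (8 * CB * e * (151 * l) ^ 2 +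
          (151 * l) ^ 2 * (24 * Cc * r4))) * (T * L ^ 4) := by ring
    _ ≤ (4 * CB * Cp / √(W : ℝ) + 1 / l ^ K) * (T * L ^ 4) := by gcongr

end Pool.Agent.Lib.MP_aa9ae4_nt.K2
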