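import Pool.Agent.Lib.MP_aa9ae4_nt.K2.SpecC
import Pool.Agent.Lib.MP_aa9ae4_nt.PrimeWeight

namespace Pool.Agent.Lib.MP_aa9ae4_nt.K2

open Finset MeasureTheory Filter Topology
open Complex (I)

private theorem pint_cont_PP (N : ℕ) : Continuous fun t : ℝ => PP N (1 / 2 + t * I) := by
  unfold PP
  refine continuous_finsetSum _ fun n hn => ?_
  have hn0 : (n : ℂ) ≠ 0 := by
    have := (mem_Icc.1 hn).1
    exact_mod_cast (by omega : n ≠ 0)
  exact continuous_const.mul (Continuous.const_cpow (by fun_prop) (Or.inl hn0))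

private theorem pint_inv (T : ℝ) (hT : 0 ≤ T) (N : ℕ) {θ : ℝ} (hθ : 0 < θ) :
    ‖JJ T N θ⁻¹‖ = ‖JJ T N θ‖ := by
  have h1 : JJ T N θ⁻¹ = (starRingEnd ℂ) (JJ T N θ) := by
    unfold JJ
    rw [intervalIntegral.integral_of_le (by linarith), intervalIntegral.integral_of_le (by linarith),
      ← integral_conj]
    congr 1
    ext t
    rw [primeweight_theta hθ, primeweight_theta (inv_pos.2 hθ), map_mul, Complex.conj_ofReal,
      ← Complex.exp_conj, map_mul, Complex.conj_ofReal, Complex.conj_I, Real.log_inv]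
    congr 2
    push_cast
    ring
  rw [h1, Complex.norm_conj]

theorem pPint : S_Pint := by
  refine ⟨?_, fun T θ N hT hθ => pint_inv T hT N hθ⟩
  intro T N W W' a hT
  set P := ((Ioc W W').filter Nat.Prime) ×ˢ ((Ioc W W').filter Nat.Prime) with hP
  have h1 : (((∫ t in T..(2 * T), ‖PP N (1 / 2 + t * I)‖ ^ 2 * ‖psum W W' (a * t)‖ ^ 2) : ℝ) : ℂ)
      = ∑ x ∈ P, ((1 / ((x.1 : ℝ) * x.2) : ℝ) : ℂ) *
        JJ T N (((x.2 : ℝ) / x.1) ^ a) := by
    rw [← intervalIntegral.integral_ofReal]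
    have h2 : ∀ t : ℝ, ((‖PP N (1 / 2 + t * I)‖ ^ 2 * ‖psum W W' (a * t)‖ ^ 2 : ℝ) : ℂ) =
        ∑ x ∈ P, ((1 / ((x.1 : ℝ) * x.2) : ℝ) : ℂ) * (((‖PP N (1 / 2 + t * I)‖ ^ 2 : ℝ) : ℂ) *
          ((((x.2 : ℝ) / x.1) ^ a : ℝ) : ℂ) ^ ((t : ℂ) * I)) := by
      intro t
      rw [Complex.ofReal_mul, primeweight_expand, Finset.mul_sum]
      refine Finset.sum_congr rfl fun x _ => ?_
      ring
    simp_rw [h2]
    rw [intervalIntegral.integral_finsetSum]
    · refine Finset.sum_congr rfl fun x _ => ?_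
      rw [intervalIntegral.integral_const_mul]
      rfl
    · intro x hx
      apply Continuous.intervalIntegrable
      have hx1 : 0 < x.1 := (mem_filter.1 (mem_product.1 hx).1).2.pos
      have hx2 : 0 < x.2 := (mem_filter.1 (mem_product.1 hx).2).2.pos
      have e1 : (0 : ℝ) < x.1 := by exact_mod_cast hx1
      have e2 : (0 : ℝ) < x.2 := by exact_mod_cast hx2
      have hθ : (0 : ℝ) < ((x.2 : ℝ) / x.1) ^ a := by positivity
      have c1 := primeweight_cont_theta hθ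
      have c2 := pint_cont_PP N
      fun_prop
  have h3 : 0 ≤ ∫ t in T..(2 * T), ‖PP N (1 / 2 + t * I)‖ ^ 2 * ‖psum W W' (a * t)‖ ^ 2 := by
    apply intervalIntegral.integral_nonneg (by linarith)
    intro t _
    positivity
  have h4 : ∫ t in T..(2 * T), ‖PP N (1 / 2 + t * I)‖ ^ 2 * ‖psum W W' (a * t)‖ ^ 2 =
      ‖(((∫ t in T..(2 * T), ‖PP N (1 / 2 + t * I)‖ ^ 2 * ‖psum W W' (a * t)‖ ^ 2) : ℝ) : ℂ)‖ := by
    rw [Complex.norm_real, Real.norm_of_nonneg h3]
  rw [h4, h1]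
  refine (norm_sum_le _ _).trans (Finset.sum_le_sum fun x _ => ?_)
  rw [norm_mul, Complex.norm_real, Real.norm_of_nonneg (by positivity)]

end Pool.Agent.Lib.MP_aa9ae4_nt.K2
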