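import Pool.Agent.Lib.MP_aa9ae4_nt.K2.SpecC
import Pool.Agent.Lib.MP_aa9ae4_nt.PrimeWeight

namespace Pool.Agent.Lib.MP_aa9ae4_nt.K2

open Finset MeasureTheory Filter Topology
open Complex (I)

theorem pPrs : S_Prs := by
  have hsum : Summable fun n : ℕ => (n : ℝ) ^ (-(9 / 8) : ℝ) :=
    Real.summable_nat_rpow.2 (by norm_num)
  set Z := ∑' n : ℕ, (n : ℝ) ^ (-(9 / 8) : ℝ) with hZ
  have hZ0 : 0 ≤ Z := tsum_nonneg fun n => by positivity
  refine ⟨4 + Z ^ 2, by positivity, ?_⟩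
  intro W D Q hW hD hQ hinj
  have hW1 : (1 : ℝ) ≤ W := by exact_mod_cast hW
  have hs : 0 < √(W : ℝ) := Real.sqrt_pos.2 (by linarith)
  have hs1 : 1 ≤ √(W : ℝ) := by
    rw [← Real.sqrt_one]
    exact Real.sqrt_le_sqrt hW1
  have hs2 : √(W : ℝ) ^ 2 = W := Real.sq_sqrt (by linarith)
  set g : ℕ → ℝ := fun n => 1 / ((n : ℝ) * √(n : ℝ)) with hg
  have hg0 : ∀ n, 0 ≤ g n := fun n => by simp only [hg]; positivity
  set k : ℕ → ℝ := fun n => (n : ℝ) ^ (-(9 / 8) : ℝ) with hk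
  have hk0 : ∀ n, 0 ≤ k n := fun n => by simp only [hk]; positivity
  -- pointwise
  have h1 : ∀ x ∈ D, 1 / ((x.1 : ℝ) * x.2) * (((Q x).1 : ℝ) * (Q x).2) ^ (-(3 / 8) : ℝ) ≤
      √(W : ℝ) * (g x.1 * g x.2) + (k (Q x).1 * k (Q x).2) / √(W : ℝ) ^ 2 := by
    intro x hx
    obtain ⟨h1, h2⟩ := hD x hx
    obtain ⟨h3, h4⟩ := hQ x hx
    have e1 : (0 : ℝ) < x.1 := by exact_mod_cast (by omega : 0 < x.1)
    have e2 : (0 : ℝ) < x.2 := by exact_mod_cast (by omega : 0 < x.2)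
    have e3 : (0 : ℝ) < (Q x).1 := by exact_mod_cast (by omega : 0 < (Q x).1)
    have e4 : (0 : ℝ) < (Q x).2 := by exact_mod_cast (by omega : 0 < (Q x).2)
    have hy := primeweight_young (u := 1 / (√(x.1 : ℝ) * √(x.2 : ℝ)))
      (b := (((Q x).1 : ℝ) * (Q x).2) ^ (-(3 / 8) : ℝ)) (s := √(W : ℝ)) (by positivity)
      (by positivity) hs
    have r1 : √(x.1 : ℝ) ^ 2 = x.1 := Real.sq_sqrt e1.le
    have r2 : √(x.2 : ℝ) ^ 2 = x.2 := Real.sq_sqrt e2.le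
    have t1 : (1 / (√(x.1 : ℝ) * √(x.2 : ℝ))) ^ 2 = 1 / ((x.1 : ℝ) * x.2) := by
      rw [div_pow, mul_pow, r1, r2, one_pow]
    have t2 : (1 / (√(x.1 : ℝ) * √(x.2 : ℝ))) ^ 3 = g x.1 * g x.2 := by
      simp only [hg]
      rw [pow_succ, t1]
      field_simp
    have t3 : ((((Q x).1 : ℝ) * (Q x).2) ^ (-(3 / 8) : ℝ)) ^ 3 = k (Q x).1 * k (Q x).2 := by
      simp only [hk]
      rw [← Real.rpow_natCast, ← Real.rpow_mul (by positivity), ← Real.mul_rpow e3.le e4.le]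
      congr 1
      norm_num
    rw [t1, t2, t3] at hy
    exact hy
  -- the first sum
  have h2 : ∑ x ∈ D, g x.1 * g x.2 ≤ (2 / √(W : ℝ)) ^ 2 := by
    obtain ⟨M, hM⟩ : ∃ M : ℕ, ∀ x ∈ D, x.1 ≤ M ∧ x.2 ≤ M := by
      refine ⟨D.sup fun x => x.1 + x.2, fun x hx => ?_⟩
      have := Finset.le_sup (f := fun x : ℕ × ℕ => x.1 + x.2) hx
      omega
    calc ∑ x ∈ D, g x.1 * g x.2 ≤ ∑ x ∈ Ioc W M ×ˢ Ioc W M, g x.1 * g x.2 := by
          apply Finset.sum_le_sum_of_subset_of_nonneg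
          · intro x hx
            have := hD x hx
            have := hM x hx
            simp only [mem_product, mem_Ioc]
            omega
          · intro x _ _
            exact mul_nonneg (hg0 _) (hg0 _)
      _ = (∑ n ∈ Ioc W M, g n) ^ 2 := by
          rw [Finset.sum_product, pow_two, Finset.sum_mul_sum]
      _ ≤ (2 / √(W : ℝ)) ^ 2 :=
          pow_le_pow_left₀ (Finset.sum_nonneg fun n _ => hg0 n) (primeweight_three_halves W hW M) 2
  -- the second sum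
  have h3 : ∑ x ∈ D, k (Q x).1 * k (Q x).2 ≤ Z ^ 2 := by
    classical
    have : ∑ x ∈ D, k (Q x).1 * k (Q x).2 = ∑ y ∈ D.image Q, k y.1 * k y.2 := by
      rw [Finset.sum_image hinj]
    rw [this]
    obtain ⟨M, hM⟩ : ∃ M : ℕ, ∀ x ∈ D.image Q, x.1 ≤ M ∧ x.2 ≤ M := by
      refine ⟨(D.image Q).sup fun x => x.1 + x.2, fun x hx => ?_⟩
      have := Finset.le_sup (f := fun x : ℕ × ℕ => x.1 + x.2) hx
      omega
    calc ∑ y ∈ D.image Q, k y.1 * k y.2 ≤ ∑ x ∈ Icc 1 M ×ˢ Icc 1 M, k x.1 * k x.2 := by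
          apply Finset.sum_le_sum_of_subset_of_nonneg
          · intro y hy
            have h5 := hM y hy
            obtain ⟨x, hx, rfl⟩ := Finset.mem_image.1 hy
            have := hQ x hx
            simp only [mem_product, mem_Icc]
            omega
          · intro x _ _
            exact mul_nonneg (hk0 _) (hk0 _)
      _ = (∑ n ∈ Icc 1 M, k n) ^ 2 := by
          rw [Finset.sum_product, pow_two, Finset.sum_mul_sum]
      _ ≤ Z ^ 2 := by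
          apply pow_le_pow_left₀ (Finset.sum_nonneg fun n _ => hk0 n)
          exact hsum.sum_le_tsum _ fun n _ => hk0 n
  calc ∑ x ∈ D, 1 / ((x.1 : ℝ) * x.2) * (((Q x).1 : ℝ) * (Q x).2) ^ (-(3 / 8) : ℝ)
      ≤ ∑ x ∈ D, (√(W : ℝ) * (g x.1 * g x.2) + (k (Q x).1 * k (Q x).2) / √(W : ℝ) ^ 2) :=
        Finset.sum_le_sum h1
    _ = √(W : ℝ) * ∑ x ∈ D, g x.1 * g x.2 + (∑ x ∈ D, k (Q x).1 * k (Q x).2) / √(W : ℝ) ^ 2 := by
        rw [Finset.sum_add_distrib, Finset.mul_sum, Finset.sum_div]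
    _ ≤ √(W : ℝ) * (2 / √(W : ℝ)) ^ 2 + Z ^ 2 / √(W : ℝ) ^ 2 := by gcongr
    _ ≤ (4 + Z ^ 2) / √(W : ℝ) := by
        have e1 : √(W : ℝ) * (2 / √(W : ℝ)) ^ 2 = 4 / √(W : ℝ) := by
          field_simp
          norm_num
        have e2 : Z ^ 2 / √(W : ℝ) ^ 2 ≤ Z ^ 2 / √(W : ℝ) := by
          apply div_le_div_of_nonneg_left (by positivity) hs
          nlinarith
        rw [e1, add_div]
        linarith

end Pool.Agent.Lib.MP_aa9ae4_nt.K2
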