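import Pool.Agent.Lib.MP_aa9ae4_nt.K2.SpecB

namespace Pool.Agent.Lib.MP_aa9ae4_nt.K2

open Finset MeasureTheory Filter Topology
open Complex (I)

private lemma rat_diag (r s N : ℕ) (hr : 1 ≤ r) (hs : 1 ≤ s) (hsr : s ≤ r)
    (hrs : Nat.Coprime r s) :
    ∑ n ∈ Icc 1 N, ∑ m ∈ (Icc 1 N).filter (fun m : ℕ => r * n = s * m),
      dv n * dv m / √((n : ℝ) * m) =
      1 / √((r : ℝ) * s) * ∑ j ∈ Icc 1 (N / r), dv (r * j) * dv (s * j) / j := by
  rw [sum_sigma', mul_sum]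
  have hr0 : (0 : ℝ) < r := by exact_mod_cast hr
  have hs0 : (0 : ℝ) < s := by exact_mod_cast hs
  symm
  have hdvd : ∀ x : (_ : ℕ) × ℕ, r * x.1 = s * x.2 → x.1 = s * (x.1 / s) ∧
      x.2 = r * (x.1 / s) := by
    intro x hx
    have h1 : s ∣ x.1 := by
      have : s ∣ r * x.1 := ⟨x.2, hx⟩
      exact (Nat.Coprime.dvd_of_dvd_mul_left hrs.symm this)
    have h2 : x.1 = s * (x.1 / s) := (Nat.mul_div_cancel' h1).symm
    refine ⟨h2, ?_⟩
    have h3 : s * x.2 = s * (r * (x.1 / s)) := by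
      rw [← hx]
      calc r * x.1 = r * (s * (x.1 / s)) := by rw [← h2]
        _ = _ := by ring
    exact Nat.eq_of_mul_eq_mul_left (by omega) h3
  refine sum_nbij' (fun j => (⟨s * j, r * j⟩ : (_ : ℕ) × ℕ)) (fun x => x.1 / s) ?_ ?_ ?_ ?_ ?_
  · intro j hj
    have hj' := mem_Icc.mp hj
    have h2 : j * r ≤ N := (Nat.le_div_iff_mul_le (by omega)).mp hj'.2
    have h3 : j * s ≤ N := (Nat.mul_le_mul_left j hsr).trans h2
    rw [mem_sigma, mem_filter, mem_Icc, mem_Icc]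
    refine ⟨⟨Nat.mul_pos hs hj'.1, ?_⟩, ⟨⟨Nat.mul_pos hr hj'.1, ?_⟩, ?_⟩⟩
    · rw [mul_comm]; exact h3
    · change r * j ≤ N
      rw [mul_comm]; exact h2
    · change r * (s * j) = s * (r * j)
      ring
  · intro x hx
    rw [mem_sigma, mem_filter, mem_Icc, mem_Icc] at hx
    obtain ⟨h1, h2⟩ := hdvd x hx.2.2
    rw [mem_Icc]
    have h3 : 1 ≤ x.1 / s := by
      rcases Nat.eq_zero_or_pos (x.1 / s) with h0 | h0
      · rw [h0, mul_zero] at h1
        omega
      · exact h0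
    refine ⟨h3, ?_⟩
    rw [Nat.le_div_iff_mul_le (by omega), mul_comm, ← h2]
    exact hx.2.1.2
  · intro j hj
    exact Nat.mul_div_cancel_left j (by omega)
  · intro x hx
    rw [mem_sigma, mem_filter, mem_Icc, mem_Icc] at hx
    obtain ⟨h1, h2⟩ := hdvd x hx.2.2
    obtain ⟨a, b⟩ := x
    change (⟨s * (a / s), r * (a / s)⟩ : (_ : ℕ) × ℕ) = ⟨a, b⟩
    simp only at h1 h2
    rw [← h2, ← h1]
  · intro j hj
    have hj' := mem_Icc.mp hj
    have hj0 : (0 : ℝ) < j := by exact_mod_cast hj'.1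
    change _ = dv (s * j) * dv (r * j) / √(((s * j : ℕ) : ℝ) * ((r * j : ℕ) : ℝ))
    push_cast
    have e : (s : ℝ) * j * (r * j) = (r * s) * (j * j) := by ring
    rw [e, Real.sqrt_mul (x := (r : ℝ) * s) (by positivity), Real.sqrt_mul_self hj0.le]
    have h5 : 0 < √((r : ℝ) * s) := by positivity
    field_simp

theorem pRat (h1 : S_Exp) (h2 : S_Far) : S_Rat := by
  intro r s hs hsr hrs
  have hr : 1 ≤ r := hs.trans hsr
  obtain ⟨C, hC, hFar⟩ := h2
  have hr0 : (0 : ℝ) < r := by exact_mod_cast hr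
  have hs0 : (0 : ℝ) < s := by exact_mod_cast hs
  have hs1 : (1 : ℝ) ≤ s := by exact_mod_cast hs
  refine ⟨C * (2 * s * (r / s)), by positivity, ?_⟩
  intro T N hN
  set θ : ℝ := (r : ℝ) / s with hθ
  have hθ0 : 0 < θ := by positivity
  have hθ1 : 1 ≤ θ := by
    rw [hθ, le_div_iff₀ hs0, one_mul]
    exact_mod_cast hsr
  have hfar := hFar T θ (2 * s) N hθ1 (by linarith) hN
  rw [h1 T θ N hθ0]
  -- the exact pairs
  have hiff : ∀ n m : ℕ, ¬ 1 ≤ 2 * (s : ℝ) * |θ * n - m| ↔ r * n = s * m := by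
    intro n m
    have e : (s : ℝ) * |θ * n - m| = |(((r * n : ℕ) : ℤ) - ((s * m : ℕ) : ℤ) : ℤ)| := by
      have e1 : (((((r * n : ℕ) : ℤ) - ((s * m : ℕ) : ℤ) : ℤ)) : ℝ) = s * (θ * n - m) := by
        push_cast
        rw [hθ]
        field_simp
      rw [Int.cast_abs, e1, abs_mul, abs_of_pos hs0]
    rw [mul_assoc, e]
    constructor
    · intro h
      by_contra hne
      apply h
      have h1 : (1 : ℤ) ≤ |((r * n : ℕ) : ℤ) - ((s * m : ℕ) : ℤ)| := by
        apply Int.one_le_abs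
        intro h0
        apply hne
        have : ((r * n : ℕ) : ℤ) = ((s * m : ℕ) : ℤ) := by linarith
        exact_mod_cast this
      have h2 : (1 : ℝ) ≤ ((|((r * n : ℕ) : ℤ) - ((s * m : ℕ) : ℤ)| : ℤ) : ℝ) := by
        exact_mod_cast h1
      linarith
    · intro h
      rw [h, sub_self, abs_zero]
      norm_num
  have hsplit : ∑ n ∈ Icc 1 N, ∑ m ∈ Icc 1 N,
      ((dv n * dv m / √((n : ℝ) * m) : ℝ) : ℂ) * twistJ T (twistX θ n m) =
      ∑ n ∈ Icc 1 N, ∑ m ∈ (Icc 1 N).filter (fun m : ℕ => 1 ≤ 2 * (s : ℝ) * |θ * n - m|),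
        ((dv n * dv m / √((n : ℝ) * m) : ℝ) : ℂ) * twistJ T (twistX θ n m) +
      ((T * (1 / √((r : ℝ) * s) *
        ∑ j ∈ Icc 1 (N / r), dv (r * j) * dv (s * j) / j) : ℝ) : ℂ) := by
    rw [← rat_diag r s N hr hs hsr hrs, mul_sum, Complex.ofReal_sum, ← sum_add_distrib]
    refine sum_congr rfl fun n hn => ?_
    rw [← sum_filter_add_sum_filter_not (Icc 1 N)
      (fun m : ℕ => 1 ≤ 2 * (s : ℝ) * |θ * n - m|)]
    congr 1
    rw [mul_sum, Complex.ofReal_sum, filter_congr (fun m _ => hiff n m)]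
    refine sum_congr rfl fun m hm => ?_
    have hm1 := (mem_Icc.mp (mem_filter.mp hm).1).1
    have hm2 := (mem_filter.mp hm).2
    have hn1 := (mem_Icc.mp hn).1
    have hn0 : (0 : ℝ) < n := by exact_mod_cast hn1
    have hx : twistX θ n m = 0 := by
      have e1 : twistX θ n m = Real.log (θ * n) - Real.log m := by
        unfold twistX
        rw [Real.log_mul hθ0.ne' hn0.ne']
      have e2 : θ * n = m := by
        have : (r : ℝ) * n = s * m := by exact_mod_cast hm2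
        rw [hθ]
        field_simp
        linarith
      rw [e1, e2, sub_self]
    rw [hx, twistJ_zero]
    push_cast
    ring
  rw [hsplit]
  have e3 : T / √((r : ℝ) * s) * ∑ l ∈ Icc 1 (N / r), dv (r * l) * dv (s * l) / l =
      T * (1 / √((r : ℝ) * s) * ∑ j ∈ Icc 1 (N / r), dv (r * j) * dv (s * j) / j) := by
    ring
  rw [e3, add_sub_cancel_right]
  calc _ ≤ ∑ n ∈ Icc 1 N, ∑ m ∈ (Icc 1 N).filter (fun m : ℕ => 1 ≤ 2 * (s : ℝ) * |θ * n - m|),
        dv n * dv m / √((n : ℝ) * m) * ‖twistJ T (twistX θ n m)‖ := by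
        refine (norm_sum_le _ _).trans (sum_le_sum fun n _ => ?_)
        refine (norm_sum_le _ _).trans (sum_le_sum fun m _ => ?_)
        rw [norm_mul, Complex.norm_real, Real.norm_of_nonneg]
        unfold dv
        positivity
    _ ≤ _ := hfar
    _ = _ := by ring

end Pool.Agent.Lib.MP_aa9ae4_nt.K2
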