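import Pool.Agent.Lib.MP_aa9ae4_nt.K2.SpecB

namespace Pool.Agent.Lib.MP_aa9ae4_nt.K2

open Finset MeasureTheory Filter Topology
open Complex (I)

theorem pT4 (h1 : S_H1) (h2 : S_Cv) : S_T4 := by
  intro Q hQ
  obtain ⟨κ, C, hκ, hH⟩ := h1 Q hQ
  have h0 : ∀ b, 0 ≤ hq Q b := by
    intro b
    unfold hq
    split_ifs <;> norm_num
  have hC0 : 0 ≤ C := (abs_nonneg _).trans (hH 1 le_rfl)
  have hlog : ∀ x : ℕ, 0 ≤ Real.log (x : ℝ) := fun x => Real.log_natCast_nonneg x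
  -- step with constants made equal
  have step : ∀ (f : ℕ → ℝ) (μ C1 : ℝ) (k : ℕ), 1 ≤ k →
      (∀ x : ℕ, 1 ≤ x → |∑ n ∈ Icc 1 x, f n / n - μ * Real.log x ^ k| ≤
        C1 * (1 + Real.log x) ^ (k - 1)) →
      ∃ C' : ℝ, ∀ x : ℕ, 1 ≤ x → |∑ n ∈ Icc 1 x, cv (hq Q) f n / n -
        κ * μ / (k + 1) * Real.log x ^ (k + 1)| ≤ C' * (1 + Real.log x) ^ k := by
    intro f μ C1 k hk hf
    refine h2 (hq Q) f κ μ (max C C1) k h0 hk
      (fun x hx => (hH x hx).trans (le_max_left _ _)) (fun x hx => ?_)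
    refine (hf x hx).trans ?_
    have := hlog x
    exact mul_le_mul_of_nonneg_right (le_max_right _ _) (by positivity)
  obtain ⟨C1, hC1⟩ := step (hq Q) κ C 1 le_rfl (fun x hx => by
    have := hH x hx
    simpa using this)
  obtain ⟨C2, hC2⟩ := step _ _ C1 2 (by norm_num) (fun x hx => by
    have := hC1 x hx
    norm_num at this ⊢
    exact this)
  obtain ⟨C3, hC3⟩ := step _ _ C2 3 (by norm_num) (fun x hx => by
    have := hC2 x hx
    norm_num at this ⊢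
    exact this)
  refine ⟨κ * (κ * (κ * κ / (1 + 1)) / (2 + 1)) / (3 + 1), C3, by positivity, fun x hx => ?_⟩
  have := hC3 x hx
  unfold f4
  norm_num at this ⊢
  exact this

end Pool.Agent.Lib.MP_aa9ae4_nt.K2
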