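import Mathlib
import Pool.Agent.Lib.MP_aa9ae4_nt.K2.SpecA

namespace Pool.Agent.Lib.MP_aa9ae4_nt.K2

open Finset MeasureTheory Filter Topology
open Complex (I)

/-- the rectangle identity for a function on the strip `1/2 ≤ Re ≤ 3/2` -/
lemma tl_rect (g : ℂ → ℂ) (R : ℝ) (hR : 0 ≤ R)
    (hc : ContinuousOn g {s : ℂ | -(1 / 2) ≤ s.re ∧ s.re ≤ 3 / 2})
    (hd : DifferentiableOn ℂ g {s : ℂ | -(1 / 2) < s.re ∧ s.re < 3 / 2}) :
    I * (∫ y in (-R)..R, g (1 / 2 + y * I)) =
      (∫ x in (1 / 2 : ℝ)..(3 / 2), g (x + ((-R : ℝ) : ℂ) * I)) -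
        (∫ x in (1 / 2 : ℝ)..(3 / 2), g (x + (R : ℂ) * I)) +
        I * (∫ y in (-R)..R, g (3 / 2 + y * I)) := by
  have h := Complex.integral_boundary_rect_eq_zero_of_continuousOn_of_differentiableOn g
    (⟨1 / 2, -R⟩ : ℂ) (⟨3 / 2, R⟩ : ℂ) ?_ ?_
  · simp only [smul_eq_mul] at h
    rw [show (((3 / 2 : ℝ)) : ℂ) = 3 / 2 by push_cast; rfl,
      show (((1 / 2 : ℝ)) : ℂ) = 1 / 2 by push_cast; rfl] at h
    linear_combination -h
  · refine hc.mono fun w hw => ?_
    rw [Complex.mem_reProdIm] at hw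
    have h1 := hw.1
    rw [Set.uIcc_of_le (by norm_num)] at h1
    refine ⟨?_, ?_⟩
    · have := h1.1
      simp only at this
      linarith
    · exact h1.2
  · refine hd.mono fun w hw => ?_
    rw [Complex.mem_reProdIm] at hw
    have h1 := hw.1
    rw [min_eq_left (by norm_num), max_eq_right (by norm_num)] at h1
    refine ⟨?_, ?_⟩
    · have := h1.1
      simp only at this
      linarith
    · exact h1.2

theorem pTL : S_TL := by
  intro F K A B₁ B₂ hA hc hd hK h1 h2 R hR
  have hK0 : 0 ≤ K := by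
    have h3 := (norm_nonneg _).trans (hK (1 / 2) (by norm_num) (by norm_num))
    have h4 : 0 < Real.exp (-|(1 / 2 : ℂ).im|) := Real.exp_pos _
    exact nonneg_of_mul_nonneg_left h3 h4
  set S : Set ℂ := {s : ℂ | -(1 / 2) ≤ s.re ∧ s.re ≤ 3 / 2} with hS
  set U : Set ℂ := {s : ℂ | -(1 / 2) < s.re ∧ s.re < 3 / 2} with hU
  have hUo : IsOpen U :=
    (isOpen_lt continuous_const Complex.continuous_re).inter
      (isOpen_lt Complex.continuous_re continuous_const)
  set G : ℂ → ℂ := fun w => starRingEnd ℂ (F (1 - starRingEnd ℂ w)) with hG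
  have hmap : ∀ w ∈ S, 1 - starRingEnd ℂ w ∈ S := by
    intro w hw
    obtain ⟨h3, h4⟩ := hw
    refine ⟨?_, ?_⟩
    · rw [Complex.sub_re, Complex.one_re, Complex.conj_re]
      linarith
    · rw [Complex.sub_re, Complex.one_re, Complex.conj_re]
      linarith
  have hGc : ContinuousOn G S := by
    refine Complex.continuous_conj.comp_continuousOn (hc.comp ?_ hmap)
    exact (continuous_const.sub Complex.continuous_conj).continuousOn
  have hGd : DifferentiableOn ℂ G U := by
    intro w hw
    obtain ⟨h3, h4⟩ := hw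
    have h5 : DifferentiableAt ℂ (fun v : ℂ => F (1 - v)) (starRingEnd ℂ w) := by
      refine DifferentiableAt.comp (starRingEnd ℂ w) (g := F) (f := fun v : ℂ => 1 - v) ?_
        (by fun_prop)
      refine (hd _ ?_).differentiableAt (hUo.mem_nhds ?_)
      all_goals
        refine ⟨?_, ?_⟩
        · rw [Complex.sub_re, Complex.one_re, Complex.conj_re]
          linarith
        · rw [Complex.sub_re, Complex.one_re, Complex.conj_re]
          linarith
    have h6 := h5.conj_conj
    rw [Complex.conj_conj] at h6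
    exact h6.differentiableWithinAt
  have hgc : ContinuousOn (fun w => F w * G w) S := hc.mul hGc
  have hgd : DifferentiableOn ℂ (fun w => F w * G w) U := hd.mul hGd
  have hgb : ∀ w ∈ S, ‖F w * G w‖ ≤ K ^ 2 * Real.exp (-(2 * |w.im|)) := by
    intro w hw
    have h3 := hK w hw.1 hw.2
    have h4 := hK _ (hmap w hw).1 (hmap w hw).2
    have e : (1 - starRingEnd ℂ w).im = w.im := by simp
    rw [e] at h4
    rw [norm_mul]
    have e2 : ‖G w‖ = ‖F (1 - starRingEnd ℂ w)‖ := by
      simp only [hG]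
      rw [RCLike.norm_conj]
    rw [e2]
    calc _ ≤ (K * Real.exp (-|w.im|)) * (K * Real.exp (-|w.im|)) := by gcongr
      _ = K ^ 2 * (Real.exp (-|w.im|) * Real.exp (-|w.im|)) := by ring
      _ = _ := by
        rw [← Real.exp_add]
        congr 2
        ring
  have hline : ∀ (σ : ℝ), -(1 / 2) ≤ σ → σ ≤ 3 / 2 →
      Continuous (fun y : ℝ => F (σ + y * I)) := by
    intro σ h3 h4
    refine hc.comp_continuous (by fun_prop) fun y => ?_
    refine ⟨?_, ?_⟩
    · simp only [Complex.add_re, Complex.ofReal_re, Complex.mul_re, Complex.I_re, mul_zero,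
        Complex.ofReal_im, Complex.I_im, mul_one, sub_self, add_zero]
      exact h3
    · simp only [Complex.add_re, Complex.ofReal_re, Complex.mul_re, Complex.I_re, mul_zero,
        Complex.ofReal_im, Complex.I_im, mul_one, sub_self, add_zero]
      exact h4
  have hl1 : Continuous (fun y : ℝ => F (-(1 / 2) + y * I)) := by
    have := hline (-(1 / 2)) (by norm_num) (by norm_num)
    convert! this using 4
    push_cast
    ring
  have hl2 : Continuous (fun y : ℝ => F (1 / 2 + y * I)) := by
    have := hline (1 / 2) (by norm_num) (by norm_num)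
    convert! this using 4
    push_cast
    ring
  have hl3 : Continuous (fun y : ℝ => F (3 / 2 + y * I)) := by
    have := hline (3 / 2) (by norm_num) (by norm_num)
    convert! this using 4
    push_cast
    ring
  have hkey : ∀ R' : ℝ, 0 < R' → ∫ t in (-R')..R', ‖F (1 / 2 + t * I)‖ ^ 2 ≤
      (A * B₁ + B₂ / A) / 2 + 2 * K ^ 2 * Real.exp (-(2 * R')) := by
    intro R' hR'
    have h3 := tl_rect (fun w => F w * G w) R' hR'.le hgc hgd
    have e1 : (∫ y in (-R')..R', F (1 / 2 + y * I) * G (1 / 2 + y * I)) =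
        ((∫ t in (-R')..R', ‖F (1 / 2 + t * I)‖ ^ 2 : ℝ) : ℂ) := by
      rw [← intervalIntegral.integral_ofReal]
      refine intervalIntegral.integral_congr fun y _ => ?_
      simp only [hG]
      have e2 : (1 : ℂ) - starRingEnd ℂ (1 / 2 + y * I) = 1 / 2 + y * I := by
        simp only [map_add, map_mul, map_div₀, map_one, Complex.conj_ofReal, Complex.conj_I,
          map_ofNat]
        ring
      rw [e2, Complex.mul_conj']
      push_cast
      rfl
    have e3 : ‖∫ y in (-R')..R', F (3 / 2 + y * I) * G (3 / 2 + y * I)‖ ≤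
        (A * B₁ + B₂ / A) / 2 := by
      have h4 : ∀ y : ℝ, ‖F (3 / 2 + y * I) * G (3 / 2 + y * I)‖ ≤
          A / 2 * ‖F (-(1 / 2) + y * I)‖ ^ 2 + 1 / (2 * A) * ‖F (3 / 2 + y * I)‖ ^ 2 := by
        intro y
        simp only [hG]
        have e2 : (1 : ℂ) - starRingEnd ℂ (3 / 2 + y * I) = -(1 / 2) + y * I := by
          simp only [map_add, map_mul, map_div₀, map_one, Complex.conj_ofReal, Complex.conj_I,
            map_ofNat]
          ring
        rw [e2, norm_mul, RCLike.norm_conj]
        set a := ‖F (-(1 / 2) + y * I)‖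
        set b := ‖F (3 / 2 + y * I)‖
        have h5 : A / 2 * a ^ 2 + 1 / (2 * A) * b ^ 2 - b * a =
            1 / (2 * A) * (A * a - b) ^ 2 := by
          field_simp
          ring
        have h6 : 0 ≤ 1 / (2 * A) * (A * a - b) ^ 2 := by positivity
        linarith
      have hi1 : IntervalIntegrable (fun y : ℝ => A / 2 * ‖F (-(1 / 2) + y * I)‖ ^ 2) volume
          (-R') R' := (continuous_const.mul (hl1.norm.pow 2)).intervalIntegrable _ _
      have hi2 : IntervalIntegrable (fun y : ℝ => 1 / (2 * A) * ‖F (3 / 2 + y * I)‖ ^ 2) volume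
          (-R') R' := (continuous_const.mul (hl3.norm.pow 2)).intervalIntegrable _ _
      have h5 := intervalIntegral.norm_integral_le_of_norm_le (a := -R') (b := R')
        (μ := volume) (by linarith)
        (Eventually.of_forall fun y _ => h4 y) (hi1.add hi2)
      refine h5.trans ?_
      rw [intervalIntegral.integral_add hi1 hi2, intervalIntegral.integral_const_mul,
        intervalIntegral.integral_const_mul]
      have h6 := h1 R' hR'
      have h7 := h2 R' hR'
      have h8 : A / 2 * (∫ t in (-R')..R', ‖F (-(1 / 2) + t * I)‖ ^ 2) ≤ A / 2 * B₁ :=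
        mul_le_mul_of_nonneg_left h6 (by positivity)
      have h9 : 1 / (2 * A) * (∫ t in (-R')..R', ‖F (3 / 2 + t * I)‖ ^ 2) ≤
          1 / (2 * A) * B₂ := mul_le_mul_of_nonneg_left h7 (by positivity)
      calc _ ≤ A / 2 * B₁ + 1 / (2 * A) * B₂ := add_le_add h8 h9
        _ = _ := by field_simp
    have e4 : ∀ τ : ℝ, |τ| = R' → ‖∫ x in (1 / 2 : ℝ)..(3 / 2), F (x + (τ : ℂ) * I) *
        G (x + (τ : ℂ) * I)‖ ≤ K ^ 2 * Real.exp (-(2 * R')) := by
      intro τ hτ
      have h5 := intervalIntegral.norm_integral_le_of_norm_le_const (a := 1 / 2) (b := 3 / 2)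
        (C := K ^ 2 * Real.exp (-(2 * R'))) (f := fun x : ℝ => F (x + (τ : ℂ) * I) *
        G (x + (τ : ℂ) * I)) (fun x hx => by
          rw [Set.uIoc_of_le (by norm_num)] at hx
          have h6 := hgb (x + (τ : ℂ) * I) ⟨by
            simp
            linarith [hx.1], by
            simp
            linarith [hx.2]⟩
          have e5 : (x + (τ : ℂ) * I).im = τ := by simp
          rw [e5, hτ] at h6
          exact h6)
      refine h5.trans (le_of_eq ?_)
      norm_num
    rw [e1] at h3
    have h4 := congrArg norm h3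
    rw [norm_mul, Complex.norm_I, one_mul, Complex.norm_real] at h4
    refine (Real.le_norm_self _).trans ?_
    rw [h4]
    refine (norm_add_le _ _).trans ?_
    rw [norm_mul, Complex.norm_I, one_mul]
    have h5 := e4 (-R') (by rw [abs_neg, abs_of_pos hR'])
    have h6 := e4 R' (abs_of_pos hR')
    have h7 := norm_sub_le (∫ x in (1 / 2 : ℝ)..(3 / 2), F (x + ((-R' : ℝ) : ℂ) * I) *
        G (x + ((-R' : ℝ) : ℂ) * I)) (∫ x in (1 / 2 : ℝ)..(3 / 2), F (x + (R' : ℂ) * I) *
        G (x + (R' : ℂ) * I))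
    linarith
  have hB : ∀ R' : ℝ, R ≤ R' → ∫ t in (-R)..R, ‖F (1 / 2 + t * I)‖ ^ 2 ≤
      (A * B₁ + B₂ / A) / 2 + 2 * K ^ 2 * Real.exp (-(2 * R')) := by
    intro R' hR'
    refine le_trans ?_ (hkey R' (by linarith))
    refine intervalIntegral.integral_mono_interval (by linarith) (by linarith) hR' ?_ ?_
    · exact Eventually.of_forall fun y => by positivity
    · exact (hl2.norm.pow 2).intervalIntegrable _ _
  have hlim : Tendsto (fun R' : ℝ => (A * B₁ + B₂ / A) / 2 +
      2 * K ^ 2 * Real.exp (-(2 * R'))) atTop (𝓝 ((A * B₁ + B₂ / A) / 2 + 2 * K ^ 2 * 0)) := by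
    refine tendsto_const_nhds.add (tendsto_const_nhds.mul ?_)
    exact Real.tendsto_exp_neg_atTop_nhds_zero.comp
      (tendsto_id.const_mul_atTop (by norm_num : (0 : ℝ) < 2))
  have h3 := ge_of_tendsto hlim (eventually_atTop.2 ⟨R, hB⟩)
  have hB1 : 0 ≤ B₁ := le_trans (intervalIntegral.integral_nonneg (by linarith)
    fun y _ => by positivity) (h1 R hR)
  have hB2 : 0 ≤ B₂ := le_trans (intervalIntegral.integral_nonneg (by linarith)
    fun y _ => by positivity) (h2 R hR)
  have h4 : 0 ≤ A * B₁ := by positivity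
  have h5 : 0 ≤ B₂ / A := by positivity
  linarith

end Pool.Agent.Lib.MP_aa9ae4_nt.K2
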