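import Mathlib
import Pool.Agent.Lib.MP_aa9ae4_nt.K2.SpecA

namespace Pool.Agent.Lib.MP_aa9ae4_nt.K2

open Finset MeasureTheory Filter Topology
open Complex (I)

private lemma tail_PP (N : ℕ) (σ : ℂ) (t : ℝ) : PP N (σ + t * I) =
    ∑ n ∈ Icc 1 N, ((dv n : ℂ) * (n : ℂ) ^ (-σ)) * (n : ℂ) ^ (-(t * I)) := by
  unfold PP
  refine sum_congr rfl fun n hn => ?_
  have hn0 : (n : ℂ) ≠ 0 := by
    have := (mem_Icc.1 hn).1
    exact_mod_cast (by omega : n ≠ 0)
  rw [neg_add, Complex.cpow_add _ _ hn0, mul_assoc]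

private lemma tail_norm (n : ℕ) (hn : 1 ≤ n) (σ : ℝ) :
    ‖(dv n : ℂ) * (n : ℂ) ^ (-(σ : ℂ))‖ ^ 2 = dv n ^ 2 * (n : ℝ) ^ (-(2 * σ)) := by
  have hn0 : (0 : ℝ) < n := by exact_mod_cast hn
  rw [norm_mul, Complex.norm_real, mul_pow, Complex.norm_natCast_cpow_of_pos (by omega),
    Real.norm_eq_abs, sq_abs]
  congr 1
  rw [← Real.rpow_natCast, ← Real.rpow_mul hn0.le]
  congr 1
  simp
  ring

private lemma tail_cont (N : ℕ) : Continuous fun t : ℝ => PP N (3 / 2 + t * I) := by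
  unfold PP
  refine continuous_finsetSum _ fun n hn => ?_
  have hn0 : (n : ℂ) ≠ 0 := by
    have := (mem_Icc.1 hn).1
    exact_mod_cast (by omega : n ≠ 0)
  exact continuous_const.mul (Continuous.const_cpow (by fun_prop) (Or.inl hn0))

private lemma tail_block (C : ℝ) (hC : 0 < C) (hmv : ∀ (c T : ℝ), 1 ≤ T → ∀ (N : ℕ) (a : ℕ → ℂ),
    ∫ t in c..(c + T), ‖∑ n ∈ Icc 1 N, a n * (n : ℂ) ^ (-(t * I))‖ ^ 2 ≤
      C * (T + N) * ∑ n ∈ Icc 1 N, ‖a n‖ ^ 2)
    (hAbs : ∀ M : ℕ, 1 ≤ M → ∑ n ∈ Ioc M (2 * M), dv n ^ 2 / (n : ℝ) ^ 3 ≤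
      2 * (1 + Real.log ((2 * M : ℕ) : ℝ)) ^ 3 / (M : ℝ) ^ 2)
    (c T : ℝ) (hT : 1 ≤ T) (M : ℕ) (hM : 1 ≤ M) (hTM : T ≤ 2 * M) :
    ∫ t in c..(c + T), ‖PP (2 * M) (3 / 2 + t * I) - PP M (3 / 2 + t * I)‖ ^ 2 ≤
      8 * C * (1 + Real.log ((2 * M : ℕ) : ℝ)) ^ 3 / M := by
  have hM0 : (0 : ℝ) < M := by exact_mod_cast hM
  have h3 := hmv c T hT (2 * M) (fun n => if M < n then
    (dv n : ℂ) * (n : ℂ) ^ (-((3 / 2 : ℝ) : ℂ)) else 0)
  have e1 : ∀ t : ℝ, PP (2 * M) (3 / 2 + t * I) - PP M (3 / 2 + t * I) =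
      ∑ n ∈ Icc 1 (2 * M), (if M < n then (dv n : ℂ) * (n : ℂ) ^ (-((3 / 2 : ℝ) : ℂ)) else 0) *
        (n : ℂ) ^ (-(t * I)) := by
    intro t
    have e2 : ((3 / 2 : ℝ) : ℂ) = (3 / 2 : ℂ) := by push_cast; rfl
    rw [e2, tail_PP (2 * M) (3 / 2) t, tail_PP M (3 / 2) t]
    have hsub : Icc 1 (2 * M) = Icc 1 M ∪ Ioc M (2 * M) := by
      ext n
      simp only [mem_Icc, mem_union, mem_Ioc]
      omega
    have hdisj : Disjoint (Icc 1 M) (Ioc M (2 * M)) := by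
      rw [disjoint_left]
      intro n h7 h8
      rw [mem_Icc] at h7
      rw [mem_Ioc] at h8
      omega
    rw [hsub, sum_union hdisj, sum_union hdisj]
    have z1 : ∑ n ∈ Icc 1 M, (if M < n then (dv n : ℂ) * (n : ℂ) ^ (-(3 / 2 : ℂ)) else 0) *
        (n : ℂ) ^ (-(t * I)) = 0 := by
      apply sum_eq_zero
      intro n hn
      rw [if_neg (by have := (mem_Icc.1 hn).2; omega), zero_mul]
    have z2 : ∑ n ∈ Ioc M (2 * M), (if M < n then (dv n : ℂ) * (n : ℂ) ^ (-(3 / 2 : ℂ)) else 0) *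
        (n : ℂ) ^ (-(t * I)) =
        ∑ n ∈ Ioc M (2 * M), ((dv n : ℂ) * (n : ℂ) ^ (-(3 / 2 : ℂ))) * (n : ℂ) ^ (-(t * I)) := by
      refine sum_congr rfl fun n hn => ?_
      rw [if_pos (mem_Ioc.1 hn).1]
    rw [z1, z2]
    ring
  simp_rw [e1]
  refine h3.trans ?_
  have h4 : ∑ n ∈ Icc 1 (2 * M), ‖(if M < n then (dv n : ℂ) *
      (n : ℂ) ^ (-((3 / 2 : ℝ) : ℂ)) else 0)‖ ^ 2
      ≤ 2 * (1 + Real.log ((2 * M : ℕ) : ℝ)) ^ 3 / (M : ℝ) ^ 2 := by
    refine le_trans (le_of_eq ?_) (hAbs M hM)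
    have hfil : Ioc M (2 * M) = (Icc 1 (2 * M)).filter (fun n => M < n) := by
      ext n
      simp only [mem_Ioc, mem_filter, mem_Icc]
      omega
    rw [hfil, sum_filter]
    refine sum_congr rfl fun n hn => ?_
    split_ifs with h5
    · have hn0 : (0 : ℝ) < n := by exact_mod_cast (mem_Icc.1 hn).1
      rw [tail_norm n (mem_Icc.1 hn).1]
      rw [show -(2 * (3 / 2) : ℝ) = -((3 : ℕ) : ℝ) by norm_num, Real.rpow_neg hn0.le,
        Real.rpow_natCast, div_eq_mul_inv]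
    · simp
  have hlog : 0 ≤ Real.log ((2 * M : ℕ) : ℝ) := Real.log_natCast_nonneg _
  calc C * (T + ((2 * M : ℕ) : ℝ)) * ∑ n ∈ Icc 1 (2 * M),
        ‖(if M < n then (dv n : ℂ) * (n : ℂ) ^ (-((3 / 2 : ℝ) : ℂ)) else 0)‖ ^ 2 ≤
      C * (4 * M) * (2 * (1 + Real.log ((2 * M : ℕ) : ℝ)) ^ 3 / (M : ℝ) ^ 2) := by
        apply mul_le_mul _ h4 (sum_nonneg fun n _ => by positivity) (by positivity)
        apply mul_le_mul_of_nonneg_left _ hC.le
        push_cast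
        linarith
    _ = _ := by field_simp; ring

private lemma tail_geom (J : ℕ) : ∑ j ∈ range J, (2 / 3 : ℝ) ^ j ≤ 3 := by
  have h : ∑ j ∈ range J, (2 / 3 : ℝ) ^ j = 3 * (1 - (2 / 3) ^ J) := by
    induction J with
    | zero => simp
    | succ J ih => rw [sum_range_succ, ih, pow_succ]; ring
  rw [h]
  have : (0 : ℝ) ≤ (2 / 3) ^ J := by positivity
  linarith

private lemma tail_cs (J : ℕ) (D : ℕ → ℂ) :
    ‖∑ j ∈ range J, D j‖ ^ 2 ≤ 3 * ∑ j ∈ range J, (3 / 2 : ℝ) ^ j * ‖D j‖ ^ 2 := by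
  have h1 := norm_sum_le (range J) D
  have h2 := Finset.sum_sq_le_sum_mul_sum_of_sq_eq_mul (range J) (r := fun j => ‖D j‖)
    (f := fun j => (2 / 3 : ℝ) ^ j) (g := fun j => (3 / 2 : ℝ) ^ j * ‖D j‖ ^ 2)
    (fun j _ => by positivity) (fun j _ => by positivity) (fun j _ => by
      rw [← mul_assoc, ← mul_pow]
      norm_num)
  have h3 : 0 ≤ ∑ j ∈ range J, (3 / 2 : ℝ) ^ j * ‖D j‖ ^ 2 :=
    sum_nonneg fun j _ => by positivity
  calc ‖∑ j ∈ range J, D j‖ ^ 2 ≤ (∑ j ∈ range J, ‖D j‖) ^ 2 :=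
        pow_le_pow_left₀ (norm_nonneg _) h1 2
    _ ≤ _ := h2
    _ ≤ _ := mul_le_mul_of_nonneg_right (tail_geom J) h3

private lemma tail_summable : Summable fun j : ℕ => ((j : ℝ) + 2) ^ 3 * (3 / 4 : ℝ) ^ j := by
  have h := summable_pow_mul_geometric_of_norm_lt_one (R := ℝ) 3 (r := 3 / 4) (by norm_num)
  have h2 := (summable_nat_add_iff 2).2 h
  have h3 := h2.mul_left ((3 / 4 : ℝ) ^ 2)⁻¹
  refine h3.congr fun j => ?_
  push_cast
  rw [pow_add]
  field_simp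

theorem pTail (hA : S_Abs) (hZ : S_Zsq) : S_Tail := by
  obtain ⟨C, hC, hmv⟩ := mean_value
  obtain ⟨-, -, -, hAbs⟩ := hA
  obtain ⟨hZ1, hZ2⟩ := hZ
  obtain ⟨B, hB⟩ := hZ2 (3 / 2) (by norm_num)
  set S : ℝ := ∑' j : ℕ, ((j : ℝ) + 2) ^ 3 * (3 / 4 : ℝ) ^ j with hS
  have hS0 : 0 ≤ S := tsum_nonneg fun j => by positivity
  refine ⟨48 * C * S + 1, by positivity, fun T hT c => ?_⟩
  set N : ℕ := ⌊T⌋₊ with hN
  have hN2 : 2 ≤ N := Nat.le_floor (by exact_mod_cast hT)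
  have hNT : (N : ℝ) ≤ T := Nat.floor_le (by linarith)
  have hTN : T < N + 1 := Nat.lt_floor_add_one T
  have hN0 : (0 : ℝ) < N := by
    have : (2 : ℝ) ≤ N := by exact_mod_cast hN2
    linarith
  have hN2' : (2 : ℝ) ≤ N := by exact_mod_cast hN2
  have hlogN : 0 ≤ Real.log (N : ℝ) := Real.log_natCast_nonneg N
  have hlogT : Real.log (N : ℝ) ≤ Real.log T := Real.log_le_log hN0 hNT
  set L : ℝ := 1 + Real.log N with hL
  have hL1 : 1 ≤ L := by linarith
  -- the sum of the blocks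
  have hre : ∀ t : ℝ, ((3 / 2 : ℂ) + t * I).re = 3 / 2 := by
    intro t
    simp
  have hJ : ∀ J : ℕ, ∫ t in c..(c + T),
      ‖PP (2 ^ J * N) (3 / 2 + t * I) - PP N (3 / 2 + t * I)‖ ^ 2 ≤
      24 * C * (L ^ 3 / N) * S := by
    intro J
    have e1 : ∀ t : ℝ, PP (2 ^ J * N) (3 / 2 + t * I) - PP N (3 / 2 + t * I) =
        ∑ j ∈ range J, (PP (2 * (2 ^ j * N)) (3 / 2 + t * I) -
          PP (2 ^ j * N) (3 / 2 + t * I)) := by
      intro t
      have h1 := sum_range_sub (fun j => PP (2 ^ j * N) (3 / 2 + t * I)) J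
      simp only [pow_zero, one_mul] at h1
      rw [← h1]
      refine sum_congr rfl fun j _ => ?_
      rw [show 2 ^ (j + 1) * N = 2 * (2 ^ j * N) by ring]
    have hi : ∀ j : ℕ, IntervalIntegrable (fun t : ℝ => (3 / 2 : ℝ) ^ j *
        ‖PP (2 * (2 ^ j * N)) (3 / 2 + t * I) - PP (2 ^ j * N) (3 / 2 + t * I)‖ ^ 2)
        volume c (c + T) := by
      intro j
      exact (continuous_const.mul (((tail_cont _).sub (tail_cont _)).norm.pow 2)).intervalIntegrable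
        _ _
    have hb : ∀ j : ℕ, (3 / 2 : ℝ) ^ j * (∫ t in c..(c + T),
        ‖PP (2 * (2 ^ j * N)) (3 / 2 + t * I) - PP (2 ^ j * N) (3 / 2 + t * I)‖ ^ 2) ≤
        8 * C * (L ^ 3 / N) * (((j : ℝ) + 2) ^ 3 * (3 / 4 : ℝ) ^ j) := by
      intro j
      have hpow1 : 1 ≤ 2 ^ j := Nat.one_le_two_pow
      have hMN : N ≤ 2 ^ j * N := Nat.le_mul_of_pos_left N (by omega)
      have hMN' : (N : ℝ) ≤ ((2 ^ j * N : ℕ) : ℝ) := by exact_mod_cast hMN
      have h1 := tail_block C hC hmv hAbs c T (by linarith) (2 ^ j * N) (by omega) (by linarith)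
      have h2 : 1 + Real.log ((2 * (2 ^ j * N) : ℕ) : ℝ) ≤ L * (j + 2) := by
        have e2 : ((2 * (2 ^ j * N) : ℕ) : ℝ) = 2 ^ (j + 1) * (N : ℝ) := by
          push_cast
          ring
        rw [e2, Real.log_mul (by positivity) hN0.ne', Real.log_pow]
        have h3 := Real.log_two_lt_d9
        have h4 : (0 : ℝ) ≤ j := Nat.cast_nonneg j
        push_cast
        have h5 : ((j : ℝ) + 1) * Real.log 2 ≤ ((j : ℝ) + 1) * 1 :=
          mul_le_mul_of_nonneg_left (by linarith) (by linarith)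
        have h6 : ((j : ℝ) + 1) * 1 ≤ ((j : ℝ) + 1) * L :=
          mul_le_mul_of_nonneg_left hL1 (by linarith)
        have h7 : L * ((j : ℝ) + 2) = ((j : ℝ) + 1) * L + L := by ring
        rw [h7]
        linarith
      have h3 : 0 ≤ Real.log ((2 * (2 ^ j * N) : ℕ) : ℝ) := Real.log_natCast_nonneg _
      have h4 : (1 + Real.log ((2 * (2 ^ j * N) : ℕ) : ℝ)) ^ 3 ≤ (L * (j + 2)) ^ 3 :=
        pow_le_pow_left₀ (by linarith) h2 3
      have hpos : (0 : ℝ) < ((2 ^ j * N : ℕ) : ℝ) := by linarith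
      calc _ ≤ (3 / 2 : ℝ) ^ j * (8 * C * (1 + Real.log ((2 * (2 ^ j * N) : ℕ) : ℝ)) ^ 3 /
            ((2 ^ j * N : ℕ) : ℝ)) := mul_le_mul_of_nonneg_left h1 (by positivity)
        _ ≤ (3 / 2 : ℝ) ^ j * (8 * C * (L * (j + 2)) ^ 3 / ((2 ^ j * N : ℕ) : ℝ)) := by
            gcongr
        _ = 8 * C * (L ^ 3 / N) * (((j : ℝ) + 2) ^ 3 * ((3 / 2 : ℝ) ^ j / 2 ^ j)) := by
            push_cast
            field_simp
        _ = _ := by
            rw [← div_pow]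
            norm_num
    simp_rw [e1]
    calc ∫ t in c..(c + T), ‖∑ j ∈ range J, (PP (2 * (2 ^ j * N)) (3 / 2 + t * I) -
          PP (2 ^ j * N) (3 / 2 + t * I))‖ ^ 2 ≤
        ∫ t in c..(c + T), 3 * ∑ j ∈ range J, (3 / 2 : ℝ) ^ j *
          ‖PP (2 * (2 ^ j * N)) (3 / 2 + t * I) - PP (2 ^ j * N) (3 / 2 + t * I)‖ ^ 2 := by
          refine intervalIntegral.integral_mono_on (by linarith) ?_ ?_ fun t _ => tail_cs J _
          · refine Continuous.intervalIntegrable ?_ _ _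
            exact ((continuous_finsetSum _ fun j _ =>
              (tail_cont _).sub (tail_cont _)).norm.pow 2)
          · refine Continuous.intervalIntegrable ?_ _ _
            exact continuous_const.mul (continuous_finsetSum _ fun j _ =>
              continuous_const.mul (((tail_cont _).sub (tail_cont _)).norm.pow 2))
      _ = 3 * ∑ j ∈ range J, (3 / 2 : ℝ) ^ j * (∫ t in c..(c + T),
          ‖PP (2 * (2 ^ j * N)) (3 / 2 + t * I) - PP (2 ^ j * N) (3 / 2 + t * I)‖ ^ 2) := by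
          rw [intervalIntegral.integral_const_mul, intervalIntegral.integral_finsetSum
            fun j _ => hi j]
          congr 1
          refine sum_congr rfl fun j _ => ?_
          rw [intervalIntegral.integral_const_mul]
      _ ≤ 3 * ∑ j ∈ range J, 8 * C * (L ^ 3 / N) * (((j : ℝ) + 2) ^ 3 * (3 / 4 : ℝ) ^ j) := by
          have := sum_le_sum fun j (_ : j ∈ range J) => hb j
          linarith
      _ = 24 * C * (L ^ 3 / N) * ∑ j ∈ range J, (((j : ℝ) + 2) ^ 3 * (3 / 4 : ℝ) ^ j) := by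
          rw [← mul_sum]
          ring
      _ ≤ 24 * C * (L ^ 3 / N) * S := by
          refine mul_le_mul_of_nonneg_left ?_ (by positivity)
          exact tail_summable.sum_le_tsum _ fun j _ => by positivity
  -- the limit
  have hlim : Tendsto (fun J : ℕ => ∫ t in c..(c + T),
      ‖PP (2 ^ J * N) (3 / 2 + t * I) - PP N (3 / 2 + t * I)‖ ^ 2) atTop
      (𝓝 (∫ t in c..(c + T), ‖riemannZeta (3 / 2 + t * I) ^ 2 - PP N (3 / 2 + t * I)‖ ^ 2)) := by
    refine intervalIntegral.tendsto_integral_filter_of_dominated_convergence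
      (fun _ => (B + B) ^ 2) ?_ ?_ ?_ ?_
    · refine Eventually.of_forall fun J => ?_
      exact (((tail_cont _).sub (tail_cont _)).norm.pow 2).aestronglyMeasurable
    · refine Eventually.of_forall fun J => Eventually.of_forall fun t _ => ?_
      rw [Real.norm_of_nonneg (by positivity)]
      refine pow_le_pow_left₀ (norm_nonneg _) ?_ 2
      refine (norm_sub_le _ _).trans ?_
      exact add_le_add (hB _ _ (hre t)) (hB _ _ (hre t))
    · exact intervalIntegrable_const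
    · refine Eventually.of_forall fun t _ => ?_
      have h1 := hZ1 (3 / 2 + t * I) (by rw [hre]; norm_num)
      have h2 : Tendsto (fun J : ℕ => 2 ^ J * N) atTop atTop := by
        refine tendsto_atTop_mono (fun J => ?_) tendsto_id
        show J ≤ 2 ^ J * N
        have h3 : J < 2 ^ J := Nat.lt_two_pow_self
        nlinarith
      exact (((h1.comp h2).sub_const _).norm.pow 2)
  have h1 := le_of_tendsto' hlim hJ
  refine h1.trans ?_
  have hlT : 0 ≤ Real.log T := Real.log_nonneg (by linarith)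
  have h2 : L ^ 3 ≤ (1 + Real.log T) ^ 3 := pow_le_pow_left₀ (by linarith) (by linarith) 3
  have h3 : (1 : ℝ) / N ≤ 2 / T := by
    rw [div_le_div_iff₀ hN0 (by linarith)]
    linarith
  have h4 : L ^ 3 / N ≤ 2 * ((1 + Real.log T) ^ 3 / T) := by
    calc L ^ 3 / N = L ^ 3 * (1 / N) := by ring
      _ ≤ (1 + Real.log T) ^ 3 * (2 / T) := by gcongr
      _ = _ := by ring
  have h5 : 0 ≤ (1 + Real.log T) ^ 3 / T := by positivity
  calc 24 * C * (L ^ 3 / N) * S = 24 * C * S * (L ^ 3 / N) := by ring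
    _ ≤ 24 * C * S * (2 * ((1 + Real.log T) ^ 3 / T)) := by gcongr
    _ ≤ _ := by linarith

end Pool.Agent.Lib.MP_aa9ae4_nt.K2
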