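import Mathlib
import Pool.Agent.Lib.MP_aa9ae4_nt.K2.SpecC
import Pool.Agent.Lib.MP_aa9ae4_nt.Vdc

/-!
MP_aa9ae4_nt, k = 2: the differenced exponential sum.
-/

namespace Pool.Agent.Lib.MP_aa9ae4_nt.K2

open Finset MeasureTheory Filter Topology
open Complex (I)

private theorem V2_exp (t : ℝ) (n h : ℕ) (hn : 1 ≤ n) :
    ((n + h : ℕ) : ℂ) ^ (-(t * I)) * starRingEnd ℂ ((n : ℂ) ^ (-(t * I))) =
      Complex.exp (2 * Real.pi *
        ((-(t / (2 * Real.pi)) * (Real.log ((n : ℝ) + h) - Real.log n) : ℝ) : ℂ) * I) := by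
  have hpi := Real.pi_pos
  have hn2 : (n : ℂ) ≠ 0 := by
    have : n ≠ 0 := by omega
    exact_mod_cast this
  have hn3 : ((n + h : ℕ) : ℂ) ≠ 0 := by
    have : n + h ≠ 0 := by omega
    exact_mod_cast this
  rw [Complex.cpow_def_of_ne_zero hn2, Complex.cpow_def_of_ne_zero hn3, ← Complex.exp_conj,
    ← Complex.exp_add]
  congr 1
  rw [← Complex.natCast_log, ← Complex.natCast_log]
  simp only [map_mul, map_neg, Complex.conj_ofReal, Complex.conj_I]
  push_cast
  field_simp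
  ring

private theorem V2_diff (t : ℝ) (n h : ℕ) (hn : 1 ≤ n) :
    (-(t / (2 * Real.pi)) * (Real.log (((n + 1 : ℕ) : ℝ) + h) - Real.log ((n + 1 : ℕ) : ℝ))) -
      (-(t / (2 * Real.pi)) * (Real.log ((n : ℝ) + h) - Real.log n)) =
    t / (2 * Real.pi) * Real.log (1 + h / (n * (n + 1 + h))) := by
  have hn0 : (0 : ℝ) < n := by exact_mod_cast hn
  have h1 : (1 + h / (n * (n + 1 + h)) : ℝ) = (n + h) * (n + 1) / (n * (n + 1 + h)) := by
    field_simp
    ring
  rw [h1, Real.log_div (by positivity) (by positivity), Real.log_mul (by positivity) (by positivity),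
    Real.log_mul (by positivity) (by positivity)]
  push_cast
  ring

private theorem V2_gap {n h M : ℝ} (hn : 1 ≤ n) (hh : 1 ≤ h) (hnM : n + 1 ≤ 2 * M) (hhM : h ≤ M) :
    h / (9 * M ^ 3) ≤ Real.log (1 + h / (n * (n + 1 + h))) -
      Real.log (1 + h / ((n + 1) * (n + 1 + 1 + h))) := by
  have hn0 : 0 < n := by linarith
  have hh0 : 0 < h := by linarith
  have hM0 : 0 < M := by linarith
  rw [← Real.log_div (by positivity) (by positivity)]
  have h1 : (1 + h / (n * (n + 1 + h))) / (1 + h / ((n + 1) * (n + 1 + 1 + h))) =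
      ((n + h) * (n + 1) ^ 2 * (n + 2 + h)) / (n * (n + 2) * (n + 1 + h) ^ 2) := by
    have e1 : 1 + h / (n * (n + 1 + h)) = (n + h) * (n + 1) / (n * (n + 1 + h)) := by
      field_simp
      ring
    have e2 : 1 + h / ((n + 1) * (n + 1 + 1 + h)) =
        (n + 1 + h) * (n + 2) / ((n + 1) * (n + 2 + h)) := by
      field_simp
      ring
    rw [e1, e2]
    field_simp
  rw [h1]
  have h2 := Real.one_sub_inv_le_log_of_pos
    (show 0 < ((n + h) * (n + 1) ^ 2 * (n + 2 + h)) / (n * (n + 2) * (n + 1 + h) ^ 2) by positivity)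
  refine le_trans ?_ h2
  have h3 : 1 - (((n + h) * (n + 1) ^ 2 * (n + 2 + h)) / (n * (n + 2) * (n + 1 + h) ^ 2))⁻¹ =
      h * (2 * (n + 1) + h) / ((n + h) * (n + 1) ^ 2 * (n + 2 + h)) := by
    rw [inv_div, one_sub_div (by positivity)]
    congr 1
    ring
  rw [h3, div_le_div_iff₀ (by positivity) (by positivity)]
  have h4 : (n + h) * (n + 2 + h) ≤ 9 * M ^ 2 := by nlinarith
  have h5 : (n + h) * (n + 1) ^ 2 * (n + 2 + h) ≤ 9 * M ^ 2 * (n + 1) * (2 * M) := by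
    calc (n + h) * (n + 1) ^ 2 * (n + 2 + h) = ((n + h) * (n + 2 + h)) * ((n + 1) * (n + 1)) := by
          ring
      _ ≤ (9 * M ^ 2) * ((n + 1) * (2 * M)) := by
          refine mul_le_mul h4 ?_ (by positivity) (by positivity)
          exact mul_le_mul_of_nonneg_left hnM (by positivity)
      _ = _ := by ring
  calc h * ((n + h) * (n + 1) ^ 2 * (n + 2 + h)) ≤ h * (9 * M ^ 2 * (n + 1) * (2 * M)) :=
        mul_le_mul_of_nonneg_left h5 hh0.le
    _ = h * (2 * (n + 1)) * (9 * M ^ 3) := by ring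
    _ ≤ h * (2 * (n + 1) + h) * (9 * M ^ 3) := by
        refine mul_le_mul_of_nonneg_right ?_ (by positivity)
        exact mul_le_mul_of_nonneg_left (by linarith) hh0.le

theorem pV2 : S_V2 := by
  refine ⟨4 * √(18 * Real.pi) + 2, by positivity, ?_⟩
  intro t M N h ht hM hMN hN hh hhM
  have hM0 : (0 : ℝ) < M := by exact_mod_cast hM
  have hh0 : (0 : ℝ) < h := by exact_mod_cast hh
  have ht0 : 0 < t := by linarith
  have hth : 0 < t * h := mul_pos ht0 hh0
  have hpi := Real.pi_pos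
  have hrhs : 0 ≤ (4 * √(18 * Real.pi) + 2) *
      (√(t * h / M) + t * h / (M : ℝ) ^ 2 + 1 + M * √(M : ℝ) / √(t * h)) := by positivity
  rcases Nat.lt_or_ge M (N - h) with hlt | hge
  swap
  · rw [Ioc_eq_empty (by omega), sum_empty, norm_zero]
    exact hrhs
  obtain ⟨x, hx⟩ : ∃ x : ℕ → ℝ, x = fun n : ℕ =>
    -(t / (2 * Real.pi)) * (Real.log ((n : ℝ) + h) - Real.log n) := ⟨_, rfl⟩
  have hsum : ∑ n ∈ Ioc M (N - h), ((n + h : ℕ) : ℂ) ^ (-(t * I)) *
      starRingEnd ℂ ((n : ℂ) ^ (-(t * I))) =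
      ∑ n ∈ Ico (M + 1) (N - h + 1), Complex.exp (2 * Real.pi * x n * I) := by
    have h1 : Ioc M (N - h) = Ico (M + 1) (N - h + 1) := by
      ext n
      simp only [mem_Ioc, mem_Ico]
      omega
    rw [h1]
    refine sum_congr rfl fun n hn => ?_
    rw [hx]
    exact V2_exp t n h (by have := (mem_Ico.mp hn).1; omega)
  rw [hsum]
  have hd : ∀ n : ℕ, 1 ≤ n → x (n + 1) - x n =
      t / (2 * Real.pi) * Real.log (1 + h / (n * (n + 1 + h))) := by
    intro n hn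
    rw [hx]
    exact V2_diff t n h hn
  have hanti : ∀ n m, M + 1 ≤ n → n ≤ m → x (m + 1) - x m ≤ x (n + 1) - x n := by
    intro n m h1 h2
    rw [hd n (by omega), hd m (by omega)]
    have hn0 : (0 : ℝ) < n := by
      have : 0 < n := by omega
      exact_mod_cast this
    have h3 : (n : ℝ) ≤ m := by exact_mod_cast h2
    have hm0 : (0 : ℝ) < m := lt_of_lt_of_le hn0 h3
    refine mul_le_mul_of_nonneg_left ?_ (by positivity)
    refine Real.log_le_log (by positivity) ?_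
    have h4 : (h : ℝ) / (m * (m + 1 + h)) ≤ h / (n * (n + 1 + h)) :=
      div_le_div_of_nonneg_left hh0.le (by positivity)
        (mul_le_mul h3 (by linarith) (by positivity) hm0.le)
    linarith
  have hpos : ∀ n, M + 1 ≤ n → 0 ≤ x (n + 1) - x n := by
    intro n h1
    rw [hd n (by omega)]
    refine mul_nonneg (by positivity) (Real.log_nonneg ?_)
    have : (0 : ℝ) ≤ h / (n * (n + 1 + h)) := by positivity
    linarith
  obtain ⟨lam, hlam⟩ : ∃ lam : ℝ, lam = t * h / (18 * Real.pi * M ^ 3) := ⟨_, rfl⟩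
  have hlam0 : 0 < lam := by rw [hlam]; positivity
  have hgap : ∀ n, M + 1 ≤ n → n + 1 < N - h + 1 →
      lam ≤ (x (n + 1) - x n) - (x (n + 2) - x (n + 1)) := by
    intro n h1 h2
    rw [hd n (by omega), hd (n + 1) (by omega), ← mul_sub]
    have h3 := V2_gap (n := n) (h := h) (M := M)
      (by have : 1 ≤ n := by omega
          exact_mod_cast this) (by exact_mod_cast hh)
      (by have : n + 1 ≤ 2 * M := by omega
          exact_mod_cast this) (by exact_mod_cast hhM)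
    have h4 : lam = t / (2 * Real.pi) * (h / (9 * (M : ℝ) ^ 3)) := by
      rw [hlam]
      field_simp
      ring
    rw [h4]
    refine mul_le_mul_of_nonneg_left ?_ (by positivity)
    push_cast
    exact h3
  have hfirst : x (M + 1 + 1) - x (M + 1) ≤ t * h / (M : ℝ) ^ 2 := by
    rw [hd (M + 1) (by omega)]
    have h1 : Real.log (1 + h / (((M + 1 : ℕ) : ℝ) * (((M + 1 : ℕ) : ℝ) + 1 + h))) ≤
        h / (((M + 1 : ℕ) : ℝ) * (((M + 1 : ℕ) : ℝ) + 1 + h)) := by
      have := Real.log_le_sub_one_of_pos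
        (show 0 < 1 + h / (((M + 1 : ℕ) : ℝ) * (((M + 1 : ℕ) : ℝ) + 1 + h)) by positivity)
      linarith
    have h2 : (h : ℝ) / (((M + 1 : ℕ) : ℝ) * (((M + 1 : ℕ) : ℝ) + 1 + h)) ≤ h / (M : ℝ) ^ 2 := by
      refine div_le_div_of_nonneg_left hh0.le (by positivity) ?_
      push_cast
      nlinarith
    have h3 : t / (2 * Real.pi) ≤ t := by
      rw [div_le_iff₀ (by positivity)]
      nlinarith [Real.pi_gt_three]
    calc t / (2 * Real.pi) * Real.log (1 + h / (((M + 1 : ℕ) : ℝ) * (((M + 1 : ℕ) : ℝ) + 1 + h)))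
        ≤ t / (2 * Real.pi) * (h / (M : ℝ) ^ 2) :=
          mul_le_mul_of_nonneg_left (h1.trans h2) (by positivity)
      _ ≤ t * (h / (M : ℝ) ^ 2) := mul_le_mul_of_nonneg_right h3 (by positivity)
      _ = t * h / (M : ℝ) ^ 2 := by ring
  obtain ⟨θ, hθ⟩ : ∃ θ : ℝ, θ = √lam := ⟨_, rfl⟩
  have hθ0 : 0 < θ := by rw [hθ]; exact Real.sqrt_pos.mpr hlam0
  have hθ2 : θ * θ = lam := by rw [hθ]; exact Real.mul_self_sqrt hlam0.le
  obtain ⟨k, hk⟩ : ∃ k : ℕ, k = ⌊x (M + 1 + 1) - x (M + 1)⌋₊ + 1 := ⟨_, rfl⟩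
  have hk1 : x (M + 1 + 1) - x (M + 1) < k := by
    rw [hk]
    push_cast
    exact Nat.lt_floor_add_one _
  have hk2 : (k : ℝ) ≤ t * h / (M : ℝ) ^ 2 + 1 := by
    rw [hk]
    push_cast
    have := Nat.floor_le (hpos (M + 1) le_rfl)
    linarith
  have h1 := vdc_general x lam θ hlam0 hθ0 (N - h + 1) k (M + 1) (by omega) hanti hgap hpos
    (fun _ => hk1)
  have h2 : 2 * (θ / lam + 1) + 2 / θ = 4 * (1 / θ) + 2 := by
    have h3 : θ / lam = 1 / θ := by
      rw [← hθ2]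
      field_simp
    rw [h3]
    ring
  have h3 : 1 / θ = √(18 * Real.pi) * (M * √(M : ℝ) / √(t * h)) := by
    have h4 : √((M : ℝ) ^ 3) = M * √(M : ℝ) := by
      rw [show (M : ℝ) ^ 3 = M ^ 2 * M by ring, Real.sqrt_mul (by positivity), Real.sqrt_sq hM0.le]
    have h6 : √(18 * Real.pi * (M : ℝ) ^ 3) = √(18 * Real.pi) * (M * √(M : ℝ)) := by
      rw [Real.sqrt_mul (by positivity), h4]
    rw [hθ, hlam, Real.sqrt_div hth.le, h6]
    field_simp
  rw [h2, h3] at h1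
  refine h1.trans ?_
  obtain ⟨c, hc⟩ : ∃ c : ℝ, c = √(18 * Real.pi) := ⟨_, rfl⟩
  have hc0 : 0 ≤ c := by rw [hc]; exact Real.sqrt_nonneg _
  rw [← hc]
  have hq : √(t * h) * √(t * h) = t * h := Real.mul_self_sqrt hth.le
  have hq0 : 0 < √(t * h) := Real.sqrt_pos.mpr hth
  have hm : √(M : ℝ) * √(M : ℝ) = M := Real.mul_self_sqrt hM0.le
  have hm0 : 0 < √(M : ℝ) := Real.sqrt_pos.mpr hM0
  have h5 : t * h / (M : ℝ) ^ 2 * (M * √(M : ℝ) / √(t * h)) = √(t * h / M) := by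
    rw [Real.sqrt_div hth.le, div_mul_div_comm, div_eq_div_iff (by positivity) (by positivity)]
    calc t * h * (M * √(M : ℝ)) * √(M : ℝ) = (t * h) * M * (√(M : ℝ) * √(M : ℝ)) := by ring
      _ = (√(t * h) * √(t * h)) * M * M := by rw [hm, hq]
      _ = √(t * h) * ((M : ℝ) ^ 2 * √(t * h)) := by ring
  have hA : 0 ≤ √(t * h / M) := Real.sqrt_nonneg _
  have hB : 0 ≤ t * h / (M : ℝ) ^ 2 := by positivity
  have hD : 0 ≤ M * √(M : ℝ) / √(t * h) := by positivity
  calc (k : ℝ) * (4 * (c * (M * √(M : ℝ) / √(t * h))) + 2)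
      ≤ (t * h / (M : ℝ) ^ 2 + 1) * (4 * (c * (M * √(M : ℝ) / √(t * h))) + 2) :=
        mul_le_mul_of_nonneg_right hk2 (by positivity)
    _ = 4 * c * (t * h / (M : ℝ) ^ 2 * (M * √(M : ℝ) / √(t * h))) + 2 * (t * h / (M : ℝ) ^ 2) +
          4 * c * (M * √(M : ℝ) / √(t * h)) + 2 := by ring
    _ = 4 * c * √(t * h / M) + 2 * (t * h / (M : ℝ) ^ 2) +
          4 * c * (M * √(M : ℝ) / √(t * h)) + 2 := by rw [h5]
    _ ≤ (4 * c + 2) * (√(t * h / M) + t * h / (M : ℝ) ^ 2 + 1 + M * √(M : ℝ) / √(t * h)) := by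
        nlinarith [mul_nonneg hc0 hB, mul_nonneg hc0 hA, mul_nonneg hc0 hD]

end Pool.Agent.Lib.MP_aa9ae4_nt.K2
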