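import Mathlib
import Pool.Agent.Lib.MP_aa9ae4_nt.K2.SpecA

namespace Pool.Agent.Lib.MP_aa9ae4_nt.K2

open Finset MeasureTheory Filter Topology
open Complex (I)

private lemma xb_expnorm (s : ℂ) (t₀ : ℝ) :
    ‖Complex.exp ((s - t₀ * I) ^ 2)‖ = Real.exp (s.re ^ 2 - (s.im - t₀) ^ 2) := by
  rw [Complex.norm_exp]
  congr 1
  rw [sq, Complex.mul_re]
  have e1 : (s - t₀ * I).re = s.re := by simp
  have e2 : (s - t₀ * I).im = s.im - t₀ := by simp
  rw [e1, e2]
  ring

theorem pXB (hF : S_Fun) (hN : S_Nrm) (hY : S_Yd) : S_XB := by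
  obtain ⟨_, _, _, hFd, _⟩ := hF
  obtain ⟨hN1, _, hN3⟩ := hN
  obtain ⟨hYd, C, hC, hYb⟩ := hY
  have hπ := Real.pi_pos
  have hπ3 := Real.pi_gt_three
  set M : ℝ := 2 * Real.pi * Real.exp (1 / 4) with hM
  have hM0 : 0 < M := by positivity
  refine ⟨M, hM0, fun σ t h1 h2 ht => ?_⟩
  have ht0 : 0 < t := by linarith
  set G : ℂ → ℂ := fun s => YY s * (t : ℂ) ^ (1 / 2 - s) * Complex.exp ((s - t * I) ^ 2) / t
    with hG
  have htc : (t : ℂ) ≠ 0 := by exact_mod_cast ht0.ne'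
  have hGd : ∀ s : ℂ, -1 < s.re → DifferentiableAt ℂ G s := by
    intro s hs
    have a1 : DifferentiableAt ℂ (fun s : ℂ => (t : ℂ) ^ (1 / 2 - s)) s :=
      (by fun_prop : DifferentiableAt ℂ (fun s : ℂ => 1 / 2 - s) s).const_cpow (Or.inl htc)
    have a2 : DifferentiableAt ℂ (fun s : ℂ => Complex.exp ((s - t * I) ^ 2)) s := by fun_prop
    exact (((hYd s hs).mul a1).mul a2).div_const _
  have hGn : ∀ s : ℂ, ‖G s‖ = ‖YY s‖ * t ^ (1 / 2 - s.re) *
      Real.exp (s.re ^ 2 - (s.im - t) ^ 2) / t := by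
    intro s
    simp only [hG]
    rw [norm_div, norm_mul, norm_mul, xb_expnorm, Complex.norm_cpow_eq_rpow_re_of_pos ht0,
      Complex.norm_real, Real.norm_of_nonneg ht0.le]
    congr 3
    congr 1
    rw [Complex.sub_re]
    norm_num
  have hcl : DiffContOnCl ℂ G (Complex.HadamardThreeLines.verticalStrip (-(1 / 2)) (1 / 2)) := by
    refine ⟨fun s hs => ?_, fun s hs => ?_⟩
    · have h3 := hs.1
      exact (hGd s (by linarith)).differentiableWithinAt
    · have h3 : s ∈ Complex.HadamardThreeLines.verticalClosedStrip (-(1 / 2)) (1 / 2) := by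
        refine closure_minimal ?_ ?_ hs
        · exact Set.preimage_mono Set.Ioo_subset_Icc_self
        · exact isClosed_Icc.preimage Complex.continuous_re
      have h4 := h3.1
      exact (hGd s (by linarith)).continuousAt.continuousWithinAt
  have hbdd : BddAbove ((norm ∘ G) '' Complex.HadamardThreeLines.verticalClosedStrip
      (-(1 / 2)) (1 / 2)) := by
    refine ⟨C * Real.exp (1 / 4 + 2 * t + 1), ?_⟩
    rintro _ ⟨s, ⟨h3, h4⟩, rfl⟩
    show ‖G s‖ ≤ _
    rw [hGn]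
    have h5 := hYb s h3 (by linarith)
    have h6 : t ^ (1 / 2 - s.re) ≤ t := by
      calc t ^ (1 / 2 - s.re) ≤ t ^ (1 : ℝ) :=
            Real.rpow_le_rpow_of_exponent_le ht (by linarith)
        _ = t := Real.rpow_one t
    have h7 : Real.exp (2 * |s.im|) * Real.exp (s.re ^ 2 - (s.im - t) ^ 2) ≤
        Real.exp (1 / 4 + 2 * t + 1) := by
      rw [← Real.exp_add]
      refine Real.exp_le_exp.2 ?_
      have h8 : s.re ^ 2 ≤ 1 / 4 := by nlinarith
      have h9 : |s.im| ≤ |s.im - t| + t := by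
        have := abs_add_le (s.im - t) t
        rw [sub_add_cancel, abs_of_pos ht0] at this
        exact this
      have h10 := sq_abs (s.im - t)
      nlinarith [sq_nonneg (|s.im - t| - 1)]
    rw [div_le_iff₀ ht0]
    calc _ ≤ (C * Real.exp (2 * |s.im|)) * t * Real.exp (s.re ^ 2 - (s.im - t) ^ 2) := by gcongr
      _ = C * (Real.exp (2 * |s.im|) * Real.exp (s.re ^ 2 - (s.im - t) ^ 2)) * t := by ring
      _ ≤ _ := by gcongr
  have ha : ∀ z ∈ Complex.re ⁻¹' ({-(1 / 2)} : Set ℝ), ‖G z‖ ≤ M := by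
    intro z hz
    have hz' : z.re = -(1 / 2) := hz
    have e1 : z = (-(1 / 2) : ℂ) + (z.im : ℂ) * I := by
      apply Complex.ext
      · rw [hz']
        norm_num
      · norm_num
    have hz0 : z ≠ 0 := by
      rintro rfl
      norm_num at hz'
    have e2 : ‖YY z‖ = 2 * Real.pi := by
      rw [hFd z hz0, norm_mul]
      have e3 : ‖z‖ = √(1 / 4 + z.im ^ 2) := by
        conv_lhs => rw [e1]
        rw [show ((-(1 / 2) : ℂ) + z.im * I) = ((-(1 / 2) : ℝ) : ℂ) + (z.im : ℂ) * I by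
          push_cast; ring, Complex.norm_add_mul_I]
        norm_num
      have e4 : ‖XX z‖ = 2 * Real.pi / √(1 / 4 + z.im ^ 2) := by
        conv_lhs => rw [e1]
        exact hN3 z.im
      rw [e3, e4]
      have : 0 < √(1 / 4 + z.im ^ 2) := Real.sqrt_pos.2 (by positivity)
      field_simp
    rw [hGn, e2, hz']
    have e5 : t ^ ((1 : ℝ) / 2 - -(1 / 2)) = t := by
      norm_num
    rw [e5]
    have e6 : Real.exp ((-(1 / 2)) ^ 2 - (z.im - t) ^ 2) ≤ Real.exp (1 / 4) := by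
      refine Real.exp_le_exp.2 ?_
      nlinarith [sq_nonneg (z.im - t)]
    rw [div_le_iff₀ ht0, hM]
    calc _ ≤ 2 * Real.pi * t * Real.exp (1 / 4) := by gcongr
      _ = _ := by ring
  have hb : ∀ z ∈ Complex.re ⁻¹' ({1 / 2} : Set ℝ), ‖G z‖ ≤ M := by
    intro z hz
    have hz' : z.re = 1 / 2 := hz
    have e1 : z = (1 / 2 : ℂ) + (z.im : ℂ) * I := by
      apply Complex.ext
      · rw [hz']
        norm_num
      · norm_num
    have hz0 : z ≠ 0 := by
      rintro rfl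
      norm_num at hz'
    set u : ℝ := |z.im - t| with hu
    have hu0 : 0 ≤ u := abs_nonneg _
    have e2 : ‖YY z‖ ≤ t * (3 / 2 + u) := by
      rw [hFd z hz0, norm_mul]
      have e4 : ‖XX z‖ = 1 := by
        conv_lhs => rw [e1]
        exact hN1 z.im
      rw [e4, mul_one]
      have h3 := Complex.norm_le_abs_re_add_abs_im z
      rw [hz', abs_of_pos (by norm_num : (0 : ℝ) < 1 / 2)] at h3
      have h9 : |z.im| ≤ u + t := by
        have := abs_add_le (z.im - t) t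
        rw [sub_add_cancel, abs_of_pos ht0] at this
        exact this
      nlinarith
    rw [hGn, hz']
    have e5 : t ^ ((1 : ℝ) / 2 - 1 / 2) = 1 := by
      norm_num
    rw [e5, mul_one]
    have e6 : Real.exp ((1 / 2) ^ 2 - (z.im - t) ^ 2) = Real.exp (1 / 4) * Real.exp (-(u ^ 2)) := by
      rw [← Real.exp_add, hu, sq_abs]
      congr 1
      ring
    have e7 : (3 / 2 + u) * Real.exp (-(u ^ 2)) ≤ 5 / 2 := by
      have h3 := Real.add_one_le_exp (u ^ 2)
      have h4 : Real.exp (u ^ 2) * Real.exp (-(u ^ 2)) = 1 := by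
        rw [← Real.exp_add]
        simp
      have h5 := Real.exp_pos (-(u ^ 2))
      have h6 : 3 / 2 + u ≤ 5 / 2 * Real.exp (u ^ 2) := by
        nlinarith [sq_nonneg (u - 1 / 2)]
      calc _ ≤ (5 / 2 * Real.exp (u ^ 2)) * Real.exp (-(u ^ 2)) := by gcongr
        _ = 5 / 2 * (Real.exp (u ^ 2) * Real.exp (-(u ^ 2))) := by ring
        _ = 5 / 2 := by rw [h4, mul_one]
    rw [div_le_iff₀ ht0, hM, e6]
    calc _ ≤ t * (3 / 2 + u) * (Real.exp (1 / 4) * Real.exp (-(u ^ 2))) := by gcongr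
      _ = t * Real.exp (1 / 4) * ((3 / 2 + u) * Real.exp (-(u ^ 2))) := by ring
      _ ≤ t * Real.exp (1 / 4) * (5 / 2) := by gcongr
      _ ≤ _ := by
        have : 0 < t * Real.exp (1 / 4) := by positivity
        nlinarith
  have hs : ((σ : ℂ) + t * I) ∈ Complex.HadamardThreeLines.verticalClosedStrip
      (-(1 / 2)) (1 / 2) := by
    refine ⟨?_, ?_⟩
    · simpa using h1
    · simpa using h2
  have h3 := Complex.HadamardThreeLines.norm_le_interp_of_mem_verticalClosedStrip'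
    (by norm_num : (-(1 / 2) : ℝ) < 1 / 2) hs hcl hbdd ha hb
  rw [← Real.rpow_add hM0, sub_add_cancel, Real.rpow_one, hGn] at h3
  have hre : ((σ : ℂ) + t * I).re = σ := by simp
  have him : ((σ : ℂ) + t * I).im = t := by simp
  have hs0 : ((σ : ℂ) + t * I) ≠ 0 := by
    intro h0
    rw [h0] at him
    simp at him
    linarith
  rw [hre, him, sub_self, hFd _ hs0, norm_mul, div_le_iff₀ ht0] at h3
  have h4 : t ≤ ‖((σ : ℂ) + t * I)‖ := by
    have := Complex.abs_im_le_norm ((σ : ℂ) + t * I)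
    rw [him, abs_of_pos ht0] at this
    exact this
  have h5 : 1 ≤ Real.exp (σ ^ 2 - 0 ^ 2) := Real.one_le_exp (by nlinarith [sq_nonneg σ])
  have h6 : t * (‖XX (σ + t * I)‖ * t ^ (1 / 2 - σ)) ≤ t * M := by
    calc t * (‖XX (σ + t * I)‖ * t ^ (1 / 2 - σ)) =
        t * ‖XX (σ + t * I)‖ * t ^ (1 / 2 - σ) * 1 := by ring
      _ ≤ ‖((σ : ℂ) + t * I)‖ * ‖XX (σ + t * I)‖ * t ^ (1 / 2 - σ) *
          Real.exp (σ ^ 2 - 0 ^ 2) := by gcongr
      _ ≤ M * t := h3
      _ = t * M := by ring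
  have h7 : ‖XX (σ + t * I)‖ * t ^ (1 / 2 - σ) ≤ M := le_of_mul_le_mul_left h6 ht0
  have h8 : t ^ (σ - 1 / 2) * t ^ (1 / 2 - σ) = 1 := by
    rw [← Real.rpow_add ht0]
    simp
  have h9 : 0 < t ^ (1 / 2 - σ) := Real.rpow_pos_of_pos ht0 _
  have h10 : ‖XX (σ + t * I)‖ * t ^ (1 / 2 - σ) ≤ (M * t ^ (σ - 1 / 2)) * t ^ (1 / 2 - σ) := by
    rw [mul_assoc, h8, mul_one]
    exact h7
  exact le_of_mul_le_mul_right h10 h9

end Pool.Agent.Lib.MP_aa9ae4_nt.K2
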