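import Mathlib
import Pool.Agent.Lib.MP_aa9ae4_nt.K2.SpecA

namespace Pool.Agent.Lib.MP_aa9ae4_nt.K2

open Finset MeasureTheory Filter Topology
open Complex (I)

lemma yd_two_pi_ne : (2 * Real.pi : ℂ) ≠ 0 := by
  have h : (2 * Real.pi : ℝ) ≠ 0 := by positivity
  exact_mod_cast h

lemma yd_gamma (w : ℂ) (hw : 0 < w.re) : ‖Complex.Gamma w‖ ≤ Real.Gamma w.re := by
  rw [Complex.Gamma_eq_integral hw, Real.Gamma_eq_integral hw, Complex.GammaIntegral]
  refine (norm_integral_le_integral_norm _).trans (le_of_eq ?_)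
  refine setIntegral_congr_fun measurableSet_Ioi fun x hx => ?_
  show ‖((Real.exp (-x) : ℝ) : ℂ) * (x : ℂ) ^ (w - 1)‖ = Real.exp (-x) * x ^ (w.re - 1)
  rw [norm_mul, Complex.norm_of_nonneg (Real.exp_pos _).le,
    Complex.norm_cpow_eq_rpow_re_of_pos hx]
  simp

lemma yd_cos (z : ℂ) : ‖Complex.cos z‖ ≤ Real.exp |z.im| := by
  have h1 : ‖Complex.exp (z * I)‖ = Real.exp (-z.im) := by
    rw [Complex.norm_exp]
    simp
  have h2 : ‖Complex.exp (-z * I)‖ = Real.exp z.im := by
    rw [Complex.norm_exp]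
    simp
  have h3 := norm_add_le (Complex.exp (z * I)) (Complex.exp (-z * I))
  rw [h1, h2] at h3
  have h4 : Real.exp (-z.im) ≤ Real.exp |z.im| := Real.exp_le_exp.2 (neg_le_abs _)
  have h5 : Real.exp z.im ≤ Real.exp |z.im| := Real.exp_le_exp.2 (le_abs_self _)
  rw [Complex.cos, norm_div, Complex.norm_ofNat]
  linarith

theorem pYd : S_Yd := by
  constructor
  · intro s hs
    unfold YY
    have h1 : DifferentiableAt ℂ (fun s : ℂ => (2 * Real.pi : ℂ) ^ (-s)) s :=
      (differentiableAt_id.neg).const_cpow (Or.inl yd_two_pi_ne)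
    have h2 : DifferentiableAt ℂ (fun s : ℂ => Complex.Gamma (s + 1)) s := by
      refine DifferentiableAt.comp s (g := Complex.Gamma) (f := fun s : ℂ => s + 1) ?_
        (by fun_prop)
      refine Complex.differentiableAt_Gamma _ fun m hm => ?_
      have h3 := congrArg Complex.re hm
      simp at h3
      have h4 : (0 : ℝ) ≤ m := Nat.cast_nonneg m
      linarith
    have h3 : DifferentiableAt ℂ (fun s : ℂ => Complex.cos (Real.pi * s / 2)) s := by
      fun_prop
    exact (((differentiableAt_const (2 : ℂ)).mul h1).mul h2).mul h3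
  · have hc : ContinuousOn Real.Gamma (Set.Icc (1 / 2) (5 / 2)) := by
      intro x hx
      refine (Real.differentiableAt_Gamma fun m hm => ?_).continuousAt.continuousWithinAt
      have h4 : (0 : ℝ) ≤ m := Nat.cast_nonneg m
      have := hx.1
      linarith
    obtain ⟨G, hG⟩ := isCompact_Icc.exists_bound_of_continuousOn hc
    have hG0 : 0 ≤ G := (norm_nonneg _).trans (hG 1 ⟨by norm_num, by norm_num⟩)
    refine ⟨2 * (2 * Real.pi) ^ (1 / 2 : ℝ) * G + 1, by positivity, fun s h1 h2 => ?_⟩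
    have hπ := Real.pi_pos
    have hπ3 := Real.pi_gt_three
    have hπ4 := Real.pi_lt_four
    have e1 : ‖(2 * Real.pi : ℂ) ^ (-s)‖ ≤ (2 * Real.pi) ^ (1 / 2 : ℝ) := by
      rw [show (2 * Real.pi : ℂ) = ((2 * Real.pi : ℝ) : ℂ) by push_cast; rfl,
        Complex.norm_cpow_eq_rpow_re_of_pos (by positivity)]
      refine Real.rpow_le_rpow_of_exponent_le (by linarith) ?_
      simp
      linarith
    have e2 : ‖Complex.Gamma (s + 1)‖ ≤ G := by
      refine (yd_gamma _ (by simp; linarith)).trans ?_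
      refine (le_abs_self _).trans (hG _ ⟨?_, ?_⟩)
      · simp
        linarith
      · simp
        linarith
    have e3 : ‖Complex.cos (Real.pi * s / 2)‖ ≤ Real.exp (2 * |s.im|) := by
      refine (yd_cos _).trans (Real.exp_le_exp.2 ?_)
      have e4 : ((Real.pi : ℂ) * s / 2).im = Real.pi / 2 * s.im := by
        rw [show (Real.pi : ℂ) * s / 2 = ((Real.pi / 2 : ℝ) : ℂ) * s by push_cast; ring,
          Complex.im_ofReal_mul]
      rw [e4, abs_mul, abs_of_pos (by positivity)]
      have := abs_nonneg s.im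
      nlinarith
    have e5 : 0 ≤ Real.exp (2 * |s.im|) := (Real.exp_pos _).le
    unfold YY
    rw [norm_mul, norm_mul, norm_mul, Complex.norm_ofNat]
    calc 2 * ‖(2 * Real.pi : ℂ) ^ (-s)‖ * ‖Complex.Gamma (s + 1)‖ *
          ‖Complex.cos (Real.pi * s / 2)‖ ≤
        2 * (2 * Real.pi) ^ (1 / 2 : ℝ) * G * Real.exp (2 * |s.im|) := by gcongr
      _ ≤ _ := by nlinarith

end Pool.Agent.Lib.MP_aa9ae4_nt.K2
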