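import Mathlib
import Pool.Agent.Lib.MP_aa9ae4_nt.K2.SpecA

namespace Pool.Agent.Lib.MP_aa9ae4_nt.K2

open Finset MeasureTheory Filter Topology
open Complex (I)

lemma zd_right (s : ℂ) (h1 : 1 / 2 ≤ s.re) (h2 : s.re ≤ 3 / 2) :
    ‖riemannZeta₁ s‖ ≤ 5 * Real.exp |s.im| := by
  have hy := abs_nonneg s.im
  have he := Real.quadratic_le_exp_of_nonneg hy
  have hn : ‖s‖ ≤ 3 / 2 + |s.im| := by
    have := Complex.norm_le_abs_re_add_abs_im s
    rw [abs_of_nonneg (by linarith : 0 ≤ s.re)] at this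
    linarith
  have hn1 : ‖s - 1‖ ≤ 1 / 2 + |s.im| := by
    have h3 := Complex.norm_le_abs_re_add_abs_im (s - 1)
    have h4 : |(s - 1).re| ≤ 1 / 2 := by
      rw [Complex.sub_re, Complex.one_re, abs_le]
      constructor <;> linarith
    have h5 : (s - 1).im = s.im := by simp
    rw [h5] at h3
    linarith
  by_cases hs : s = 1
  · rw [hs, riemannZeta₁_one]
    simp
  have hs1 : s - 1 ≠ 0 := sub_ne_zero.2 hs
  have h3 := zeta_approx (s := s) (by linarith) hs 1 le_rfl
  have h4 : zsum s 1 = 1 := by simp [zsum]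
  rw [h4, Nat.cast_one, Complex.one_cpow, Nat.cast_one, Real.one_rpow, mul_one] at h3
  have h5 : riemannZeta₁ s = (s - 1) * (riemannZeta s - 1 - 1 / (s - 1)) + s := by
    rw [riemannZeta_eq_inv_sub_mul hs]
    field_simp
    ring
  have h6 : ‖s‖ / s.re ≤ 2 * ‖s‖ := by
    rw [div_le_iff₀ (by linarith)]
    have := norm_nonneg s
    nlinarith
  rw [h5]
  calc _ ≤ ‖s - 1‖ * (2 * ‖s‖) + ‖s‖ := by
        refine (norm_add_le _ _).trans ?_
        rw [norm_mul]
        gcongr
        exact h3.trans h6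
    _ ≤ (1 / 2 + |s.im|) * (2 * (3 / 2 + |s.im|)) + (3 / 2 + |s.im|) := by gcongr
    _ ≤ _ := by nlinarith

theorem pZd (hF : S_Fun) (hY : S_Yd) : S_Zd := by
  obtain ⟨_, _, _, _, hFe⟩ := hF
  obtain ⟨_, C, hC, hYb⟩ := hY
  have hK : IsCompact (Set.Icc (-(1 / 2) : ℝ) (1 / 2) ×ℂ Set.Icc (-1 : ℝ) 1) :=
    isCompact_Icc.reProdIm isCompact_Icc
  obtain ⟨M, hM⟩ := hK.exists_bound_of_continuousOn
    (differentiable_riemannZeta₁.continuous.continuousOn)
  have hM0 : 0 ≤ M := (norm_nonneg _).trans (hM 0 (by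
    rw [Complex.mem_reProdIm]
    constructor
    · constructor <;> norm_num
    · constructor <;> norm_num))
  refine ⟨5 + 5 * C + M, by positivity, fun s h1 h2 => ?_⟩
  have hy := abs_nonneg s.im
  have he1 : 1 ≤ Real.exp (3 * |s.im|) := Real.one_le_exp (by positivity)
  have he2 : Real.exp |s.im| ≤ Real.exp (3 * |s.im|) := Real.exp_le_exp.2 (by linarith)
  have he0 := (Real.exp_pos (3 * |s.im|)).le
  rcases le_or_gt (1 / 2) s.re with h3 | h3
  · have := zd_right s h3 h2
    have h4 : 0 ≤ (5 * C + M) * Real.exp (3 * |s.im|) := by positivity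
    calc _ ≤ 5 * Real.exp |s.im| := this
      _ ≤ 5 * Real.exp (3 * |s.im|) := by linarith
      _ ≤ _ := by linarith
  rcases le_or_gt |s.im| 1 with h4 | h4
  · have h5 := hM s (by
      rw [Complex.mem_reProdIm]
      exact ⟨⟨h1, h3.le⟩, abs_le.1 h4⟩)
    calc _ ≤ M := h5
      _ ≤ M * Real.exp (3 * |s.im|) := by nlinarith
      _ ≤ _ := by
        have : 0 ≤ (5 + 5 * C) * Real.exp (3 * |s.im|) := by positivity
        linarith
  · have hs0 : s ≠ 0 := by
      rintro rfl
      simp at h4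
      linarith
    have h5 := hFe s h3.le hs0
    have h6 : ‖s‖ ≥ 1 := h4.le.trans (Complex.abs_im_le_norm s)
    have h7 : riemannZeta (1 - s) = (-s)⁻¹ * riemannZeta₁ (1 - s) := by
      rw [riemannZeta_eq_inv_sub_mul (fun h => hs0 (by linear_combination -h))]
      congr 2
      ring
    have hre : (1 - s).re = 1 - s.re := by simp
    have him : |(1 - s).im| = |s.im| := by simp
    have h8 : ‖riemannZeta (1 - s)‖ ≤ 5 * Real.exp |s.im| := by
      rw [h7, norm_mul, norm_inv, norm_neg]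
      have h9 := zd_right (1 - s) (by rw [hre]; linarith) (by rw [hre]; linarith)
      rw [him] at h9
      calc _ ≤ 1 * ‖riemannZeta₁ (1 - s)‖ := by
            gcongr
            exact inv_le_one_of_one_le₀ h6
        _ ≤ _ := by linarith
    have h9 := hYb (1 - s) (by rw [hre]; linarith) (by rw [hre]; linarith)
    rw [him] at h9
    have h10 : Real.exp (2 * |s.im|) * Real.exp |s.im| = Real.exp (3 * |s.im|) := by
      rw [← Real.exp_add]
      congr 1
      ring
    rw [h5, norm_mul, norm_neg]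
    calc _ ≤ (C * Real.exp (2 * |s.im|)) * (5 * Real.exp |s.im|) := by gcongr
      _ = 5 * C * (Real.exp (2 * |s.im|) * Real.exp |s.im|) := by ring
      _ = 5 * C * Real.exp (3 * |s.im|) := by rw [h10]
      _ ≤ _ := by
        have : 0 ≤ (5 + M) * Real.exp (3 * |s.im|) := by positivity
        linarith

end Pool.Agent.Lib.MP_aa9ae4_nt.K2
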