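import Mathlib
import Pool.Agent.Lib.MP_aa9ae4_nt.K2.SpecA

namespace Pool.Agent.Lib.MP_aa9ae4_nt.K2

open Finset MeasureTheory Filter Topology
open Complex (I)

lemma zsq_conv (n : ℕ) : (LSeries.convolution (1 : ℕ → ℂ) (1 : ℕ → ℂ)) n = (dv n : ℂ) := by
  rw [LSeries.convolution_def]
  simp only [Pi.one_apply, mul_one, sum_const, nsmul_eq_mul]
  unfold dv
  rw [← Nat.map_div_right_divisors, card_map]
  push_cast
  rfl

lemma zsq_eq (M : ℕ) (s : ℂ) :
    PP M s = ∑ n ∈ range (M + 1), LSeries.term (LSeries.convolution (1 : ℕ → ℂ) (1 : ℕ → ℂ)) s n := by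
  unfold PP
  have h : Icc 1 M ⊆ range (M + 1) := by
    intro n hn
    rw [mem_range]
    have := (mem_Icc.1 hn).2
    omega
  rw [← sum_subset h]
  · refine sum_congr rfl fun n hn => ?_
    rw [LSeries.term_def₀ (LSeries.convolution_map_zero _ _), zsq_conv]
  · intro n hn hn'
    have : n = 0 := by
      rw [mem_range] at hn
      by_contra h0
      exact hn' (mem_Icc.2 ⟨by omega, by omega⟩)
    rw [this]
    simp

theorem pZsq : S_Zsq := by
  have hsum : ∀ s : ℂ, 1 < s.re → LSeriesSummable (LSeries.convolution (1 : ℕ → ℂ) (1 : ℕ → ℂ)) s := by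
    intro s hs
    exact (LSeriesSummable_one_iff.2 hs).convolution (LSeriesSummable_one_iff.2 hs)
  constructor
  · intro s hs
    have h1 := (hsum s hs).LSeriesHasSum
    rw [LSeries_convolution' (LSeriesSummable_one_iff.2 hs) (LSeriesSummable_one_iff.2 hs),
      LSeries_one_eq_riemannZeta hs, ← sq] at h1
    have h2 := h1.tendsto_sum_nat.comp (tendsto_add_atTop_nat 1)
    refine h2.congr fun M => ?_
    rw [zsq_eq]
    rfl
  · intro σ hσ
    have h1 := (hsum (σ : ℂ) (by simpa using hσ)).norm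
    refine ⟨∑' n, ‖LSeries.term (LSeries.convolution (1 : ℕ → ℂ) (1 : ℕ → ℂ)) (σ : ℂ) n‖, fun M s hs => ?_⟩
    rw [zsq_eq]
    refine (norm_sum_le _ _).trans ?_
    have h2 : ∀ n, ‖LSeries.term (LSeries.convolution (1 : ℕ → ℂ) (1 : ℕ → ℂ)) s n‖ =
        ‖LSeries.term (LSeries.convolution (1 : ℕ → ℂ) (1 : ℕ → ℂ)) (σ : ℂ) n‖ := by
      intro n
      rw [LSeries.norm_term_eq, LSeries.norm_term_eq, hs, Complex.ofReal_re]
    simp only [h2]
    exact h1.sum_le_tsum _ fun n _ => norm_nonneg _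

end Pool.Agent.Lib.MP_aa9ae4_nt.K2
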