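import Pool.Agent.Lib.MP_aa9ae4_nt.K2.PAks
import Pool.Agent.Lib.MP_aa9ae4_nt.K2.PAbs
import Pool.Agent.Lib.MP_aa9ae4_nt.K2.PZsq
import Pool.Agent.Lib.MP_aa9ae4_nt.K2.PMV
import Pool.Agent.Lib.MP_aa9ae4_nt.K2.PTail
import Pool.Agent.Lib.MP_aa9ae4_nt.K2.PFun
import Pool.Agent.Lib.MP_aa9ae4_nt.K2.PNrm
import Pool.Agent.Lib.MP_aa9ae4_nt.K2.PYd
import Pool.Agent.Lib.MP_aa9ae4_nt.K2.PZd
import Pool.Agent.Lib.MP_aa9ae4_nt.K2.PTL
import Pool.Agent.Lib.MP_aa9ae4_nt.K2.PBL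
import Pool.Agent.Lib.MP_aa9ae4_nt.K2.PFFr
import Pool.Agent.Lib.MP_aa9ae4_nt.K2.PFFl
import Pool.Agent.Lib.MP_aa9ae4_nt.K2.PFFg
import Pool.Agent.Lib.MP_aa9ae4_nt.K2.PAFE
import Pool.Agent.Lib.MP_aa9ae4_nt.K2.PXB
import Pool.Agent.Lib.MP_aa9ae4_nt.K2.PCR
import Pool.Agent.Lib.MP_aa9ae4_nt.K2.PCMP
import Pool.Agent.Lib.MP_aa9ae4_nt.K2.PKEY
import Pool.Agent.Lib.MP_aa9ae4_nt.K2.PExp
import Pool.Agent.Lib.MP_aa9ae4_nt.K2.PFar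
import Pool.Agent.Lib.MP_aa9ae4_nt.K2.PCnt
import Pool.Agent.Lib.MP_aa9ae4_nt.K2.PBlk
import Pool.Agent.Lib.MP_aa9ae4_nt.K2.PNear
import Pool.Agent.Lib.MP_aa9ae4_nt.K2.PDvb
import Pool.Agent.Lib.MP_aa9ae4_nt.K2.POne
import Pool.Agent.Lib.MP_aa9ae4_nt.K2.PRat
import Pool.Agent.Lib.MP_aa9ae4_nt.K2.PH1
import Pool.Agent.Lib.MP_aa9ae4_nt.K2.PCv
import Pool.Agent.Lib.MP_aa9ae4_nt.K2.PT4
import Pool.Agent.Lib.MP_aa9ae4_nt.K2.PId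
import Pool.Agent.Lib.MP_aa9ae4_nt.K2.PDQ
import Pool.Agent.Lib.MP_aa9ae4_nt.K2.PPrs
import Pool.Agent.Lib.MP_aa9ae4_nt.K2.PPint
import Pool.Agent.Lib.MP_aa9ae4_nt.K2.PPS
import Pool.Agent.Lib.MP_aa9ae4_nt.K2.PPW
import Pool.Agent.Lib.MP_aa9ae4_nt.K2.PV2
import Pool.Agent.Lib.MP_aa9ae4_nt.K2.Final4

/-!
MP_aa9ae4_nt, k = 2: assembly of the modules, first part.
-/

namespace Pool.Agent.Lib.MP_aa9ae4_nt.K2

theorem allAbs : S_Abs := pAbs pAks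

theorem allMV : S_MV := pMV pAks allAbs

theorem allTail : S_Tail := pTail allAbs pZsq

theorem allNrm : S_Nrm := pNrm pFun

theorem allFFr : S_FFr := pFFr pFun allNrm pBL allMV allTail

theorem allFFl : S_FFl := pFFl pFun allNrm pBL allMV allTail

theorem allFFg : S_FFg := pFFg pYd (pZd pFun pYd)

theorem allAFE : S_AFE := pAFE pFun pTL allFFr allFFl allFFg

theorem allXB : S_XB := pXB pFun allNrm pYd

theorem allCR : S_CR := pCR allNrm allAbs allMV allXB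

theorem allCMP : S_CMP := pCMP allNrm allMV allAFE

theorem allKEY : S_KEY := pKEY pFun allNrm allCR allCMP

theorem allFar : S_Far := pFar allAbs

theorem allNear : S_Near := pNear pAks pCnt (pBlk pAks)

theorem allOne : S_One := pOne pExp allFar allNear (pDvb pAks)

theorem allRat : S_Rat := pRat pExp allFar

theorem allDQ : S_DQ := pDQ (pT4 pH1 pCv) pId

theorem allPW : S_PW := pPW pFun allNrm allMV allCMP allOne pPint (pPS pPrs pPint)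

end Pool.Agent.Lib.MP_aa9ae4_nt.K2
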