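import Pool.Agent.Lib.MP_aa9ae4_nt.K2.SpecA

namespace Pool.Agent.Lib.MP_aa9ae4_nt.K2

open Finset MeasureTheory Filter Topology
open Complex (I)

/-- exchange of the order of summation over pairs (n, divisor of n) -/
theorem aks_swap (x : ℕ) (G : ℕ → ℕ → ℝ) :
    ∑ n ∈ Icc 1 x, ∑ a ∈ n.divisors, G a (n / a) =
      ∑ a ∈ Icc 1 x, ∑ b ∈ Icc 1 (x / a), G a b := by
  rw [sum_sigma', sum_sigma']
  refine sum_nbij' (fun y => (⟨y.2, y.1 / y.2⟩ : (_ : ℕ) × ℕ))
    (fun z => (⟨z.1 * z.2, z.1⟩ : (_ : ℕ) × ℕ)) ?_ ?_ ?_ ?_ ?_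
  · rintro ⟨n, a⟩ h
    simp only [mem_sigma, mem_Icc, Nat.mem_divisors] at h ⊢
    obtain ⟨⟨h1, h2⟩, h3, h4⟩ := h
    have ha : 0 < a := Nat.pos_of_dvd_of_pos h3 (by omega)
    have hle : a ≤ n := Nat.le_of_dvd (by omega) h3
    refine ⟨⟨ha, hle.trans h2⟩, ?_, Nat.div_le_div_right h2⟩
    exact (Nat.one_le_div_iff ha).2 hle
  · rintro ⟨a, b⟩ h
    simp only [mem_sigma, mem_Icc, Nat.mem_divisors] at h ⊢
    obtain ⟨⟨h1, h2⟩, h3, h4⟩ := h
    have h5 : b * a ≤ x := (Nat.le_div_iff_mul_le (by omega)).1 h4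
    have h6 : 0 < a * b := Nat.mul_pos (by omega) (by omega)
    refine ⟨⟨h6, ?_⟩, Dvd.intro b rfl, by omega⟩
    rw [mul_comm]
    exact h5
  · rintro ⟨n, a⟩ h
    simp only [mem_sigma, mem_Icc, Nat.mem_divisors] at h ⊢
    have h3 := h.2.1
    have h4 : a * (n / a) = n := Nat.mul_div_cancel' h3
    rw [h4]
  · rintro ⟨a, b⟩ h
    simp only [mem_sigma, mem_Icc] at h ⊢
    have h4 : a * b / a = b := Nat.mul_div_cancel_left b (by omega)
    rw [h4]
  · rintro ⟨n, a⟩ _
    rfl

private lemma aks_dv_mul (a b : ℕ) : dv (a * b) ≤ dv a * dv b := by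
  unfold dv
  have h : (Nat.divisors (a * b)).card ≤ (Nat.divisors a).card * (Nat.divisors b).card := by
    rw [Nat.divisors_mul]
    exact Finset.card_mul_le
  exact_mod_cast h

private lemma aks_nonneg (n : ℕ) : 0 ≤ dv n := by unfold dv; positivity

private lemma aks_step (k n : ℕ) (_hn : 1 ≤ n) :
    dv n ^ (k + 1) ≤ ∑ a ∈ n.divisors, dv a ^ k * dv (n / a) ^ k := by
  have h1 : dv n ^ (k + 1) = ∑ _a ∈ n.divisors, dv n ^ k := by
    rw [sum_const, nsmul_eq_mul, pow_succ, mul_comm]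
    rfl
  rw [h1]
  refine sum_le_sum fun a ha => ?_
  have h2 : a * (n / a) = n := Nat.mul_div_cancel' (Nat.dvd_of_mem_divisors ha)
  calc dv n ^ k = dv (a * (n / a)) ^ k := by rw [h2]
    _ ≤ (dv a * dv (n / a)) ^ k := pow_le_pow_left₀ (aks_nonneg _) (aks_dv_mul _ _) k
    _ = _ := mul_pow _ _ _

theorem pAks : S_Aks := by
  intro k
  induction k with
  | zero =>
    intro x hx
    have h1 : ∑ n ∈ Icc 1 x, dv n ^ 0 = x := by simp
    have h2 : ∑ n ∈ Icc 1 x, dv n ^ 0 / (n : ℝ) ≤ 1 + Real.log x := by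
      have h3 : ∑ n ∈ Icc 1 x, dv n ^ 0 / (n : ℝ) = ∑ j ∈ Icc 1 x, 1 / (j : ℝ) := by
        refine sum_congr rfl fun n _ => ?_
        rw [pow_zero]
      rw [h3]
      exact twist_sum_inv_le x
    constructor
    · rw [h1]
      simp
    · simpa using h2
  | succ k ih =>
    intro x hx
    have hlog : 0 ≤ Real.log (x : ℝ) := Real.log_natCast_nonneg x
    set L := 1 + Real.log (x : ℝ) with hL
    have hL1 : 1 ≤ L := by linarith
    have hx0 : (0 : ℝ) < x := by exact_mod_cast hx
    have ihx := ih x hx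
    have hd0 : ∀ n, 0 ≤ dv n := aks_nonneg
    constructor
    · calc ∑ n ∈ Icc 1 x, dv n ^ (k + 1) ≤
          ∑ n ∈ Icc 1 x, ∑ a ∈ n.divisors, dv a ^ k * dv (n / a) ^ k :=
            sum_le_sum fun n hn => aks_step k n (mem_Icc.1 hn).1
        _ = ∑ a ∈ Icc 1 x, ∑ b ∈ Icc 1 (x / a), dv a ^ k * dv b ^ k :=
            aks_swap x (fun a b => dv a ^ k * dv b ^ k)
        _ ≤ ∑ a ∈ Icc 1 x, dv a ^ k / a * (x * L ^ (2 ^ k - 1)) := by
            refine sum_le_sum fun a ha => ?_
            obtain ⟨ha1, hax⟩ := mem_Icc.1 ha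
            have ha0 : (0 : ℝ) < a := by exact_mod_cast ha1
            rw [← mul_sum]
            have hy1 : 1 ≤ x / a := (Nat.one_le_div_iff ha1).2 hax
            have h1 := (ih (x / a) hy1).1
            have h2 : ((x / a : ℕ) : ℝ) ≤ x / a := Nat.cast_div_le
            have h3 : Real.log ((x / a : ℕ) : ℝ) ≤ Real.log x :=
              Real.log_le_log (by exact_mod_cast hy1) (by exact_mod_cast Nat.div_le_self x a)
            have h4 : 0 ≤ Real.log ((x / a : ℕ) : ℝ) := Real.log_natCast_nonneg _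
            have h5 : ∑ b ∈ Icc 1 (x / a), dv b ^ k ≤ (x / a : ℝ) * L ^ (2 ^ k - 1) := by
              refine h1.trans ?_
              have h6 : 1 + Real.log ((x / a : ℕ) : ℝ) ≤ L := by linarith
              gcongr
            calc dv a ^ k * ∑ b ∈ Icc 1 (x / a), dv b ^ k ≤
                dv a ^ k * ((x / a : ℝ) * L ^ (2 ^ k - 1)) :=
                  mul_le_mul_of_nonneg_left h5 (pow_nonneg (hd0 a) k)
              _ = _ := by ring
        _ = (∑ a ∈ Icc 1 x, dv a ^ k / a) * (x * L ^ (2 ^ k - 1)) := by rw [sum_mul]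
        _ ≤ L ^ (2 ^ k) * (x * L ^ (2 ^ k - 1)) :=
            mul_le_mul_of_nonneg_right ihx.2 (by positivity)
        _ = x * L ^ (2 ^ (k + 1) - 1) := by
            have h6 : 2 ^ (k + 1) - 1 = 2 ^ k + (2 ^ k - 1) := by
              have : 1 ≤ 2 ^ k := Nat.one_le_two_pow
              rw [pow_succ]
              omega
            rw [h6, pow_add]
            ring
    · calc ∑ n ∈ Icc 1 x, dv n ^ (k + 1) / (n : ℝ) ≤
          ∑ n ∈ Icc 1 x, ∑ a ∈ n.divisors,
            (dv a ^ k / a) * (dv (n / a) ^ k / ((n / a : ℕ) : ℝ)) := by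
            refine sum_le_sum fun n hn => ?_
            have hn1 := (mem_Icc.1 hn).1
            have hn0 : (0 : ℝ) < n := by exact_mod_cast hn1
            have h1 := div_le_div_of_nonneg_right (aks_step k n hn1) hn0.le
            refine h1.trans (le_of_eq ?_)
            rw [sum_div]
            refine sum_congr rfl fun a ha => ?_
            have hd := Nat.dvd_of_mem_divisors ha
            have h2 : a * (n / a) = n := Nat.mul_div_cancel' hd
            have h3 : (n : ℝ) = (a : ℝ) * ((n / a : ℕ) : ℝ) := by exact_mod_cast h2.symm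
            rw [div_mul_div_comm, ← h3]
        _ = ∑ a ∈ Icc 1 x, ∑ b ∈ Icc 1 (x / a), (dv a ^ k / a) * (dv b ^ k / b) :=
            aks_swap x (fun a b => (dv a ^ k / a) * (dv b ^ k / b))
        _ ≤ ∑ a ∈ Icc 1 x, ∑ b ∈ Icc 1 x, (dv a ^ k / a) * (dv b ^ k / b) := by
            refine sum_le_sum fun a _ => ?_
            apply sum_le_sum_of_subset_of_nonneg
            · exact Icc_subset_Icc_right (Nat.div_le_self x a)
            · intro b _ _
              have := hd0 a
              have := hd0 b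
              positivity
        _ = (∑ a ∈ Icc 1 x, dv a ^ k / a) * ∑ b ∈ Icc 1 x, dv b ^ k / b := by
            rw [sum_mul_sum]
        _ ≤ L ^ (2 ^ k) * L ^ (2 ^ k) := by
            apply mul_le_mul ihx.2 ihx.2
            · exact sum_nonneg fun b _ => by
                have := hd0 b
                positivity
            · positivity
        _ = L ^ (2 ^ (k + 1)) := by
            rw [← pow_add]
            congr 1
            rw [pow_succ]
            ring

end Pool.Agent.Lib.MP_aa9ae4_nt.K2
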