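import Mathlib
import Pool.Agent.Lib.MP_aa9ae4_nt.K2.SpecA

namespace Pool.Agent.Lib.MP_aa9ae4_nt.K2

open Finset MeasureTheory Filter Topology
open Complex (I)

lemma bl_v (x : ℝ) : (1 + x ^ 2) ^ 4 * Real.exp (-(2 * x ^ 2)) ≤
    24 * Real.exp (5 / 4) * Real.exp (-|x|) := by
  have h1 := Real.pow_div_factorial_le_exp (1 + x ^ 2) (by positivity) 4
  have h2 : (1 + x ^ 2) ^ 4 ≤ 24 * Real.exp (1 + x ^ 2) := by
    rw [div_le_iff₀ (by positivity)] at h1
    have : ((Nat.factorial 4 : ℕ) : ℝ) = 24 := by norm_num [Nat.factorial]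
    rw [this] at h1
    linarith
  have h3 : 1 + x ^ 2 + -(2 * x ^ 2) ≤ 5 / 4 + -|x| := by
    have h3 := sq_abs x
    nlinarith [sq_nonneg (|x| - 1 / 2)]
  calc _ ≤ (24 * Real.exp (1 + x ^ 2)) * Real.exp (-(2 * x ^ 2)) := by gcongr
    _ = 24 * (Real.exp (1 + x ^ 2) * Real.exp (-(2 * x ^ 2))) := by ring
    _ = 24 * Real.exp (1 + x ^ 2 + -(2 * x ^ 2)) := by rw [← Real.exp_add]
    _ ≤ 24 * Real.exp (5 / 4 + -|x|) := by
      have := Real.exp_le_exp.2 h3
      linarith
    _ = _ := by rw [Real.exp_add]; ring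

lemma bl_half (k : ℕ) : Real.exp (-(k : ℝ)) ≤ (1 / 2) ^ k := by
  have h1 : Real.exp (-(k : ℝ)) = Real.exp (-1) ^ k := by
    rw [← Real.exp_nat_mul]
    congr 1
    ring
  rw [h1]
  refine pow_le_pow_left₀ (Real.exp_pos _).le ?_ k
  rw [Real.exp_neg, one_div]
  refine inv_anti₀ (by norm_num) ?_
  have := Real.add_one_le_exp (1 : ℝ)
  linarith

theorem pBL : S_BL := by
  set C₀ : ℝ := 24 * Real.exp (5 / 4) with hC₀
  have hC0 : 0 < C₀ := by positivity
  refine ⟨4 * C₀, by positivity, fun T B h hT hh h0 hB R hR => ?_⟩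
  have hT0 : 0 < T := by linarith
  have hB0 : 0 ≤ B := le_trans (intervalIntegral.integral_nonneg (by linarith)
    fun y _ => h0 y) (hB 0)
  set v : ℝ → ℝ := fun t => (1 + (t / T) ^ 2) ^ 4 * Real.exp (-(2 * (t / T) ^ 2)) with hv
  have hvc : Continuous v := by
    simp only [hv]
    fun_prop
  have hv0 : ∀ t, 0 ≤ v t := fun t => by positivity
  have hi : ∀ a b : ℝ, IntervalIntegrable (fun t => h t * v t) volume a b :=
    fun a b => (hh.mul hvc).intervalIntegrable _ _
  -- one block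
  have hblock : ∀ (c : ℝ) (k : ℕ), (∀ t ∈ Set.Icc c (c + T), (k : ℝ) * T ≤ |t|) →
      ∫ t in c..(c + T), h t * v t ≤ C₀ * (1 / 2) ^ k * B := by
    intro c k hk
    calc ∫ t in c..(c + T), h t * v t ≤ ∫ t in c..(c + T), h t * (C₀ * (1 / 2) ^ k) := by
          refine intervalIntegral.integral_mono_on (by linarith) (hi _ _)
            ((hh.mul continuous_const).intervalIntegrable _ _) fun t ht => ?_
          refine mul_le_mul_of_nonneg_left ?_ (h0 t)
          refine (bl_v (t / T)).trans ?_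
          refine mul_le_mul_of_nonneg_left ?_ hC0.le
          refine le_trans (Real.exp_le_exp.2 ?_) (bl_half k)
          rw [abs_div, abs_of_pos hT0, neg_le_neg_iff, le_div_iff₀ hT0]
          exact hk t ht
      _ = (∫ t in c..(c + T), h t) * (C₀ * (1 / 2) ^ k) :=
          intervalIntegral.integral_mul_const _ _
      _ ≤ B * (C₀ * (1 / 2) ^ k) := mul_le_mul_of_nonneg_right (hB c) (by positivity)
      _ = _ := by ring
  have hind : ∀ m : ℕ, ∫ t in (-((m : ℝ) * T))..((m : ℝ) * T), h t * v t ≤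
      4 * C₀ * B * (1 - (1 / 2) ^ m) := by
    intro m
    induction m with
    | zero => simp
    | succ m ih =>
      have hm0 : (0 : ℝ) ≤ m := Nat.cast_nonneg m
      have e1 : ∫ t in (-(((m + 1 : ℕ) : ℝ) * T))..(((m + 1 : ℕ) : ℝ) * T), h t * v t =
          (∫ t in (-(((m + 1 : ℕ) : ℝ) * T))..(-((m : ℝ) * T)), h t * v t) +
          (∫ t in (-((m : ℝ) * T))..((m : ℝ) * T), h t * v t) +
          ∫ t in ((m : ℝ) * T)..(((m + 1 : ℕ) : ℝ) * T), h t * v t := by
        rw [intervalIntegral.integral_add_adjacent_intervals (hi _ _) (hi _ _),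
          intervalIntegral.integral_add_adjacent_intervals (hi _ _) (hi _ _)]
      have h1 := hblock (-(((m + 1 : ℕ) : ℝ) * T)) m (by
        intro t ht
        have h2 := ht.2
        push_cast at h2
        have h3 : t ≤ -((m : ℝ) * T) := by linarith
        have := neg_le_abs t
        linarith)
      have h2 := hblock ((m : ℝ) * T) m (by
        intro t ht
        exact ht.1.trans (le_abs_self t))
      have e2 : -(((m + 1 : ℕ) : ℝ) * T) + T = -((m : ℝ) * T) := by push_cast; ring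
      have e3 : (m : ℝ) * T + T = ((m + 1 : ℕ) : ℝ) * T := by push_cast; ring
      rw [e2] at h1
      rw [e3] at h2
      rw [e1]
      calc _ ≤ C₀ * (1 / 2) ^ m * B + 4 * C₀ * B * (1 - (1 / 2) ^ m) +
            C₀ * (1 / 2) ^ m * B := by linarith
        _ = _ := by rw [pow_succ]; ring
  obtain ⟨m, hm⟩ := exists_nat_ge (R / T)
  rw [div_le_iff₀ hT0] at hm
  calc ∫ t in (-R)..R, h t * v t ≤ ∫ t in (-((m : ℝ) * T))..((m : ℝ) * T), h t * v t := by
        refine intervalIntegral.integral_mono_interval (by linarith) (by linarith) hm ?_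
          (hi _ _)
        exact Eventually.of_forall fun y => mul_nonneg (h0 y) (hv0 y)
    _ ≤ 4 * C₀ * B * (1 - (1 / 2) ^ m) := hind m
    _ ≤ 4 * C₀ * B := by
      have : (0 : ℝ) ≤ (1 / 2) ^ m := by positivity
      have h4 : 0 ≤ 4 * C₀ * B := by positivity
      nlinarith

end Pool.Agent.Lib.MP_aa9ae4_nt.K2
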