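import Pool.Agent.Lib.MP_aa9ae4_nt.K2.SpecB

namespace Pool.Agent.Lib.MP_aa9ae4_nt.K2

open Finset MeasureTheory Filter Topology
open Complex (I)

private lemma far_inner1 (T θ K : ℝ) (hθ : 0 < θ) (hK : 2 ≤ K) (N n : ℕ) (hN : 1 ≤ N)
    (hn1 : 1 ≤ n) :
    ∑ m ∈ (Icc 1 N).filter (fun m : ℕ => 1 ≤ K * |θ * n - m|),
      1 / √((n : ℝ) * m) * ‖twistJ T (twistX θ n m)‖ ≤
      10 * K * (1 + Real.log N) * √(N : ℝ) * (1 / √(n : ℝ)) := by
  have hlog : 0 ≤ Real.log (N : ℝ) := Real.log_natCast_nonneg N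
  have hn0 : (0 : ℝ) < n := by exact_mod_cast hn1
  have h1 : ∀ m ∈ (Icc 1 N).filter (fun m : ℕ => 1 ≤ K * |θ * n - m|),
      1 / √((n : ℝ) * m) * ‖twistJ T (twistX θ n m)‖ ≤
      2 * (1 / √(n : ℝ)) * (1 / √(m : ℝ)) +
      2 * √(N : ℝ) * (1 / √(n : ℝ)) * (1 / |θ * n - m|) := by
    intro m hm
    have h2 := (mem_filter.mp hm).2
    have h3 := (mem_Icc.mp (mem_filter.mp hm).1)
    refine twist_term_le T θ hθ N n m hn1 h3.1 h3.2 ?_
    by_contra h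
    have : |θ * n - m| = 0 := le_antisymm (not_lt.mp h) (abs_nonneg _)
    rw [this] at h2
    linarith
  refine (sum_le_sum h1).trans ?_
  rw [sum_add_distrib, ← mul_sum, ← mul_sum]
  have h2 : ∑ m ∈ (Icc 1 N).filter (fun m : ℕ => 1 ≤ K * |θ * n - m|), 1 / √(m : ℝ) ≤
      2 * √(N : ℝ) :=
    (sum_le_sum_of_subset_of_nonneg (filter_subset _ _) fun _ _ _ => by positivity).trans
      (twist_sum_sqrt_le N)
  have h3 := twist_sum_dist_le N (θ * n) K (by positivity) hK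
  have hs : 0 ≤ 1 / √(n : ℝ) := by positivity
  have hsN : 0 ≤ √(N : ℝ) := Real.sqrt_nonneg _
  calc _ ≤ 2 * (1 / √(n : ℝ)) * (2 * √(N : ℝ)) +
        2 * √(N : ℝ) * (1 / √(n : ℝ)) * (4 * K * (1 + Real.log N)) :=
        add_le_add (mul_le_mul_of_nonneg_left h2 (by positivity))
          (mul_le_mul_of_nonneg_left h3 (by positivity))
    _ = (4 + 8 * K * (1 + Real.log N)) * (√(N : ℝ) * (1 / √(n : ℝ))) := by ring
    _ ≤ (10 * K * (1 + Real.log N)) * (√(N : ℝ) * (1 / √(n : ℝ))) := by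
        refine mul_le_mul_of_nonneg_right ?_ (mul_nonneg hsN hs)
        nlinarith
    _ = _ := by ring

private lemma far_term2 (T θ : ℝ) (hθ : 0 < θ) (N n m : ℕ) (hn : 1 ≤ n) (hm : 1 ≤ m) (hnN : n ≤ N)
    (h : 0 < |θ * n - m|) : 1 / √((n : ℝ) * m) * ‖twistJ T (twistX θ n m)‖ ≤
      2 * (1 / √(m : ℝ)) * (1 / √(n : ℝ)) +
        2 * θ * √(N : ℝ) * (1 / √(m : ℝ)) * (1 / |θ * n - m|) := by
  obtain ⟨h1, h2⟩ := twistX_ge θ hθ n m hn hm h
  have hm0 : (0 : ℝ) < m := by exact_mod_cast hm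
  have hn0 : (0 : ℝ) < n := by exact_mod_cast hn
  have h3 : max (θ * n) (m : ℝ) ≤ |θ * n - m| + θ * n := by
    rcases le_total (θ * n) (m : ℝ) with h3 | h3
    · rw [max_eq_right h3]; linarith [neg_abs_le (θ * n - m)]
    · rw [max_eq_left h3]; linarith [abs_nonneg (θ * n - m)]
  have h4 : ‖twistJ T (twistX θ n m)‖ ≤ 2 + 2 * (θ * n * (1 / |θ * n - m|)) := by
    calc _ ≤ 2 / |twistX θ n m| := twistJ_le_inv T _ h1
      _ = 2 * (1 / |twistX θ n m|) := by ring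
      _ ≤ 2 * (max (θ * n) m / |θ * n - m|) := by linarith
      _ ≤ 2 * ((|θ * n - m| + θ * n) / |θ * n - m|) := by
          have := div_le_div_of_nonneg_right h3 h.le
          linarith
      _ = _ := by field_simp
  rw [twist_sqrt_mul]
  have hsn : 0 < √(n : ℝ) := Real.sqrt_pos.mpr hn0
  have hsm : 0 < √(m : ℝ) := Real.sqrt_pos.mpr hm0
  have h5 : 1 / √(n : ℝ) * n ≤ √(N : ℝ) := by
    have e : 1 / √(n : ℝ) * n = √(n : ℝ) := by
      have := Real.mul_self_sqrt hn0.le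
      field_simp
      nlinarith
    rw [e]
    exact Real.sqrt_le_sqrt (by exact_mod_cast hnN)
  calc 1 / √(n : ℝ) * (1 / √(m : ℝ)) * ‖twistJ T (twistX θ n m)‖
      ≤ 1 / √(n : ℝ) * (1 / √(m : ℝ)) * (2 + 2 * (θ * n * (1 / |θ * n - m|))) :=
        mul_le_mul_of_nonneg_left h4 (by positivity)
    _ = 2 * (1 / √(m : ℝ)) * (1 / √(n : ℝ)) +
        2 * θ * (1 / √(n : ℝ) * n) * ((1 / √(m : ℝ)) * (1 / |θ * n - m|)) := by ring
    _ ≤ 2 * (1 / √(m : ℝ)) * (1 / √(n : ℝ)) +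
        2 * θ * √(N : ℝ) * ((1 / √(m : ℝ)) * (1 / |θ * n - m|)) := by
        gcongr
    _ = _ := by ring

private lemma far_inner2 (T θ K : ℝ) (hθ : 1 ≤ θ) (hK : 2 ≤ K) (N m : ℕ) (hN : 1 ≤ N)
    (hm1 : 1 ≤ m) :
    ∑ n ∈ (Icc 1 N).filter (fun n : ℕ => 1 ≤ K * |θ * n - m|),
      1 / √((n : ℝ) * m) * ‖twistJ T (twistX θ n m)‖ ≤
      10 * K * θ * (1 + Real.log N) * √(N : ℝ) * (1 / √(m : ℝ)) := by
  have hθ0 : 0 < θ := by linarith
  have hlog : 0 ≤ Real.log (N : ℝ) := Real.log_natCast_nonneg N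
  have hm0 : (0 : ℝ) < m := by exact_mod_cast hm1
  have h1 : ∀ n ∈ (Icc 1 N).filter (fun n : ℕ => 1 ≤ K * |θ * n - m|),
      1 / √((n : ℝ) * m) * ‖twistJ T (twistX θ n m)‖ ≤
      2 * (1 / √(m : ℝ)) * (1 / √(n : ℝ)) +
      2 * θ * √(N : ℝ) * (1 / √(m : ℝ)) * (1 / |θ * n - m|) := by
    intro n hn
    have h2 := (mem_filter.mp hn).2
    have h3 := (mem_Icc.mp (mem_filter.mp hn).1)
    refine far_term2 T θ hθ0 N n m h3.1 hm1 h3.2 ?_
    by_contra h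
    have : |θ * n - m| = 0 := le_antisymm (not_lt.mp h) (abs_nonneg _)
    rw [this] at h2
    linarith
  refine (sum_le_sum h1).trans ?_
  rw [sum_add_distrib, ← mul_sum, ← mul_sum]
  have h2 : ∑ n ∈ (Icc 1 N).filter (fun n : ℕ => 1 ≤ K * |θ * n - m|), 1 / √(n : ℝ) ≤
      2 * √(N : ℝ) :=
    (sum_le_sum_of_subset_of_nonneg (filter_subset _ _) fun _ _ _ => by positivity).trans
      (twist_sum_sqrt_le N)
  have habs : ∀ n : ℕ, |θ * n - m| = θ * |(m : ℝ) / θ - n| := by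
    intro n
    have e : θ * n - m = -(θ * ((m : ℝ) / θ - n)) := by
      field_simp
      ring
    rw [e, abs_neg, abs_mul, abs_of_pos hθ0]
  have h3 : ∑ n ∈ (Icc 1 N).filter (fun n : ℕ => 1 ≤ K * |θ * n - m|), 1 / |θ * n - m| ≤
      4 * K * (1 + Real.log N) := by
    have h4 := twist_sum_dist_le N ((m : ℝ) / θ) (K * θ) (by positivity) (by nlinarith)
    have h5 : ∑ n ∈ (Icc 1 N).filter (fun n : ℕ => 1 ≤ K * |θ * n - m|), 1 / |θ * n - m| =
        θ⁻¹ * ∑ n ∈ (Icc 1 N).filter (fun n : ℕ => 1 ≤ K * θ * |(m : ℝ) / θ - n|),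
          1 / |(m : ℝ) / θ - n| := by
      rw [mul_sum]
      refine sum_congr ?_ fun n _ => ?_
      · ext n
        simp only [mem_filter, habs, ← mul_assoc]
      · rw [habs, one_div, one_div, mul_inv]
    rw [h5]
    calc _ ≤ θ⁻¹ * (4 * (K * θ) * (1 + Real.log N)) :=
          mul_le_mul_of_nonneg_left h4 (by positivity)
      _ = _ := by
          field_simp
  have hs : 0 ≤ 1 / √(m : ℝ) := by positivity
  have hsN : 0 ≤ √(N : ℝ) := Real.sqrt_nonneg _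
  calc _ ≤ 2 * (1 / √(m : ℝ)) * (2 * √(N : ℝ)) +
        2 * θ * √(N : ℝ) * (1 / √(m : ℝ)) * (4 * K * (1 + Real.log N)) :=
        add_le_add (mul_le_mul_of_nonneg_left h2 (by positivity))
          (mul_le_mul_of_nonneg_left h3 (by positivity))
    _ = (4 + 8 * K * θ * (1 + Real.log N)) * (√(N : ℝ) * (1 / √(m : ℝ))) := by ring
    _ ≤ (10 * K * θ * (1 + Real.log N)) * (√(N : ℝ) * (1 / √(m : ℝ))) := by
        refine mul_le_mul_of_nonneg_right ?_ (mul_nonneg hsN hs)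
        have h6 : 2 ≤ K * θ := by nlinarith
        nlinarith
    _ = _ := by ring

theorem pFar (h1 : S_Abs) : S_Far := by
  obtain ⟨hA, -⟩ := h1
  refine ⟨20, by norm_num, ?_⟩
  intro T θ K N hθ hK hN
  have hθ0 : 0 < θ := by linarith
  have hlog : 0 ≤ Real.log (N : ℝ) := Real.log_natCast_nonneg N
  have hNs : √(N : ℝ) * √(N : ℝ) = N := Real.mul_self_sqrt (Nat.cast_nonneg N)
  set L := 1 + Real.log (N : ℝ) with hL
  have hL1 : 1 ≤ L := by linarith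
  set g : ℕ → ℕ → ℝ := fun n m => 1 / √((n : ℝ) * m) * ‖twistJ T (twistX θ n m)‖ with hg
  have hg0 : ∀ n m, 0 ≤ g n m := fun n m => by simp only [hg]; positivity
  have hstep : ∑ n ∈ Icc 1 N, ∑ m ∈ (Icc 1 N).filter (fun m : ℕ => 1 ≤ K * |θ * n - m|),
      dv n * dv m / √((n : ℝ) * m) * ‖twistJ T (twistX θ n m)‖ ≤
      ∑ n ∈ Icc 1 N, ∑ m ∈ (Icc 1 N).filter (fun m : ℕ => 1 ≤ K * |θ * n - m|),
        (dv n ^ 2 / 2 * g n m + dv m ^ 2 / 2 * g n m) := by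
    refine sum_le_sum fun n _ => sum_le_sum fun m _ => ?_
    have e : dv n * dv m / √((n : ℝ) * m) * ‖twistJ T (twistX θ n m)‖ =
        dv n * dv m * g n m := by
      simp only [hg]
      ring
    rw [e, ← add_mul]
    apply mul_le_mul_of_nonneg_right _ (hg0 n m)
    nlinarith [sq_nonneg (dv n - dv m)]
  refine hstep.trans ?_
  simp_rw [sum_add_distrib]
  have hfirst : ∑ n ∈ Icc 1 N, dv n ^ 2 / 2 *
      ∑ m ∈ (Icc 1 N).filter (fun m : ℕ => 1 ≤ K * |θ * n - m|), g n m ≤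
      10 * K * θ * (N * L ^ 4) := by
    calc _ ≤ ∑ n ∈ Icc 1 N, dv n ^ 2 / 2 * (10 * K * L * √(N : ℝ) * (1 / √(n : ℝ))) := by
          refine sum_le_sum fun n hn => ?_
          exact mul_le_mul_of_nonneg_left
            (far_inner1 T θ K hθ0 hK N n hN (mem_Icc.1 hn).1) (by positivity)
      _ = 5 * K * L * √(N : ℝ) * ∑ n ∈ Icc 1 N, dv n ^ 2 / √(n : ℝ) := by
          rw [mul_sum]
          refine sum_congr rfl fun n _ => ?_
          ring
      _ ≤ 5 * K * L * √(N : ℝ) * (2 * √(N : ℝ) * L ^ 3) :=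
          mul_le_mul_of_nonneg_left (hA N hN) (by positivity)
      _ = 10 * K * ((√(N : ℝ) * √(N : ℝ)) * L ^ 4) := by ring
      _ = 10 * K * 1 * (N * L ^ 4) := by rw [hNs]; ring
      _ ≤ 10 * K * θ * (N * L ^ 4) := by gcongr
  have hsecond : ∑ n ∈ Icc 1 N, ∑ m ∈ (Icc 1 N).filter (fun m : ℕ => 1 ≤ K * |θ * n - m|),
      dv m ^ 2 / 2 * g n m ≤ 10 * K * θ * (N * L ^ 4) := by
    have hcomm : ∑ n ∈ Icc 1 N, ∑ m ∈ (Icc 1 N).filter (fun m : ℕ => 1 ≤ K * |θ * n - m|),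
        dv m ^ 2 / 2 * g n m = ∑ m ∈ Icc 1 N,
          ∑ n ∈ (Icc 1 N).filter (fun n : ℕ => 1 ≤ K * |θ * n - m|), dv m ^ 2 / 2 * g n m := by
      apply Finset.sum_comm'
      intro n m
      simp only [mem_filter]
      tauto
    rw [hcomm]
    simp_rw [← mul_sum]
    calc _ ≤ ∑ m ∈ Icc 1 N, dv m ^ 2 / 2 * (10 * K * θ * L * √(N : ℝ) * (1 / √(m : ℝ))) := by
          refine sum_le_sum fun m hm => ?_
          exact mul_le_mul_of_nonneg_left
            (far_inner2 T θ K hθ hK N m hN (mem_Icc.1 hm).1) (by positivity)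
      _ = 5 * K * θ * L * √(N : ℝ) * ∑ n ∈ Icc 1 N, dv n ^ 2 / √(n : ℝ) := by
          rw [mul_sum]
          refine sum_congr rfl fun n _ => ?_
          ring
      _ ≤ 5 * K * θ * L * √(N : ℝ) * (2 * √(N : ℝ) * L ^ 3) :=
          mul_le_mul_of_nonneg_left (hA N hN) (by positivity)
      _ = 10 * K * θ * ((√(N : ℝ) * √(N : ℝ)) * L ^ 4) := by ring
      _ = 10 * K * θ * (N * L ^ 4) := by rw [hNs]
  have hfin : 20 * (K * θ * (N * L ^ 4)) = 10 * K * θ * (N * L ^ 4) + 10 * K * θ * (N * L ^ 4) := by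
    ring
  rw [hfin]
  refine add_le_add ?_ hsecond
  simpa only [mul_sum] using hfirst

end Pool.Agent.Lib.MP_aa9ae4_nt.K2
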