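import Mathlib
import Pool.Agent.Lib.MP_aa9ae4_nt.K2.SpecB

/-!
MP_aa9ae4_nt, k = 2: the identity for `d(l)^2`.
-/

namespace Pool.Agent.Lib.MP_aa9ae4_nt.K2

open Finset MeasureTheory Filter Topology
open Complex (I)

private theorem id_coprime_sq {m n c : ℕ} (h : Nat.Coprime m n) (e : m * n = c ^ 2) :
    ∃ a, m = a ^ 2 := by
  refine exists_eq_pow_of_mul_eq_pow (α := ℕ) (b := n) (c := c) ?_ e
  rw [gcd_eq_nat_gcd, Nat.isUnit_iff]
  exact h

/-- `μ(a)` at `a^2`, and `0` at the integers which are not squares -/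
private noncomputable def sA : ArithmeticFunction ℤ :=
  ⟨fun n => if n.sqrt ^ 2 = n then ArithmeticFunction.moebius n.sqrt else 0, by simp⟩

private theorem sA_apply (n : ℕ) :
    sA n = if n.sqrt ^ 2 = n then ArithmeticFunction.moebius n.sqrt else 0 := rfl

private theorem sA_sq (a : ℕ) : sA (a ^ 2) = ArithmeticFunction.moebius a := by
  rw [sA_apply, Nat.sqrt_eq', if_pos rfl]

private theorem sA_not {n : ℕ} (h : ∀ a, n ≠ a ^ 2) : sA n = 0 := by
  rw [sA_apply, if_neg]
  intro e
  exact h _ e.symm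

private theorem sA_mult : sA.IsMultiplicative := by
  rw [ArithmeticFunction.IsMultiplicative.iff_ne_zero]
  constructor
  · have := sA_sq 1
    rw [one_pow] at this
    rw [this]
    simp
  · intro m n _ _ hc
    by_cases hm : ∃ a, m = a ^ 2
    · by_cases hn : ∃ b, n = b ^ 2
      · obtain ⟨a, rfl⟩ := hm
        obtain ⟨b, rfl⟩ := hn
        rw [← mul_pow, sA_sq, sA_sq, sA_sq]
        have hab : Nat.Coprime a b := by
          rw [Nat.coprime_pow_left_iff (by norm_num), Nat.coprime_pow_right_iff (by norm_num)] at hc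
          exact hc
        exact ArithmeticFunction.isMultiplicative_moebius.map_mul_of_coprime hab
      · have h1 : sA n = 0 := sA_not fun b hb => hn ⟨b, hb⟩
        have h2 : sA (m * n) = 0 := by
          refine sA_not fun c hc' => hn ?_
          rw [mul_comm] at hc'
          exact id_coprime_sq hc.symm hc'
        rw [h1, h2, mul_zero]
    · have h1 : sA m = 0 := sA_not fun b hb => hm ⟨b, hb⟩
      have h2 : sA (m * n) = 0 := sA_not fun c hc' => hm (id_coprime_sq hc hc')
      rw [h1, h2, zero_mul]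

private theorem sA_pp {p : ℕ} (hp : p.Prime) (i : ℕ) :
    sA (p ^ i) = if i = 0 then 1 else if i = 2 then -1 else 0 := by
  by_cases h : ∃ a, p ^ i = a ^ 2
  · obtain ⟨a, ha⟩ := h
    have h1 : a ∣ p ^ i := by
      rw [ha]
      exact dvd_pow_self a (by norm_num)
    obtain ⟨j, -, rfl⟩ := (Nat.dvd_prime_pow hp).1 h1
    rw [← pow_mul] at ha
    have h2 : i = j * 2 := Nat.pow_right_injective hp.two_le ha
    subst h2
    rw [pow_mul, sA_sq]
    by_cases hj : j = 0
    · subst hj
      simp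
    · rw [ArithmeticFunction.moebius_apply_prime_pow hp hj, if_neg (show ¬ (j * 2 = 0) by omega)]
      by_cases hj1 : j = 1
      · rw [if_pos hj1, if_pos (show j * 2 = 2 by omega)]
      · rw [if_neg hj1, if_neg (show ¬ (j * 2 = 2) by omega)]
  · have h1 : sA (p ^ i) = 0 := sA_not fun a ha => h ⟨a, ha⟩
    rw [h1]
    by_cases hi0 : i = 0
    · exact absurd ⟨1, by rw [hi0, pow_zero, one_pow]⟩ h
    · rw [if_neg hi0]
      by_cases hi2 : i = 2
      · exact absurd ⟨p, by rw [hi2]⟩ h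
      · rw [if_neg hi2]

/-- the constant function `1` -/
private noncomputable def zA : ArithmeticFunction ℤ := (ArithmeticFunction.zeta : ArithmeticFunction ℤ)

private noncomputable def dA : ArithmeticFunction ℤ := zA * (zA * (zA * zA))

private theorem zA_mult : zA.IsMultiplicative :=
  ArithmeticFunction.isMultiplicative_zeta.natCast

private theorem dA_mult : dA.IsMultiplicative :=
  zA_mult.mul (zA_mult.mul (zA_mult.mul zA_mult))

private theorem zA_mul_pp {p : ℕ} (hp : p.Prime) (f : ArithmeticFunction ℤ) (k : ℕ) :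
    (zA * f) (p ^ k) = ∑ j ∈ range (k + 1), f (p ^ j) := by
  unfold zA
  rw [ArithmeticFunction.coe_zeta_mul_apply, Nat.sum_divisors_prime_pow hp]

private theorem zA_pp {p : ℕ} (hp : p.Prime) (k : ℕ) : zA (p ^ k) = 1 := by
  unfold zA
  rw [ArithmeticFunction.natCoe_apply, ArithmeticFunction.zeta_apply_ne (pow_pos hp.pos k).ne']
  rfl

private theorem t2_pp {p : ℕ} (hp : p.Prime) (k : ℕ) : (zA * zA) (p ^ k) = k + 1 := by
  rw [zA_mul_pp hp]
  simp_rw [zA_pp hp]
  simp

private theorem t3_pp {p : ℕ} (hp : p.Prime) (k : ℕ) :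
    2 * (zA * (zA * zA)) (p ^ k) = (k + 1) * (k + 2) := by
  rw [zA_mul_pp hp]
  simp_rw [t2_pp hp]
  induction k with
  | zero => simp
  | succ k ih =>
    rw [Finset.sum_range_succ, mul_add, ih]
    push_cast
    ring

private theorem t4_pp {p : ℕ} (hp : p.Prime) (k : ℕ) :
    6 * dA (p ^ k) = (k + 1) * (k + 2) * (k + 3) := by
  unfold dA
  rw [zA_mul_pp hp]
  induction k with
  | zero =>
    have := t3_pp hp 0
    rw [zero_add, Finset.sum_range_one]
    push_cast at this ⊢
    linear_combination 3 * this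
  | succ k ih =>
    have := t3_pp hp (k + 1)
    rw [Finset.sum_range_succ, mul_add, ih]
    push_cast at this ⊢
    linear_combination 3 * this

private theorem mul_div_form (f g : ArithmeticFunction ℤ) (n : ℕ) :
    (f * g) n = ∑ x ∈ n.divisors, f x * g (n / x) := by
  rw [ArithmeticFunction.mul_apply, Nat.sum_divisorsAntidiagonal (fun a b => f a * g b)]

private theorem sum_two (g : ℕ → ℤ) (k : ℕ) :
    ∑ i ∈ range (k + 1), (if i = 0 then 1 else if i = 2 then -1 else 0) * g i =
      g 0 - if 2 ≤ k then g 2 else 0 := by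
  have h1 : ∀ i ∈ range (k + 1), (if i = 0 then (1 : ℤ) else if i = 2 then -1 else 0) * g i =
      (if i = 0 then g 0 else 0) - if i = 2 then g 2 else 0 := by
    intro i _
    by_cases h0 : i = 0
    · subst h0
      simp
    · by_cases h2 : i = 2
      · subst h2
        simp
      · simp [h0, h2]
  rw [Finset.sum_congr rfl h1, Finset.sum_sub_distrib, Finset.sum_ite_eq', Finset.sum_ite_eq',
    if_pos (mem_range.2 (Nat.succ_pos k))]
  by_cases h : 2 ≤ k
  · rw [if_pos h, if_pos (mem_range.2 (by omega))]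
  · rw [if_neg h, if_neg (fun h' => h (by have := mem_range.1 h'; omega))]

private theorem sd_pp {p : ℕ} (hp : p.Prime) (k : ℕ) : (sA * dA) (p ^ k) = (k + 1) ^ 2 := by
  rw [mul_div_form, Nat.sum_divisors_prime_pow hp]
  have h1 : ∀ i ∈ range (k + 1), sA (p ^ i) * dA (p ^ k / p ^ i) =
      (if i = 0 then 1 else if i = 2 then -1 else 0) * dA (p ^ (k - i)) := by
    intro i hi
    rw [sA_pp hp, Nat.pow_div (Nat.lt_succ_iff.1 (mem_range.1 hi)) hp.pos]
  rw [Finset.sum_congr rfl h1, sum_two fun i => dA (p ^ (k - i))]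
  have h6 := t4_pp hp k
  have h7 := t4_pp hp (k - 2)
  rw [Nat.sub_zero]
  by_cases h : 2 ≤ k
  · rw [if_pos h]
    rw [Nat.cast_sub h] at h7
    push_cast at h7
    linarith
  · rw [if_neg h]
    have hk : k = 0 ∨ k = 1 := by omega
    rcases hk with rfl | rfl
    · norm_num at h6 ⊢
      linarith
    · norm_num at h6 ⊢
      linarith

private theorem d2_eq : ((ArithmeticFunction.sigma 0 : ArithmeticFunction ℕ) :
    ArithmeticFunction ℤ).pmul (ArithmeticFunction.sigma 0 : ArithmeticFunction ℕ) = sA * dA := by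
  have hs : ((ArithmeticFunction.sigma 0 : ArithmeticFunction ℕ) :
      ArithmeticFunction ℤ).IsMultiplicative := ArithmeticFunction.isMultiplicative_sigma.natCast
  rw [ArithmeticFunction.IsMultiplicative.eq_iff_eq_on_prime_powers _ (hs.pmul hs) _
    (sA_mult.mul dA_mult)]
  intro p i hp
  rw [sd_pp hp, ArithmeticFunction.pmul_apply, ArithmeticFunction.natCoe_apply,
    ArithmeticFunction.sigma_zero_apply_prime_pow hp]
  push_cast
  ring

private theorem sd_sum {l : ℕ} (hl : 1 ≤ l) : (sA * dA) l =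
    ∑ a ∈ (Icc 1 l).filter (fun a => a ^ 2 ∣ l), ArithmeticFunction.moebius a * dA (l / a ^ 2) := by
  rw [mul_div_form]
  have hinj : Set.InjOn (fun a : ℕ => a ^ 2) ((Icc 1 l).filter (fun a => a ^ 2 ∣ l) : Finset ℕ) := by
    intro a _ b _ h
    exact Nat.pow_left_injective (by norm_num) h
  have h1 := Finset.sum_image (f := fun x => sA x * dA (l / x)) hinj
  simp only [sA_sq] at h1
  rw [← h1]
  symm
  refine Finset.sum_subset ?_ ?_
  · intro x hx
    obtain ⟨a, ha, rfl⟩ := Finset.mem_image.1 hx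
    rw [mem_filter] at ha
    exact Nat.mem_divisors.2 ⟨ha.2, by omega⟩
  · intro x hx hx'
    have h2 : sA x = 0 := by
      refine sA_not fun a ha => hx' ?_
      rw [Finset.mem_image]
      have hxl := Nat.mem_divisors.1 hx
      have hx0 : 0 < x := Nat.pos_of_mem_divisors hx
      have ha0 : 0 < a := by
        rcases Nat.eq_zero_or_pos a with h | h
        · subst h
          rw [zero_pow (by norm_num)] at ha
          omega
        · exact h
      refine ⟨a, mem_filter.2 ⟨mem_Icc.2 ⟨ha0, ?_⟩, ha ▸ hxl.1⟩, ha.symm⟩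
      calc a ≤ a ^ 2 := Nat.le_self_pow (by norm_num) a
        _ = x := ha.symm
        _ ≤ l := Nat.le_of_dvd (by omega) hxl.1
    rw [h2, zero_mul]

private theorem cv_eq {Q : ℕ} {h f : ℕ → ℝ} {F G : ArithmeticFunction ℤ}
    (hh : ∀ n, n ≠ 0 → Nat.Coprime n Q → h n = F n) (hf : ∀ n, n ≠ 0 → Nat.Coprime n Q → f n = G n)
    (n : ℕ) (hn : n ≠ 0) (hc : Nat.Coprime n Q) : cv h f n = (((F * G) n : ℤ) : ℝ) := by
  unfold cv
  rw [mul_div_form, Int.cast_sum]
  refine Finset.sum_congr rfl fun a ha => ?_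
  have h1 := (Nat.mem_divisors.1 ha).1
  have h2 : n / a ∣ n := Nat.div_dvd_of_dvd h1
  rw [Int.cast_mul, hh a (Nat.pos_of_mem_divisors ha).ne' (Nat.Coprime.of_dvd_left h1 hc),
    hf (n / a) (fun h0 => hn (by rw [h0] at h2; exact Nat.eq_zero_of_zero_dvd h2))
      (Nat.Coprime.of_dvd_left h2 hc)]

private theorem cv_van {Q : ℕ} {h f : ℕ → ℝ} (hh : ∀ n, ¬ Nat.Coprime n Q → h n = 0)
    (hf : ∀ n, ¬ Nat.Coprime n Q → f n = 0) (n : ℕ) (hc : ¬ Nat.Coprime n Q) : cv h f n = 0 := by
  unfold cv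
  refine Finset.sum_eq_zero fun a ha => ?_
  have h1 := (Nat.mem_divisors.1 ha).1
  by_cases h2 : Nat.Coprime a Q
  · by_cases h3 : Nat.Coprime (n / a) Q
    · exfalso
      apply hc
      rw [← Nat.mul_div_cancel' h1]
      exact Nat.Coprime.mul_left h2 h3
    · rw [hf _ h3, mul_zero]
  · rw [hh _ h2, zero_mul]

private theorem cv_nn {h f : ℕ → ℝ} (hh : ∀ n, 0 ≤ h n) (hf : ∀ n, 0 ≤ f n) (n : ℕ) :
    0 ≤ cv h f n :=
  Finset.sum_nonneg fun _ _ => mul_nonneg (hh _) (hf _)

private theorem hq_eq {Q : ℕ} (n : ℕ) (hn : n ≠ 0) (hc : Nat.Coprime n Q) :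
    hq Q n = ((zA n : ℤ) : ℝ) := by
  unfold hq zA
  rw [if_pos hc, ArithmeticFunction.natCoe_apply, ArithmeticFunction.zeta_apply_ne hn]
  norm_num

private theorem hq_van {Q : ℕ} (n : ℕ) (hc : ¬ Nat.Coprime n Q) : hq Q n = 0 := by
  unfold hq
  rw [if_neg hc]

private theorem hq_nn (Q n : ℕ) : 0 ≤ hq Q n := by
  unfold hq
  split_ifs <;> norm_num

private theorem f4_eq {Q : ℕ} (n : ℕ) (hn : n ≠ 0) (hc : Nat.Coprime n Q) :
    f4 Q n = ((dA n : ℤ) : ℝ) := by
  unfold f4 dA
  exact cv_eq hq_eq (cv_eq hq_eq (cv_eq hq_eq hq_eq)) n hn hc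

theorem pId : S_Id := by
  refine ⟨fun Q l hl hc => ?_, fun Q n hc => ?_, fun Q n => ?_⟩
  · have h1 : (dv l ^ 2 : ℝ) = (((sA * dA) l : ℤ) : ℝ) := by
      rw [← d2_eq, ArithmeticFunction.pmul_apply, ArithmeticFunction.natCoe_apply,
        ArithmeticFunction.sigma_zero_apply]
      unfold dv
      push_cast
      ring
    rw [h1, sd_sum hl, Int.cast_sum]
    refine Finset.sum_congr rfl fun a ha => ?_
    rw [mem_filter, mem_Icc] at ha
    have h2 : l / a ^ 2 ∣ l := Nat.div_dvd_of_dvd ha.2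
    rw [Int.cast_mul, f4_eq (l / a ^ 2) (fun h0 => by
      rw [h0] at h2
      have := Nat.eq_zero_of_zero_dvd h2
      omega) (Nat.Coprime.of_dvd_left h2 hc)]
  · unfold f4
    exact cv_van hq_van (cv_van hq_van (cv_van hq_van hq_van)) n hc
  · unfold f4
    exact cv_nn (hq_nn Q) (cv_nn (hq_nn Q) (cv_nn (hq_nn Q) (hq_nn Q))) n

end Pool.Agent.Lib.MP_aa9ae4_nt.K2
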